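import Pool.Agent.P.MP_7ede32_ag.Ell.Defs

/-!
Brody curves.
-/

open Filter Topology Set

namespace Pool.Agent.P.MP_7ede32_ag.Geo

/-- The map `h : ℂ → X` is uniformly continuous for the unique uniform structure of the compact
space `X`, whose entourages are the neighbourhoods of the diagonal. -/
def IsUnifCont {X : Type*} [TopologicalSpace X] (h : ℂ → X) : Prop :=
  ∀ U ∈ 𝓝ˢ (diagonal X), ∃ δ > 0, ∀ z w : ℂ, dist z w < δ → (h z, h w) ∈ U

end Pool.Agent.P.MP_7ede32_ag.Geo
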