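import Pool.Agent.P.MP_7ede32_ag.Geo.Stm
import Pool.Agent.P.MP_7ede32_ag.Geo.Defs
import Pool.Agent.P.MP_7ede32_ag.Ell.Bridge

/-!
From complex manifolds to the working structure.
-/

open Filter Topology Metric Set Polynomial
open scoped Manifold

noncomputable section

namespace Pool.Agent.P.MP_7ede32_ag.Geo

open Ell (E2 Charts PluriForm IsEntire IsHolomorphic IsCritical analyticAt_of_contMDiffAt chart_mem
  det_eq_jac)

/-- a nonconstant polynomial has a holomorphic right inverse on a half-plane -/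
theorem poly_inv {φ : ℂ[X]} (hφ : φ.natDegree ≠ 0) : ∃ (Ψ : ℂ → ℂ) (a : ℝ),
    DifferentiableOn ℂ Ψ (Hp 1 a) ∧ ∀ w ∈ Hp 1 a, φ.eval (Ψ w) = w := by
  have hd : derivative φ ≠ 0 := fun h => hφ (derivative_eq_zero.1 h)
  obtain ⟨a, ha⟩ := ((finite_setOfPred_isRoot hd).image fun y => (φ.eval y).re).bddAbove
  have hF : MP_26ad15_nt.Fam (Hp 1 a) (fun w => φ - C w) φ.natDegree := by
    refine ⟨fun k w _ => ?_, fun w hw => ⟨?_, ?_, fun y hy h0 => ?_⟩⟩
    · simp only [coeff_sub, coeff_C]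
      split_ifs <;> fun_prop
    · exact (natDegree_sub_C (a := w)).le
    · rw [coeff_sub, coeff_C, if_neg hφ, sub_zero]
      exact leadingCoeff_ne_zero.2 fun h => hφ (by simp [h])
    · have h1 : φ.eval y = w := by simpa [sub_eq_zero] using hy
      have h2 := ha (mem_image_of_mem _ (show y ∈ {x | IsRoot (derivative φ) x} by simpa using h0))
      have h3 : a < w.re := by simpa [Hp] using hw
      rw [h1] at h2
      exact absurd h3 (not_lt.2 h2)
  have h1 : (1 : ℂ) * ((a + 1 : ℝ) : ℂ) ∈ Hp 1 a := smul_mem_Hp norm_one (by linarith)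
  obtain ⟨y₀, hy₀⟩ := IsAlgClosed.exists_root (φ - C ((1 : ℂ) * ((a + 1 : ℝ) : ℂ))) (by
    rw [degree_sub_C (natDegree_pos_iff_degree_pos.1 (Nat.pos_of_ne_zero hφ))]
    exact (natDegree_pos_iff_degree_pos.1 (Nat.pos_of_ne_zero hφ)).ne')
  obtain ⟨y, h2, -, h3⟩ := hF.lift (isOpen_Hp 1 a) ((convex_Hp 1 a).starConvex h1) h1 h1 hy₀
  exact ⟨y, a, h2.differentiableOn, fun w hw => by simpa [sub_eq_zero] using h3 w hw⟩

section

variable {X : Type*} [MetricSpace X] {S : Sf0 X}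

lemma all_of_local [PreconnectedSpace X] {P : X → Prop} (ho : ∀ x, P x → ∀ᶠ y in 𝓝 x, P y)
    (hc : ∀ x, (∃ᶠ y in 𝓝 x, P y) → P x) {x : X} (hx : P x) (y : X) : P y := by
  have h : IsClopen {x | P x} :=
    ⟨isClosed_of_closure_subset fun x hx => hc x (mem_closure_iff_frequently.1 hx),
      isOpen_iff_mem_nhds.2 ho⟩
  have := h.eq_univ ⟨x, hx⟩
  exact (this ▸ mem_univ y : y ∈ {x | P x})

lemma zero_on_ball {G : E2 → ℂ} {c : E2} (hG : AnalyticAt ℂ G c) :
    ∀ᶠ p in 𝓝 c, ∀ v, (∀ᶠ q in 𝓝 p, G q = v) → ∀ᶠ q in 𝓝 c, G q = v := by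
  obtain ⟨r, hr, h⟩ := Metric.eventually_nhds_iff_ball.1 hG.eventually_analyticAt
  filter_upwards [ball_mem_nhds c hr] with p hp v hv
  have := AnalyticOnNhd.eqOn_of_preconnected_of_eventuallyEq (f := G) (g := fun _ => v) h
    analyticOnNhd_const (convex_ball c r).isPreconnected hp hv
  exact eventually_of_mem (ball_mem_nhds c hr) this

lemma ω_ne_of [PreconnectedSpace X] {x₀ : X} (h0 : x₀ ∉ S.Z) :
    ∀ e ∈ S.A, ∀ x ∈ e.source, ¬ ∀ᶠ p in 𝓝 (e x), S.ω e p = 0 := by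
  have key : ∀ e ∈ S.A, ∀ x ∈ e.source, (∀ᶠ p in 𝓝 (e x), S.ω e p = 0) → ∀ᶠ y in 𝓝 x, y ∈ S.Z :=
    fun e he x hx h => by
      filter_upwards [(e.continuousAt hx).eventually h, e.open_source.mem_nhds hx] with y a1 a2
      exact Sf0.mem_Z_of_chart he a2 a1
  intro e he x hx h
  refine h0 (all_of_local (P := fun x => ∀ᶠ y in 𝓝 x, y ∈ S.Z) (fun _ h => h.eventually_nhds)
    (fun x hx => ?_) (key e he x hx h) x₀).self_of_nhds
  obtain ⟨e, he, hxe⟩ := S.cover x
  obtain ⟨y, a1, a2, a3⟩ := (hx.and_eventually (((e.continuousAt hxe).eventually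
    (zero_on_ball (S.ω_an e he x hxe))).and (e.open_source.mem_nhds hxe))).exists
  refine key e he x hxe (a2 0 ?_)
  filter_upwards [Sf0.symm_eventually a3 a1, e.open_target.mem_nhds (e.map_source a3)] with p b1 b2
  have := b1 e he (e.map_target b2)
  rwa [e.right_inv b2] at this

lemma π_nc_of [PreconnectedSpace X] {x₀ : X} (h0 : ¬ S.Crit x₀) (x : X) :
    ¬ ∀ᶠ y in 𝓝 x, S.π y = S.π x := by
  have key : ∀ {g : X → ℂ} {y : X}, S.IsLift g y → (∀ᶠ z in 𝓝 y, S.π z = S.π y) →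
      ∀ᶠ z in 𝓝 y, g z = g y := fun {g y} hg h => by
    have := (Sf0.lam_lim (S := S) (U := 𝓝 y) (u := fun z => g z - g y) (c := g y - g y)
      (hg.2.continuousAt.sub continuousAt_const) (by
        filter_upwards [h, hg.1] with z a1 a2
        exact Sf0.mk_eq_iff.1 (a2.symm.trans (a1.trans hg.1.self_of_nhds)))).2
    exact this.mono fun z hz => sub_left_inj.1 hz
  intro h
  have h1 := all_of_local (P := fun x => ∀ᶠ y in 𝓝 x, S.π y = S.π x)
    (fun x h => (h.eventually_nhds.and h).mono fun y hy => hy.1.mono fun z hz => hz.trans hy.2.symm)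
    (fun x hx => ?_) h x₀
  · obtain ⟨e, he, hx⟩ := S.cover x₀
    refine h0 (Sf0.crit_of_chart he hx ?_)
    have h2 : S.lf x₀ ∘ e.symm =ᶠ[𝓝 (e x₀)] fun _ => S.lf x₀ x₀ :=
      Sf0.symm_eventually hx (key (Sf0.isLift_lf x₀) h1)
    rw [Sf0.dπ, h2.fderiv_eq]
    simp
  · obtain ⟨e, he, hxe⟩ := S.cover x
    have hg := Sf0.isLift_lf (S := S) x
    obtain ⟨y, a1, a2, a4, a3⟩ := (hx.and_eventually (((e.continuousAt hxe).eventually
      (zero_on_ball (hg.2 e he hxe))).and (hg.eventually.and (e.open_source.mem_nhds hxe)))).exists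
    have h3 := (e.continuousAt hxe).eventually (a2 (S.lf x y) (Sf0.symm_eventually a3 (key a4 a1)))
    have h4 : ∀ᶠ z in 𝓝 x, S.lf x z = S.lf x y := by
      filter_upwards [h3, e.open_source.mem_nhds hxe] with z b1 b2
      simpa [e.left_inv b2] using b1
    filter_upwards [h4, hg.1] with z b1 b2
    rw [b2, hg.1.self_of_nhds, b1, h4.self_of_nhds]

end

variable {X : Type} [MetricSpace X] [ChartedSpace (ℂ × ℂ) X] [IsManifold 𝓘(ℂ, ℂ × ℂ) ⊤ X]

/-- the working structure of a surface over an elliptic curve with a 2-form -/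
def toSf (L : PeriodPair) (π : X → ℂ ⧸ L.lattice) (hπ : IsHolomorphic L π) (a : PluriForm X 1) :
    Sf0 X where
  A := Charts X
  cover x := ⟨_, chart_mem x, mem_chart_source _ x⟩
  trans e he e' he' x hx hx' :=
    analyticAt_of_contMDiffAt (contMDiffAt_of_mem_maximalAtlas he' hx') he hx
  comp e he φ h1 h2 := by
    have hφ : φ ∈ contDiffGroupoid ⊤ 𝓘(ℂ, ℂ × ℂ) := by
      rw [contDiffGroupoid, mem_groupoid_of_pregroupoid]
      constructor
      · have : ContDiffOn ℂ ⊤ φ φ.source := fun y hy => (h1 y hy).contDiffAt.contDiffWithinAt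
        simpa [contDiffPregroupoid] using this
      · have : ContDiffOn ℂ ⊤ φ.symm φ.target := fun y hy => (h2 y hy).contDiffAt.contDiffWithinAt
        simpa [contDiffPregroupoid] using this
    intro e' he'
    obtain ⟨a1, a2⟩ := he e' he'
    constructor
    · rw [OpenPartialHomeomorph.trans_symm_eq_symm_trans_symm, OpenPartialHomeomorph.trans_assoc]
      exact StructureGroupoid.trans _ (StructureGroupoid.symm _ hφ) a1
    · rw [← OpenPartialHomeomorph.trans_assoc]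
      exact StructureGroupoid.trans _ a2 hφ
  Λ := L.lattice
  disc := by
    obtain ⟨r, hr, h⟩ := Metric.isOpen_iff.1 (isOpen_discrete ({0} : Set L.lattice)) 0 rfl
    refine ⟨r, hr, fun w hw hwr => ?_⟩
    have : (⟨w, hw⟩ : L.lattice) ∈ ({0} : Set L.lattice) := h (by simpa using hwr)
    simpa using this
  cocpt := ⟨_, fun w => ⟨ZSpan.floor L.basis w, by
    rw [L.lattice_eq_span_range_basis]; exact Subtype.mem _, by
    rw [dist_eq_norm]; exact ZSpan.norm_fract_le L.basis w⟩⟩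
  π := π
  lift x := by
    obtain ⟨g, hg, hg'⟩ := hπ x
    exact ⟨g, hg', fun e he hx => analyticAt_of_contMDiffAt hg he hx⟩
  ω := a.coeff
  ω_an e he x hx := a.analytic e he _ (e.map_source hx)
  ω_compat e he e' he' x hx hx' := by rw [a.compat e he e' he' x ⟨hx, hx'⟩, det_eq_jac, pow_one]

lemma hol_iff {S : Sf0 X} (hA : S.A = Charts X) {h : ℂ → X} : S.Hol h ↔ IsEntire h := by
  constructor
  · intro hh z
    have h1 := (hh z).2 _ (hA ▸ chart_mem (h z)) (mem_chart_source _ _)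
    have h2 := (contMDiffAt_symm_of_mem_maximalAtlas (chart_mem (h z))
      ((chartAt (ℂ × ℂ) (h z)).map_source (mem_chart_source _ _))).mdifferentiableAt (by simp)
    refine (MDifferentiableAt.comp z h2
      (mdifferentiableAt_iff_differentiableAt.2 h1)).congr_of_eventuallyEq ?_
    filter_upwards [Sf0.eventually_mem_source (hh z).1 (mem_chart_source (ℂ × ℂ) (h z))] with w hw
    simp [(chartAt (ℂ × ℂ) (h z)).left_inv hw]
  · intro hh z
    refine ⟨(hh z).continuousAt, fun e he hz => ?_⟩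
    rw [hA] at he
    exact mdifferentiableAt_iff_differentiableAt.1 (MDifferentiableAt.comp z
      ((contMDiffAt_of_mem_maximalAtlas he hz).mdifferentiableAt (by simp)) (hh z))

lemma isCritical_of_crit (L : PeriodPair) (π : X → ℂ ⧸ L.lattice) (hπ : IsHolomorphic L π)
    (a : PluriForm X 1) {x : X} (hc : (toSf L π hπ a).Crit x) : IsCritical L π x := by
  obtain ⟨g, hg, hg'⟩ := hπ x
  have hl : (toSf L π hπ a).IsLift g x := ⟨hg', fun e he hx => analyticAt_of_contMDiffAt hg he hx⟩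
  have h3 := hc _ (chart_mem x) (mem_chart_source _ x)
  rw [← hl.fderiv_eq (mem_chart_source _ x)] at h3
  refine ⟨g, ⟨hg, hg'⟩, ?_⟩
  rw [(hg.mdifferentiableAt (by simp)).mfderiv]
  simp only [writtenInExtChartAt, mfld_simps, fderivWithin_univ]
  exact h3

theorem final (hM : SMain) [CompactSpace X] [PreconnectedSpace X] (L : PeriodPair)
    (π : X → ℂ ⧸ L.lattice) (hπ : IsHolomorphic L π) (a : PluriForm X 1) (ha : ∃ x, a.val X x ≠ 0)
    (x₀ : X) (h₀ : ∀ x, π x = π x₀ → ¬ IsCritical L π x ∧ a.val X x = 0)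
    (hF : {s | ∃ h : ℂ → X, IsEntire h ∧ (∀ z, π (h z) = s) ∧ ∃ z, h z ≠ h 0}.Finite) :
    ∃ (T : Set (ℂ → X)) (n : ℕ), T.Finite ∧ 0 < n ∧
      (∀ f ∈ T, IsEntire f ∧ (∀ z, π (f z) = L.lattice.mkQ z) ∧
        ∀ w ∈ L.lattice, ∀ z, f (z + n * w) = f z) ∧
      ∀ h : ℂ → X, IsEntire h →
        (IsUnifCont h ∨ ∃ φ : ℂ[X], ∀ z, π (h z) = L.lattice.mkQ (φ.eval z)) →
        (∀ z, π (h z) = π (h 0)) ∨ ∃ f ∈ T, ∃ φ : ℂ[X], ∀ z, h z = f (φ.eval z) := by
  let S := toSf L π hπ a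
  obtain ⟨x₁, hx₁⟩ := ha
  have hS : S.Hyp (π x₀) :=
    ⟨ω_ne_of (x₀ := x₁) fun h => hx₁ (h _ (chart_mem x₁) (mem_chart_source _ _)),
      π_nc_of fun h => (h₀ x₀ rfl).1 (isCritical_of_crit L π hπ a h),
      fun x hx => ⟨fun h => (h₀ x hx).1 (isCritical_of_crit L π hπ a h),
        Sf0.mem_Z_of_chart (chart_mem x) (mem_chart_source _ _) (h₀ x hx).2⟩,
      hF.subset fun s ⟨h, h1, h2, h3⟩ => ⟨h, (hol_iff rfl).1 h1, h2, not_forall.1 h3⟩⟩
  obtain ⟨hT, hfac⟩ := hM X S _ hS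
  obtain ⟨n, hn, hper⟩ := Sf0.periodic_of_finite hT
  refine ⟨_, n, hT, hn, fun f hf => ⟨(hol_iff rfl).1 hf.1, hf.2, hper f hf.1 hf.2⟩,
    fun h hh H => ?_⟩
  have hh' : S.Hol h := (hol_iff rfl).2 hh
  obtain ⟨φ, hφ⟩ : ∃ φ : ℂ[X], ∀ z, π (h z) = L.lattice.mkQ (φ.eval z) := by
    refine H.elim (fun H => ?_) id
    obtain ⟨a, b, hab⟩ := Sf0.affine_of_uc hh' (Metric.uniformContinuous_iff.2 fun ε hε => by
      obtain ⟨δ, hδ, h1⟩ := H {p | dist p.1 p.2 < ε}
        ((isOpen_lt (by fun_prop) continuous_const).mem_nhdsSet.2 (by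
          rintro ⟨x, y⟩ (rfl : x = y); simpa using hε))
      exact ⟨δ, hδ, fun {z w} hzw => h1 z w hzw⟩)
    exact ⟨C a * Polynomial.X + C b, fun z => by
      rw [eval_add, eval_mul, eval_C, eval_C, eval_X]; exact hab z⟩
  by_cases hd : φ.natDegree = 0
  · left
    intro z
    rw [hφ, hφ, eq_C_of_natDegree_eq_zero hd, eval_C, eval_C]
  · obtain ⟨Ψ, c, h1, h2⟩ := poly_inv hd
    obtain ⟨f, a1, a2, a3⟩ := hfac h (fun z => φ.eval z) Ψ 1 c hh' φ.differentiable hφ norm_one h1 h2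
    exact Or.inr ⟨f, ⟨a1, a2⟩, φ, fun z => congrFun a3 z⟩

end Pool.Agent.P.MP_7ede32_ag.Geo
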