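import Pool.Agent.P.MP_7ede32_ag.Geo.Stm

/-!
Uniqueness of sections that are close on a half-plane.
-/

open Filter Topology Metric Set

noncomputable section

namespace Pool.Agent.P.MP_7ede32_ag.Geo

namespace HalfAux

variable {X : Type} [MetricSpace X] {S : Sf0 X} {s₀ : ℂ ⧸ S.Λ} {C : S.Cfg s₀} {δ : ℝ} {u : ℂ}

/-- the good part of a half-plane is nonempty -/
lemma nonempty_good (hδ : C.Sep δ) (hu : ‖u‖ = 1) (a : ℝ) :
    (Hp u a ∩ interior (C.Cr (δ / 2))).Nonempty := by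
  obtain ⟨c₀, hc₀⟩ := S.Λ.mkQ_surjective s₀
  obtain ⟨D, hD⟩ := S.cocpt
  have h0 := hδ.1
  obtain ⟨l, hl, hd⟩ := hD (u * ((a + (D + δ) + 1 : ℝ) : ℂ) - c₀)
  have h1 : c₀ ∈ C.Bt := by
    show S.Λ.mkQ c₀ ∈ C.B
    rw [hc₀]
    exact C.mem
  have h2 : ‖(δ : ℂ)‖ = δ := by rw [Complex.norm_real, Real.norm_of_nonneg h0.le]
  refine ⟨c₀ + l + δ, ?_, hδ.add_mem_interior ((Sf0.Cfg.add_mem_Bt hl).2 h1)
    ⟨by rw [h2]; linarith, by rw [h2]; linarith⟩⟩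
  have h3 := add_mem_Hp (a := a) (r := D + δ)
    (w := -(u * ((a + (D + δ) + 1 : ℝ) : ℂ) - c₀ - l) + δ) hu
    (smul_mem_Hp (t := a + (D + δ) + 1) hu (by linarith)) (by
      refine (norm_add_le _ _).trans ?_
      rw [norm_neg, h2, ← dist_eq_norm]
      linarith)
  convert h3 using 1
  ring

/-- a section inside the zero set is admissible at every bad value -/
lemma hSec_of_Z (hδ : C.Sep δ) (hu : ‖u‖ = 1) {a : ℝ} {z : ℂ → X}
    (h : S.SecOn 0 z (Hp u a ∩ interior (C.Cr (δ / 2))))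
    (hZ : ∀ w ∈ Hp u a ∩ interior (C.Cr (δ / 2)), z w ∈ S.Z) : HSec C δ u a z := by
  refine ⟨h, fun c hc => Sf0.Adm.lb (Or.inr ?_)⟩
  have h1 : ∀ w ∈ Ann δ, c + w ∈ Hp u a ∩ interior (C.Cr (δ / 2)) := fun w hw =>
    ⟨add_mem_Hp hu hc.2 (by linarith [hw.2, hδ.1]), hδ.add_mem_interior hc.1 hw⟩
  refine ⟨fun w hw => ⟨?_, ?_⟩, fun w hw => hZ _ (h1 w hw)⟩
  · exact Sf0.HolAt.comp (f := z) (φ := fun w => c + w) (h _ (h1 w hw)).1 (by fun_prop)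
  · rw [(h _ (h1 w hw)).2, zero_add, map_add]

end HalfAux

open HalfAux in
theorem shalf (h1 : SZero) (h2 : SInj) (h3 : SZsec) : SHalf := by
  intro X _ _ S s₀ hS C
  obtain ⟨δ₀, hδ₀, H1⟩ := h1 X S s₀ hS C
  obtain ⟨δ, hδ, hδ'⟩ := (C.eventually_sep.and (Ioc_mem_nhdsGT hδ₀)).exists
  have h0 := hδ.1
  have hK : IsCompact (C.Kc (δ / 2)) := Sf0.Cfg.isCompact_Kc _
  have hr : ∀ x ∈ C.Kc (δ / 2), S.RegAt x := Sf0.Cfg.regAt_Kc (half_pos h0)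
  obtain ⟨l, U, η₀, hU⟩ := Sf0.exists_thOk hK hr
  obtain ⟨η₁, hη₁, H1⟩ := H1 δ hδ' hδ l η₀ U hU
  obtain ⟨HA, η₂, hη₂, HB⟩ := h2 X S _ l η₀ U hK hr hU
  obtain ⟨ε₀, hε₀, H3⟩ := h3 X S _ hK hr
  obtain ⟨m, hm, hm1, hm2⟩ : ∃ m > 0, 2 * m ≤ η₁ ∧ 2 * m ≤ η₂ :=
    ⟨min η₁ η₂ / 2, by positivity, by linarith [min_le_left η₁ η₂],
      by linarith [min_le_right η₁ η₂]⟩
  obtain ⟨η₃, hη₃, HA⟩ := HA (min ε₀ m) (lt_min hε₀ hm)
  refine ⟨δ, min m η₃, hδ, lt_min hm hη₃, fun p q u a hu hp hq hd => ?_⟩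
  by_contra hcon
  have hop : ∀ b, IsOpen (Hp u b ∩ interior (C.Cr (δ / 2))) := fun b =>
    (isOpen_Hp u b).inter isOpen_interior
  have hsub : ∀ {b b' : ℝ}, b ≤ b' →
      Hp u b' ∩ interior (C.Cr (δ / 2)) ⊆ Hp u b ∩ interior (C.Cr (δ / 2)) := fun h =>
    inter_subset_inter_left _ (Hp_mono h)
  have ha : a ≤ a + 4 * δ := by linarith
  have ha' : a + 4 * δ ≤ a + 4 * δ + 4 * δ := by linarith
  have hKc : ∀ {f : ℂ → X} {b : ℝ}, HSec C δ u b f →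
      ∀ w ∈ Hp u b ∩ interior (C.Cr (δ / 2)), f w ∈ C.Kc (δ / 2) := fun hf w hw =>
    Sf0.Cfg.mem_Kc (interior_subset hw.2) (by rw [(hf.1 w hw).2, zero_add])
  have hth := H1 p q u a hu hp hq fun w hw => by
    linarith [hd w hw, min_le_left m η₃]
  obtain ⟨z, hz⟩ := H3 (min ε₀ m) (min_le_left _ _) _ p (hop (a + 4 * δ))
    (fun w hw => ⟨(hp.1 w (hsub ha hw)).1, hKc hp w (hsub ha hw)⟩) (fun w hw => by
      have hn := (hop a).mem_nhds (hsub ha hw)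
      have hne := (Sf0.eventually_eq_or_ne (eventually_of_mem hn fun w hw => (hp.1 w hw).1)
        (eventually_of_mem hn fun w hw => (hq.1 w hw).1)).resolve_left
          fun h => hcon ⟨w, hsub ha hw, h⟩
      refine Frequently.filter_mono (Eventually.frequently (f := 𝓝[≠] w) ?_) nhdsWithin_le_nhds
      filter_upwards [hne, mem_nhdsWithin_of_mem_nhds ((hop (a + 4 * δ)).mem_nhds hw)]
        with w' a1 a2
      have a3 := hsub ha a2
      exact HA _ (hKc hp w' a3) _ ((hq.1 w' a3).2.trans (hp.1 w' a3).2.symm)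
        ((hd w' a3).trans (min_le_right _ _)) a1 (hth w' a2))
  have hzs : HSec C δ u (a + 4 * δ) z := hSec_of_Z hδ hu
    (fun w hw => ⟨(hz w hw).1, (hz w hw).2.2.1.trans (hp.1 w (hsub ha hw)).2⟩)
    fun w hw => (hz w hw).2.1
  have hzp : ∀ w ∈ Hp u (a + 4 * δ) ∩ interior (C.Cr (δ / 2)), dist (z w) (p w) ≤ m :=
    fun w hw => by
      rw [dist_comm]
      exact (hz w hw).2.2.2.trans (min_le_right _ _)
  have hzq : ∀ w ∈ Hp u (a + 4 * δ) ∩ interior (C.Cr (δ / 2)), dist (z w) (q w) ≤ 2 * m :=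
    fun w hw => by
      linarith [dist_triangle (z w) (p w) (q w), hzp w hw, hd w (hsub ha hw), min_le_left m η₃]
  have key : ∀ f : ℂ → X, HSec C δ u a f →
      (∀ w ∈ Hp u (a + 4 * δ) ∩ interior (C.Cr (δ / 2)), dist (z w) (f w) ≤ 2 * m) →
      ∀ w ∈ Hp u (a + 4 * δ + 4 * δ) ∩ interior (C.Cr (δ / 2)), f w = z w := by
    intro f hf hzf w hw
    have a1 := hsub ha' hw
    exact HB _ (hKc hzs w a1) (hz w a1).2.1 _
      ((hf.1 w (hsub ha a1)).2.trans (hzs.1 w a1).2.symm) ((hzf w a1).trans hm2)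
      (H1 z f u _ hu hzs (hf.mono ha) (fun w hw => (hzf w hw).trans hm1) w hw)
  obtain ⟨w, hw⟩ := nonempty_good hδ hu (a + 4 * δ + 4 * δ)
  refine hcon ⟨w, hsub ha (hsub ha' hw), eventually_of_mem ((hop _).mem_nhds hw) fun w' hw' => ?_⟩
  exact (key p hp (fun w hw => by linarith [hzp w hw]) w' hw').trans (key q hq hzq w' hw').symm

end Pool.Agent.P.MP_7ede32_ag.Geo
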