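import Pool.Agent.P.MP_7ede32_ag.Geo.Stm

/-!
Factorisation of an entire curve through a section.
-/

open Filter Topology Metric Set

noncomputable section

namespace Pool.Agent.P.MP_7ede32_ag.Geo

namespace FacP

variable {X : Type} [MetricSpace X] {S : Sf0 X} {s₀ : ℂ ⧸ S.Λ} {C : S.Cfg s₀}

lemma holAt_congr {f g : ℂ → X} {z : ℂ} (hg : S.HolAt g z) (h : f =ᶠ[𝓝 z] g) : S.HolAt f z :=
  ⟨hg.1.congr h.symm, fun e he hz =>
    (hg.2 e he (h.self_of_nhds ▸ hz)).congr_of_eventuallyEq (h.fun_comp e)⟩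

lemma exists_lam (S : Sf0 X) {u : ℂ} (hu : ‖u‖ = 1) : ∃ l ∈ S.Λ, l ∈ Hp u 0 := by
  obtain ⟨D, hD⟩ := S.cocpt
  obtain ⟨l, hl, h⟩ := hD (u * (D + 1 : ℝ))
  refine ⟨l, hl, ?_⟩
  have := add_mem_Hp (a := 0) (r := D) (w := l - u * (D + 1 : ℝ)) hu
    (smul_mem_Hp (t := D + 1) hu (by linarith)) (by rwa [← dist_eq_norm, dist_comm])
  rwa [add_sub_cancel] at this

lemma nat_mul_mem {l : ℂ} (hl : l ∈ S.Λ) (k : ℕ) : (k : ℂ) * l ∈ S.Λ := by
  rw [← nsmul_eq_mul]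
  exact nsmul_mem hl k

lemma period {δ : ℝ} (hT : FinP C δ) {p : ℂ → X} (hp : C.Cls δ p) {u : ℂ} (hu : ‖u‖ = 1) :
    ∃ m ∈ S.Λ, m ∈ Hp u 0 ∧ ∀ (j : ℕ), ∀ w ∉ C.Bt, p (w + j * m) = p w := by
  obtain ⟨l, hl, hl'⟩ := exists_lam S hu
  obtain ⟨T, h1, -, h3⟩ := hT
  choose q hq hq' using fun k : ℕ => h3 _ (hp.shift (nat_mul_mem hl k))
  obtain ⟨k, k', hk, he⟩ := h1.exists_lt_map_eq_of_forall_mem hq
  obtain ⟨d, rfl⟩ := Nat.exists_eq_add_of_lt hk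
  have hm := nat_mul_mem hl (d + 1)
  have key : ∀ w ∉ C.Bt, p (w + (d + 1 : ℕ) * l) = p w := fun w hw => by
    have hw' : w + -(k * l) ∈ C.Btᶜ := fun h =>
      hw ((Sf0.Cfg.add_mem_Bt (neg_mem (nat_mul_mem hl k))).1 h)
    have e := (hq' k hw').trans ((congrFun he _).trans (hq' (k + d + 1) hw').symm)
    simp only [neg_add_cancel_right] at e
    rw [e]
    congr 1
    push_cast
    ring
  refine ⟨_, hm, ?_, fun j => ?_⟩
  · have h0 : 0 < (starRingEnd ℂ u * l).re := hl'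
    change 0 < (starRingEnd ℂ u * ((d + 1 : ℕ) * l)).re
    rw [mul_left_comm, ← Complex.ofReal_natCast, Complex.re_ofReal_mul]
    positivity
  · induction j with
    | zero => simp
    | succ j ih =>
      intro w hw
      rw [← ih w hw, ← key (w + j * _) fun h => hw ((Sf0.Cfg.add_mem_Bt (nat_mul_mem hm j)).1 h)]
      congr 1
      push_cast
      ring

lemma exists_nat {u m : ℂ} (hm : m ∈ Hp u 0) (a : ℝ) (w : ℂ) : ∃ j : ℕ, w + j * m ∈ Hp u a := by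
  have h0 : 0 < (starRingEnd ℂ u * m).re := hm
  obtain ⟨j, hj⟩ := exists_nat_gt ((a - (starRingEnd ℂ u * w).re) / (starRingEnd ℂ u * m).re)
  refine ⟨j, ?_⟩
  change a < (starRingEnd ℂ u * (w + j * m)).re
  rw [mul_add, mul_left_comm, Complex.add_re, ← Complex.ofReal_natCast, Complex.re_ofReal_mul]
  rw [div_lt_iff₀ h0] at hj
  linarith

lemma extend {p g : ℂ → X} {u m : ℂ} {a : ℝ} (hm : m ∈ S.Λ) (hm' : m ∈ Hp u 0)
    (hp : ∀ (j : ℕ), ∀ w ∉ C.Bt, p (w + j * m) = p w) (hg : S.SecOn 0 g (Hp u a))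
    (he : ∀ w ∈ Hp u a, w ∉ C.Bt → g w = p w) :
    ∃ f, S.Hol f ∧ (∀ z, S.π (f z) = S.Λ.mkQ z) ∧ ∀ w ∉ C.Bt, f w = p w := by
  choose j hj using exists_nat hm' a
  have h1 : ∀ (i : ℕ) w, w ∉ C.Bt → w + i * m ∈ Hp u a → g (w + i * m) = p w := fun i w h h' =>
    (he _ h' fun h2 => h ((Sf0.Cfg.add_mem_Bt (nat_mul_mem hm i)).1 h2)).trans (hp i w h)
  have h2 : ∀ (i : ℕ) w, w + i * m ∈ Hp u a → S.HolAt (fun z => g (z + i * m)) w := fun i w h =>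
    Sf0.HolAt.comp (f := g) (φ := fun z => z + i * m) (hg _ h).1 (by fun_prop)
  have h3 : ∀ (i : ℕ) w, w + i * m ∈ Hp u a → ∀ᶠ z in 𝓝 w, z + i * m ∈ Hp u a := fun i w h =>
    (show ContinuousAt (fun z => z + i * m) w by fun_prop).eventually ((isOpen_Hp u a).mem_nhds h)
  have h4 : ∀ (i i' : ℕ) w, w + i * m ∈ Hp u a → w + i' * m ∈ Hp u a →
      g (w + i * m) = g (w + i' * m) := fun i i' w h h' => by
    refine tendsto_nhds_unique_of_eventuallyEq (l := 𝓝[≠] w)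
      ((h2 i w h).1.tendsto.mono_left nhdsWithin_le_nhds)
      ((h2 i' w h').1.tendsto.mono_left nhdsWithin_le_nhds) ?_
    filter_upwards [C.eventually_notMem_Bt w, (h3 i w h).filter_mono nhdsWithin_le_nhds,
      (h3 i' w h').filter_mono nhdsWithin_le_nhds] with z a1 a2 a3
    exact (h1 i z a1 a2).trans (h1 i' z a1 a3).symm
  refine ⟨fun w => g (w + j w * m), fun w => holAt_congr (h2 _ w (hj w)) ?_, fun w => ?_,
    fun w hw => h1 _ w hw (hj w)⟩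
  · exact (h3 _ w (hj w)).mono fun z hz => h4 _ _ z (hj z) hz
  · rw [(hg _ (hj w)).2, zero_add, Sf0.mk_eq_iff, add_sub_cancel_left]
    exact nat_mul_mem hm _

end FacP

open FacP in
theorem sfac (hs : SShad) : SFac := by
  intro X _ _ S s₀ C δ η a1 a2 a3 a4 h φ Ψ u a hh hφ hπ hu hΨ hi
  have hd : ∀ w ∈ Hp u a, DifferentiableAt ℂ Ψ w := fun w hw =>
    hΨ.differentiableAt ((isOpen_Hp u a).mem_nhds hw)
  have hg : S.SecOn 0 (h ∘ Ψ) (Hp u a) := fun w hw =>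
    ⟨(hh _).comp (hd w hw), by rw [Function.comp_apply, hπ, hi w hw, zero_add]⟩
  obtain ⟨p, hp, w₀, ⟨b1, b2⟩, b3⟩ := hs X S s₀ C δ η a1 a2 a3 a4 _ u a hu hg
  have hO : IsOpen (φ ⁻¹' C.Btᶜ) := C.isOpen_compl_Bt.preimage hφ.continuous
  have hz : Ψ w₀ ∈ φ ⁻¹' C.Btᶜ := by rwa [mem_preimage, hi w₀ b1]
  have hq : ∀ z ∈ φ ⁻¹' C.Btᶜ, S.HolAt (p ∘ φ) z := fun z hz => (hp.1 _ hz).1.comp (hφ z)
  have hc : (φ ⁻¹' C.Bt).Countable := by
    refine Countable.mono (s₂ := ⋃ c ∈ C.Bt, {z ∈ univ | φ z - c = 0})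
      (fun z hz => mem_biUnion hz ⟨trivial, sub_self _⟩) (C.countable_Bt.biUnion fun c _ =>
      MP_26ad15_nt.countable_zeros isPreconnected_univ
        (fun z _ => (hφ.analyticAt z).sub analyticAt_const) fun h0 => ?_)
    have e1 := h0 (Ψ (u * (a + 1 : ℝ))) trivial
    have e2 := h0 (Ψ (u * (a + 2 : ℝ))) trivial
    rw [hi _ (smul_mem_Hp hu (by linarith))] at e1 e2
    have e3 : u = 0 := by
      push_cast at e1 e2
      linear_combination e2 - e1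
    simp [e3] at hu
  have h1 : h =ᶠ[𝓝 (Ψ w₀)] p ∘ φ := by
    refine (Sf0.eventually_eq_or_ne (Eventually.of_forall hh)
      (Eventually.mono (hO.mem_nhds hz) hq)).resolve_right fun hn => ?_
    have e0 : ∀ᶠ w in 𝓝[≠] w₀, w ∈ Hp u a :=
      mem_nhdsWithin_of_mem_nhds ((isOpen_Hp u a).mem_nhds b1)
    have ht : Tendsto Ψ (𝓝[≠] w₀) (𝓝[≠] (Ψ w₀)) := by
      refine tendsto_nhdsWithin_iff.2
        ⟨(hd w₀ b1).continuousAt.tendsto.mono_left nhdsWithin_le_nhds, ?_⟩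
      filter_upwards [e0, self_mem_nhdsWithin] with w c1 c2 c3
      exact c2 ((hi w c1).symm.trans ((congrArg φ c3).trans (hi w₀ b1)))
    obtain ⟨w, c1, c2, c3⟩ :=
      ((ht.eventually hn).and (e0.and (b3.filter_mono nhdsWithin_le_nhds))).exists
    exact c1 (c3.trans (congrArg p (hi w c2).symm))
  have h2 : EqOn h (p ∘ φ) (φ ⁻¹' C.Btᶜ) :=
    Sf0.eqOn_of_eventuallyEq hO (hc.isConnected_compl_of_one_lt_rank (by simp)).isPreconnected
      (fun w _ => hh w) hq hz h1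
  obtain ⟨m, m1, m2, m3⟩ := period a4 hp hu
  obtain ⟨f, f1, f2, f3⟩ := extend m1 m2 m3 hg fun w c1 c2 =>
    (h2 (show Ψ w ∈ φ ⁻¹' C.Btᶜ by rwa [mem_preimage, hi w c1])).trans (congrArg p (hi w c1))
  refine ⟨f, f1, f2, hh.eq_of_eventually (fun z => (f1 _).comp (hφ z)) (z₀ := Ψ w₀) ?_⟩
  filter_upwards [hO.mem_nhds hz] with z c1
  exact (h2 c1).trans (f3 _ c1).symm

end Pool.Agent.P.MP_7ede32_ag.Geo
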