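import Pool.Agent.P.MP_7ede32_ag.Geo.Stm

/-!
A section over a half-plane agrees near some point with a member of the finite class.
-/

open Filter Topology Metric Set

noncomputable section

namespace Pool.Agent.P.MP_7ede32_ag.Geo

open Ell (E2 UU ev_UU UU_le)

namespace ShadP

variable {X : Type} [MetricSpace X] {S : Sf0 X} {s₀ : ℂ ⧸ S.Λ} {C : S.Cfg s₀} {δ : ℝ}

/-- two members of the class that agree away from the bad discs agree everywhere -/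
lemma eqOn_of_Cr (hS : C.Sep δ) {q q' : ℂ → X} (hq : C.Cls δ q) (hq' : C.Cls δ q')
    (h : ∀ w ∈ C.Cr (δ / 2), q w = q' w) : EqOn q q' C.Btᶜ := by
  obtain ⟨c, hc⟩ := S.Λ.mkQ_surjective s₀
  have hc' : c ∈ C.Bt := by
    show S.Λ.mkQ c ∈ C.B
    rw [hc]
    exact C.mem
  have hδ := hS.1
  have h1 : (δ : ℂ) ∈ Ann δ := by
    have : ‖(δ : ℂ)‖ = δ := by rw [Complex.norm_real, Real.norm_of_nonneg hδ.le]
    exact ⟨by rw [this]; linarith, by rw [this]; linarith⟩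
  have h2 := hS.add_mem_interior hc' h1
  refine Sf0.eqOn_of_eventuallyEq C.isOpen_compl_Bt C.isPreconnected_compl_Bt
    (fun w hw => (hq.1 w hw).1) (fun w hw => (hq'.1 w hw).1)
    (Sf0.Cfg.Cr_subset (half_pos hδ) (interior_subset h2)) ?_
  filter_upwards [isOpen_interior.mem_nhds h2] with w hw
  exact h w (interior_subset hw)

/-- separation for one pair, on discs centred at the origin -/
lemma sep_pair (hS : C.Sep δ) {q q' : ℂ → X} (hq : C.Cls δ q) (hq' : C.Cls δ q') :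
    ∀ᶠ R : ℝ in atTop, (∀ w ∈ C.Cr (δ / 2) ∩ closedBall 0 R, dist (q w) (q' w) < R⁻¹) →
      EqOn q q' C.Btᶜ := by
  by_cases h : ∀ w ∈ C.Cr (δ / 2), q w = q' w
  · exact Eventually.of_forall fun _ _ => eqOn_of_Cr hS hq hq' h
  · push Not at h
    obtain ⟨w, hw, hne⟩ := h
    have hd : 0 < dist (q w) (q' w) := dist_pos.2 hne
    filter_upwards [eventually_ge_atTop ‖w‖,
      tendsto_inv_atTop_zero.eventually (gt_mem_nhds hd)] with R a1 a2 a3
    exact absurd (a3 w ⟨hw, mem_closedBall_zero_iff.2 a1⟩) (not_lt.2 a2.le)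

/-- uniform separation of the members of the class -/
lemma sep (hS : C.Sep δ) (hF : FinP C δ) : ∃ ε > 0, ∃ R ≥ (0 : ℝ), ∀ (w₀ : ℂ) (q q' : ℂ → X),
    C.Cls δ q → C.Cls δ q' →
    (∀ w ∈ C.Cr (δ / 2) ∩ closedBall w₀ R, dist (q w) (q' w) < ε) → EqOn q q' C.Btᶜ := by
  obtain ⟨T, hT, h1, h2⟩ := hF
  obtain ⟨D, hD⟩ := S.cocpt
  have h3 : ∀ᶠ R : ℝ in atTop, ∀ t ∈ T, ∀ t' ∈ T,
      (∀ w ∈ C.Cr (δ / 2) ∩ closedBall 0 R, dist (t w) (t' w) < R⁻¹) → EqOn t t' C.Btᶜ :=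
    (eventually_all_finite hT).2 fun t ht => (eventually_all_finite hT).2 fun t' ht' =>
      sep_pair hS (h1 t ht) (h1 t' ht')
  obtain ⟨R, hR, hR0⟩ := (h3.and (eventually_gt_atTop 0)).exists
  refine ⟨R⁻¹, inv_pos.2 hR0, R + |D|, by positivity, fun w₀ q q' hq hq' h => ?_⟩
  obtain ⟨l, hl, hl'⟩ := hD w₀
  obtain ⟨t, ht, e1⟩ := h2 _ (hq.shift hl)
  obtain ⟨t', ht', e2⟩ := h2 _ (hq'.shift hl)
  have e3 : EqOn t t' C.Btᶜ := by
    refine hR t ht t' ht' fun w hw => ?_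
    have hw' := Sf0.Cfg.Cr_subset (half_pos hS.1) hw.1
    rw [← e1 hw', ← e2 hw']
    refine h (w + l) ⟨Sf0.Cfg.add_mem_Cr hl hw.1, mem_closedBall.2 ?_⟩
    have b1 := dist_triangle (w + l) l w₀
    rw [dist_eq_norm (w + l) l, add_sub_cancel_right, dist_comm l w₀] at b1
    linarith [mem_closedBall_zero_iff.1 hw.2, le_abs_self D]
  intro w hw
  have hw' : w + -l ∈ C.Btᶜ := fun hc => hw ((Sf0.Cfg.add_mem_Bt (S.Λ.neg_mem hl)).1 hc)
  have := (e1 hw').trans ((e3 hw').trans (e2 hw').symm)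
  simpa using this

/-- a shifted section is a section -/
lemma secOn_shift {g : ℂ → X} {O O' : Set ℂ} (hg : S.SecOn 0 g O) (c : ℂ) {l : ℂ} (hl : l ∈ S.Λ)
    (h : ∀ w ∈ O', c + w + l ∈ O) : S.SecOn (S.Λ.mkQ c) (fun w => g (c + w + l)) O' := by
  intro w hw
  have h1 := hg _ (h w hw)
  refine ⟨Sf0.HolAt.comp (f := g) (φ := fun w => c + w + l) h1.1 (by fun_prop), ?_⟩
  have h2 : S.Λ.mkQ (c + w + l) = S.Λ.mkQ (c + w) := Sf0.mk_eq_iff.2 (by simpa using hl)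
  rw [h1.2, zero_add, h2, map_add]

/-- deep inside its domain a section is shadowed by a member of the class -/
lemma shadow [CompactSpace X] (hL : SLim) (hS : C.Sep δ) {g : ℂ → X} {O : Set ℂ}
    (hg : S.SecOn 0 g O) {ε : ℝ} (hε : 0 < ε) (R₁ : ℝ) :
    ∃ R ≥ (0 : ℝ), ∀ w₀, ball w₀ R ⊆ O → ∃ q, C.Cls δ q ∧
      ∀ w ∈ C.Cr (δ / 2) ∩ closedBall w₀ R₁, dist (g w) (q w) < ε := by
  by_contra hcon
  push Not at hcon
  choose z hz hz' using fun n : ℕ => hcon n (Nat.cast_nonneg n)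
  obtain ⟨D, hD⟩ := S.cocpt
  choose l hl hl' using fun n : ℕ => hD (z n)
  have hδ := hS.1
  have key : ∀ (R : ℝ) (n : ℕ), R + D < n → ∀ w : ℂ, ‖w‖ ≤ R → w + l n ∈ O := by
    intro R n hn w hw
    refine hz n (mem_ball.2 ?_)
    have b1 := dist_triangle (w + l n) (l n) (z n)
    rw [dist_eq_norm (w + l n) (l n), add_sub_cancel_right, dist_comm (l n) (z n)] at b1
    linarith [hl' n]
  obtain ⟨p, hp, hp'⟩ := hL X S s₀ C δ hS (fun n w => g (w + l n)) (by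
    intro R
    filter_upwards [ev_UU (tendsto_natCast_atTop_atTop.eventually_gt_atTop (R + 3 * δ + D))]
      with n hn
    refine ⟨?_, fun c hc => Sf0.Adm.lb (Or.inl ?_)⟩
    · have := secOn_shift (O' := C.Btᶜ ∩ closedBall 0 R) hg 0 (hl n) fun w hw => by
        rw [zero_add]
        exact key (R + 3 * δ) n hn w (by linarith [mem_closedBall_zero_iff.1 hw.2])
      simpa using this
    · refine secOn_shift hg c (hl n) fun w hw => key (R + 3 * δ) n hn _ ?_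
      linarith [norm_add_le c w, mem_closedBall_zero_iff.1 hc.2, mem_ball_zero_iff.1 hw])
  obtain ⟨n, hn⟩ := (hp' (δ / 2) (half_pos hδ) (R₁ + D) ε hε).exists
  obtain ⟨w, hw, hw'⟩ := hz' n _ (hp.shift (S.Λ.neg_mem (hl n)))
  have h1 := hn (w + -l n) ⟨Sf0.Cfg.add_mem_Cr (S.Λ.neg_mem (hl n)) hw.1, by
    rw [mem_closedBall_zero_iff, ← sub_eq_add_neg, ← dist_eq_norm]
    linarith [dist_triangle w (z n) (l n), mem_closedBall.1 hw.2, hl' n]⟩
  rw [neg_add_cancel_right] at h1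
  exact absurd h1 (not_lt.2 hw')

end ShadP

theorem sshad (h : SLim) : SShad := by
  intro X _ _ S s₀ C δ η hS hη hH hF g u a hu hg
  have hδ := hS.1
  obtain ⟨ε₀, hε₀, R₁, hR₁, hsep⟩ := ShadP.sep hS hF
  obtain ⟨R, hR, hsh⟩ := ShadP.shadow h hS hg (lt_min (half_pos hε₀) hη) (R₁ + 1)
  have h1 : ∀ w₀ ∈ Hp u (a + R), ball w₀ R ⊆ Hp u a := by
    intro w₀ hw₀ w hw
    have := add_mem_Hp hu hw₀ (w := w - w₀) (by rw [← dist_eq_norm]; exact (mem_ball.1 hw).le)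
    simpa using this
  have : Nonempty (ℂ → X) := ⟨g⟩
  choose! q hq hq' using fun w₀ (hw₀ : w₀ ∈ Hp u (a + R)) => hsh w₀ (h1 w₀ hw₀)
  have h2 : ∀ w₀ ∈ Hp u (a + R), ∀ w₁ ∈ Hp u (a + R), dist w₁ w₀ < 1 →
      EqOn (q w₀) (q w₁) C.Btᶜ := by
    intro w₀ hw₀ w₁ hw₁ hd
    refine hsep w₀ _ _ (hq w₀ hw₀) (hq w₁ hw₁) fun w hw => ?_
    have b1 := hq' w₀ hw₀ w ⟨hw.1, mem_closedBall.2 (by linarith [mem_closedBall.1 hw.2])⟩
    have b2 := hq' w₁ hw₁ w ⟨hw.1, mem_closedBall.2 (by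
      linarith [mem_closedBall.1 hw.2, dist_triangle_right w w₁ w₀])⟩
    linarith [dist_triangle_left (q w₀ w) (q w₁ w) (g w), min_le_left (ε₀ / 2) η]
  have h3 : ∀ w₀ ∈ Hp u (a + R), ∀ w₁ ∈ Hp u (a + R), EqOn (q w₀) (q w₁) C.Btᶜ := by
    intro w₀ hw₀ w₁ hw₁
    refine (convex_Hp u (a + R)).isPreconnected.induction₂'
      (fun x y => EqOn (q x) (q y) C.Btᶜ) (fun x hx => ?_) (fun _ _ _ _ _ _ e1 e2 => e1.trans e2)
      hw₀ hw₁
    filter_upwards [self_mem_nhdsWithin, mem_nhdsWithin_of_mem_nhds (ball_mem_nhds x one_pos)]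
      with y hy hy'
    exact ⟨h2 x hx y hy hy', (h2 x hx y hy hy').symm⟩
  have hw₁ : u * ((a + R + 1 : ℝ) : ℂ) ∈ Hp u (a + R) := smul_mem_Hp hu (lt_add_one _)
  have hsub : Hp u (a + R) ⊆ Hp u a := Hp_mono (by linarith)
  have h4 : HSec C δ u (a + R) g := by
    refine ⟨hg.mono fun w hw => hsub hw.1, fun c hc => Sf0.Adm.lb (Or.inl ?_)⟩
    have := ShadP.secOn_shift (O' := ball 0 (3 * δ)) hg c S.Λ.zero_mem fun w hw => by
      rw [add_zero]
      exact hsub (add_mem_Hp hu hc.2 (mem_ball_zero_iff.1 hw).le)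
    simpa using this
  obtain ⟨w, hw, he⟩ := hH g (q _) u (a + R) hu h4 (hSec_of_cls hδ (hq _ hw₁) u _) (by
    intro w hw
    have b1 := interior_subset hw.2
    rw [h3 _ hw₁ w hw.1 (Sf0.Cfg.Cr_subset (half_pos hδ) b1)]
    exact (hq' w hw.1 w ⟨b1, mem_closedBall_self (by linarith)⟩).le.trans (min_le_right _ _))
  exact ⟨_, hq _ hw₁, w, ⟨hsub hw.1, Sf0.Cfg.Cr_subset (half_pos hδ) (interior_subset hw.2)⟩, he⟩

end Pool.Agent.P.MP_7ede32_ag.Geo
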