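import Pool.Agent.P.MP_7ede32_ag.Geo.Stm

/-!
Equicontinuity of local sections away from the bad values, and limits of sections.
-/

open Filter Topology Metric Set

noncomputable section

namespace Pool.Agent.P.MP_7ede32_ag.Geo

open Ell (E2 UU ev_UU UU_le Conv unif_of_equicont)

theorem sequi : SEqui := by
  intro X _ _ S s₀ C r hr ε hε
  obtain ⟨V⟩ := S.nonempty_cov
  by_contra hcon
  push Not at hcon
  have hn1 : ∀ n : ℕ, (1 : ℝ) ≤ n + 1 := fun n => by linarith [Nat.cast_nonneg (α := ℝ) n]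
  choose f z₀ hz₀ hf w₀ hzw hfar using fun n : ℕ => hcon (r / (16 * ((n : ℝ) + 1) ^ 2))
    (by positivity)
  have hzw' : ∀ n : ℕ, 16 * ((n : ℝ) + 1) ^ 2 * dist (w₀ n) (z₀ n) < r := fun n => by
    have := hzw n
    rwa [lt_div_iff₀ (by positivity), mul_comm] at this
  have hzw'' : ∀ n : ℕ, 16 * ((n : ℝ) + 1) * dist (w₀ n) (z₀ n) < r := fun n => by
    refine lt_of_le_of_lt ?_ (hzw' n)
    gcongr
    nlinarith [hn1 n]
  obtain ⟨z, ρ, h, -, hloc, hh, -, hconv, ζ', hζ'⟩ := V.exists_bubble_loc (t := fun _ => r)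
    (fun n ζ hζ => (hf n ζ hζ).1) (lt_min hε V.ε_pos) (min_le_right _ _)
    (fun n => (min_le_left _ _).trans (hfar n)) hzw''
  have hmem : ∀ (n : ℕ) (ξ : ℂ), ‖ξ‖ ≤ n + 2 → dist (z n + ρ n * ξ) (z₀ n) < r / 2 :=
    fun n ξ hξ => by linarith [hloc n ξ hξ, hzw'' n]
  have hπ : ∀ (n : ℕ) (ξ : ℂ), ‖ξ‖ ≤ n + 2 →
      S.π (f n (z n + ρ n * ξ)) = S.Λ.mkQ (z n + ρ n * ξ) := fun n ξ hξ => by
    rw [(hf n _ (mem_ball.2 (by linarith [hmem n ξ hξ]))).2, zero_add]
  have hsm : ∀ (n : ℕ) (ξ : ℂ), ‖ξ‖ ≤ n + 2 →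
      dist (z n + ρ n * ξ) (z₀ n) ≤ r * (1 / ((n : ℝ) + 1)) / 2 := by
    intro n ξ hξ
    refine (hloc n ξ hξ).trans ?_
    rw [mul_one_div, div_div, le_div_iff₀ (by positivity)]
    nlinarith [hzw' n]
  have h0 : ∀ n : ℕ, ‖(0 : ℂ)‖ ≤ n + 2 := fun n => by rw [norm_zero]; positivity
  have hev : ∀ R : ℝ, ∀ᶠ n : ℕ in (UU : Filter ℕ), R ≤ n + 2 := fun R =>
    (ev_UU (tendsto_natCast_atTop_atTop.eventually_ge_atTop R)).mono fun n hn => by linarith
  have hv : ∀ ζ, S.π (h ζ) = S.π (h 0) := by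
    intro ζ
    have hlim : Tendsto (fun n : ℕ => r * (1 / ((n : ℝ) + 1))) UU (𝓝 0) := by
      simpa using (tendsto_one_div_add_atTop_nhds_zero_nat.mono_left UU_le).const_mul r
    have := Sf0.π_lim (S := S) (hconv.tendsto ζ) (hconv.tendsto 0)
      (c := fun n => (z n + ρ n * ζ) - (z n + ρ n * 0)) (d := 0)
      (squeeze_zero_norm' ((hev ‖ζ‖).mono fun n hn => by
        rw [← dist_eq_norm]
        linarith [dist_triangle_right (z n + ρ n * ζ) (z n + ρ n * 0) (z₀ n), hsm n ζ hn,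
          hsm n 0 (h0 n)]) hlim)
      ((hev ‖ζ‖).mono fun n hn => by
        rw [hπ n ζ hn, hπ n 0 (h0 n), map_sub]
        abel)
    simpa using this
  have hK : h 0 ∈ C.Kc (r / 2) := by
    refine (Sf0.Cfg.isCompact_Kc (r / 2)).isClosed.mem_of_tendsto (hconv.tendsto 0)
      (Eventually.of_forall fun n => ⟨z n + ρ n * 0, fun c hc => ?_, hπ n 0 (h0 n)⟩)
    linarith [hz₀ n c hc, hmem n 0 (h0 n), dist_triangle_left (z₀ n) c (z n + ρ n * 0)]
  obtain ⟨w, hw, hw'⟩ := hK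
  exact hζ' (C.hyp (S.π (h 0)) (hw' ▸ Sf0.Cfg.Cr_subset (half_pos hr) hw) h hh hv ζ')

theorem slim (h : SEqui) : SLim := by
  intro X _ _ S s₀ C δ hδ f hf
  have hlim : ∀ ζ, ∃ x, Tendsto (fun n => f n ζ) UU (𝓝 x) := fun ζ => by
    obtain ⟨x, _, hx⟩ := isCompact_univ.ultrafilter_le_nhds (UU.map fun n => f n ζ) (by simp)
    exact ⟨x, hx⟩
  choose g hg using hlim
  have hsec : ∀ r R : ℝ, ∀ᶠ n in (UU : Filter ℕ), ∀ w ∈ C.Cr r ∩ closedBall 0 R,
      S.SecOn 0 (f n) (ball w r) := by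
    intro r R
    filter_upwards [hf (R + r)] with n hn w hw
    refine hn.1.mono fun u hu => ⟨fun hc => ?_, ?_⟩
    · have := hw.1 u hc
      rw [mem_ball, dist_comm] at hu
      linarith
    · have h1 := hw.2
      rw [mem_closedBall] at h1 ⊢
      linarith [dist_triangle u w 0, mem_ball.1 hu]
  have hunif : ∀ r > 0, ∀ R : ℝ, ∀ ε > 0, ∀ᶠ n in (UU : Filter ℕ),
      ∀ w ∈ C.Cr r ∩ closedBall 0 R, dist (f n w) (g w) < ε := by
    intro r hr R
    refine unif_of_equicont (U := UU) (F := f) (G := g)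
      ((isCompact_closedBall (0 : ℂ) R).inter_left (Sf0.Cfg.isClosed_Cr (C := C) r)) ?_ fun w _ => hg w
    intro ε hε
    obtain ⟨c, hc, H⟩ := h X S s₀ C r hr ε hε
    exact ⟨c, hc, (hsec r R).mono fun n hn w hw w' _ hww => H _ _ hw.1 (hn w hw) _ hww⟩
  refine ⟨g, ⟨fun w hw => ?_, fun c hc ε hε => ?_⟩, hunif⟩
  · obtain ⟨r, hr, hsub⟩ := Sf0.Cfg.exists_Cr hw
    have hw1 : w ∈ C.Cr r ∩ closedBall 0 ‖w‖ := ⟨hsub (mem_ball_self hr), by simp⟩
    have hs : ∀ᶠ n in (UU : Filter ℕ), S.SecOn 0 (f n) (ball w r) :=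
      (hsec r ‖w‖).mono fun n hn => hn w hw1
    have hcont : ContinuousAt g w := by
      rw [Metric.continuousAt_iff]
      intro ε hε
      obtain ⟨c, hc, H⟩ := h X S s₀ C r hr (ε / 2) (half_pos hε)
      refine ⟨c, hc, fun ξ hξ => ?_⟩
      have : dist (g ξ) (g w) ≤ ε / 2 := le_of_tendsto ((hg ξ).dist (hg w))
        (hs.mono fun n hn => (H _ _ hw1.1 hn _ hξ).le)
      linarith
    refine ⟨⟨hcont, fun e he hx => ?_⟩, ?_⟩
    · classical
      have hconv : Conv UU (fun n => (ball w r).piecewise (f n) g) g := by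
        intro R ε hε
        filter_upwards [hunif r hr R ε hε] with n hn ζ hζ
        by_cases h1 : ζ ∈ ball w r
        · rw [piecewise_eq_of_mem _ _ _ h1]
          exact hn ζ ⟨hsub h1, by simpa using hζ⟩
        · rw [piecewise_eq_of_notMem _ _ _ h1, dist_self]
          exact hε
      obtain ⟨ρ, hρ, -, h2, h3⟩ := hconv.chart hcont (e.open_source.mem_nhds hx) e.continuousOn
      have h4 : ball w (min ρ r) ⊆ ball w ρ := ball_subset_ball (min_le_left _ _)
      have h5 : ball w (min ρ r) ⊆ ball w r := ball_subset_ball (min_le_right _ _)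
      have := (h3.mono h4).tendstoLocallyUniformlyOn.differentiableOn ?_ isOpen_ball
      · exact this.differentiableAt (ball_mem_nhds _ (by positivity))
      · filter_upwards [h2, hs] with n hn1 hn2
        refine DifferentiableOn.congr (f := e ∘ f n) (fun u hu => ?_) fun u hu => ?_
        · have h6 := hn1 u (h4 hu)
          rw [piecewise_eq_of_mem _ _ _ (h5 hu)] at h6
          exact ((hn2 u (h5 hu)).1.2 e he h6).differentiableWithinAt
        · simp only [Function.comp, piecewise_eq_of_mem _ _ _ (h5 hu)]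
    · exact (Sf0.isClosed_fib _).mem_of_tendsto (hg w)
        (hs.mono fun n hn => (hn w (mem_ball_self hr)).2)
  · obtain ⟨n, a1, a2⟩ := ((hf ‖c‖).and
      (hunif (δ / 2) (half_pos hδ.1) (‖c‖ + 2 * δ) (ε / 2) (half_pos hε))).exists
    obtain ⟨f', b1, b2⟩ := a1.2 c ⟨hc, by simp⟩ (ε / 2) (half_pos hε)
    refine ⟨f', b1, fun w hw => ?_⟩
    have b3 := a2 (c + w) ⟨hδ.add_mem_Cr hc hw.1.le hw.2.le, by
      rw [mem_closedBall_zero_iff]
      linarith [norm_add_le c w, hw.2]⟩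
    linarith [dist_triangle (f' w) (f n (c + w)) (g (c + w)), b2 w hw]

end Pool.Agent.P.MP_7ede32_ag.Geo
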