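import Pool.Agent.P.MP_7ede32_ag.Geo.B4
import Pool.Agent.P.MP_e711b0_an.Weier
import Pool.Agent.P.MP_26ad15_nt.Puiseux

/-!
The steps of the proof, as propositions.
-/

open Filter Topology Metric Set Polynomial

noncomputable section

namespace Pool.Agent.P.MP_7ede32_ag.Geo

open Ell (E2 UU)
open MP_26ad15_nt (Fam)

/-- A monic family of polynomials has the same roots as a separable family, off the origin. -/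
def SSqf : Prop :=
  ∀ (k : ℕ) (φ : ℕ → ℂ → ℂ), (∀ l, AnalyticAt ℂ (φ l) 0) →
    ∃ (p : ℂ → ℂ[X]) (d : ℕ) (ε : ℝ), 0 < ε ∧ Fam (ball 0 ε \ {0}) p d ∧
      ∀ x ∈ ball (0 : ℂ) ε \ {0}, ∀ v : ℂ,
        (p x).eval v = 0 ↔ ∑ l ∈ Finset.range k, φ l x * v ^ l + v ^ k = 0

/-- Roots of a separable family over a punctured disc, after a ramified base change. -/
def SRoots : Prop :=
  ∀ (p : ℂ → ℂ[X]) (d : ℕ) (ε : ℝ), 0 < ε → Fam (ball 0 ε \ {0}) p d →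
    (∀ η > 0, ∀ᶠ x in 𝓝[≠] (0 : ℂ), ∀ v, (p x).eval v = 0 → ‖v‖ < η) →
    ∃ (N m : ℕ) (ρ : ℝ) (y : Fin m → ℂ → ℂ), 0 < N ∧ 0 < ρ ∧ ρ ^ N ≤ ε ∧
      (∀ k, AnalyticOnNhd ℂ (y k) (ball 0 ρ) ∧ y k 0 = 0) ∧
      ∀ t ∈ ball (0 : ℂ) ρ, t ≠ 0 → (∀ k k', y k t = y k' t → k = k') ∧
        ∀ v, (p (t ^ N)).eval v = 0 ↔ ∃ k, v = y k t

/-- Puiseux parametrisation of a plane curve germ. -/
def SPuis : Prop :=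
  ∀ F : E2 → ℂ, AnalyticAt ℂ F 0 → (¬ ∀ᶠ p in 𝓝 0, F p = 0) →
    ∃ (M : E2 ≃L[ℂ] E2) (N m : ℕ) (ρ r : ℝ) (y : Fin m → ℂ → ℂ), 0 < N ∧ 0 < ρ ∧ 0 < r ∧
      (∀ k, AnalyticOnNhd ℂ (y k) (ball 0 ρ) ∧ y k 0 = 0 ∧
        ∀ t ∈ ball (0 : ℂ) ρ, ‖y k t‖ < r ∧ F (M (t ^ N, y k t)) = 0) ∧
      (∀ t ∈ ball (0 : ℂ) ρ, t ≠ 0 → ∀ k k', y k t = y k' t → k = k') ∧
      ∀ t ∈ ball (0 : ℂ) ρ, ∀ v : ℂ, ‖v‖ < r → F (M (t ^ N, v)) = 0 → ∃ k, v = y k t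

/-- The branches of a plane curve germ. -/
def SBr : Prop :=
  ∀ F : E2 → ℂ, AnalyticAt ℂ F 0 → (¬ ∀ᶠ p in 𝓝 0, F p = 0) →
    ∃ (m : ℕ) (ρ : ℝ) (b : Fin m → ℂ → E2), 0 < ρ ∧
      (∀ k, AnalyticOnNhd ℂ (b k) (ball 0 ρ) ∧ b k 0 = 0 ∧
        ∀ t ∈ ball (0 : ℂ) ρ, F (b k t) = 0 ∧ (b k t = 0 → t = 0)) ∧
      (∀ ρ' > 0, ∀ᶠ y in 𝓝 0, F y = 0 → ∃ k, ∃ t ∈ ball (0 : ℂ) ρ, ‖t‖ < ρ' ∧ y = b k t) ∧
      (∀ k, ∀ t ∈ ball (0 : ℂ) ρ, t ≠ 0 → ∃ σ : E2 → ℂ, AnalyticAt ℂ σ (b k t) ∧ σ (b k t) = t ∧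
        ∀ᶠ y in 𝓝 (b k t), F y = 0 → y = b k (σ y)) ∧
      ∀ k k', ∀ t ∈ ball (0 : ℂ) ρ, ∀ t' ∈ ball (0 : ℂ) ρ, b k t = b k' t' →
        ‖t‖ = ‖t'‖ ∧ ∀ s : ℂ, ‖s * t‖ < ρ → b k (s * t) = b k' (s * t')

/-- Arcs to the origin, and primitives of 1-forms along a plane curve germ. -/
def SCurve : Prop :=
  ∀ F : E2 → ℂ, AnalyticAt ℂ F 0 → (¬ ∀ᶠ p in 𝓝 0, F p = 0) → ∀ N₀ : Set E2, IsOpen N₀ → 0 ∈ N₀ →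
    ∃ N ∈ 𝓝 (0 : E2), N ⊆ N₀ ∧
      (∀ y ∈ N, F y = 0 → ∃ l : ℂ → E2, l 0 = 0 ∧ l 1 = y ∧ ∀ τ : ℝ, τ ∈ Icc (0 : ℝ) 1 →
        ∀ᶠ σ in 𝓝 (τ : ℂ), DifferentiableAt ℂ l σ ∧ l σ ∈ N₀ ∧ F (l σ) = 0) ∧
      ∀ ϖ : E2 → E2 →L[ℂ] ℂ, DifferentiableOn ℂ ϖ N₀ → ∃ h : E2 → ℂ, ∀ (l : ℂ → E2) (t : ℂ),
        (∀ᶠ σ in 𝓝 t, DifferentiableAt ℂ l σ ∧ F (l σ) = 0) → l t ∈ N →
        HasDerivAt (h ∘ l) (ϖ (l t) (deriv l t)) t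

/-- The same on the surface, for the union of a fibre and the zero set of the form. -/
def SCurveX : Prop :=
  ∀ (X : Type) [MetricSpace X] (S : Sf0 X) (s₀ : ℂ ⧸ S.Λ), S.Hyp s₀ →
    ∀ (s : ℂ ⧸ S.Λ) (x : X), S.π x = s → ∀ N₀ : Set X, IsOpen N₀ → x ∈ N₀ →
    ∃ N ∈ 𝓝 x, N ⊆ N₀ ∧
      (∀ y ∈ N, (S.π y = s ∨ y ∈ S.Z) → ∃ l, S.Arc l x y {z | z ∈ N₀ ∧ (S.π z = s ∨ z ∈ S.Z)}) ∧
      ∀ A B : X → ℂ, (∀ y ∈ N₀, S.HolX A y ∧ S.HolX B y) → ∃ h : X → ℂ, ∀ (l : ℂ → X) (t : ℂ),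
        (∀ᶠ σ in 𝓝 t, S.HolAt l σ ∧ (S.π (l σ) = s ∨ l σ ∈ S.Z)) → l t ∈ N →
        HasDerivAt (h ∘ l) (A (l t) * deriv (B ∘ l) t) t

/-- Off the central fibre there are no critical points and the zero set is a smooth section. -/
def SRegLoc : Prop :=
  ∀ p a : E2 → ℂ, AnalyticAt ℂ p 0 → AnalyticAt ℂ a 0 → p 0 = 0 → (¬ ∀ᶠ y in 𝓝 0, p y = 0) →
    (¬ ∀ᶠ y in 𝓝 0, a y = 0) → ∀ᶠ y in 𝓝 (0 : E2), p y ≠ 0 → fderiv ℂ p y ≠ 0 ∧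
      (a y = 0 → ∃ z : ℂ → E2, AnalyticAt ℂ z (p y) ∧ z (p y) = y ∧
        (∀ᶠ w in 𝓝 (p y), p (z w) = w) ∧ ∀ᶠ y' in 𝓝 y, a y' = 0 → y' = z (p y'))

/-- New charts from the inverse function theorem. -/
def SInv : Prop :=
  ∀ (X : Type) [MetricSpace X] (S : Sf0 X) (x : X) (e : OpenPartialHomeomorph X E2)
    (f₁ f₂ : X → ℂ), e ∈ S.A → x ∈ e.source → S.AnAt f₁ x → S.AnAt f₂ x →
    wedge (D f₁ e x) (D f₂ e x) ≠ 0 →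
    ∃ e' ∈ S.A, x ∈ e'.source ∧ ∀ y ∈ e'.source, e' y = (f₁ y, f₂ y)

/-- The form is divisible by the equation of the fibre over `s₀`. -/
def SDiv : Prop :=
  ∀ (X : Type) [MetricSpace X] (S : Sf0 X) (s₀ : ℂ ⧸ S.Λ), S.Hyp s₀ → ∀ x, S.π x = s₀ →
    ∃ e ∈ S.A, x ∈ e.source ∧ e x = 0 ∧ ∃ κ : E2 → ℂ, ∀ᶠ p in 𝓝 (0 : E2),
      DifferentiableAt ℂ κ p ∧ S.ω e p = S.mu s₀ (e.symm p) * κ p

/-- There is a finite set of bad values. -/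
def SCfg : Prop :=
  ∀ (X : Type) [MetricSpace X] [CompactSpace X] (S : Sf0 X) (s₀ : ℂ ⧸ S.Λ), S.Hyp s₀ →
    Nonempty (S.Cfg s₀)

/-- Poincaré lemma in a box. -/
def SPoinc : Prop :=
  ∀ (X : Type) [MetricSpace X] (S : Sf0 X) (e : OpenPartialHomeomorph X E2) (r : ℝ) (x : X),
    S.IsBox e r x → ∀ A B A' B' : X → ℂ, (∀ y ∈ box e r, S.HolX A y ∧ S.HolX B y ∧ S.HolX A' y ∧
      S.HolX B' y ∧ S.WdEq A B A' B' y) → ∃ γ : X → ℂ, ∀ y ∈ box e r, S.Rel γ A B A' B' y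

/-- Local primitives `A α d(B α)` of `mu ^ n ω` near the fibre over `s`, whose differences are
`d (g α β)` for a cocycle `g` that is a coboundary on the zero set of the form. -/
def Cech {X : Type} [MetricSpace X] (S : Sf0 X) (s : ℂ ⧸ S.Λ) (n : ℤ) (l : ℝ)
    (A B h : X → X → ℂ) (g : X → X → X → ℂ) : Prop :=
  (∀ α, S.π α = s → ∀ y ∈ ball α l, S.HolX (A α) y ∧ S.HolX (B α) y ∧
    (S.π y ≠ s → S.Wd (A α) (B α) (S.mu s y ^ n) y)) ∧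
  (∀ α β, S.π α = s → S.π β = s → ∀ y ∈ ball α l ∩ ball β l,
    S.Rel (g α β) (A α) (B α) (A β) (B β) y ∧ (y ∈ S.Z → g α β y = h α y - h β y)) ∧
  (∀ α β γ, S.π α = s → S.π β = s → S.π γ = s → ∀ y ∈ ball α l ∩ ball β l ∩ ball γ l,
    g α β y + g β γ y = g α γ y) ∧
  ∀ α, S.π α = s → ∀ (m : ℂ → X) (t : ℂ), (∀ᶠ σ in 𝓝 t, S.HolAt m σ ∧ m σ ∈ S.Z) →
    m t ∈ ball α l → HasDerivAt (h α ∘ m) (A α (m t) * deriv (B α ∘ m) t) t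

/-- The forms `mu ^ n ω` are exact near a fibre. -/
def SCech : Prop :=
  ∀ (X : Type) [MetricSpace X] [CompactSpace X] (S : Sf0 X) (s₀ : ℂ ⧸ S.Λ), S.Hyp s₀ →
    ∀ s : ℂ ⧸ S.Λ, ∃ l > 0, (∀ α, S.π α = s → ∀ y ∈ ball α l, S.MuOk s y) ∧
      ∀ n : ℤ, (0 ≤ n ∨ (s = s₀ ∧ n = -1)) → ∃ A B h g, Cech S s n l A B h g

/-- Gluing of local primitives on a disc. -/
def SGlue : Prop :=
  ∀ (ι : Type) (r : ℝ) (O : ι → Set ℂ) (b : ι → ℂ → ℂ) (g : ι → ι → ℂ → ℂ), (∀ i, IsOpen (O i)) →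
    closedBall 0 r ⊆ ⋃ i, O i → (∀ i, DifferentiableOn ℂ (b i) (O i)) →
    (∀ i j, ∀ w ∈ O i ∩ O j, HasDerivAt (g i j) (b i w - b j w) w) →
    (∀ i j k, ∀ w ∈ O i ∩ O j ∩ O k, g i j w + g j k w = g i k w) →
    ∃ G : ι → ℂ → ℂ, (∀ i, ∀ w ∈ O i ∩ ball 0 r, HasDerivAt (G i) (b i w) w) ∧
      ∀ i j, ∀ w ∈ O i ∩ O j ∩ ball 0 r, G i w - G j w = g i j w

/-- The local primitives have compatible primitives along `f` on the annulus. -/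
def Bal {X : Type} [MetricSpace X] (S : Sf0 X) (s : ℂ ⧸ S.Λ) (l δ : ℝ) (A B : X → X → ℂ)
    (g : X → X → X → ℂ) (f : ℂ → X) : Prop :=
  ∃ G : X → ℂ → ℂ, (∀ α, S.π α = s → ∀ w ∈ Ann δ, f w ∈ ball α l →
      HasDerivAt (G α) (A α (f w) * deriv (B α ∘ f) w) w) ∧
    ∀ α β, S.π α = s → S.π β = s → ∀ w ∈ Ann δ, f w ∈ ball α l ∩ ball β l →
      G α w - G β w = g α β (f w)

/-- Admissible sections are balanced. -/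
def SBal : Prop :=
  ∀ (X : Type) [MetricSpace X] [CompactSpace X] (S : Sf0 X) (s : ℂ ⧸ S.Λ) (l : ℝ), 0 < l →
    ∃ δ₀ > 0, ∀ δ ∈ Ioc 0 δ₀, ∀ n A B h g, Cech S s n l A B h g → ∀ f, S.Adm s δ f →
      Bal S s l δ A B g f

/-- The moments of the integral between two close admissible sections vanish. -/
def SMom : Prop :=
  ∀ (X : Type) [MetricSpace X] [CompactSpace X] (S : Sf0 X) (s₀ : ℂ ⧸ S.Λ), S.Hyp s₀ →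
    ∀ s : ℂ ⧸ S.Λ, ∃ δ₀ > 0, ∀ δ ∈ Ioc 0 δ₀, ∀ (K : Set X) (l η : ℝ) (U : X → X → ℂ),
      IsCompact K → (∀ x ∈ K, S.RegAt x) → S.ThOk K l U η → ∃ η' > 0, ∀ p q : ℂ → X,
        S.Adm s δ p → S.Adm s δ q → (∀ w ∈ Ann δ, p w ∈ K ∧ dist (p w) (q w) ≤ η') →
        ∀ n : ℤ, (0 ≤ n ∨ (s = s₀ ∧ n = -1)) → (∮ w in C(0, δ), w ^ n * th U (p w) (q w)) = 0

/-- A function on the annulus with vanishing moments extends to the disc. -/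
def SExt : Prop :=
  ∀ (θ : ℂ → ℂ) (δ M : ℝ), 0 < δ → DifferentiableOn ℂ θ (Ann δ) → (∀ w ∈ Ann δ, ‖θ w‖ ≤ M) →
    (∀ n : ℤ, 0 ≤ n → (∮ w in C(0, δ), w ^ n * θ w) = 0) →
    ∃ Θ : ℂ → ℂ, DifferentiableOn ℂ Θ (ball 0 (2 * δ)) ∧ (∀ w ∈ ball (0 : ℂ) (2 * δ), ‖Θ w‖ ≤ M) ∧
      (∀ w ∈ Ann δ, Θ w = θ w) ∧ ((∮ w in C(0, δ), w ^ (-1 : ℤ) * θ w) = 0 → Θ 0 = 0)

/-- A bounded holomorphic function on a half-plane that vanishes on a net vanishes. -/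
def SLat : Prop :=
  ∀ (f : ℂ → ℂ) (u : ℂ) (a M R : ℝ) (P : Set ℂ), ‖u‖ = 1 → DifferentiableOn ℂ f (Hp u a) →
    (∀ w ∈ Hp u a, ‖f w‖ ≤ M) → (∀ w, ∃ c ∈ P, dist w c ≤ R) → (∀ c ∈ P ∩ Hp u a, f c = 0) →
    ∀ w ∈ Hp u a, f w = 0

/-- The integral between `p` and `q` extends holomorphically over the disc. -/
def Ext {X : Type} [MetricSpace X] (U : X → X → ℂ) (δ : ℝ) (P : Prop) (p q : ℂ → X) : Prop :=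
  ∃ Θ : ℂ → ℂ, DifferentiableOn ℂ Θ (ball 0 (2 * δ)) ∧ (∀ w ∈ ball (0 : ℂ) (2 * δ), ‖Θ w‖ ≤ 2) ∧
    (∀ w ∈ Ann δ, Θ w = th U (p w) (q w)) ∧ (P → Θ 0 = 0)

/-- Extension across the bad values. -/
def SPair : Prop :=
  ∀ (X : Type) [MetricSpace X] [CompactSpace X] (S : Sf0 X) (s₀ : ℂ ⧸ S.Λ), S.Hyp s₀ →
    ∀ C : S.Cfg s₀, ∃ δ₀ > 0, ∀ δ ∈ Ioc 0 δ₀, C.Sep δ → ∀ (l η : ℝ) (U : X → X → ℂ),
      S.ThOk (C.Kc (δ / 2)) l U η → ∃ η' > 0, ∀ c ∈ C.Bt, ∀ p q : ℂ → X,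
        S.SecOn (S.Λ.mkQ c) p (Ann δ) → S.SecOn (S.Λ.mkQ c) q (Ann δ) →
        S.LB (S.Λ.mkQ c) δ p → S.LB (S.Λ.mkQ c) δ q → (∀ w ∈ Ann δ, dist (p w) (q w) ≤ η') →
        Ext U δ (S.Λ.mkQ c = s₀) p q

/-- `p` is a section over the good part of a half-plane and a limit of admissible sections at the
bad values. -/
def HSec {X : Type} [MetricSpace X] {S : Sf0 X} {s₀ : ℂ ⧸ S.Λ} (C : S.Cfg s₀) (δ : ℝ) (u : ℂ)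
    (a : ℝ) (p : ℂ → X) : Prop :=
  S.SecOn 0 p (Hp u a ∩ interior (C.Cr (δ / 2))) ∧
    ∀ c ∈ C.Bt ∩ Hp u (a + 3 * δ), S.LB (S.Λ.mkQ c) δ fun w => p (c + w)

lemma HSec.mono {X : Type} [MetricSpace X] {S : Sf0 X} {s₀ : ℂ ⧸ S.Λ} {C : S.Cfg s₀} {δ : ℝ}
    {u : ℂ} {a a' : ℝ} {p : ℂ → X} (h : HSec C δ u a p) (ha : a ≤ a') : HSec C δ u a' p :=
  ⟨h.1.mono (inter_subset_inter_left _ (Hp_mono ha)),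
    fun c hc => h.2 c ⟨hc.1, Hp_mono (by linarith) hc.2⟩⟩

lemma hSec_of_cls {X : Type} [MetricSpace X] {S : Sf0 X} {s₀ : ℂ ⧸ S.Λ} {C : S.Cfg s₀} {δ : ℝ}
    (hδ : 0 < δ) {p : ℂ → X} (h : C.Cls δ p) (u : ℂ) (a : ℝ) : HSec C δ u a p :=
  ⟨h.1.mono fun _ hw => Sf0.Cfg.Cr_subset (half_pos hδ) (interior_subset hw.2),
    fun c hc => h.2 c hc.1⟩

/-- The integral between two sections that are close on a half-plane vanishes. -/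
def SZero : Prop :=
  ∀ (X : Type) [MetricSpace X] [CompactSpace X] (S : Sf0 X) (s₀ : ℂ ⧸ S.Λ), S.Hyp s₀ →
    ∀ C : S.Cfg s₀, ∃ δ₀ > 0, ∀ δ ∈ Ioc 0 δ₀, C.Sep δ → ∀ (l η : ℝ) (U : X → X → ℂ),
      S.ThOk (C.Kc (δ / 2)) l U η → ∃ η' > 0, ∀ (p q : ℂ → X) (u : ℂ) (a : ℝ), ‖u‖ = 1 →
        HSec C δ u a p → HSec C δ u a q →
        (∀ w ∈ Hp u a ∩ interior (C.Cr (δ / 2)), dist (p w) (q w) ≤ η') →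
        ∀ w ∈ Hp u (a + 4 * δ) ∩ interior (C.Cr (δ / 2)), th U (p w) (q w) = 0

/-- Where the integral between two close points vanishes. -/
def SInj : Prop :=
  ∀ (X : Type) [MetricSpace X] (S : Sf0 X) (K : Set X) (l η : ℝ) (U : X → X → ℂ),
    IsCompact K → (∀ x ∈ K, S.RegAt x) → S.ThOk K l U η →
    (∀ ε > 0, ∃ η' > 0, ∀ x ∈ K, ∀ y, S.π y = S.π x → dist x y ≤ η' → x ≠ y → th U x y = 0 →
      ∃ ζ ∈ S.Z, S.π ζ = S.π x ∧ dist x ζ ≤ ε) ∧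
    ∃ η' > 0, ∀ ζ ∈ K, ζ ∈ S.Z → ∀ y, S.π y = S.π ζ → dist ζ y ≤ η' → th U ζ y = 0 → y = ζ

/-- A holomorphic map that stays near the zero set is shadowed by a map into the zero set. -/
def SZsec : Prop :=
  ∀ (X : Type) [MetricSpace X] [CompactSpace X] (S : Sf0 X) (K : Set X), IsCompact K →
    (∀ x ∈ K, S.RegAt x) → ∃ ε₀ > 0, ∀ ε ≤ ε₀, ∀ (O : Set ℂ) (p : ℂ → X), IsOpen O →
      (∀ w ∈ O, S.HolAt p w ∧ p w ∈ K) →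
      (∀ w ∈ O, ∃ᶠ w' in 𝓝 w, ∃ ζ ∈ S.Z, S.π ζ = S.π (p w') ∧ dist (p w') ζ ≤ ε) →
      ∃ z : ℂ → X, ∀ w ∈ O, S.HolAt z w ∧ z w ∈ S.Z ∧ S.π (z w) = S.π (p w) ∧ dist (p w) (z w) ≤ ε

/-- Two sections that are `η`-close on a half-plane agree near some point. -/
def HalfP {X : Type} [MetricSpace X] {S : Sf0 X} {s₀ : ℂ ⧸ S.Λ} (C : S.Cfg s₀) (δ η : ℝ) : Prop :=
  ∀ (p q : ℂ → X) (u : ℂ) (a : ℝ), ‖u‖ = 1 → HSec C δ u a p → HSec C δ u a q →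
    (∀ w ∈ Hp u a ∩ interior (C.Cr (δ / 2)), dist (p w) (q w) ≤ η) →
    ∃ w ∈ Hp u a ∩ interior (C.Cr (δ / 2)), p =ᶠ[𝓝 w] q

/-- Uniqueness on half-planes. -/
def SHalf : Prop :=
  ∀ (X : Type) [MetricSpace X] [CompactSpace X] (S : Sf0 X) (s₀ : ℂ ⧸ S.Λ), S.Hyp s₀ →
    ∀ C : S.Cfg s₀, ∃ δ η, C.Sep δ ∧ 0 < η ∧ HalfP C δ η

/-- Equicontinuity of local sections away from the bad values. -/
def SEqui : Prop :=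
  ∀ (X : Type) [MetricSpace X] [CompactSpace X] (S : Sf0 X) (s₀ : ℂ ⧸ S.Λ) (C : S.Cfg s₀),
    ∀ r > 0, ∀ ε > 0, ∃ c > 0, ∀ (f : ℂ → X) (z : ℂ), z ∈ C.Cr r → S.SecOn 0 f (ball z r) →
      ∀ w, dist w z < c → dist (f w) (f z) < ε

/-- Limits of sections over larger and larger discs. -/
def SLim : Prop :=
  ∀ (X : Type) [MetricSpace X] [CompactSpace X] (S : Sf0 X) (s₀ : ℂ ⧸ S.Λ) (C : S.Cfg s₀)
    (δ : ℝ), C.Sep δ → ∀ f : ℕ → ℂ → X,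
    (∀ R : ℝ, ∀ᶠ n in (UU : Filter ℕ), S.SecOn 0 (f n) (C.Btᶜ ∩ closedBall 0 R) ∧
      ∀ c ∈ C.Bt ∩ closedBall 0 R, S.LB (S.Λ.mkQ c) δ fun w => f n (c + w)) →
    ∃ g, C.Cls δ g ∧ ∀ r > 0, ∀ R : ℝ, ∀ ε > 0, ∀ᶠ n in (UU : Filter ℕ),
      ∀ w ∈ C.Cr r ∩ closedBall 0 R, dist (f n w) (g w) < ε

/-- The class of sections is finite. -/
def FinP {X : Type} [MetricSpace X] {S : Sf0 X} {s₀ : ℂ ⧸ S.Λ} (C : S.Cfg s₀) (δ : ℝ) : Prop :=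
  ∃ T : Set (ℂ → X), T.Finite ∧ (∀ p ∈ T, C.Cls δ p) ∧ ∀ p, C.Cls δ p → ∃ q ∈ T, EqOn p q C.Btᶜ

/-- Finiteness from uniqueness on half-planes. -/
def SFin : Prop :=
  ∀ (X : Type) [MetricSpace X] [CompactSpace X] (S : Sf0 X) (s₀ : ℂ ⧸ S.Λ) (C : S.Cfg s₀)
    (δ η : ℝ), C.Sep δ → 0 < η → HalfP C δ η → FinP C δ

/-- A section over a half-plane agrees near some point with a member of the class. -/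
def SShad : Prop :=
  ∀ (X : Type) [MetricSpace X] [CompactSpace X] (S : Sf0 X) (s₀ : ℂ ⧸ S.Λ) (C : S.Cfg s₀)
    (δ η : ℝ), C.Sep δ → 0 < η → HalfP C δ η → FinP C δ → ∀ (g : ℂ → X) (u : ℂ) (a : ℝ),
    ‖u‖ = 1 → S.SecOn 0 g (Hp u a) → ∃ p, C.Cls δ p ∧ ∃ w ∈ Hp u a ∩ C.Btᶜ, g =ᶠ[𝓝 w] p

/-- An entire curve whose projection has an inverse branch on a half-plane factors through a
section. -/
def SFac : Prop :=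
  ∀ (X : Type) [MetricSpace X] [CompactSpace X] (S : Sf0 X) (s₀ : ℂ ⧸ S.Λ) (C : S.Cfg s₀)
    (δ η : ℝ), C.Sep δ → 0 < η → HalfP C δ η → FinP C δ →
    ∀ (h : ℂ → X) (φ Ψ : ℂ → ℂ) (u : ℂ) (a : ℝ), S.Hol h → Differentiable ℂ φ →
      (∀ z, S.π (h z) = S.Λ.mkQ (φ z)) → ‖u‖ = 1 → DifferentiableOn ℂ Ψ (Hp u a) →
      (∀ w ∈ Hp u a, φ (Ψ w) = w) →
      ∃ f, S.Hol f ∧ (∀ z, S.π (f z) = S.Λ.mkQ z) ∧ h = f ∘ φ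

/-- The main theorem in the working structure. -/
def SMain : Prop :=
  ∀ (X : Type) [MetricSpace X] [CompactSpace X] (S : Sf0 X) (s₀ : ℂ ⧸ S.Λ), S.Hyp s₀ →
    {f | S.Hol f ∧ ∀ z, S.π (f z) = S.Λ.mkQ z}.Finite ∧
    ∀ (h : ℂ → X) (φ Ψ : ℂ → ℂ) (u : ℂ) (a : ℝ), S.Hol h → Differentiable ℂ φ →
      (∀ z, S.π (h z) = S.Λ.mkQ (φ z)) → ‖u‖ = 1 → DifferentiableOn ℂ Ψ (Hp u a) →
      (∀ w ∈ Hp u a, φ (Ψ w) = w) →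
      ∃ f, S.Hol f ∧ (∀ z, S.π (f z) = S.Λ.mkQ z) ∧ h = f ∘ φ

theorem smain (h1 : SCfg) (h2 : SHalf) (h3 : SFin) (h4 : SFac) : SMain := by
  intro X _ _ S s₀ hS
  obtain ⟨C⟩ := h1 X S s₀ hS
  obtain ⟨δ, η, a1, a2, a3⟩ := h2 X S s₀ hS C
  have a4 := h3 X S s₀ C δ η a1 a2 a3
  refine ⟨?_, h4 X S s₀ C δ η a1 a2 a3 a4⟩
  obtain ⟨T, b1, -, b3⟩ := a4
  refine (b1.biUnion (t := fun q => {f | S.Hol f ∧ EqOn f q C.Btᶜ}) fun q _ =>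
    Set.Subsingleton.finite fun f hf f' hf' => ?_).subset fun f hf => ?_
  · refine hf.1.eq_of_frequently hf'.1 (z₀ := 0) (Eventually.frequently ?_)
    exact (C.eventually_notMem_Bt 0).mono fun z hz => (hf.2 hz).trans (hf'.2 hz).symm
  · obtain ⟨q, c1, c2⟩ := b3 f (Sf0.Cfg.cls_of_sec δ hf.1 hf.2)
    exact mem_biUnion c1 ⟨hf.1, c2⟩

end Pool.Agent.P.MP_7ede32_ag.Geo
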