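import Pool.Agent.P.MP_7ede32_ag.Geo.Stm
import Pool.Agent.P.MP_e711b0_an.Div

/-!
New charts from the inverse function theorem, and division of the form by the equation of a fibre.
-/

open Filter Topology Metric Set

noncomputable section

namespace Pool.Agent.P.MP_7ede32_ag.Geo

open Ell (E2 det2 lin_apply)

namespace InvP

/-- two independent linear forms give a linear automorphism of the plane -/
lemma exists_equiv {l₁ l₂ : E2 →L[ℂ] ℂ} (h : wedge l₁ l₂ ≠ 0) :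
    ∃ i : E2 ≃L[ℂ] E2, (i : E2 →L[ℂ] E2) = l₁.prod l₂ := by
  have hinj : Function.Injective (l₁.prod l₂ : E2 →L[ℂ] E2).toLinearMap := by
    rw [injective_iff_map_eq_zero]
    intro u hu
    have h1 : l₁ u = 0 := congrArg Prod.fst hu
    have h2 : l₂ u = 0 := congrArg Prod.snd hu
    have h3 : ∀ v, det2 u v = 0 := fun v => by
      have h4 := wedge_apply l₁ l₂ u v
      rw [h1, h2, zero_mul, mul_zero, sub_zero] at h4
      exact (mul_eq_zero.1 h4.symm).resolve_left h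
    have h5 := h3 (1, 0)
    have h6 := h3 (0, 1)
    simp only [det2, mul_zero, mul_one, zero_sub, neg_eq_zero, sub_zero] at h5 h6
    exact Prod.ext h6 h5
  exact ⟨(LinearEquiv.ofInjectiveEndo _ hinj).toContinuousLinearEquiv, by ext <;> rfl⟩

/-- local analytic isomorphism given by an analytic map with invertible derivative -/
lemma exists_local {Φ : E2 → E2} {a : E2} (hΦ : AnalyticAt ℂ Φ a) {i : E2 ≃L[ℂ] E2}
    (hi : fderiv ℂ Φ a = i) : ∃ φ : OpenPartialHomeomorph E2 E2, a ∈ φ.source ∧ ⇑φ = Φ ∧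
      (∀ y ∈ φ.source, AnalyticAt ℂ φ y) ∧ ∀ y ∈ φ.target, AnalyticAt ℂ φ.symm y := by
  have hs : HasStrictFDerivAt Φ (i : E2 →L[ℂ] E2) a := hi ▸ hΦ.hasStrictFDerivAt
  have ha := hs.mem_toOpenPartialHomeomorph_source
  have h1 : AnalyticAt ℂ (hs.toOpenPartialHomeomorph Φ).symm (Φ a) :=
    (hs.toOpenPartialHomeomorph Φ).analyticAt_symm' ha hΦ hi
  have h2 : {p | AnalyticAt ℂ Φ p ∧ AnalyticAt ℂ (hs.toOpenPartialHomeomorph Φ).symm (Φ p)} ∈ 𝓝 a :=
    hΦ.eventually_analyticAt.and (hΦ.continuousAt.eventually h1.eventually_analyticAt)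
  refine ⟨(hs.toOpenPartialHomeomorph Φ).restrOpen _ (isOpen_interior (s := {p | AnalyticAt ℂ Φ p ∧
    AnalyticAt ℂ (hs.toOpenPartialHomeomorph Φ).symm (Φ p)})),
    ⟨ha, mem_interior_iff_mem_nhds.2 h2⟩, rfl, fun y hy => (interior_subset hy.2).1,
    fun y hy => ?_⟩
  have h3 := (interior_subset (OpenPartialHomeomorph.map_target _ hy).2).2
  have h4 := OpenPartialHomeomorph.right_inv _ hy
  change Φ _ = y at h4
  rw [h4] at h3
  exact h3

lemma exists_wedge {l : E2 →L[ℂ] ℂ} (h : l ≠ 0) : ∃ m : E2 →L[ℂ] ℂ, wedge l m ≠ 0 := by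
  by_contra hcon
  push Not at hcon
  have h1 := hcon (ContinuousLinearMap.fst ℂ ℂ ℂ)
  have h2 := hcon (ContinuousLinearMap.snd ℂ ℂ ℂ)
  simp only [wedge, ContinuousLinearMap.coe_fst', ContinuousLinearMap.coe_snd', mul_zero, mul_one,
    zero_sub, neg_eq_zero, sub_zero] at h1 h2
  refine h (ContinuousLinearMap.ext fun u => ?_)
  rw [lin_apply l u, h1, h2]
  simp

end InvP

theorem sinv : SInv := by
  intro X _ S x e f₁ f₂ he hx h1 h2 hw
  obtain ⟨i, hi⟩ := InvP.exists_equiv hw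
  have a1 := h1 e he hx
  have a2 := h2 e he hx
  obtain ⟨φ, b1, b2, b3, b4⟩ := InvP.exists_local
    (Φ := fun p => ((f₁ ∘ e.symm) p, (f₂ ∘ e.symm) p)) (a1.prod a2) (i := i) (by
      rw [hi]
      exact (a1.differentiableAt.hasFDerivAt.prodMk a2.differentiableAt.hasFDerivAt).fderiv)
  refine ⟨e.trans φ, S.comp e he φ b3 b4, ⟨hx, b1⟩, fun y hy => ?_⟩
  change φ (e y) = _
  rw [b2]
  simp only [Function.comp_apply, e.left_inv hy.1]

theorem sdiv (h : SInv) : SDiv := by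
  intro X _ S s₀ hS x hx
  obtain ⟨e, he, hxe, h0⟩ := Sf0.exists_chart0 (S := S) x
  have hmu : S.MuOk s₀ x := Sf0.muOk_fib hx
  obtain ⟨m, hm⟩ := InvP.exists_wedge (l := S.dπ e x)
    fun h1 => (hS.reg0 x hx).1 (Sf0.crit_of_chart he hxe h1)
  have h1 : (fun y => m (e y)) ∘ e.symm =ᶠ[𝓝 (e x)] m := by
    filter_upwards [e.open_target.mem_nhds (e.map_source hxe)] with p hp
    simp [e.right_inv hp]
  have h2 : D (fun y => m (e y)) e x = m := h1.fderiv_eq.trans m.fderiv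
  obtain ⟨e', he', hx', h3⟩ := h X S x e (S.mu s₀) (fun y => m (e y)) he hxe hmu.1
    (Sf0.anAt_of_chart he hxe ((m.analyticAt _).congr h1.symm)) (by rwa [hmu.D_eq hxe, h2])
  have h4 : e' x = 0 := by
    rw [h3 x hx', hmu.eq_zero_iff.2 hx, h0, map_zero]
    rfl
  have h5 : ∀ᶠ p in 𝓝 (0 : E2), S.mu s₀ (e'.symm p) = p.1 ∧ (p.1 = 0 → S.ω e' p = 0) := by
    rw [← h4]
    filter_upwards [e'.open_target.mem_nhds (e'.map_source hx'),
      Sf0.symm_eventually hx' hmu.eventually] with p a1 a2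
    have a3 : S.mu s₀ (e'.symm p) = p.1 := by
      have a4 := h3 _ (e'.map_target a1)
      rw [e'.right_inv a1] at a4
      exact (congrArg Prod.fst a4).symm
    refine ⟨a3, fun a4 => ?_⟩
    have a5 := (hS.reg0 _ (a2.eq_zero_iff.1 (a3.trans a4))).2 e' he' (e'.map_target a1)
    rwa [e'.right_inv a1] at a5
  have h6 : MP_e711b0_an.Hol (S.ω e') (𝓝 0) := by
    have a1 := S.ω_an e' he' x hx'
    rw [h4] at a1
    exact a1.eventually_analyticAt.mono fun _ a2 => a2.differentiableAt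
  obtain ⟨H, b1, b2⟩ := MP_e711b0_an.hadamard
    (π := (ContinuousLinearMap.inr ℂ ℂ ℂ).comp (ContinuousLinearMap.snd ℂ ℂ ℂ)) (map_zero _) h6
  have h7 : Tendsto (fun p : E2 => ((0, p.2) : E2)) (𝓝 0) (𝓝 0) :=
    (show Continuous fun p : E2 => ((0, p.2) : E2) by fun_prop).tendsto' 0 0 rfl
  refine ⟨e', he', hx', h4, fun p => H p (1, 0), ?_⟩
  filter_upwards [b1, b2, h5, h7.eventually h5] with p c1 c2 c3 c4
  refine ⟨c1.clm_apply (differentiableAt_const _), ?_⟩
  have c5 : p - ((0, p.2) : E2) = p.1 • ((1, 0) : E2) := by ext <;> simp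
  change S.ω e' p = S.ω e' (0, p.2) + H p (p - (0, p.2)) at c2
  rw [c2, c4.2 rfl, c3.1, c5, map_smul, zero_add, smul_eq_mul]

end Pool.Agent.P.MP_7ede32_ag.Geo
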