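import Pool.Agent.P.MP_7ede32_ag.Geo.Stm

/-!
The branches of a plane curve germ, from the Puiseux parametrisation.
-/

open Filter Topology Metric Set

noncomputable section

namespace Pool.Agent.P.MP_7ede32_ag.Geo

open Ell (E2)

namespace BrP

/-- A local `N`-th root near `t ^ N`. -/
lemma exists_root (N : ℕ) (hN : 0 < N) (t : ℂ) (ht : t ≠ 0) :
    ∃ L : ℂ → ℂ, AnalyticAt ℂ L (t ^ N) ∧ L (t ^ N) = t ∧ ∀ᶠ x in 𝓝 (t ^ N), L x ^ N = x := by
  have htN : t ^ N ≠ 0 := pow_ne_zero _ ht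
  have hN' : (N : ℂ) ≠ 0 := by exact_mod_cast hN.ne'
  refine ⟨fun x => t * Complex.exp (Complex.log (x / t ^ N) / N), ?_, ?_, ?_⟩
  · have a1 : AnalyticAt ℂ (fun x : ℂ => x / t ^ N) (t ^ N) :=
      analyticAt_id.div analyticAt_const htN
    have a2 : AnalyticAt ℂ (fun x : ℂ => Complex.log (x / t ^ N)) (t ^ N) :=
      a1.clog (by simp [div_self htN])
    exact analyticAt_const.mul (a2.div analyticAt_const hN').cexp'
  · simp [div_self htN]
  · filter_upwards [eventually_ne_nhds htN] with x hx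
    rw [mul_pow, ← Complex.exp_nat_mul, mul_div_cancel₀ _ hN',
      Complex.exp_log (div_ne_zero hx htN), mul_div_cancel₀ _ htN]

/-- Near a point where the roots are distinct, the index of a root is determined. -/
lemma sel {α : Type*} {m : ℕ} (y : Fin m → ℂ → ℂ) (t : ℂ) (k : Fin m)
    (hy : ∀ k, ContinuousAt (y k) t) (hinj : ∀ k', y k' t = y k t → k' = k) {l : Filter α}
    (σ v : α → ℂ) (hσ : Tendsto σ l (𝓝 t)) (hv : Tendsto v l (𝓝 (y k t))) :
    ∀ᶠ a in l, ∀ k', v a = y k' (σ a) → k' = k := by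
  rw [eventually_all]
  intro k'
  by_cases h : k' = k
  · exact Eventually.of_forall fun _ _ => h
  · have h1 : Tendsto (fun a => v a - y k' (σ a)) l (𝓝 (y k t - y k' t)) :=
      hv.sub ((hy k').tendsto.comp hσ)
    have h2 : y k t - y k' t ≠ 0 := fun e => h (hinj k' (sub_eq_zero.1 e).symm)
    filter_upwards [h1.eventually_ne h2] with a ha e
    exact absurd (sub_eq_zero.2 e) ha

end BrP

open BrP in
theorem sbr (h : SPuis) : SBr := by
  intro F hF hF0
  obtain ⟨M, N, m, ρ, r, y, hN, hρ, hr, h1, h2, h3⟩ := h F hF hF0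
  have cont : ∀ t ∈ ball (0 : ℂ) ρ, ∀ k, ContinuousAt (y k) t :=
    fun t ht k => ((h1 k).1 t ht).continuousAt
  refine ⟨m, ρ, fun k t => M (t ^ N, y k t), hρ,
    fun k => ⟨?_, ?_, fun t ht => ⟨((h1 k).2.2 t ht).2, fun e => ?_⟩⟩, ?_, ?_, ?_⟩
  · intro t ht
    exact ((M : E2 →L[ℂ] E2).analyticAt _).comp ((analyticAt_id.pow N).prod ((h1 k).1 t ht))
  · have : ((0 : ℂ) ^ N, y k 0) = (0 : E2) := by simp [(h1 k).2.1, hN.ne']
    simp only [this, map_zero]
  · have : (t ^ N, y k t) = (0 : E2) := M.map_eq_zero_iff.1 e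
    exact (pow_eq_zero_iff hN.ne').1 (congrArg Prod.fst this)
  · intro ρ' hρ'
    have c0 : Tendsto (fun p : E2 => M.symm p) (𝓝 0) (𝓝 0) := by
      simpa using M.symm.continuous.tendsto 0
    have c1 : Tendsto (fun p : E2 => ‖(M.symm p).1‖) (𝓝 0) (𝓝 0) := by
      simpa using ((continuous_fst.tendsto _).comp c0).norm
    have c2 : Tendsto (fun p : E2 => ‖(M.symm p).2‖) (𝓝 0) (𝓝 0) := by
      simpa using ((continuous_snd.tendsto _).comp c0).norm
    have hmin : 0 < min ρ ρ' := lt_min hρ hρ'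
    filter_upwards [c1.eventually_lt_const (pow_pos hmin N), c2.eventually_lt_const hr]
      with p a1 a2 a3
    obtain ⟨t, ht⟩ := IsAlgClosed.exists_pow_nat_eq (M.symm p).1 hN
    have b1 : ‖t‖ < min ρ ρ' := by
      rw [← ht, norm_pow] at a1
      exact lt_of_pow_lt_pow_left₀ N hmin.le a1
    have b2 : t ∈ ball (0 : ℂ) ρ := by
      simpa using b1.trans_le (min_le_left _ _)
    have b3 : M (t ^ N, (M.symm p).2) = p := by
      rw [ht, Prod.mk.eta, M.apply_symm_apply]
    obtain ⟨k, hk⟩ := h3 t b2 _ a2 (by rw [b3, a3])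
    exact ⟨k, t, b2, b1.trans_le (min_le_right _ _), by rw [← hk, b3]⟩
  · intro k t ht ht0
    obtain ⟨L, l1, l2, l3⟩ := exists_root N hN t ht0
    have e0 : M.symm (M (t ^ N, y k t)) = (t ^ N, y k t) := M.symm_apply_apply _
    have a0 : AnalyticAt ℂ (fun p : E2 => M.symm p) (M (t ^ N, y k t)) :=
      (M.symm : E2 →L[ℂ] E2).analyticAt _
    have a1 : AnalyticAt ℂ (fun p : E2 => (M.symm p).1) (M (t ^ N, y k t)) :=
      analyticAt_fst.comp a0
    have a2 : AnalyticAt ℂ (fun p : E2 => (M.symm p).2) (M (t ^ N, y k t)) :=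
      analyticAt_snd.comp a0
    have c1 : Tendsto (fun p : E2 => (M.symm p).1) (𝓝 (M (t ^ N, y k t))) (𝓝 (t ^ N)) := by
      have := a1.continuousAt.tendsto
      rwa [e0] at this
    have c2 : Tendsto (fun p : E2 => (M.symm p).2) (𝓝 (M (t ^ N, y k t))) (𝓝 (y k t)) := by
      have := a2.continuousAt.tendsto
      rwa [e0] at this
    have c3 : Tendsto (fun p : E2 => L (M.symm p).1) (𝓝 (M (t ^ N, y k t))) (𝓝 t) := by
      have := l1.continuousAt.tendsto.comp c1
      rwa [l2] at this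
    refine ⟨fun p => L (M.symm p).1, ?_, ?_, ?_⟩
    · exact AnalyticAt.comp_of_eq l1 a1 (by rw [e0])
    · simp only [e0, l2]
    · filter_upwards [c1.eventually l3, c3.eventually (isOpen_ball.mem_nhds ht),
        c2.norm.eventually_lt_const ((h1 k).2.2 t ht).1,
        sel y t k (cont t ht) (fun k' e => h2 t ht ht0 k' k e) _ _ c3 c2] with p b1 b2 b3 b4 b5
      have b6 : M (L (M.symm p).1 ^ N, (M.symm p).2) = p := by
        rw [b1, Prod.mk.eta, M.apply_symm_apply]
      obtain ⟨k', hk'⟩ := h3 _ b2 _ b3 (by rw [b6, b5])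
      obtain rfl := b4 k' hk'
      rw [← hk', b6]
  · intro k k' t ht t' ht' e
    have e0 : (t ^ N, y k t) = (t' ^ N, y k' t') := M.injective e
    have e1 : t ^ N = t' ^ N := congrArg Prod.fst e0
    have e2 : y k t = y k' t' := congrArg Prod.snd e0
    have e3 : ‖t‖ = ‖t'‖ := by
      have := congrArg norm e1
      rw [norm_pow, norm_pow] at this
      exact (pow_left_inj₀ (norm_nonneg _) (norm_nonneg _) hN.ne').1 this
    refine ⟨e3, fun s hs => ?_⟩
    have e4 : (s * t) ^ N = (s * t') ^ N := by rw [mul_pow, mul_pow, e1]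
    suffices y k (s * t) = y k' (s * t') by simp only [e4, this]
    by_cases ht0 : t = 0
    · have ht0' : t' = 0 := by
        rw [ht0, norm_zero] at e3
        exact norm_eq_zero.1 e3.symm
      rw [ht0, ht0', mul_zero, (h1 k).2.1, (h1 k').2.1]
    set ζ : ℂ := t' / t with hζ
    have z1 : ζ * t = t' := div_mul_cancel₀ _ ht0
    have z2 : ζ ^ N = 1 := by
      rw [hζ, div_pow, ← e1, div_self (pow_ne_zero _ ht0)]
    have z3 : ‖ζ‖ = 1 := by
      rw [hζ, norm_div, ← e3, div_self (norm_ne_zero_iff.2 ht0)]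
    have z4 : ∀ u ∈ ball (0 : ℂ) ρ, ζ * u ∈ ball (0 : ℂ) ρ := fun u hu => by
      simpa [z3] using hu
    have an : AnalyticOnNhd ℂ (fun u => y k' (ζ * u)) (ball 0 ρ) := fun u hu =>
      AnalyticAt.comp_of_eq ((h1 k').1 _ (z4 u hu)) (analyticAt_const.mul analyticAt_id) rfl
    have c1 : Tendsto (fun u => y k' (ζ * u)) (𝓝 t) (𝓝 (y k t)) := by
      have := (an t ht).continuousAt.tendsto
      rwa [z1, ← e2] at this
    have ev : y k =ᶠ[𝓝 t] fun u => y k' (ζ * u) := by
      filter_upwards [isOpen_ball.mem_nhds ht,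
        sel y t k (cont t ht) (fun k' e => h2 t ht ht0 k' k e) id _ tendsto_id c1] with u b1 b2
      have b3 := (h1 k').2.2 _ (z4 u b1)
      rw [mul_pow, z2, one_mul] at b3
      obtain ⟨k'', hk''⟩ := h3 u b1 _ b3.1 b3.2
      obtain rfl := b2 k'' hk''
      exact hk''.symm
    have := (h1 k).1.eqOn_of_preconnected_of_eventuallyEq an (convex_ball _ _).isPreconnected ht ev
      (x := s * t) (by simpa using hs)
    rw [this, ← z1]
    simp only [mul_left_comm]

end Pool.Agent.P.MP_7ede32_ag.Geo
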