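import Pool.Agent.P.MP_7ede32_ag.Geo.Stm

/-!
The forms `mu ^ n ω` are exact near a fibre: construction of the cocycle.
-/

open Filter Topology Metric Set

noncomputable section

namespace Pool.Agent.P.MP_7ede32_ag.Geo

open Ell (E2)

namespace CechP

variable {X : Type} [MetricSpace X] {S : Sf0 X} {s₀ s : ℂ ⧸ S.Λ}

/-- `A dB` is a local primitive of `mu ^ n ω` on `V`, and `h` is a primitive of `A dB` along the
fibre and the zero set. -/
def Loc (S : Sf0 X) (s : ℂ ⧸ S.Λ) (n : ℤ) (V : Set X) (A B h : X → ℂ) : Prop :=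
  (∀ y ∈ V, S.HolX A y ∧ S.HolX B y ∧ (S.π y ≠ s → S.Wd A B (S.mu s y ^ n) y)) ∧
    ∀ (l : ℂ → X) (t : ℂ), (∀ᶠ σ in 𝓝 t, S.HolAt l σ ∧ (S.π (l σ) = s ∨ l σ ∈ S.Z)) → l t ∈ V →
      HasDerivAt (h ∘ l) (A (l t) * deriv (B ∘ l) t) t

lemma Loc.mono {n : ℤ} {V W : Set X} {A B h : X → ℂ} (H : Loc S s n V A B h) (hW : W ⊆ V) :
    Loc S s n W A B h :=
  ⟨fun y hy => H.1 y (hW hy), fun l t h1 h2 => H.2 l t h1 (hW h2)⟩

/-- the coefficient of `mu ^ n ω` in a box extends holomorphically over the fibre -/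
lemma exists_coeff (h3 : SDiv) (hS : S.Hyp s₀) {x : X} (hx : S.π x = s) :
    ∃ e r, S.IsBox e r x ∧ (∀ y ∈ box e r, S.MuOk s y) ∧
      ∀ n : ℤ, (0 ≤ n ∨ (s = s₀ ∧ n = -1)) → ∃ κ : E2 → ℂ, DifferentiableOn ℂ κ (ball 0 r) ∧
        ∀ y ∈ box e r, S.π y ≠ s → κ (e y) = S.mu s y ^ n * S.ω e (e y) := by
  have h0 : ∃ e ∈ S.A, x ∈ e.source ∧ e x = 0 ∧ ∃ κ : E2 → ℂ, ∀ᶠ p in 𝓝 (0 : E2), s = s₀ →
      DifferentiableAt ℂ κ p ∧ S.ω e p = S.mu s (e.symm p) * κ p := by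
    by_cases hs : s = s₀
    · subst hs
      obtain ⟨e, he, h1, h2, κ, h4⟩ := h3 X S s hS x hx
      exact ⟨e, he, h1, h2, κ, h4.mono fun p hp _ => hp⟩
    · obtain ⟨e, he, h1, h2⟩ := Sf0.exists_chart0 (S := S) x
      exact ⟨e, he, h1, h2, 0, Eventually.of_forall fun p h => absurd h hs⟩
  obtain ⟨e, he, h1, h2, κ, h4⟩ := h0
  rw [← h2] at h4
  have h5 := (Sf0.muOk_fib hx).eventually.and ((e.continuousAt h1).eventually h4)
  obtain ⟨r, hb, hr⟩ := (Sf0.eventually_box he h1 h2 h5).exists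
  refine ⟨e, r, hb, fun y hy => (hr hy).1, fun n hn => ?_⟩
  rcases hn with hn | ⟨hs, rfl⟩
  · obtain ⟨m, rfl⟩ := Int.eq_ofNat_of_zero_le hn
    refine ⟨fun p => (S.mu s ∘ e.symm) p ^ m * S.ω e p, ?_, fun y hy _ => ?_⟩
    · refine ((hb.diffOn fun y hy => (hr hy).1.holX).pow m).mul fun p hp => ?_
      have := S.ω_an e hb.1 _ (hb.symm_mem hp).1.1
      rw [(hb.symm_mem hp).2] at this
      exact this.differentiableAt.differentiableWithinAt
    · simp [e.left_inv hy.1]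
  · refine ⟨κ, fun p hp => ?_, fun y hy hne => ?_⟩
    · have := ((hr (hb.symm_mem hp).1).2 hs).1
      rw [(hb.symm_mem hp).2] at this
      exact this.differentiableWithinAt
    · have h6 := ((hr hy).2 hs).2
      have h7 : S.mu s y ≠ 0 := fun h => hne ((hr hy).1.eq_zero_iff.1 h)
      rw [e.left_inv hy.1] at h6
      rw [h6, zpow_neg_one, ← mul_assoc, inv_mul_cancel₀ h7, one_mul]

/-- local primitives near a point of the fibre -/
lemma exists_loc (h1 : SCurveX) (h3 : SDiv) (hS : S.Hyp s₀) {x : X} (hx : S.π x = s) :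
    ∃ V ∈ 𝓝 x, (∀ y ∈ V, S.MuOk s y) ∧
      ∀ n : ℤ, (0 ≤ n ∨ (s = s₀ ∧ n = -1)) → ∃ A B h, Loc S s n V A B h := by
  obtain ⟨e, r, hb, hm, hκ⟩ := exists_coeff h3 hS hx
  obtain ⟨N, hN, hsub, -, hh⟩ := h1 X S s₀ hS s x hx (box e r) (isOpen_box e r) hb.mem
  refine ⟨N, hN, fun y hy => hm y (hsub hy), fun n hn => ?_⟩
  obtain ⟨κ, k1, k2⟩ := hκ n hn
  obtain ⟨P, p1, p2⟩ := prim2 k1
  have hA := fun y (hy : y ∈ box e r) => hb.holX (P := fun p => -P p) p1.neg hy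
  have hB := fun y (hy : y ∈ box e r) =>
    hb.holX (P := fun p : E2 => p.1) differentiable_fst.differentiableOn hy
  obtain ⟨h, hh⟩ := hh _ _ fun y hy => ⟨(hA y hy).1, (hB y hy).1⟩
  refine ⟨_, _, h, fun y hy => ?_, hh⟩
  have hy' := hsub hy
  refine ⟨(hA y hy').1, (hB y hy').1, fun hne => ?_⟩
  refine Sf0.wd_of_chart (hA y hy').1 (hB y hy').1 hb.1 hy'.1 ?_
  have e1 : fderiv ℂ (fun p => -P p) (e y) = -fderiv ℂ P (e y) := fderiv_neg
  have e2 : fderiv ℂ (fun p : E2 => p.1) (e y) = ContinuousLinearMap.fst ℂ ℂ ℂ := fderiv_fst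
  rw [(hA y hy').2, (hB y hy').2, ← k2 y hy' hne, e1, e2]
  simp [wedge, (p2 _ hy'.2).1]

/-- two local primitives have the same exterior derivative -/
lemma Loc.wdEq (hS : S.Hyp s₀) {n : ℤ} {V : Set X} (hV : IsOpen V) {A B h A' B' h' : X → ℂ}
    (H : Loc S s n V A B h) (H' : Loc S s n V A' B' h') {y : X} (hy : y ∈ V) :
    S.WdEq A B A' B' y := by
  by_cases hs : S.π y = s
  · refine Sf0.wdEq_of_frequently (H.1 y hy).1 (H.1 y hy).2.1 (H'.1 y hy).1 (H'.1 y hy).2.1 ?_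
    refine ((not_eventually.1 (hS.π_nc y)).and_eventually (hV.mem_nhds hy)).mono fun z hz => ?_
    have h1 : S.π z ≠ s := hs ▸ hz.1
    exact ((H.1 z hz.2).2.2 h1).wdEq ((H'.1 z hz.2).2.2 h1)
  · exact ((H.1 y hy).2.2 hs).wdEq ((H'.1 y hy).2.2 hs)

/-- the difference of two local primitives is exact on a box, with a normalised primitive -/
lemma Loc.exists_diff (h2 : SPoinc) (hS : S.Hyp s₀) {n : ℤ} {A B h A' B' h' : X → ℂ}
    {e : OpenPartialHomeomorph X E2} {r : ℝ} {x : X} (hb : S.IsBox e r x)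
    (H : Loc S s n (box e r) A B h) (H' : Loc S s n (box e r) A' B' h') :
    ∃ g : X → ℂ, (∀ y ∈ box e r, S.Rel g A B A' B' y) ∧ ∀ y l,
      S.Arc l x y {z | z ∈ box e r ∧ (S.π z = s ∨ z ∈ S.Z)} → g y = h y - h' y := by
  obtain ⟨γ, hγ⟩ := h2 X S e r x hb A B A' B' fun y hy =>
    ⟨(H.1 y hy).1, (H.1 y hy).2.1, (H'.1 y hy).1, (H'.1 y hy).2.1,
      H.wdEq hS (isOpen_box e r) H' hy⟩
  refine ⟨fun y => γ y + (h x - h' x - γ x), fun y hy l t a1 a2 =>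
    (hγ y hy l t a1 a2).add_const _, fun y l hl => ?_⟩
  have := hl.const (k := fun z => γ z - (h z - h' z)) fun t ht => by
    have a0 := ht.self_of_nhds
    have a1 : ∀ᶠ σ in 𝓝 t, S.HolAt l σ ∧ (S.π (l σ) = s ∨ l σ ∈ S.Z) :=
      ht.mono fun σ hσ => ⟨hσ.1, hσ.2.2⟩
    have a2 := (hγ _ a0.2.1 l t a0.1 rfl).sub ((H.2 l t a1 a0.2.1).sub (H'.2 l t a1 a0.2.1))
    rw [sub_self] at a2
    exact a2
  linear_combination -this

end CechP

open CechP in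
theorem scech (h1 : SCurveX) (h2 : SPoinc) (h3 : SDiv) : SCech := by
  intro X _ _ S s₀ hS s
  have hF : IsCompact {x | S.π x = s} := (Sf0.isClosed_fib s).isCompact
  obtain ⟨l₃, hl₃, H3⟩ := leb_of hF (fun _ V => (∀ y ∈ V, S.MuOk s y) ∧
    ∀ n : ℤ, (0 ≤ n ∨ (s = s₀ ∧ n = -1)) → ∃ A B h, Loc S s n V A B h)
    fun x hx => exists_loc h1 h3 hS hx
  obtain ⟨l₂', hl₂', H2⟩ := leb_of hF (fun x V => ∃ e r, S.IsBox e r x ∧
    box e r ⊆ ball x (l₃ / 4) ∧ V ⊆ box e r ∧ ∀ y ∈ V, (S.π y = s ∨ y ∈ S.Z) →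
      ∃ l, S.Arc l x y {z | z ∈ box e r ∧ (S.π z = s ∨ z ∈ S.Z)}) fun x hx => by
    obtain ⟨e, r, a1, a2⟩ := Sf0.exists_box (S := S) (ball_mem_nhds x (by positivity : 0 < l₃ / 4))
    obtain ⟨N, b1, b2, b3, -⟩ := h1 X S s₀ hS s x hx (box e r) (isOpen_box e r) a1.mem
    exact ⟨N, b1, e, r, a1, a2, b2, b3⟩
  obtain ⟨l₂, hl₂, c1, c2⟩ : ∃ l₂ > 0, l₂ ≤ l₂' ∧ l₂ ≤ l₃ :=
    ⟨min l₂' l₃, lt_min hl₂' hl₃, min_le_left _ _, min_le_right _ _⟩
  obtain ⟨l₁', hl₁', H1⟩ := Sf0.leb_box (S := S) hF (fun x => ball x (l₂ / 4))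
    fun x _ => ball_mem_nhds x (by positivity)
  obtain ⟨l, hl, c3, c4⟩ : ∃ l > 0, l ≤ l₁' ∧ l ≤ l₂ / 4 :=
    ⟨min l₁' (l₂ / 4), lt_min hl₁' (by positivity), min_le_left _ _, min_le_right _ _⟩
  have c5 : l ≤ l₃ := by linarith
  refine ⟨l, hl, fun α hα y hy => ?_, fun n hn => ?_⟩
  · obtain ⟨_, -, V, a1, a2⟩ := H3 α hα
    exact a1.1 y (a2 (ball_subset_ball c5 hy))
  have K3 : ∀ α, S.π α = s → ∃ A B h, Loc S s n (ball α l₃) A B h := fun α hα => by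
    obtain ⟨_, -, V, a1, a2⟩ := H3 α hα
    obtain ⟨A, B, h, a3⟩ := a1.2 n hn
    exact ⟨A, B, h, a3.mono a2⟩
  choose! A B h K3 using K3
  have K2 : ∀ α β, S.π α = s → S.π β = s → dist α β < l₃ / 2 → ∃ g : X → ℂ, ∀ y ∈ ball α l₂,
      S.Rel g (A α) (B α) (A β) (B β) y ∧ ((S.π y = s ∨ y ∈ S.Z) → g y = h α y - h β y) := by
    intro α β hα hβ hd
    obtain ⟨x, -, V, ⟨e, r, a1, a2, a3, a4⟩, a5⟩ := H2 α hα
    have a6 : dist α x < l₃ / 4 := mem_ball.1 (a2 (a3 (a5 (mem_ball_self hl₂'))))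
    have a7 : ∀ y ∈ box e r, dist y α < l₃ / 2 := fun y hy => by
      linarith [dist_triangle_right y α x, mem_ball.1 (a2 hy)]
    obtain ⟨g, b1, b2⟩ := Loc.exists_diff h2 hS a1
      ((K3 α hα).mono fun y hy => mem_ball.2 (by linarith [a7 y hy]))
      ((K3 β hβ).mono fun y hy => mem_ball.2 (by linarith [a7 y hy, dist_triangle y α β]))
    refine ⟨g, fun y hy => ?_⟩
    have hy' := a5 (ball_subset_ball c1 hy)
    refine ⟨b1 y (a3 hy'), fun hY => ?_⟩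
    obtain ⟨m, hm⟩ := a4 y hy' hY
    exact b2 y m hm
  choose! g K2 using K2
  have hd : ∀ α β y : X, y ∈ ball α l → y ∈ ball β l → dist α β < l₂ / 2 := fun α β y a1 a2 => by
    linarith [dist_triangle_left α β y, mem_ball.1 a1, mem_ball.1 a2]
  refine ⟨A, B, h, g, fun α hα y hy => (K3 α hα).1 y (ball_subset_ball c5 hy),
    fun α β hα hβ y hy => ?_, fun α β γ hα hβ hγ y hy => ?_, fun α hα m t hm ht => ?_⟩
  · have := K2 α β hα hβ (by linarith [hd α β y hy.1 hy.2]) y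
      (ball_subset_ball (by linarith) hy.1)
    exact ⟨this.1, fun hz => this.2 (Or.inr hz)⟩
  · obtain ⟨x, hx, e, r, a1, a2, a3⟩ := H1 α hα
    have a4 : dist α x < l₂ / 4 := mem_ball.1 (a3 (a2 (mem_ball_self hl₁')))
    have d1 := hd α β y hy.1.1 hy.1.2
    have d2 := hd β γ y hy.1.2 hy.2
    have d3 := hd α γ y hy.1.1 hy.2
    have a5 : ∀ z ∈ box e r, dist z α < l₂ / 2 := fun z hz => by
      linarith [dist_triangle_right z α x, mem_ball.1 (a3 hz)]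
    have b1 := fun z (hz : z ∈ box e r) =>
      K2 α β hα hβ (by linarith) z (mem_ball.2 (by linarith [a5 z hz]))
    have b2 := fun z (hz : z ∈ box e r) =>
      K2 β γ hβ hγ (by linarith) z (mem_ball.2 (by linarith [a5 z hz, dist_triangle z α β]))
    have b3 := fun z (hz : z ∈ box e r) =>
      K2 α γ hα hγ (by linarith) z (mem_ball.2 (by linarith [a5 z hz]))
    have := (a1.arc a1.mem (a2 (ball_subset_ball c3 hy.1.1))).const
      (k := fun z => g α β z + g β γ z - g α γ z) fun t ht => by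
        have a0 := ht.self_of_nhds
        have a6 := (((b1 _ a0.2.1).1 _ t a0.1 rfl).add ((b2 _ a0.2.1).1 _ t a0.1 rfl)).sub
          ((b3 _ a0.2.1).1 _ t a0.1 rfl)
        exact a6.congr_deriv (by ring)
    rw [(b1 x a1.mem).2 (Or.inl hx), (b2 x a1.mem).2 (Or.inl hx),
      (b3 x a1.mem).2 (Or.inl hx)] at this
    linear_combination -this
  · exact (K3 α hα).2 m t (hm.mono fun σ hσ => ⟨hσ.1, Or.inr hσ.2⟩) (ball_subset_ball c5 ht)

end Pool.Agent.P.MP_7ede32_ag.Geo
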