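import Pool.Agent.P.MP_7ede32_ag.Geo.Stm

/-!
There is a finite set of bad values.
-/

open Filter Topology Metric Set Polynomial

noncomputable section

namespace Pool.Agent.P.MP_7ede32_ag.Geo

open Ell (E2 lin_apply)
open MP_e711b0_an (pl pl_of_monic weierstrass_prep)

namespace CfgP

/-- a monic polynomial whose only root is the origin is a power of the variable -/
lemma pl_eq_pow {k : ℕ} {φ : ℕ → ℂ} (h1 : φ k = 1) (h : ∀ v, pl k φ v = 0 → v = 0) (v : ℂ) :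
    pl k φ v = v ^ k := by
  let q : ℂ[X] := X ^ k + ∑ l : Fin k, C (φ l) * X ^ (l : ℕ)
  have hd : (∑ l : Fin k, C (φ l) * X ^ (l : ℕ) : ℂ[X]).degree < k := degree_sum_fin_lt _
  have hm : q.Monic := monic_X_pow_add hd
  have hn : q.natDegree = k := by
    refine natDegree_eq_of_degree_eq_some ?_
    rw [degree_add_eq_left_of_degree_lt (by rwa [degree_X_pow]), degree_X_pow]
  have he : ∀ w, q.eval w = pl k φ w := fun w => by
    rw [pl_of_monic h1, add_comm, Finset.sum_range (fun l => φ l * w ^ l)]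
    simp [q, eval_finsetSum]
  have hr : q.roots = Multiset.replicate k 0 := by
    rw [Multiset.eq_replicate]
    refine ⟨by rw [← hn]; exact IsAlgClosed.card_roots_eq_natDegree, fun b hb => h b ?_⟩
    rw [← he]
    exact (mem_roots hm.ne_zero).1 hb
  have h2 := (IsAlgClosed.splits q).eq_prod_roots_of_monic hm
  rw [← he, h2, hr]
  simp

/-- the roots of a small perturbation of a power are small -/
lemma root_small {k : ℕ} {φ : ℕ → ℂ} (h1 : φ k = 1) {ε : ℝ} (hε : 0 < ε)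
    (h : ∑ l ∈ Finset.range k, ‖φ l‖ * ε ^ l < ε ^ k) {v : ℂ} (hv : pl k φ v = 0) : ‖v‖ < ε := by
  by_contra hc
  have hc : ε ≤ ‖v‖ := not_lt.1 hc
  have hv0 : 0 < ‖v‖ := hε.trans_le hc
  rw [pl_of_monic h1, add_eq_zero_iff_neg_eq] at hv
  have h2 : ‖v‖ ^ k ≤ ∑ l ∈ Finset.range k, ‖φ l‖ * ‖v‖ ^ l := by
    rw [← norm_pow, ← hv, norm_neg]
    refine (norm_sum_le _ _).trans (le_of_eq (Finset.sum_congr rfl fun l _ => ?_))
    rw [norm_mul, norm_pow]
  have h3 : (∑ l ∈ Finset.range k, ‖φ l‖ * ‖v‖ ^ l) * ε ^ k ≤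
      (∑ l ∈ Finset.range k, ‖φ l‖ * ε ^ l) * ‖v‖ ^ k := by
    rw [Finset.sum_mul, Finset.sum_mul]
    refine Finset.sum_le_sum fun l hl => ?_
    obtain ⟨m, rfl⟩ := Nat.exists_eq_add_of_le (Finset.mem_range.1 hl).le
    have h4 : ε ^ m ≤ ‖v‖ ^ m := pow_le_pow_left₀ hε.le hc m
    calc ‖φ l‖ * ‖v‖ ^ l * ε ^ (l + m) = ‖φ l‖ * ‖v‖ ^ l * ε ^ l * ε ^ m := by ring
      _ ≤ ‖φ l‖ * ‖v‖ ^ l * ε ^ l * ‖v‖ ^ m := by gcongr
      _ = _ := by ring
  have h5 := mul_lt_mul_of_pos_right h (pow_pos hv0 k)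
  have h6 := mul_le_mul_of_nonneg_right h2 (pow_pos hε k).le
  nlinarith

/-- a function whose zeros lie on the first axis is a power of the second variable times a unit -/
lemma factor {F : E2 → ℂ} (hF : AnalyticAt ℂ F 0) (hz : ∀ᶠ p in 𝓝 (0 : E2), F p = 0 → p.2 = 0) :
    ∃ (j : ℕ) (g : E2 → ℂ), (∀ᶠ p in 𝓝 0, DifferentiableAt ℂ g p) ∧ g 0 ≠ 0 ∧
      ∀ᶠ p in 𝓝 0, F p = p.2 ^ j * g p := by
  have hne : ¬ ∀ᶠ t in 𝓝 (0 : ℂ), F (0, t) = 0 := by
    intro h
    have h1 : ContinuousAt (fun t : ℂ => ((0, t) : E2)) 0 := by fun_prop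
    have h2 : ∀ᶠ t in 𝓝 (0 : ℂ), t = 0 := (h.and (h1.eventually hz)).mono fun t ht => ht.2 ht.1
    obtain ⟨t, a1, a2⟩ := ((h2.filter_mono nhdsWithin_le_nhds).and
      (self_mem_nhdsWithin (a := (0 : ℂ)) (s := {0}ᶜ))).exists
    exact a2 a1
  obtain ⟨k, φ, g, h1, h2, h3, h4, h5, h6⟩ := weierstrass_prep (V := ℂ) (f := F)
    (hF.eventually_analyticAt.mono fun _ h => h.differentiableAt) hne
  refine ⟨k, g, h4, h5, ?_⟩
  obtain ⟨ε, hε, h7⟩ := Metric.eventually_nhds_iff_ball.1 (hz.and h6)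
  have h8 : ContinuousAt (fun u => ∑ l ∈ Finset.range k, ‖φ u l‖ * ε ^ l) 0 :=
    tendsto_finsetSum _ fun l _ =>
      ((h1 l).self_of_nhds.continuousAt.norm.mul continuousAt_const)
  have h9 : ∀ᶠ u in 𝓝 (0 : ℂ), ∑ l ∈ Finset.range k, ‖φ u l‖ * ε ^ l < ε ^ k := by
    refine h8.eventually_lt continuousAt_const ?_
    rw [Finset.sum_eq_zero fun l hl => by rw [h3 l (Finset.mem_range.1 hl), norm_zero, zero_mul]]
    positivity
  have h10 : ∀ᶠ u in 𝓝 (0 : ℂ), ∀ v, pl k (φ u) v = v ^ k := by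
    filter_upwards [h9, ball_mem_nhds (0 : ℂ) hε] with u a1 a2
    refine pl_eq_pow (h2 u) fun v hv => ?_
    have a3 : ((u, v) : E2) ∈ ball 0 ε := by
      rw [mem_ball_zero_iff, Prod.norm_def]
      exact max_lt (mem_ball_zero_iff.1 a2) (root_small (h2 u) hε a1 hv)
    refine (h7 _ a3).1 ?_
    rw [(h7 _ a3).2, hv, mul_zero]
  have h11 : ContinuousAt (fun p : E2 => p.1) 0 := continuousAt_fst
  filter_upwards [h6, h11.eventually h10] with p a1 a2
  rw [a1, a2, mul_comm]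

lemma exists_wedge {l : E2 →L[ℂ] ℂ} (hl : l ≠ 0) : ∃ m : E2 →L[ℂ] ℂ, wedge l m ≠ 0 := by
  by_contra h
  push Not at h
  have h1 := h (ContinuousLinearMap.fst ℂ ℂ ℂ)
  have h2 := h (ContinuousLinearMap.snd ℂ ℂ ℂ)
  simp [wedge] at h1 h2
  refine hl (ContinuousLinearMap.ext fun u => ?_)
  rw [lin_apply l u, h1, h2]
  simp

variable {X : Type} [MetricSpace X] {S : Sf0 X}

open Sf0

/-- regular coordinates from a function that vanishes on the zero set -/
lemma regAt_of (h2 : SInv) {y : X} {e : OpenPartialHomeomorph X E2} (he : e ∈ S.A)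
    (hy : y ∈ e.source) {s : ℂ ⧸ S.Λ} (hm : S.MuOk s y) {f : X → ℂ} (hf : S.AnAt f y)
    (h0 : f y = 0) (hw : wedge (S.dπ e y) (D f e y) ≠ 0)
    (hz : ∀ᶠ y' in 𝓝 y, y' ∈ S.Z → f y' = 0) : S.RegAt y := by
  have h1 : S.AnAt (fun y' => S.mu s y' - S.mu s y) y := fun e' he' hy' =>
    (hm.1 e' he' hy').sub analyticAt_const
  have h3 : D (fun y' => S.mu s y' - S.mu s y) e y = S.dπ e y := by
    rw [← hm.D_eq hy]
    exact fderiv_sub_const _
  obtain ⟨e', he', hy', h4⟩ := h2 X S y e _ f he hy h1 hf (by rwa [h3])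
  have h5 : e' y = 0 := by rw [h4 y hy', h0, sub_self]; rfl
  refine ⟨e', he', hy', h5, ?_, ?_⟩
  · filter_upwards [hm.2, e'.open_source.mem_nhds hy'] with y' a1 a2
    rw [h4 y' a2, a1.1, hm.2.self_of_nhds.1, map_sub]
    abel
  · refine factor (h5 ▸ S.ω_an e' he' y hy') ?_
    rw [← h5]
    filter_upwards [symm_eventually hy' hz, e'.open_target.mem_nhds (e'.map_source hy')]
      with p a1 a2 a3
    have a4 := e'.map_target a2
    have a5 := a1 (mem_Z_of_chart he' a4 (by rwa [e'.right_inv a2]))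
    rw [← e'.right_inv a2, h4 _ a4]
    exact a5

/-- the same, with the function given by a coordinate minus a function of the base -/
lemma regAt_of_graph (h2 : SInv) {y : X} {e : OpenPartialHomeomorph X E2} (he : e ∈ S.A)
    (hy : y ∈ e.source) {s : ℂ ⧸ S.Λ} (hm : S.MuOk s y) {m : E2 →L[ℂ] ℂ}
    (hw : wedge (S.dπ e y) m ≠ 0) {G : ℂ → ℂ} (hG : AnalyticAt ℂ G (S.mu s y))
    (h0 : m (e y) = G (S.mu s y))
    (hz : ∀ᶠ y' in 𝓝 y, y' ∈ S.Z → m (e y') = G (S.mu s y')) : S.RegAt y := by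
  have h1 : (fun y' => m (e y') - G (S.mu s y')) ∘ e.symm =ᶠ[𝓝 (e y)]
      fun p => m p - G ((S.mu s ∘ e.symm) p) := by
    filter_upwards [e.open_target.mem_nhds (e.map_source hy)] with p hp
    simp [e.right_inv hp]
  have h3 : (S.mu s ∘ e.symm) (e y) = S.mu s y := by simp [e.left_inv hy]
  have h4 := hm.1 e he hy
  refine regAt_of h2 he hy hm (f := fun y' => m (e y') - G (S.mu s y')) ?_ (sub_eq_zero.2 h0) ?_
    (hz.mono fun y' h h' => sub_eq_zero.2 (h h'))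
  · refine anAt_of_chart he hy (AnalyticAt.congr ?_ h1.symm)
    exact (m.analyticAt _).sub (hG.comp_of_eq h4 h3)
  · have h5 := m.hasFDerivAt.sub (hG.differentiableAt.hasDerivAt.comp_hasFDerivAt_of_eq (e y)
      h4.differentiableAt.hasFDerivAt h3.symm)
    have h6 : D (fun y' => m (e y') - G (S.mu s y')) e y =
        m - deriv G (S.mu s y) • S.dπ e y := by
      rw [D, h1.fderiv_eq, ← hm.D_eq hy]
      exact h5.fderiv
    rw [h6]
    intro h7
    refine hw ?_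
    simp only [wedge, sub_apply, smul_apply,
      smul_eq_mul] at h7 ⊢
    linear_combination h7

lemma eventually_regAt (h1 : SRegLoc) (h2 : SInv) {s₀ : ℂ ⧸ S.Λ} (hS : S.Hyp s₀) (x : X) :
    ∀ᶠ y in 𝓝 x, S.π y ≠ S.π x → S.RegAt y := by
  obtain ⟨e, he, hx, h0⟩ := exists_chart0 (S := S) x
  have hm : S.MuOk (S.π x) x := muOk_fib rfl
  have hc : Tendsto e (𝓝 x) (𝓝 0) := h0 ▸ e.continuousAt hx
  have hs := e.open_source.mem_nhds hx
  have key := h1 (S.mu (S.π x) ∘ e.symm) (S.ω e) (h0 ▸ hm.1 e he hx) (h0 ▸ S.ω_an e he x hx)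
    (by rw [← h0, Function.comp_apply, e.left_inv hx]; exact hm.eq_zero_iff.2 rfl)
    (fun h => hS.π_nc x (by
      filter_upwards [hc.eventually h, hs, hm.eventually] with y a1 a2 a3
      rw [Function.comp_apply, e.left_inv a2] at a1
      exact a3.eq_zero_iff.1 a1))
    (h0 ▸ hS.ω_ne e he x hx)
  filter_upwards [hc.eventually key, hs, hm.eventually] with y a1 a2 a3 a4
  have b1 : (S.mu (S.π x) ∘ e.symm) (e y) = S.mu (S.π x) y := by simp [e.left_inv a2]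
  obtain ⟨b2, b3⟩ := a1 (by rw [b1]; exact fun h => a4 (a3.eq_zero_iff.1 h))
  obtain ⟨m, b4⟩ := exists_wedge (l := S.dπ e y) (by rw [← a3.D_eq a2]; exact b2)
  by_cases b5 : S.ω e (e y) = 0
  · obtain ⟨z, c1, c2, -, c3⟩ := b3 b5
    rw [b1] at c1 c2
    refine regAt_of_graph h2 he a2 a3 b4 (G := fun w => m (z w)) ((m.analyticAt _).comp c1)
      (by rw [c2]) ?_
    filter_upwards [(e.continuousAt a2).eventually c3, e.open_source.mem_nhds a2] with y' d1 d2 d3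
    have d4 := d1 (d3 e he d2)
    rw [Function.comp_apply, e.left_inv d2] at d4
    rw [← d4]
  · refine regAt_of_graph h2 he a2 a3 b4 (G := fun _ => m (e y)) analyticAt_const rfl ?_
    have c1 : y ∈ S.Zᶜ := fun h => b5 (h e he a2)
    filter_upwards [isClosed_Z.isOpen_compl.mem_nhds c1] with y' d1 d2
    exact absurd d2 d1

end CfgP

theorem scfg (h1 : SRegLoc) (h2 : SInv) : SCfg := by
  intro X _ _ S s₀ hS
  obtain ⟨t, -, ht⟩ := isCompact_univ.elim_nhds_subcover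
    (fun x : X => {y | S.π y ≠ S.π x → S.RegAt y}) fun x _ => CfgP.eventually_regAt h1 h2 hS x
  refine ⟨⟨{s₀} ∪ ({s | ∃ h, S.Hol h ∧ (∀ z, S.π (h z) = s) ∧ ¬ ∀ z, h z = h 0} ∪ S.π '' t),
    (finite_singleton _).union (hS.fin.union (t.finite_toSet.image _)), Or.inl rfl, ?_, ?_⟩⟩
  · intro s hs h a1 a2
    by_contra a3
    exact hs (Or.inr (Or.inl ⟨h, a1, a2, a3⟩))
  · intro y hy
    obtain ⟨x, a1, a2⟩ := mem_iUnion₂.1 (ht (mem_univ y))
    exact a2 fun h => hy (Or.inr (Or.inr ⟨x, a1, h.symm⟩))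

end Pool.Agent.P.MP_7ede32_ag.Geo
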