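import Pool.Agent.P.MP_7ede32_ag.Geo.Stm

/-!
Arcs to the origin, and primitives of 1-forms along a plane curve germ.
-/

open Filter Topology Metric Set

noncomputable section

namespace Pool.Agent.P.MP_7ede32_ag.Geo

open Ell (E2)

namespace CurveP

/-- the pull-back of a 1-form along a branch is holomorphic -/
lemma diffOn_pull {b : ℂ → E2} {r : ℝ} {N₀ : Set E2} (hb : AnalyticOnNhd ℂ b (ball 0 r))
    (hN : ∀ t ∈ ball (0 : ℂ) r, b t ∈ N₀) {ϖ : E2 → E2 →L[ℂ] ℂ} (hϖ : DifferentiableOn ℂ ϖ N₀) :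
    DifferentiableOn ℂ (fun t => ϖ (b t) (deriv b t)) (ball 0 r) :=
  (hϖ.comp hb.differentiableOn hN).clm_apply hb.deriv.differentiableOn

/-- chain rule for a primitive along a reparametrised branch -/
lemma hasDerivAt_comp {b l : ℂ → E2} {H τ : ℂ → ℂ} {ϖ : E2 → E2 →L[ℂ] ℂ} {t : ℂ}
    (hb : DifferentiableAt ℂ b (τ t)) (hτ : DifferentiableAt ℂ τ t)
    (hH : HasDerivAt H (ϖ (b (τ t)) (deriv b (τ t))) (τ t)) (hl : l =ᶠ[𝓝 t] b ∘ τ) :
    HasDerivAt (H ∘ τ) (ϖ (l t) (deriv l t)) t := by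
  have h1 : HasDerivAt l (deriv τ t • deriv b (τ t)) t :=
    (hb.hasDerivAt.scomp t hτ.hasDerivAt).congr_of_eventuallyEq hl
  have h2 := hH.comp t hτ.hasDerivAt
  rw [h1.deriv, hl.self_of_nhds, map_smul, smul_eq_mul, mul_comm]
  exact h2

/-- the primitive does not depend on the branch -/
lemma prim_eq {b b' : ℂ → E2} {H H' : ℂ → ℂ} {ϖ : E2 → E2 →L[ℂ] ℂ} {r : ℝ} {t t' : ℂ}
    (hb : AnalyticOnNhd ℂ b (ball 0 r)) (hb' : AnalyticOnNhd ℂ b' (ball 0 r))
    (hH : ∀ u ∈ ball (0 : ℂ) r, HasDerivAt H (ϖ (b u) (deriv b u)) u) (h0 : H 0 = 0)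
    (hH' : ∀ u ∈ ball (0 : ℂ) r, HasDerivAt H' (ϖ (b' u) (deriv b' u)) u) (h0' : H' 0 = 0)
    (ht : ‖t‖ < r) (htt : ‖t‖ = ‖t'‖) (he : ∀ s : ℂ, ‖s * t‖ < r → b (s * t) = b' (s * t')) :
    H t = H' t' := by
  set U : Set ℂ := {s | ‖s * t‖ < r} with hU
  have hr : 0 < r := (norm_nonneg _).trans_lt ht
  have hUo : IsOpen U := isOpen_lt (by fun_prop) continuous_const
  have hUc : Convex ℝ U := by
    have : U = (LinearMap.mulRight ℝ t) ⁻¹' ball 0 r := by
      ext s; simp [hU]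
    rw [this]
    exact (convex_ball _ _).linear_preimage _
  have hm : ∀ s ∈ U, s * t ∈ ball (0 : ℂ) r := fun s hs => mem_ball_zero_iff.2 hs
  have hm' : ∀ s ∈ U, s * t' ∈ ball (0 : ℂ) r := fun s hs => by
    have : ‖s * t‖ < r := hs
    rw [mem_ball_zero_iff, norm_mul, ← htt, ← norm_mul]; exact this
  have key : ∀ s ∈ U, HasDerivAt (fun s => H (s * t) - H' (s * t')) 0 s := by
    intro s hs
    have h1 := hasDerivAt_comp (b := b) (l := fun s => b (s * t)) (H := H) (τ := fun s => s * t)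
      (ϖ := ϖ) (t := s) (hb _ (hm s hs)).differentiableAt (by fun_prop) (hH _ (hm s hs))
      (Eventually.of_forall fun _ => rfl)
    have h2 := hasDerivAt_comp (b := b') (l := fun s => b (s * t)) (H := H') (τ := fun s => s * t')
      (ϖ := ϖ) (t := s) (hb' _ (hm' s hs)).differentiableAt (by fun_prop) (hH' _ (hm' s hs))
      (by filter_upwards [hUo.mem_nhds hs] with u hu using he u hu)
    have h3 := h1.sub h2
    rw [sub_self] at h3
    exact h3
  have := hUo.is_const_of_deriv_eq_zero hUc.isPreconnected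
    (fun s hs => (key s hs).differentiableAt.differentiableWithinAt)
    (fun s hs => (key s hs).deriv) (x := 1) (y := 0) (by simpa [hU] using ht) (by simpa [hU] using hr)
  simp only [one_mul, zero_mul, h0, h0', sub_zero] at this
  exact sub_eq_zero.1 this

/-- a continuous function with a derivative off a point that extends continuously -/
lemma hasDerivAt_of_punctured {f g : ℂ → ℂ} {t : ℂ} (hf : ∀ᶠ s in 𝓝[≠] t, HasDerivAt f (g s) s)
    (hc : ContinuousAt f t) (hg : ContinuousAt g t) : HasDerivAt f (g t) t := by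
  have ha := Complex.analyticAt_of_differentiable_on_punctured_nhds_of_continuousAt
    (hf.mono fun s hs => hs.differentiableAt) hc
  have h1 : Tendsto (deriv f) (𝓝[≠] t) (𝓝 (deriv f t)) :=
    ha.deriv.continuousAt.tendsto.mono_left nhdsWithin_le_nhds
  have h2 : Tendsto (deriv f) (𝓝[≠] t) (𝓝 (g t)) :=
    (hg.tendsto.mono_left nhdsWithin_le_nhds).congr' (hf.mono fun s hs => hs.deriv.symm)
  rw [← tendsto_nhds_unique h1 h2]
  exact ha.differentiableAt.hasDerivAt

end CurveP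

open CurveP in
theorem scurve (h : SBr) : SCurve := by
  intro F hF hF0 N₀ hN₀ h0
  obtain ⟨m, ρ, b, hρ, hb, hcov, hσ, hind⟩ := h F hF hF0
  -- a smaller disc mapped into `N₀`
  have h1 : ∀ᶠ t in 𝓝 (0 : ℂ), t ∈ ball (0 : ℂ) ρ ∧ ∀ k, b k t ∈ N₀ := by
    refine (eventually_of_mem (ball_mem_nhds _ hρ) fun _ h => h).and (eventually_all.2 fun k => ?_)
    refine ((hb k).1 0 (mem_ball_self hρ)).continuousAt.eventually (hN₀.mem_nhds ?_)
    rw [(hb k).2.1]; exact h0
  obtain ⟨r, hr, hrb⟩ := Metric.eventually_nhds_iff_ball.1 h1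
  have hsub : ball (0 : ℂ) r ⊆ ball 0 ρ := fun t ht => (hrb t ht).1
  have hban : ∀ k, AnalyticOnNhd ℂ (b k) (ball 0 r) := fun k => (hb k).1.mono hsub
  set N : Set E2 := interior {y | F y = 0 → ∃ k, ∃ t ∈ ball (0 : ℂ) ρ, ‖t‖ < r ∧ y = b k t} ∩ N₀
    with hN
  have hNo : IsOpen N := isOpen_interior.inter hN₀
  have hN0 : (0 : E2) ∈ N := ⟨mem_interior_iff_mem_nhds.2 (hcov r hr), h0⟩
  have hNb : ∀ y ∈ N, F y = 0 → ∃ k t, ‖t‖ < r ∧ y = b k t := fun y hy hFy => by
    obtain ⟨k, t, -, h2, h3⟩ := interior_subset hy.1 hFy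
    exact ⟨k, t, h2, h3⟩
  refine ⟨N, hNo.mem_nhds hN0, inter_subset_right, fun y hy hFy => ?_, fun ϖ hϖ => ?_⟩
  · obtain ⟨k, t, ht, rfl⟩ := hNb y hy hFy
    refine ⟨fun s => b k (s * t), by simp [(hb k).2.1], by simp, fun τ hτ => ?_⟩
    have h2 : ‖(τ : ℂ) * t‖ < r := by
      rw [norm_mul, Complex.norm_real, Real.norm_of_nonneg hτ.1]
      exact (mul_le_of_le_one_left (norm_nonneg _) hτ.2).trans_lt ht
    have h3 : ∀ᶠ s in 𝓝 (τ : ℂ), ‖s * t‖ < r :=
      ContinuousAt.eventually_lt (by fun_prop) continuousAt_const h2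
    filter_upwards [h3] with s hs
    have h4 : s * t ∈ ball (0 : ℂ) r := mem_ball_zero_iff.2 hs
    exact ⟨(hban k _ h4).differentiableAt.comp s (by fun_prop), (hrb _ h4).2 k,
      ((hb k).2.2 _ (hsub h4)).1⟩
  · have hH : ∀ k, ∃ H : ℂ → ℂ, H 0 = 0 ∧
        ∀ u ∈ ball (0 : ℂ) r, HasDerivAt H (ϖ (b k u) (deriv (b k) u)) u := fun k =>
      (diffOn_pull (hban k) (fun t ht => (hrb t ht).2 k) hϖ).isExactOn_ball.with_val_at 0 0
    choose H hH0 hH using hH
    classical
    let g : E2 → ℂ := fun y =>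
      if hy : ∃ p : Fin m × ℂ, ‖p.2‖ < r ∧ y = b p.1 p.2 then H hy.choose.1 hy.choose.2 else 0
    have hg : ∀ k t, ‖t‖ < r → g (b k t) = H k t := by
      intro k t ht
      have hy : ∃ p : Fin m × ℂ, ‖p.2‖ < r ∧ b k t = b p.1 p.2 := ⟨(k, t), ht, rfl⟩
      have h2 := hy.choose_spec
      simp only [g, dif_pos hy]
      obtain ⟨h3, h4⟩ := hind k _ t (hsub (mem_ball_zero_iff.2 ht)) _
        (hsub (mem_ball_zero_iff.2 h2.1)) h2.2
      exact (prim_eq (hban k) (hban _) (hH k) (hH0 k) (hH _) (hH0 _) ht h3 fun s hs =>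
        h4 s (mem_ball_zero_iff.1 (hsub (mem_ball_zero_iff.2 hs)))).symm
    have hne : ∀ (l : ℂ → E2) (t : ℂ), (∀ᶠ σ in 𝓝 t, DifferentiableAt ℂ l σ ∧ F (l σ) = 0) →
        l t ∈ N → l t ≠ 0 → HasDerivAt (g ∘ l) (ϖ (l t) (deriv l t)) t := by
      intro l t hl hlN hl0
      obtain ⟨k, u, hu, hlu⟩ := hNb _ hlN hl.self_of_nhds.2
      have hu' : u ∈ ball (0 : ℂ) r := mem_ball_zero_iff.2 hu
      have hu0 : u ≠ 0 := by
        rintro rfl
        exact hl0 (hlu.trans (hb k).2.1)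
      obtain ⟨σ, hσ1, hσ2, hσ3⟩ := hσ k u (hsub hu') hu0
      rw [← hlu] at hσ1 hσ2 hσ3
      have hld := hl.self_of_nhds.1
      have hτ : DifferentiableAt ℂ (σ ∘ l) t := hσ1.differentiableAt.comp t hld
      have hτt : (σ ∘ l) t = u := hσ2
      have h2 : l =ᶠ[𝓝 t] b k ∘ (σ ∘ l) := by
        filter_upwards [hld.continuousAt.eventually hσ3, hl] with s h3 h4 using h3 h4.2
      have h3 : ∀ᶠ s in 𝓝 t, ‖(σ ∘ l) s‖ < r :=
        hτ.continuousAt.norm.eventually_lt continuousAt_const (by rw [hτt]; exact hu)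
      refine (hasDerivAt_comp (b := b k) (H := H k) (ϖ := ϖ) ?_ hτ ?_ h2).congr_of_eventuallyEq ?_
      · rw [hτt]; exact (hban k _ hu').differentiableAt
      · rw [hτt]; exact hH k u hu'
      · filter_upwards [h2, h3] with s h4 h5
        show g (l s) = H k ((σ ∘ l) s)
        rw [← hg k _ h5]
        exact congrArg g h4
    refine ⟨g, fun l t hl hlN => ?_⟩
    by_cases hl0 : l t = 0
    swap
    · exact hne l t hl hlN hl0
    have hla : AnalyticAt ℂ l t :=
      Complex.analyticAt_iff_eventually_differentiableAt.2 (hl.mono fun s hs => hs.1)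
    rcases hla.eventually_eq_zero_or_eventually_ne_zero with h2 | h2
    · have h3 : l =ᶠ[𝓝 t] fun _ => 0 := h2
      rw [h3.deriv_eq, deriv_const, map_zero]
      refine (hasDerivAt_const t (g 0)).congr_of_eventuallyEq ?_
      filter_upwards [h2] with s hs
      exact congrArg g hs
    · refine hasDerivAt_of_punctured (g := fun s => ϖ (l s) (deriv l s)) ?_ ?_ ?_
      · filter_upwards [h2, mem_nhdsWithin_of_mem_nhds hl.eventually_nhds,
          mem_nhdsWithin_of_mem_nhds (hla.continuousAt.eventually (hNo.mem_nhds hlN))]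
          with s h3 h4 h5 using hne l s h4 h5 h3
      · obtain ⟨k₀, -, -, -⟩ := hNb _ hlN hl.self_of_nhds.2
        have hg0 : g (l t) = 0 := by
          rw [hl0, ← (hb k₀).2.1, hg k₀ 0 (by simpa using hr), hH0]
        rw [ContinuousAt, Function.comp_apply, hg0, NormedAddGroup.tendsto_nhds_zero]
        intro ε hε
        have h3 : ∀ᶠ u in 𝓝 (0 : ℂ), ‖u‖ < r ∧ ∀ k, ‖H k u‖ < ε := by
          refine Eventually.and (continuous_norm.continuousAt.eventually_lt continuousAt_const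
            (by simpa using hr)) (eventually_all.2 fun k => ?_)
          exact (hH k 0 (mem_ball_self hr)).continuousAt.norm.eventually_lt continuousAt_const
            (by simpa [hH0] using hε)
        obtain ⟨r', hr', h4⟩ := Metric.eventually_nhds_iff_ball.1 h3
        have h5 := hcov r' hr'
        rw [← hl0] at h5
        filter_upwards [hla.continuousAt.eventually h5, hl] with s h6 h7
        obtain ⟨k, u, -, h8, h9⟩ := h6 h7.2
        have h10 := h4 u (mem_ball_zero_iff.2 h8)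
        rw [Function.comp_apply, h9, hg k u h10.1]
        exact h10.2 k
      · exact ((hϖ.continuousOn.continuousAt (hN₀.mem_nhds hlN.2)).comp
          hla.continuousAt).clm_apply hla.deriv.continuousAt

end Pool.Agent.P.MP_7ede32_ag.Geo
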