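import Pool.Agent.P.MP_7ede32_ag.Geo.Stm

/-!
Arcs and primitives along the union of a fibre and the zero set of the form.
-/

open Filter Topology Metric Set

noncomputable section

namespace Pool.Agent.P.MP_7ede32_ag.Geo

open Ell (E2 UU)

namespace CurveXP

open Sf0

variable {X : Type} [MetricSpace X] {S : Sf0 X} {s s₀ : ℂ ⧸ S.Λ} {x y : X}
  {e : OpenPartialHomeomorph X E2}

lemma zero_iff (he : e ∈ S.A) (hy : y ∈ e.source) (hm : S.MuOk s y) :
    S.mu s (e.symm (e y)) * S.ω e (e y) = 0 ↔ (S.π y = s ∨ y ∈ S.Z) := by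
  rw [e.left_inv hy, mul_eq_zero, hm.eq_zero_iff]
  exact or_congr Iff.rfl ⟨mem_Z_of_chart he hy, fun h => h e he hy⟩

lemma not_zero (hS : S.Hyp s₀) (hx : S.π x = s) (he : e ∈ S.A) (hxe : x ∈ e.source) :
    ¬ ∀ᶠ p in 𝓝 (e x), S.mu s (e.symm p) * S.ω e p = 0 := by
  intro h0
  apply hS.π_nc x
  filter_upwards [(e.continuousAt hxe).eventually h0.eventually_nhds, e.open_source.mem_nhds hxe,
    (muOk_fib hx).eventually] with y a1 a2 a3
  by_contra hne
  have h1 : S.mu s y ≠ 0 := fun h => hne (hx ▸ a3.eq_zero_iff.1 h)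
  apply hS.ω_ne e he y a2
  filter_upwards [a1, symm_eventually a2 (a3.holX.continuousAt.eventually_ne h1)] with p b1 b2
  exact (mul_eq_zero.1 b1).resolve_left b2

end CurveXP

open Sf0 CurveXP in
theorem scurveX (h : SCurve) : SCurveX := by
  intro X _ S s₀ hS s x hx N₀ hN₀ hxN
  obtain ⟨e, r, hb, hsub⟩ := exists_box (S := S) (x := x)
    (inter_mem (hN₀.mem_nhds hxN) (muOk_fib hx).eventually)
  have he := hb.1
  have hxe := hb.2.1
  have h0 := hb.2.2.1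
  have hF : AnalyticAt ℂ (fun p => S.mu s (e.symm p) * S.ω e p) 0 :=
    h0 ▸ ((muOk_fib hx).1 e he hxe).mul (S.ω_an e he x hxe)
  obtain ⟨N, hN, hNs, h1, h2⟩ := h _ hF (h0 ▸ not_zero hS hx he hxe) (ball 0 r) isOpen_ball
    (mem_ball_self hb.2.2.2.1)
  have hbox : ∀ y ∈ e.source ∩ e ⁻¹' N, y ∈ box e r := fun y hy => ⟨hy.1, hNs hy.2⟩
  refine ⟨e.source ∩ e ⁻¹' N, inter_mem (e.open_source.mem_nhds hxe)
    ((e.continuousAt hxe).preimage_mem_nhds (h0 ▸ hN)), fun y hy => (hsub (hbox y hy)).1,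
    fun y hy hz => ?_, fun A B hAB => ?_⟩
  · obtain ⟨l, l0, l1, hl⟩ := h1 (e y) hy.2 ((zero_iff he hy.1 (hsub (hbox y hy)).2).2 hz)
    refine ⟨fun σ => e.symm (l σ), by simp only [l0, ← h0, e.left_inv hxe],
      by simp only [l1, e.left_inv hy.1], fun τ hτ => ?_⟩
    filter_upwards [hl τ hτ] with σ ⟨a1, a2, a3⟩
    have a4 := hb.symm_mem a2
    refine ⟨hb.holAt a1 a2, (hsub a4.1).1, (zero_iff he a4.1.1 (hsub a4.1).2).1 ?_⟩
    rw [a4.2]
    exact a3
  · have hA := hb.diffOn fun y hy => (hAB y (hsub hy).1).1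
    have hB := hb.diffOn fun y hy => (hAB y (hsub hy).1).2
    obtain ⟨k, hk⟩ := h2 (fun p => (A ∘ e.symm) p • fderiv ℂ (B ∘ e.symm) p)
      (hA.smul (MP_e711b0_an.differentiableOn_fderiv isOpen_ball hB))
    refine ⟨k ∘ e, fun l t hl ht => ?_⟩
    have hl0 := hl.self_of_nhds.1
    have hbt := hbox _ ht
    have a1 := hk (e ∘ l) t ?_ ht.2
    · rw [((hAB _ (hsub hbt).1).2.hasDerivAt hl0 he ht.1).deriv]
      refine HasDerivAt.congr_deriv a1 ?_
      simp [D, e.left_inv ht.1]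
    · filter_upwards [hl, hl0.1.eventually ((isOpen_box e r).mem_nhds hbt)] with σ b1 b2
      exact ⟨b1.1.2 e he b2.1, (zero_iff he b2.1 (hsub b2).2).2 b1.2⟩

end Pool.Agent.P.MP_7ede32_ag.Geo
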