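import Pool.Agent.P.MP_7ede32_ag.Geo.Stm

/-!
A function on the annulus with vanishing moments extends to the disc.
-/

open Filter Topology Metric Set

noncomputable section

namespace Pool.Agent.P.MP_7ede32_ag.Geo

namespace ExtPP

open Complex Real

variable {θ : ℂ → ℂ} {δ M : ℝ}

lemma ann_eq {g : ℂ → ℂ} (hδ : 0 < δ) (hg : DifferentiableOn ℂ g (Ann δ)) {r : ℝ}
    (h1 : δ / 2 < r) (h2 : r ≤ δ) : (∮ z in C(0, δ), g z) = ∮ z in C(0, r), g z := by
  have hs : closedBall (0 : ℂ) δ \ ball 0 r ⊆ Ann δ := fun z hz => by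
    have a := mem_closedBall_zero_iff.1 hz.1
    have b : r ≤ ‖z‖ := not_lt.1 fun h => hz.2 (mem_ball_zero_iff.2 h)
    exact ⟨by linarith, by linarith⟩
  refine circleIntegral_eq_of_differentiable_on_annulus_off_countable (by linarith) h2
    countable_empty (hg.continuousOn.mono hs) fun z hz => ?_
  exact hg.differentiableAt ((isOpen_Ann δ).mem_nhds
    (hs ⟨ball_subset_closedBall hz.1.1, fun h => hz.1.2 (ball_subset_closedBall h)⟩))

lemma sphere_sub (hδ : 0 < δ) {r : ℝ} (h1 : δ / 2 < r) (h2 : r ≤ δ) :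
    sphere (0 : ℂ) r ⊆ Ann δ := fun z hz => by
  have a := mem_sphere_zero_iff_norm.1 hz
  exact ⟨by linarith, by linarith⟩

lemma cont_inv {w : ℂ} {r : ℝ} (hw : ‖w‖ ≠ r) :
    ContinuousOn (fun z : ℂ => (z - w)⁻¹) (sphere 0 r) :=
  (continuousOn_id.sub continuousOn_const).inv₀ fun z hz h =>
    hw ((show z = w from sub_eq_zero.1 h) ▸ mem_sphere_zero_iff_norm.1 hz)

lemma inner_zero {r : ℝ} (hr : 0 < r) (hθ : ContinuousOn θ (sphere 0 r))
    (hM : ∀ z ∈ sphere (0 : ℂ) r, ‖θ z‖ ≤ M) (hm : ∀ n : ℕ, (∮ z in C(0, r), z ^ n * θ z) = 0)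
    {w : ℂ} (hw : r < ‖w‖) : (∮ z in C(0, r), (z - w)⁻¹ * θ z) = 0 := by
  have hw0 : w ≠ 0 := norm_pos_iff.1 (hr.trans hw)
  have hwp : 0 < ‖w‖ := hr.trans hw
  have hne : ∀ z ∈ sphere (0 : ℂ) r, z - w ≠ 0 := fun z hz h =>
    hw.ne' (sub_eq_zero.1 h ▸ mem_sphere_zero_iff_norm.1 hz)
  have hc : ∀ n : ℕ, CircleIntegrable (fun z => (z / w) ^ n * ((z - w)⁻¹ * θ z)) 0 r := fun n =>
    (((continuousOn_id.div_const w).pow n).mul ((cont_inv hw.ne').mul hθ)).circleIntegrable hr.le
  have step : ∀ n : ℕ, (∮ z in C(0, r), (z / w) ^ n * ((z - w)⁻¹ * θ z)) =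
      ∮ z in C(0, r), (z - w)⁻¹ * θ z := by
    intro n
    induction n with
    | zero => simp
    | succ n ih =>
      rw [← ih, ← sub_eq_zero, ← circleIntegral.integral_sub (hc _) (hc _),
        circleIntegral.integral_congr (g := fun z => (w ^ (n + 1))⁻¹ • (z ^ n * θ z)) hr.le,
        circleIntegral.integral_smul, hm, smul_zero]
      intro z hz
      have := hne z hz
      simp only [smul_eq_mul, div_pow]
      field_simp
      ring
  have hb : ∀ n : ℕ, ‖∮ z in C(0, r), (z - w)⁻¹ * θ z‖ ≤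
      2 * π * r * ((r / ‖w‖) ^ n * ((‖w‖ - r)⁻¹ * M)) := by
    intro n
    rw [← step n]
    refine circleIntegral.norm_integral_le_of_norm_le_const hr.le fun z hz => ?_
    have a := mem_sphere_zero_iff_norm.1 hz
    rw [norm_mul, norm_pow, norm_div, a, norm_mul, norm_inv]
    have b : ‖w‖ - r ≤ ‖z - w‖ := by
      rw [norm_sub_rev, ← a]
      exact norm_sub_norm_le _ _
    have c := hM z hz
    gcongr
  have ht : Tendsto (fun n : ℕ => 2 * π * r * ((r / ‖w‖) ^ n * ((‖w‖ - r)⁻¹ * M))) atTop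
      (𝓝 (2 * π * r * (0 * ((‖w‖ - r)⁻¹ * M)))) :=
    ((tendsto_pow_atTop_nhds_zero_of_lt_one (by positivity)
      ((div_lt_one hwp).2 hw)).mul_const _).const_mul _
  have := ge_of_tendsto' ht hb
  rw [zero_mul, mul_zero] at this
  exact norm_le_zero_iff.1 this

lemma cauchy (hδ : 0 < δ) (hθ : DifferentiableOn ℂ θ (Ann δ)) (hM : ∀ w ∈ Ann δ, ‖θ w‖ ≤ M)
    (hm : ∀ n : ℤ, 0 ≤ n → (∮ w in C(0, δ), w ^ n * θ w) = 0) {w : ℂ} (h1 : δ / 2 < ‖w‖)
    (h2 : ‖w‖ < δ) : (∮ z in C(0, δ), (z - w)⁻¹ * θ z) = 2 * π * I * θ w := by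
  obtain ⟨r, hr1, hr2⟩ := exists_between h1
  have hr : 0 < r := by linarith
  have hrδ : r ≤ δ := by linarith
  have hw : w ∈ Ann δ := ⟨h1, by linarith⟩
  have e := ann_eq hδ ((differentiableOn_dslope ((isOpen_Ann δ).mem_nhds hw)).2 hθ) hr1 hrδ
  have key : ∀ ρ : ℝ, δ / 2 < ρ → ρ ≤ δ → ‖w‖ ≠ ρ → (∮ z in C(0, ρ), dslope θ w z) =
      (∮ z in C(0, ρ), (z - w)⁻¹ * θ z) - θ w * ∮ z in C(0, ρ), (z - w)⁻¹ := by
    intro ρ a b c
    have hρ : 0 ≤ ρ := by linarith
    have i1 : CircleIntegrable (fun z => (z - w)⁻¹ * θ z) 0 ρ :=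
      ((cont_inv c).mul (hθ.continuousOn.mono (sphere_sub hδ a b))).circleIntegrable hρ
    have i2 : CircleIntegrable (fun z => θ w • (z - w)⁻¹) 0 ρ :=
      ((cont_inv c).const_smul (θ w)).circleIntegrable hρ
    rw [← smul_eq_mul (θ w), ← circleIntegral.integral_smul, ← circleIntegral.integral_sub i1 i2]
    refine circleIntegral.integral_congr hρ fun z hz => ?_
    have hz' : z ≠ w := fun h => c (h ▸ mem_sphere_zero_iff_norm.1 hz)
    simp only [dslope_of_ne _ hz', slope_def_field, smul_eq_mul]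
    ring
  have z1 : (∮ z in C(0, r), (z - w)⁻¹ * θ z) = 0 := by
    refine inner_zero hr (hθ.continuousOn.mono (sphere_sub hδ hr1 hrδ))
      (fun z hz => hM z (sphere_sub hδ hr1 hrδ hz)) (fun n => ?_) hr2
    rw [← ann_eq (g := fun z => z ^ n * θ z) hδ ((differentiableOn_id.pow n).mul hθ) hr1 hrδ]
    simpa using hm n (Int.natCast_nonneg n)
  have z2 : (∮ z in C(0, r), (z - w)⁻¹) = 0 := by
    refine circleIntegral_eq_zero_of_differentiable_on_off_countable hr.le countable_empty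
      ((continuousOn_id.sub continuousOn_const).inv₀ fun z hz h => ?_) fun z hz =>
      (differentiableAt_id.sub_const w).inv fun h => ?_
    · have := mem_closedBall_zero_iff.1 hz
      rw [show z = w from sub_eq_zero.1 h] at this
      linarith
    · have := mem_ball_zero_iff.1 hz.1
      rw [show z = w from sub_eq_zero.1 h] at this
      linarith
  rw [key δ (by linarith) le_rfl h2.ne, key r hr1 hrδ hr2.ne', z1, z2,
    circleIntegral.integral_sub_inv_of_mem_ball (mem_ball_zero_iff.2 h2)] at e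
  linear_combination e

end ExtPP

open ExtPP Complex Real in
theorem sext : SExt := by
  intro θ δ M hδ hθ hM hm
  set J : ℂ → ℂ := fun w => (2 * π * I : ℂ)⁻¹ • ∮ z in C(0, δ), (z - w)⁻¹ • θ z with hJ
  have hci : CircleIntegrable θ 0 δ :=
    (hθ.continuousOn.mono (sphere_sub hδ (by linarith) le_rfl)).circleIntegrable hδ.le
  have hJd : ∀ w : ℂ, ‖w‖ < δ → DifferentiableAt ℂ J w := by
    intro w hw
    lift δ to NNReal using hδ.le
    have := hasFPowerSeriesOn_cauchy_integral hci (by exact_mod_cast hδ)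
    refine (this.analyticAt_of_mem ?_).differentiableAt
    rw [Metric.eball_coe]
    exact mem_ball_zero_iff.2 hw
  have hann : ∀ w ∈ Ann δ, (if ‖w‖ < δ then J w else θ w) = θ w := by
    intro w hw
    split_ifs with h
    · simp only [hJ, smul_eq_mul]
      rw [cauchy hδ hθ hM hm hw.1 h, inv_mul_cancel_left₀ two_pi_I_ne_zero]
    · rfl
  have hd : DifferentiableOn ℂ (fun w => if ‖w‖ < δ then J w else θ w) (ball 0 (2 * δ)) := by
    intro w hw
    refine DifferentiableAt.differentiableWithinAt ?_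
    by_cases h : ‖w‖ < δ
    · refine (hJd w h).congr_of_eventuallyEq ?_
      filter_upwards [(isOpen_lt continuous_norm continuous_const).mem_nhds h] with z hz
      exact if_pos hz
    · have hw' : w ∈ Ann δ := ⟨by linarith [not_lt.1 h], mem_ball_zero_iff.1 hw⟩
      refine (hθ.differentiableAt ((isOpen_Ann δ).mem_nhds hw')).congr_of_eventuallyEq ?_
      filter_upwards [(isOpen_Ann δ).mem_nhds hw'] with z hz
      exact hann z hz
  refine ⟨_, hd, fun w hw => ?_, hann, fun h0 => ?_⟩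
  · by_cases h : ‖w‖ < δ
    · have hsub : closure (ball (0 : ℂ) δ) ⊆ ball 0 (2 * δ) :=
        closure_ball_subset_closedBall.trans (closedBall_subset_ball (by linarith))
      refine norm_le_of_forall_mem_frontier_norm_le isBounded_ball
        (hd.mono hsub).diffContOnCl (fun z hz => ?_) (subset_closure (mem_ball_zero_iff.2 h))
      have hz' := sphere_sub hδ (by linarith) le_rfl (frontier_ball_subset_sphere hz)
      rw [hann z hz']
      exact hM z hz'
    · rw [if_neg h]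
      exact hM w ⟨by linarith [not_lt.1 h], mem_ball_zero_iff.1 hw⟩
  · rw [if_pos (by simpa using hδ)]
    simp only [hJ, sub_zero, smul_eq_mul]
    simp only [zpow_neg_one] at h0
    rw [h0, mul_zero]

end Pool.Agent.P.MP_7ede32_ag.Geo
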