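import Pool.Agent.P.MP_7ede32_ag.Geo.Stm

/-!
Gluing of local primitives on a disc.
-/

open Filter Topology Metric Set

noncomputable section

namespace Pool.Agent.P.MP_7ede32_ag.Geo

namespace GlueP

/-- multiplication by a complex number as a real linear map -/
def mulR (a : ℂ) : ℂ →L[ℝ] ℂ := (ContinuousLinearMap.toSpanSingleton ℂ a).restrictScalars ℝ

lemma mulR_sub (a b : ℂ) : mulR (a - b) = mulR a - mulR b := by
  ext v
  simp [mulR, mul_sub]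

lemma hasFDerivAt_mulR {f : ℂ → ℂ} {a z : ℂ} (h : HasDerivAt f a z) :
    HasFDerivAt f (mulR a) z :=
  h.hasFDerivAt.restrictScalars ℝ

lemma hasDerivAt_of_mulR {f : ℂ → ℂ} {a z : ℂ} (h : HasFDerivAt f (mulR a) z) :
    HasDerivAt f a z :=
  hasFDerivAt_of_restrictScalars ℝ h rfl

lemma contDiffAt_of {f : ℂ → ℂ} {U : Set ℂ} (hU : IsOpen U)
    (h : ∀ w ∈ U, DifferentiableAt ℂ f w) {z : ℂ} (hz : z ∈ U) : ContDiffAt ℝ 2 f z := by
  have h1 : DifferentiableOn ℂ f U := fun w hw => (h w hw).differentiableWithinAt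
  exact ((h1.analyticAt (hU.mem_nhds hz)).contDiffAt (n := 2)).restrict_scalars ℝ

/-- a locally exact real 1-form on a disc is exact -/
lemma exact_of_loc (r : ℝ) (ϖ : ℂ → ℂ →L[ℝ] ℂ)
    (h : ∀ z ∈ ball (0 : ℂ) r, ∃ φ : ℂ → ℂ, ContDiffAt ℝ 2 φ z ∧ ϖ =ᶠ[𝓝 z] fderiv ℝ φ) :
    ∃ H : ℂ → ℂ, ∀ z ∈ ball (0 : ℂ) r, HasFDerivAt H (ϖ z) z := by
  refine (convex_ball (0 : ℂ) r).exists_forall_hasFDerivAt_of_fderiv_symmetric isOpen_ball ?_ ?_
  · intro z hz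
    obtain ⟨φ, h1, h2⟩ := h z hz
    have h3 : ContDiffAt ℝ 1 (fderiv ℝ φ) z := h1.fderiv_right (by norm_num)
    exact ((h3.differentiableAt (by norm_num)).congr_of_eventuallyEq h2).differentiableWithinAt
  · intro z hz x y
    obtain ⟨φ, h1, h2⟩ := h z hz
    rw [h2.fderiv_eq]
    exact h1.isSymmSndFDerivAt (by simp) x y

/-- a smooth splitting of the cocycle -/
lemma exists_split {ι : Type} (r : ℝ) (O : ι → Set ℂ) (g : ι → ι → ℂ → ℂ)
    (hO : ∀ i, IsOpen (O i)) (hc : closedBall 0 r ⊆ ⋃ i, O i)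
    (hg : ∀ i j, ∀ w ∈ O i ∩ O j, DifferentiableAt ℂ (g i j) w)
    (hk : ∀ i j k, ∀ w ∈ O i ∩ O j ∩ O k, g i j w + g j k w = g i k w) :
    ∃ k : ι → ℂ → ℂ, (∀ i, ∀ w ∈ O i, ContDiffAt ℝ 2 (k i) w) ∧
      ∀ i j, ∀ w ∈ O i ∩ O j ∩ ball 0 r, k i w - k j w = g i j w := by
  obtain ⟨ρ, hρ⟩ := SmoothPartitionOfUnity.exists_isSubordinate (modelWithCornersSelf ℝ ℂ)
    (isClosed_closedBall (x := (0 : ℂ)) (ε := r)) O hO hc
  refine ⟨fun i z => ∑ᶠ l, ρ l z • g i l z, fun i w hw => ?_, fun i j w hw => ?_⟩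
  · refine ρ.contDiffAt_finsum (n := 2) fun l hl => ?_
    exact contDiffAt_of ((hO i).inter (hO l)) (hg i l) ⟨hw, hρ l hl⟩
  · have hf : (Function.support fun l => ρ l w).Finite := ρ.locallyFinite.point_finite w
    have hs : ∀ u : ι → ℂ, (Function.support fun l => ρ l w • u l).Finite := fun u =>
      hf.subset fun l hl h0 => hl (by simp only at h0 ⊢; rw [h0, zero_smul])
    have h1 : ∑ᶠ l, ρ l w = 1 := ρ.sum_eq_one (ball_subset_closedBall hw.2)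
    show ∑ᶠ l, ρ l w • g i l w - ∑ᶠ l, ρ l w • g j l w = g i j w
    rw [← finsum_sub_distrib (hs _) (hs _)]
    have h2 : ∀ l, ρ l w • g i l w - ρ l w • g j l w = ρ l w • g i j w := by
      intro l
      by_cases h0 : ρ l w = 0
      · simp [h0]
      · have h3 : w ∈ O l := hρ l (subset_tsupport _ h0)
        rw [← smul_sub, ← hk i j l w ⟨hw.1, h3⟩, add_sub_cancel_right]
    simp only [h2]
    rw [← finsum_smul' hf, h1, one_smul]

end GlueP

open GlueP in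
theorem sglue : SGlue := by
  classical
  intro ι r O b g hO hc hb hg hk
  obtain ⟨k, k1, k2⟩ := exists_split r O g hO hc
    (fun i j w hw => (hg i j w hw).differentiableAt) hk
  have kd : ∀ i, ∀ w ∈ O i, HasFDerivAt (k i) (fderiv ℝ (k i) w) w := fun i w hw =>
    ((k1 i w hw).differentiableAt (by norm_num)).hasFDerivAt
  let β : ι → ℂ → ℂ →L[ℝ] ℂ := fun i z => mulR (b i z) - fderiv ℝ (k i) z
  have hβ : ∀ i j, ∀ w ∈ O i ∩ O j ∩ ball 0 r, β i w = β j w := by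
    intro i j w hw
    have h1 : (fun z => k i z - k j z) =ᶠ[𝓝 w] g i j :=
      eventually_of_mem ((((hO i).inter (hO j)).inter isOpen_ball).mem_nhds hw) (k2 i j)
    have h2 := ((kd i w hw.1.1).sub (kd j w hw.1.2)).unique
      ((hasFDerivAt_mulR (hg i j w hw.1)).congr_of_eventuallyEq h1)
    rw [mulR_sub] at h2
    show mulR (b i w) - fderiv ℝ (k i) w = mulR (b j w) - fderiv ℝ (k j) w
    rw [sub_eq_sub_iff_sub_eq_sub, h2]
  let ϖ : ℂ → ℂ →L[ℝ] ℂ := fun z => if h : ∃ i, z ∈ O i then β h.choose z else 0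
  have hϖ : ∀ i, ∀ w ∈ O i ∩ ball 0 r, ϖ w = β i w := by
    intro i w hw
    have h : ∃ i, w ∈ O i := ⟨i, hw.1⟩
    simp only [ϖ, dif_pos h]
    exact hβ _ _ w ⟨⟨h.choose_spec, hw.1⟩, hw.2⟩
  obtain ⟨H, hH⟩ := exact_of_loc r ϖ fun z hz => by
    obtain ⟨i, hi⟩ := mem_iUnion.1 (hc (ball_subset_closedBall hz))
    obtain ⟨ε, hε, h1⟩ := Metric.isOpen_iff.1 ((hO i).inter isOpen_ball) z ⟨hi, hz⟩
    obtain ⟨P, hP⟩ := ((hb i).mono fun w hw => (h1 hw).1).isExactOn_ball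
    refine ⟨fun w => P w - k i w, ?_, ?_⟩
    · exact (contDiffAt_of isOpen_ball (fun w hw => (hP w hw).differentiableAt)
        (mem_ball_self hε)).sub (k1 i z hi)
    · filter_upwards [ball_mem_nhds z hε] with w hw
      rw [hϖ i w (h1 hw)]
      exact ((hasFDerivAt_mulR (hP w hw)).sub (kd i w (h1 hw).1)).fderiv.symm
  refine ⟨fun i w => H w + k i w, fun i w hw => hasDerivAt_of_mulR ?_, fun i j w hw => ?_⟩
  · have h1 := (hH w hw.2).add (kd i w hw.1)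
    rw [hϖ i w hw] at h1
    simp only [β, sub_add_cancel] at h1
    exact h1
  · show H w + k i w - (H w + k j w) = g i j w
    rw [add_sub_add_left_eq_sub, k2 i j w hw]

theorem sbal (h : SGlue) : SBal := by
  classical
  intro X _ _ S s l hl
  obtain ⟨δ₁, hδ₁, hn⟩ := S.near_fib s hl
  refine ⟨δ₁ / 3, by positivity, fun δ hδ n A B hh g hC f hf => ?_⟩
  obtain ⟨c1, c2, c3, c4⟩ := hC
  rcases hf with hf | ⟨hf, hZ⟩
  · let O : {α // S.π α = s} → Set ℂ := fun α => ball 0 (3 * δ) ∩ f ⁻¹' ball α.1 l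
    have hcont : ContinuousOn f (ball 0 (3 * δ)) := fun w hw =>
      (hf w hw).1.1.continuousWithinAt
    have hO : ∀ α, IsOpen (O α) := fun α =>
      hcont.isOpen_inter_preimage isOpen_ball isOpen_ball
    obtain ⟨G, G1, G2⟩ := h {α // S.π α = s} (2 * δ) O
      (fun α w => A α.1 (f w) * deriv (B α.1 ∘ f) w) (fun α β w => g α.1 β.1 (f w)) hO
      (fun w hw => by
        have h1 : ‖w‖ ≤ 2 * δ := by simpa using hw
        have h2 : w ∈ ball (0 : ℂ) (3 * δ) := by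
          rw [mem_ball_zero_iff]; linarith [hδ.1]
        obtain ⟨α, a1, a2⟩ := hn (f w) w (by linarith [hδ.1, hδ.2]) (hf w h2).2
        exact mem_iUnion.2 ⟨⟨α, a1⟩, h2, a2⟩)
      (fun α => by
        have h1 : DifferentiableOn ℂ (B α.1 ∘ f) (O α) := fun w hw =>
          ((c1 α.1 α.2 _ hw.2).2.1.differentiableAt (hf w hw.1).1).differentiableWithinAt
        have h2 : DifferentiableOn ℂ (A α.1 ∘ f) (O α) := fun w hw =>
          ((c1 α.1 α.2 _ hw.2).1.differentiableAt (hf w hw.1).1).differentiableWithinAt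
        exact h2.mul (h1.deriv (hO α)))
      (fun α β w hw => (c2 α.1 β.1 α.2 β.2 _ ⟨hw.1.2, hw.2.2⟩).1 f w (hf w hw.1.1).1 rfl)
      (fun α β γ w hw => c3 α.1 β.1 γ.1 α.2 β.2 γ.2 _ ⟨⟨hw.1.1.2, hw.1.2.2⟩, hw.2.2⟩)
    have hA : ∀ w ∈ Ann δ, w ∈ ball (0 : ℂ) (3 * δ) ∧ w ∈ ball (0 : ℂ) (2 * δ) := fun w hw => by
      rw [mem_ball_zero_iff, mem_ball_zero_iff]
      exact ⟨by linarith [hw.2, hδ.1], hw.2⟩
    refine ⟨fun α => if hα : S.π α = s then G ⟨α, hα⟩ else 0, fun α hα w hw h1 => ?_,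
      fun α β hα hβ w hw h1 => ?_⟩
    · simp only [dif_pos hα]
      exact G1 ⟨α, hα⟩ w ⟨⟨(hA w hw).1, h1⟩, (hA w hw).2⟩
    · simp only [dif_pos hα, dif_pos hβ]
      exact G2 ⟨α, hα⟩ ⟨β, hβ⟩ w ⟨⟨⟨(hA w hw).1, h1.1⟩, (hA w hw).1, h1.2⟩, (hA w hw).2⟩
  · refine ⟨fun α w => hh α (f w), fun α hα w hw h1 => ?_, fun α β hα hβ w hw h1 => ?_⟩
    · exact c4 α hα f w (eventually_of_mem ((isOpen_Ann δ).mem_nhds hw)
        fun σ hσ => ⟨(hf σ hσ).1, hZ σ hσ⟩) h1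
    · exact ((c2 α β hα hβ _ h1).2 (hZ w hw)).symm

end Pool.Agent.P.MP_7ede32_ag.Geo
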