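import Pool.Agent.P.MP_7ede32_ag.Geo.Stm

/-!
Where the integral between two close points of a fibre vanishes, and sections inside the zero set.
-/

open Filter Topology Metric Set

noncomputable section

namespace Pool.Agent.P.MP_7ede32_ag.Geo

open Ell (E2)

namespace InjP

/-- a function whose derivative is close to a nonzero constant is injective on a disc -/
lemma inj0 {f f' : ℂ → ℂ} {r : ℝ} {c : ℂ} (hc : c ≠ 0)
    (hf : ∀ v ∈ ball (0 : ℂ) r, HasDerivAt f (f' v) v ∧ ‖f' v - c‖ ≤ ‖c‖ / 2) {v v' : ℂ}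
    (hv : v ∈ ball (0 : ℂ) r) (hv' : v' ∈ ball (0 : ℂ) r) (h : f v = f v') : v = v' := by
  have h1 := (convex_ball (0 : ℂ) r).norm_image_sub_le_of_norm_hasDerivWithin_le
    (f := fun v => f v - c * v) (f' := fun v => f' v - c) (C := ‖c‖ / 2)
    (fun z hz => ((hf z hz).1.sub (by simpa using (hasDerivAt_id z).const_mul c)).hasDerivWithinAt)
    (fun z hz => (hf z hz).2) hv hv'
  rw [h, show f v' - c * v' - (f v' - c * v) = -(c * (v' - v)) by ring, norm_neg, norm_mul] at h1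
  have h2 := norm_pos_iff.2 hc
  have h3 : ‖v' - v‖ ≤ 0 := by nlinarith [norm_nonneg (v' - v)]
  exact (sub_eq_zero.1 (norm_le_zero_iff.1 h3)).symm

/-- a primitive of `v ^ j * unit` takes the value at the origin only there -/
lemma inj1 {f g : ℂ → ℂ} {r : ℝ} {c : ℂ} {j : ℕ} (hc : c ≠ 0)
    (hf : ∀ v ∈ ball (0 : ℂ) r, HasDerivAt f (v ^ j * g v) v ∧ ‖g v - c‖ ≤ ‖c‖ / 2) {v : ℂ}
    (hv : v ∈ ball (0 : ℂ) r) (h : f v = f 0) : v = 0 := by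
  have hm : ∀ τ ∈ Icc (0 : ℝ) 1, (τ : ℂ) * v ∈ ball (0 : ℂ) r := fun τ hτ => by
    rw [mem_ball_zero_iff] at hv ⊢
    rw [norm_mul, Complex.norm_real, Real.norm_of_nonneg hτ.1]
    exact (mul_le_of_le_one_left (norm_nonneg _) hτ.2).trans_lt hv
  have hd : ∀ τ ∈ Icc (0 : ℝ) 1,
      HasDerivAt (fun τ : ℝ => (j + 1 : ℂ) * (f (τ * v) - f 0) - c * (τ * v) ^ (j + 1))
        ((j + 1 : ℂ) * (τ * v) ^ j * v * (g (τ * v) - c)) τ := fun τ hτ => by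
    have h0 : HasDerivAt (fun σ : ℂ => σ * v) v τ := by simpa using (hasDerivAt_id (τ : ℂ)).mul_const v
    have h1 := ((((hf _ (hm τ hτ)).1.comp (τ : ℂ) h0).sub_const (f 0)).const_mul (j + 1 : ℂ)).sub
      ((h0.pow (j + 1)).const_mul c)
    refine HasDerivAt.congr_deriv h1.comp_ofReal ?_
    simp only [Nat.add_sub_cancel]
    push_cast
    ring
  have h2 := image_norm_le_of_norm_deriv_right_le_deriv_boundary (a := 0) (b := 1)
    (fun τ hτ => (hd τ hτ).continuousAt.continuousWithinAt)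
    (fun τ hτ => (hd τ (Ico_subset_Icc_self hτ)).hasDerivWithinAt)
    (B := fun τ => ‖c‖ / 2 * ‖v‖ ^ (j + 1) * τ ^ (j + 1))
    (B' := fun τ => ‖c‖ / 2 * ‖v‖ ^ (j + 1) * ((j + 1) * τ ^ j)) (by simp)
    (fun τ => by simpa using (hasDerivAt_pow (j + 1) τ).const_mul (‖c‖ / 2 * ‖v‖ ^ (j + 1)))
    (fun τ hτ => by
      have h3 := (hf _ (hm τ (Ico_subset_Icc_self hτ))).2
      have h4 : ‖(j + 1 : ℂ)‖ = j + 1 := by exact_mod_cast Complex.norm_natCast (j + 1)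
      rw [norm_mul, norm_mul, norm_mul, norm_pow, norm_mul, Complex.norm_real,
        Real.norm_of_nonneg hτ.1, h4]
      have h5 := hτ.1
      calc (j + 1) * (τ * ‖v‖) ^ j * ‖v‖ * ‖g (τ * v) - c‖
          ≤ (j + 1) * (τ * ‖v‖) ^ j * ‖v‖ * (‖c‖ / 2) := by gcongr
        _ = _ := by ring) (right_mem_Icc.2 zero_le_one)
  simp only [Complex.ofReal_one, one_mul, h, sub_self, mul_zero, zero_sub, norm_neg, norm_mul,
    norm_pow, one_pow, mul_one] at h2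
  have h6 := norm_pos_iff.2 hc
  have h7 : ‖v‖ ^ (j + 1) ≤ 0 := by nlinarith [pow_nonneg (norm_nonneg v) (j + 1)]
  exact norm_eq_zero.1 (pow_eq_zero_iff (Nat.succ_ne_zero j) |>.1
    (le_antisymm h7 (pow_nonneg (norm_nonneg v) _)))

lemma mem_ball2 {p : E2} {r : ℝ} (hp : p ∈ ball (0 : E2) r) {v : ℂ} (hv : v ∈ ball (0 : ℂ) r) :
    ((p.1, v) : E2) ∈ ball (0 : E2) r := by
  rw [mem_ball_zero_iff] at hp hv ⊢
  rw [Prod.norm_def]
  exact max_lt ((norm_fst_le p).trans_lt hp) hv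

lemma snd_mem {p : E2} {r : ℝ} (hp : p ∈ ball (0 : E2) r) : p.2 ∈ ball (0 : ℂ) r := by
  rw [mem_ball_zero_iff] at hp ⊢
  exact (norm_snd_le p).trans_lt hp

variable {X : Type*} [MetricSpace X] {S : Sf0 X} {K : Set X} {x y ζ : X}
  {e : OpenPartialHomeomorph X E2} {r l η : ℝ} {j : ℕ} {g : E2 → ℂ} {U : X → X → ℂ}

/-- in a regular box the zeros of the form have second coordinate zero -/
lemma snd_zero (h : S.RBox e r x j g) (hζ : ζ ∈ box e r) (hZ : ζ ∈ S.Z) :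
    j ≠ 0 ∧ (e ζ).2 = 0 := by
  obtain ⟨h1, h2⟩ := h.2.2.2.2.2 _ hζ.2
  have h3 : g (e ζ) ≠ 0 := fun h0 => by
    rw [h0, zero_sub, norm_neg] at h2
    linarith [norm_pos_iff.2 h.2.2.2.2.1]
  have h4 := (mul_eq_zero.1 (h1.symm.trans (hZ e h.1.1 hζ.1))).resolve_right h3
  exact ⟨fun h0 => by simp [h0] at h4, pow_eq_zero_iff'.1 h4 |>.1⟩

lemma zeta_eq (h : S.RBox e r x j g) (hy : y ∈ box e r) (hζ : ζ ∈ box e r) (hZ : ζ ∈ S.Z)
    (hπ : S.π ζ = S.π y) : ζ = e.symm ((e y).1, 0) := by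
  rw [← h.fst_eq hζ hy hπ, ← (snd_zero h hζ hZ).2, e.left_inv hζ.1]

lemma zeta_spec (h : S.RBox e r x j g) (hj : j ≠ 0) (hy : y ∈ box e r) :
    e.symm ((e y).1, 0) ∈ box e r ∧ e.symm ((e y).1, 0) ∈ S.Z ∧
      S.π (e.symm ((e y).1, 0)) = S.π y := by
  have h0 := mem_ball2 hy.2 (mem_ball_self h.1.2.2.2.1)
  obtain ⟨h1, h2⟩ := h.1.symm_mem h0
  refine ⟨h1, Sf0.mem_Z_of_chart h.1.1 h1.1 ?_, ?_⟩
  · rw [h2, (h.2.2.2.2.2 _ h0).1]
    simp [hj]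
  · rw [h.2.2.1 _ h1, h.2.2.1 _ hy, h2]

/-- the integral between close points is computed in a regular box -/
lemma key (hK : IsCompact K) (hr : ∀ x ∈ K, S.RegAt x) (hT : S.ThOk K l U η) {ε : ℝ}
    (hε : 0 < ε) : ∃ η' > 0, ∀ x ∈ K, ∀ y, S.π y = S.π x → dist x y ≤ η' →
      ∃ x' e r j g, ∃ f : ℂ → ℂ, S.RBox e r x' j g ∧ box e r ⊆ ball x' ε ∧ x ∈ box e r ∧
        y ∈ box e r ∧ th U x y = f (e y).2 - f (e x).2 ∧ ∀ v ∈ ball (0 : ℂ) r,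
          HasDerivAt f (v ^ j * g ((e x).1, v)) v ∧ ‖g ((e x).1, v) - g 0‖ ≤ ‖g 0‖ / 2 := by
  obtain ⟨l₁, hl₁, h1⟩ := Sf0.leb_rbox hK hr (fun x => ball x ε) fun x _ => ball_mem_nhds x hε
  obtain ⟨η₁, hη₁, h2⟩ := Sf0.th_loc hK hr (lt_min hT.pos hl₁)
  refine ⟨min η₁ (l₁ / 2), by positivity, fun x hx y hπ hd => ?_⟩
  obtain ⟨x', -, e, r, j, g, a1, a2, a3⟩ := h1 x hx
  obtain ⟨P, b1, b2, b3⟩ := a1.exists_prim
  have hxb := a2 (mem_ball_self hl₁)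
  have hyb : y ∈ box e r := a2 (mem_ball'.2 (by linarith [hd.trans (min_le_right _ _)]))
  refine ⟨x', e, r, j, g, fun v => P ((e x).1, v), a1, a3, hxb, hyb, ?_, fun v hv => ?_⟩
  · have := h2 x hx y hπ (hd.trans (min_le_left _ _)) (U x) (P ∘ e) fun z hz =>
      ⟨(hT.1 x hx z (ball_subset_ball (min_le_left _ _) hz)).1,
        b2 z (a2 (ball_subset_ball (min_le_right _ _) hz))⟩
    rw [th, this]
    show P (e y) - P (e x) = P ((e x).1, (e y).2) - P (e x)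
    rw [← a1.fst_eq hyb hxb hπ]
  · have hp := mem_ball2 hxb.2 hv
    obtain ⟨c1, c2⟩ := a1.2.2.2.2.2 _ hp
    refine ⟨?_, c2⟩
    have h5 := (b1.differentiableAt (isOpen_ball.mem_nhds hp)).hasFDerivAt.comp_hasDerivAt_of_eq v
      ((hasDerivAt_const v (e x).1).prodMk (hasDerivAt_id v)) rfl
    rw [(b3 _ hp).1, c1] at h5
    exact h5

lemma holAt_congr {f f' : ℂ → X} {z : ℂ} (h : S.HolAt f z) (h' : f' =ᶠ[𝓝 z] f) : S.HolAt f' z :=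
  ⟨h.1.congr h'.symm, fun e he hz =>
    (h.2 e he (h'.self_of_nhds ▸ hz)).congr_of_eventuallyEq (h'.fun_comp e)⟩

end InjP

open InjP

theorem sinj : SInj := by
  intro X _ S K l η U hK hr hT
  refine ⟨fun ε hε => ?_, ?_⟩
  · obtain ⟨η', h0, h⟩ := key hK hr hT (half_pos hε)
    refine ⟨η', h0, fun x hx y hπ hd hne hth => ?_⟩
    obtain ⟨x', e, r, j, g, f, a1, a2, a3, a4, a5, a6⟩ := h x hx y hπ hd
    rcases eq_or_ne j 0 with rfl | hj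
    · refine absurd (e.injOn a3.1 a4.1 (Prod.ext (a1.fst_eq a3 a4 hπ.symm) ?_)) hne
      exact inj0 a1.2.2.2.2.1 (f' := fun v => g ((e x).1, v)) (fun v hv => by simpa using a6 v hv)
        (snd_mem a3.2) (snd_mem a4.2) (sub_eq_zero.1 (a5.symm.trans hth)).symm
    · obtain ⟨b1, b2, b3⟩ := zeta_spec a1 hj a3
      refine ⟨_, b2, b3, ?_⟩
      linarith [dist_triangle_right x (e.symm ((e x).1, 0)) x', mem_ball.1 (a2 a3),
        mem_ball.1 (a2 b1)]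
  · obtain ⟨η', h0, h⟩ := key hK hr hT one_pos
    refine ⟨η', h0, fun ζ hζ hZ y hπ hd hth => ?_⟩
    obtain ⟨x', e, r, j, g, f, a1, -, a3, a4, a5, a6⟩ := h ζ hζ y hπ hd
    have b1 := (snd_zero a1 a3 hZ).2
    refine e.injOn a4.1 a3.1 (Prod.ext (a1.fst_eq a4 a3 hπ) ?_)
    rw [b1] at a5 ⊢
    exact inj1 a1.2.2.2.2.1 (g := fun v => g ((e ζ).1, v)) a6 (snd_mem a4.2)
      (sub_eq_zero.1 (a5.symm.trans hth))

theorem szsec : SZsec := by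
  intro X _ _ S K hK hr
  obtain ⟨l, hl, h1⟩ := Sf0.leb_rbox hK hr (fun _ => univ) fun _ _ => univ_mem
  refine ⟨l / 3, by positivity, fun ε hε O p hO hp hζ => ?_⟩
  have loc : ∀ w₀ ∈ O, ∃ z₀ : ℂ → X, S.HolAt z₀ w₀ ∧
      (z₀ w₀ ∈ S.Z ∧ S.π (z₀ w₀) = S.π (p w₀) ∧ dist (p w₀) (z₀ w₀) ≤ ε) ∧
      ∀ᶠ w in 𝓝 w₀, ∀ ζ ∈ S.Z, S.π ζ = S.π (p w) → dist (p w) ζ ≤ ε → ζ = z₀ w := by
    intro w₀ hw₀
    obtain ⟨hh, hx⟩ := hp w₀ hw₀
    obtain ⟨x', -, e, r, j, g, a1, a2, -⟩ := h1 _ hx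
    have b0 := a2 (mem_ball_self hl)
    have b1 : ∀ᶠ w in 𝓝 w₀, p w ∈ box e r ∧ ∀ ζ, dist (p w) ζ ≤ ε → ζ ∈ box e r := by
      filter_upwards [Metric.tendsto_nhds.1 hh.1 _ (show 0 < l / 3 by positivity)] with w hw
      exact ⟨a2 (mem_ball.2 (by linarith)), fun ζ hd =>
        a2 (mem_ball.2 (by linarith [dist_triangle_left ζ (p w₀) (p w)]))⟩
    have b2 : S.HolAt (fun w => e.symm ((e (p w)).1, 0)) w₀ :=
      a1.1.holAt (m := fun w => ((e (p w)).1, 0))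
        ((hh.2 e a1.1.1 b0.1).fst.prodMk (differentiableAt_const _))
        (mem_ball2 b0.2 (mem_ball_self a1.1.2.2.2.1))
    have b3 : ∀ᶠ w in 𝓝 w₀, ∀ ζ ∈ S.Z, S.π ζ = S.π (p w) → dist (p w) ζ ≤ ε →
        ζ = e.symm ((e (p w)).1, 0) :=
      b1.mono fun w hw ζ c1 c2 c3 => zeta_eq a1 hw.1 (hw.2 ζ c3) c1 c2
    obtain ⟨w, ⟨ζ, c1, -, c3⟩, c4⟩ := ((hζ w₀ hw₀).and_eventually b1).exists
    obtain ⟨-, d2, d3⟩ := zeta_spec a1 (snd_zero a1 (c4.2 ζ c3) c1).1 b0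
    refine ⟨_, b2, ⟨d2, d3, ?_⟩, b3⟩
    refine isClosed_Iic.mem_of_frequently_of_tendsto ?_ (hh.1.dist b2.1)
    refine ((hζ w₀ hw₀).and_eventually b3).mono ?_
    rintro w ⟨⟨ζ, c1, c2, c3⟩, c4⟩
    rw [c4 ζ c1 c2 c3] at c3
    exact c3
  haveI : Nonempty X := ⟨p 0⟩
  choose! z h2 h3 h4 using loc
  refine ⟨fun w => z w w, fun w₀ hw₀ => ⟨holAt_congr (h2 w₀ hw₀) ?_, h3 w₀ hw₀⟩⟩
  filter_upwards [h4 w₀ hw₀, hO.mem_nhds hw₀] with w a1 a2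
  exact a1 _ (h3 w a2).1 (h3 w a2).2.1 (h3 w a2).2.2

end Pool.Agent.P.MP_7ede32_ag.Geo
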