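import Pool.Agent.P.MP_7ede32_ag.Geo.Stm

/-!
A bounded holomorphic function on a half plane that vanishes on a relatively dense set is zero.
-/

open Filter Topology Metric Set

noncomputable section

namespace Pool.Agent.P.MP_7ede32_ag.Geo

open Ell (E2 UU)

namespace LatP

/-- each zero in the inner third of a disc halves the bound at the centre -/
lemma zb {U : Set ℂ} (hU : IsOpen U) {z : ℂ} {r : ℝ} (hr : 0 < r) (hs : closedBall z (3 * r) ⊆ U)
    (Z : Finset ℂ) : ∀ (f : ℂ → ℂ) (M : ℝ), DifferentiableOn ℂ f U →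
      (∀ ζ ∈ sphere z (3 * r), ‖f ζ‖ ≤ M) → (∀ p ∈ Z, f p = 0 ∧ dist p z ≤ r) →
      ‖f z‖ * 2 ^ Z.card ≤ M := by
  classical
  have h3 : 0 < 3 * r := by positivity
  induction Z using Finset.induction_on with
  | empty =>
    intro f M hf hM _
    rw [Finset.card_empty, pow_zero, mul_one]
    refine Complex.norm_le_of_forall_mem_frontier_norm_le (U := ball z (3 * r)) isBounded_ball
      (DifferentiableOn.diffContOnCl ?_) (by rwa [frontier_ball z h3.ne']) ?_
    · rw [closure_ball z h3.ne']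
      exact hf.mono hs
    · exact subset_closure (mem_ball_self h3)
  | insert p Z hp ih =>
    intro f M hf hM hZ
    obtain ⟨h1, h2⟩ := hZ p (Finset.mem_insert_self _ _)
    have hpU : p ∈ U := hs (mem_closedBall.2 (by linarith))
    have hg : DifferentiableOn ℂ (dslope f p) U :=
      (Complex.differentiableOn_dslope (hU.mem_nhds hpU)).2 hf
    have hz : ∀ ζ, f ζ = (ζ - p) * dslope f p ζ := fun ζ => by
      have := sub_smul_dslope f p ζ
      rw [h1, sub_zero, smul_eq_mul] at this
      exact this.symm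
    have h4 := ih (dslope f p) (M / (2 * r)) hg (fun ζ hζ => by
      have h5 : dist ζ z = 3 * r := hζ
      have h6 : 2 * r ≤ ‖ζ - p‖ := by
        rw [← dist_eq_norm]
        linarith [dist_triangle ζ p z]
      have h7 := hM ζ hζ
      rw [hz ζ, norm_mul] at h7
      rw [le_div_iff₀ (by positivity)]
      nlinarith [norm_nonneg (dslope f p ζ)]) (fun q hq => by
      refine ⟨?_, (hZ q (Finset.mem_insert_of_mem hq)).2⟩
      have h5 := (hZ q (Finset.mem_insert_of_mem hq)).1
      rw [hz q, mul_eq_zero, sub_eq_zero] at h5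
      exact h5.resolve_left fun h => hp (h ▸ hq))
    rw [le_div_iff₀ (by positivity)] at h4
    have h5 : ‖z - p‖ ≤ r := by rwa [← dist_eq_norm, dist_comm]
    rw [Finset.card_insert_of_notMem hp, hz z, norm_mul]
    calc _ = ‖z - p‖ * (‖dslope f p z‖ * 2 ^ Z.card * 2) := by ring
      _ ≤ r * (‖dslope f p z‖ * 2 ^ Z.card * 2) := by gcongr
      _ = ‖dslope f p z‖ * 2 ^ Z.card * (2 * r) := by ring
      _ ≤ M := h4

/-- a relatively dense set has quadratically many points in a disc -/
lemma grid {P : Set ℂ} {R : ℝ} (hP : ∀ w, ∃ c ∈ P, dist w c ≤ R) (z : ℂ) (k : ℕ) :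
    ∃ Z : Finset ℂ, Z.card = k ^ 2 ∧ ∀ p ∈ Z, p ∈ P ∧ dist p z ≤ 7 * (R + 1) * (k + 1) := by
  classical
  choose c hc hd using hP
  have hR : 0 ≤ R := dist_nonneg.trans (hd 0)
  obtain ⟨w, hw⟩ : ∃ w : Fin k × Fin k → ℂ, ∀ x, w x =
      z + (3 * (R + 1) : ℝ) * (((x.1 : ℕ) : ℂ) + (x.2 : ℕ) * Complex.I) := ⟨_, fun _ => rfl⟩
  have key : ∀ i j : ℕ, |3 * (R + 1) * ((i : ℝ) - j)| ≤ 2 * R → i = j := by
    intro i j h
    by_contra hne
    have h1 : (1 : ℝ) ≤ |(i : ℝ) - j| := by
      have h2 : (1 : ℤ) ≤ |(i : ℤ) - j| := Int.one_le_abs (sub_ne_zero.2 (by exact_mod_cast hne))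
      exact_mod_cast h2
    rw [abs_mul, abs_of_pos (by positivity)] at h
    nlinarith
  have hinj : Function.Injective fun x => c (w x) := by
    intro x y hxy
    have h1 : dist (w x) (w y) ≤ 2 * R := by
      have h2 := dist_triangle_right (w x) (w y) (c (w x))
      have h3 := hd (w x)
      have h4 := hd (w y)
      have h5 : c (w x) = c (w y) := hxy
      rw [← h5] at h4
      linarith
    rw [dist_eq_norm] at h1
    have h2 := (Complex.abs_re_le_norm _).trans h1
    have h3 := (Complex.abs_im_le_norm _).trans h1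
    refine Prod.ext (Fin.ext (key _ _ ?_)) (Fin.ext (key _ _ ?_))
    · have h4 : (w x - w y).re = 3 * (R + 1) * (((x.1 : ℕ) : ℝ) - (y.1 : ℕ)) := by
        rw [hw, hw]; simp; ring
      rwa [h4] at h2
    · have h4 : (w x - w y).im = 3 * (R + 1) * (((x.2 : ℕ) : ℝ) - (y.2 : ℕ)) := by
        rw [hw, hw]; simp; ring
      rwa [h4] at h3
  refine ⟨Finset.univ.image fun x => c (w x), ?_, ?_⟩
  · rw [Finset.card_image_of_injective _ hinj]
    simp [sq]
  · intro p hp
    obtain ⟨x, -, rfl⟩ := Finset.mem_image.1 hp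
    refine ⟨hc _, ?_⟩
    have h1 : dist (w x) z ≤ 3 * (R + 1) * (2 * k) := by
      rw [dist_eq_norm, hw, add_sub_cancel_left, norm_mul, Complex.norm_real,
        Real.norm_of_nonneg (by positivity)]
      gcongr
      refine (norm_add_le _ _).trans ?_
      have h2 : ((x.1 : ℕ) : ℝ) ≤ k := by exact_mod_cast x.1.2.le
      have h3 : ((x.2 : ℕ) : ℝ) ≤ k := by exact_mod_cast x.2.2.le
      simp only [norm_mul, Complex.norm_natCast, Complex.norm_I, mul_one]
      linarith
    have h2 := dist_triangle_left (c (w x)) z (w x)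
    have h3 := hd (w x)
    have h4 : (0 : ℝ) ≤ k := Nat.cast_nonneg k
    nlinarith

lemma mem_Hp {u ζ : ℂ} {a : ℝ} (hu : ‖u‖ = 1) (h : a < ζ.re) : u * ζ ∈ Hp u a := by
  show a < (starRingEnd ℂ u * (u * ζ)).re
  rw [← mul_assoc, Complex.conj_mul', hu]
  simpa using h

lemma limz (C : ℝ) : Tendsto (fun k : ℕ => Real.exp (C * (k + 2)) / 2 ^ (k ^ 2)) atTop (𝓝 0) := by
  have hl : 0 < Real.log 2 := Real.log_pos one_lt_two
  have h1 : Tendsto (fun k : ℕ => C * (k + 2) - Real.log 2 * (k : ℝ) ^ 2) atTop atBot := by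
    refine tendsto_atBot_mono' atTop (f₁ := fun k : ℕ => -(k : ℝ)) ?_
      (tendsto_neg_atTop_atBot.comp tendsto_natCast_atTop_atTop)
    filter_upwards [tendsto_natCast_atTop_atTop (R := ℝ).eventually_ge_atTop 1,
      tendsto_natCast_atTop_atTop (R := ℝ).eventually_ge_atTop ((3 * |C| + 1) / Real.log 2)]
      with k hk1 hk2
    rw [div_le_iff₀ hl] at hk2
    have h2 : C * (k + 2) ≤ |C| * (3 * k) := by
      refine (mul_le_mul_of_nonneg_right (le_abs_self C) (by positivity)).trans ?_
      gcongr; linarith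
    nlinarith
  refine (Real.tendsto_exp_atBot.comp h1).congr fun k => ?_
  simp only [Function.comp]
  rw [Real.exp_sub, Real.exp_mul (Real.log 2), Real.exp_log two_pos, ← Real.rpow_natCast]
  norm_cast

end LatP

open LatP in
theorem slat : SLat := by
  intro f u a M R P hu hf hM hP h0 w hw
  have hR : 0 ≤ R := by
    obtain ⟨c, -, hc⟩ := hP 0
    exact dist_nonneg.trans hc
  have hM0 : 0 ≤ M := (norm_nonneg _).trans (hM w hw)
  set b : ℝ := (starRingEnd ℂ u * w).re with hb
  have hab : a < b := hw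
  have hmem : ∀ ζ : ℂ, 0 ≤ ζ.re → u * (ζ + b) ∈ Hp u a := fun ζ hζ =>
    mem_Hp hu (by simp only [Complex.add_re, Complex.ofReal_re]; linarith)
  have hbd : ∀ (t : ℝ) (k : ℕ), 21 * (R + 1) * (k + 1) ≤ t →
      ‖f (u * (t + b))‖ ≤ M / 2 ^ (k ^ 2) := by
    intro t k ht
    obtain ⟨Z, hZ, hZ'⟩ := grid hP (u * (t + b)) k
    have hs : closedBall (u * (t + b)) (3 * (7 * (R + 1) * (k + 1))) ⊆ Hp u a := by
      intro ζ hζ
      have h1 : u * (t + b) ∈ Hp u (a + 3 * (7 * (R + 1) * (k + 1))) :=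
        mem_Hp hu (by simp only [Complex.add_re, Complex.ofReal_re]; linarith)
      have h2 := add_mem_Hp (w := ζ - u * (t + b)) hu h1 (by rwa [← dist_eq_norm])
      rwa [add_sub_cancel] at h2
    have h1 := zb (isOpen_Hp u a) (by positivity) hs Z f M hf
      (fun ζ hζ => hM ζ (hs (sphere_subset_closedBall hζ))) (fun p hp => by
        refine ⟨h0 p ⟨(hZ' p hp).1, hs (mem_closedBall.2 ((hZ' p hp).2.trans ?_))⟩, (hZ' p hp).2⟩
        have : 0 ≤ 7 * (R + 1) * (k + 1) := by positivity
        linarith)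
    rw [hZ] at h1
    rwa [le_div_iff₀ (by positivity)]
  have hmain := PhragmenLindelof.eq_zero_on_right_half_plane_of_superexponential_decay
    (f := fun ζ => f (u * (ζ + b))) (DifferentiableOn.diffContOnCl (by
      rw [Complex.closure_setOfPred_lt_re]
      exact hf.comp (by fun_prop) fun ζ hζ => hmem ζ hζ))
    ⟨0, two_pos, 0, by
      refine Asymptotics.IsBigO.of_bound M ?_
      refine eventually_inf_principal.2 (Eventually.of_forall fun ζ hζ => ?_)
      simpa using hM _ (hmem ζ (le_of_lt hζ))⟩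
    (fun n => by
      have hL : 0 < 21 * (R + 1) := by positivity
      have h1 : Tendsto (fun t : ℝ => ⌊t / (21 * (R + 1))⌋₊ - 1) atTop atTop :=
        (tendsto_sub_atTop_nat 1).comp (tendsto_nat_floor_atTop.comp
          (tendsto_id.atTop_div_const hL))
      have h2 := ((limz (n * (21 * (R + 1)))).comp h1).mul_const M
      rw [zero_mul] at h2
      refine squeeze_zero' (Eventually.of_forall fun t => by positivity) ?_ h2
      filter_upwards [eventually_ge_atTop (21 * (R + 1))] with t ht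
      have h3 : 1 ≤ ⌊t / (21 * (R + 1))⌋₊ := Nat.le_floor (by
        rw [Nat.cast_one, le_div_iff₀ hL]; linarith)
      obtain ⟨k, hk⟩ : ∃ k, ⌊t / (21 * (R + 1))⌋₊ = k + 1 := ⟨_, (Nat.sub_add_cancel h3).symm⟩
      have h4 : ((k + 1 : ℕ) : ℝ) ≤ t / (21 * (R + 1)) := by
        rw [← hk]; exact Nat.floor_le (div_nonneg (hL.le.trans ht) hL.le)
      have h5 : t / (21 * (R + 1)) < ((k + 1 : ℕ) : ℝ) + 1 := by
        rw [← hk]; exact Nat.lt_floor_add_one _
      rw [le_div_iff₀ hL] at h4
      rw [div_lt_iff₀ hL] at h5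
      push_cast at h4 h5
      have h6 := hbd t k (by linarith)
      have h7 : Real.exp t ^ n ≤ Real.exp (n * (21 * (R + 1)) * (k + 2)) := by
        rw [← Real.exp_nat_mul, mul_assoc]
        gcongr
        linarith
      simp only [Function.comp, hk, Nat.add_sub_cancel]
      calc _ ≤ Real.exp (n * (21 * (R + 1)) * (k + 2)) * (M / 2 ^ (k ^ 2)) := by gcongr
        _ = _ := by ring)
    ⟨M, fun x => hM _ (hmem _ (by simp))⟩
  have h1 := @hmain (starRingEnd ℂ u * w - b) (by
    show 0 ≤ (starRingEnd ℂ u * w - b).re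
    rw [Complex.sub_re, Complex.ofReal_re, ← hb, sub_self])
  have h2 : u * (starRingEnd ℂ u * w - b + b) = w := by
    rw [sub_add_cancel, ← mul_assoc, Complex.mul_conj', hu]; simp
  simpa only [h2, Pi.zero_apply] using h1

end Pool.Agent.P.MP_7ede32_ag.Geo
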