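import Pool.Agent.P.MP_7ede32_ag.Geo.Stm

/-!
The moments of the integral between two close admissible sections vanish.
-/

open Filter Topology Metric Set

noncomputable section

namespace Pool.Agent.P.MP_7ede32_ag.Geo

namespace MomP

variable {X : Type} [MetricSpace X] {S : Sf0 X} {s : ℂ ⧸ S.Λ}

lemma wd_mu {U : X → ℂ} {y : X} (hm : S.MuOk s y) (h0 : S.mu s y ≠ 0) (hU : S.RP U y) (n : ℤ) :
    S.Wd (fun z => -(S.mu s z ^ n * U z)) (S.mu s) (S.mu s y ^ n) y := by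
  intro e he hy
  rw [Sf0.D_neg, Sf0.HolX.D_mul (hm.holX.zpow h0 n) hU.2.1 he hy, hm.holX.D_zpow h0 n he hy,
    ← hU.2.2 e he hy, hm.D_eq hy]
  simp only [wedge, neg_apply, add_apply, smul_apply, smul_eq_mul]
  ring

lemma mu_sec {f : ℂ → X} {δ : ℝ} (hδ : 2 * δ ≤ S.ρ) (hf : S.SecOn s f (Ann δ)) {w : ℂ}
    (hw : w ∈ Ann δ) : S.mu s (f w) = w :=
  Sf0.mu_eq (hw.2.trans_le hδ) (hf w hw).2

lemma deriv_mu_sec {f : ℂ → X} {δ : ℝ} (hδ : 2 * δ ≤ S.ρ) (hf : S.SecOn s f (Ann δ)) {w : ℂ}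
    (hw : w ∈ Ann δ) : deriv (S.mu s ∘ f) w = 1 := by
  have h : S.mu s ∘ f =ᶠ[𝓝 w] id :=
    (Filter.eventually_of_mem ((isOpen_Ann δ).mem_nhds hw) fun z hz => mu_sec hδ hf hz)
  rw [h.deriv_eq, deriv_id]

/-- the derivative of `G - γ ∘ f` along a section -/
lemma hasDerivAt_sec {f : ℂ → X} {δ : ℝ} (hδ : 2 * δ ≤ S.ρ) (hf : S.SecOn s f (Ann δ)) {w : ℂ}
    (hw : w ∈ Ann δ) {A B U γ : X → ℂ} {G : ℂ → ℂ} {n : ℤ}
    (hG : HasDerivAt G (A (f w) * deriv (B ∘ f) w) w)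
    (hγ : S.Rel γ A B (fun z => -(S.mu s z ^ n * U z)) (S.mu s) (f w)) :
    HasDerivAt (fun z => G z - γ (f z)) (-(w ^ n * U (f w))) w := by
  have h := hG.sub (hγ f w (hf w hw).1 rfl)
  rw [deriv_mu_sec hδ hf hw] at h
  simp only [mu_sec hδ hf hw] at h
  exact h.congr_deriv (by ring)

/-- constancy along a vertical arc -/
lemma arc_const {m : ℂ → X} {x y : X} {V : Set X} {w : ℂ} (hw : ‖w‖ < S.ρ)
    (hx : S.π x = s + S.Λ.mkQ w) (hm : S.Arc m x y {z | z ∈ V ∧ S.π z = S.π x})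
    {A B A' B' E E' g γ γ' : X → ℂ} (hg : ∀ z ∈ V, S.Rel g A B A' B' z)
    (hγ : ∀ z ∈ V, S.Rel γ A B E (S.mu s) z) (hγ' : ∀ z ∈ V, S.Rel γ' A' B' E' (S.mu s) z) :
    g x - γ x + γ' x = g y - γ y + γ' y := by
  refine hm.const (k := fun z => g z - γ z + γ' z) fun t ht => ?_
  obtain ⟨h1, h2, -⟩ := ht.self_of_nhds
  have h3 : S.mu s ∘ m =ᶠ[𝓝 t] fun _ => w :=
    ht.mono fun σ hσ => Sf0.mu_eq hw (hσ.2.2.trans hx)
  have h4 : deriv (S.mu s ∘ m) t = 0 := by rw [h3.deriv_eq, deriv_const]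
  have h := ((hg _ h2 m t h1 rfl).sub (hγ _ h2 m t h1 rfl)).add (hγ' _ h2 m t h1 rfl)
  rw [h4] at h
  exact h.congr_deriv (by ring)

end MomP

open MomP in
theorem smom (h1 : SCech) (h2 : SBal) (h3 : SPoinc) : SMom := by
  intro X _ _ S s₀ hS s
  obtain ⟨ls, hls, hmu, hC⟩ := h1 X S s₀ hS s
  obtain ⟨δ1, hδ1, hB⟩ := h2 X S s ls hls
  obtain ⟨δ2, hδ2, hnf⟩ := Sf0.near_fib s hls
  have hρ := S.ρ_pos
  refine ⟨min δ1 (min (δ2 / 3) (S.ρ / 3)), by positivity, ?_⟩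
  rintro δ ⟨hδ0, hδ⟩ K l η U hK hreg hth
  obtain ⟨d1, d2, d3⟩ : δ ≤ δ1 ∧ δ ≤ δ2 / 3 ∧ δ ≤ S.ρ / 3 := by simpa only [le_min_iff] using hδ
  have hl := hth.pos
  have d4 : 2 * δ ≤ S.ρ := by linarith
  have hT : IsCompact (closedBall (0 : ℂ) (2 * δ) \ ball 0 (δ / 2)) :=
    (isCompact_closedBall _ _).diff isOpen_ball
  have hK' := hK.inter_right (Sf0.isClosed_over s hT)
  set K' := K ∩ {x | ∃ w ∈ closedBall (0 : ℂ) (2 * δ) \ ball 0 (δ / 2),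
    S.π x = s + S.Λ.mkQ w} with hK'd
  obtain ⟨l', hl', hleb⟩ := leb_of hK' (fun x V => ∃ α e r, S.π α = s ∧ S.IsBox e r x ∧
      V = box e r ∧ V ⊆ ball α ls ∩ {y | S.mu s y ≠ 0} ∩ ball x (l / 2)) (by
    rintro x ⟨-, w, ⟨w1, w2⟩, hx⟩
    rw [mem_closedBall_zero_iff] at w1
    rw [mem_ball_zero_iff, not_lt] at w2
    obtain ⟨α, a1, a2⟩ := hnf x w (by linarith) hx
    have a3 : S.mu s x ≠ 0 := by
      rw [Sf0.mu_eq (by linarith) hx, ← norm_pos_iff]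
      linarith
    have a4 : ball α ls ∩ {y | S.mu s y ≠ 0} ∩ ball x (l / 2) ∈ 𝓝 x :=
      inter_mem (inter_mem (isOpen_ball.mem_nhds a2)
        ((hmu α a1 x a2).holX.continuousAt.eventually_ne a3)) (ball_mem_nhds x (half_pos hl))
    obtain ⟨e, r, b1, b2⟩ := Sf0.exists_box (S := S) a4
    exact ⟨_, b1.mem_nhds, α, e, r, a1, b1, rfl, b2⟩)
  obtain ⟨η1, hη1, hvc⟩ := Sf0.vc hK hreg (half_pos hl')
  have hη := hth.2.1
  refine ⟨min η (min η1 (l' / 4)), by positivity, fun p q hp hq hpq n hn => ?_⟩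
  have hpq' : ∀ w ∈ Ann δ, dist (p w) (q w) ≤ η ∧ dist (p w) (q w) ≤ η1 ∧
      dist (p w) (q w) ≤ l' / 4 := fun w hw => by simpa only [le_min_iff] using (hpq w hw).2
  obtain ⟨A, B, h, g, hc⟩ := hC n hn
  obtain ⟨Gp, p1, p2⟩ := hB δ ⟨hδ0, d1⟩ n A B h g hc p hp
  obtain ⟨Gq, q1, q2⟩ := hB δ ⟨hδ0, d1⟩ n A B h g hc q hq
  have sp := hp.secOn
  have sq := hq.secOn
  have hππ : ∀ w ∈ Ann δ, S.π (q w) = S.π (p w) := fun w hw => (sq w hw).2.trans (sp w hw).2.symm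
  have hloc : ∀ w ∈ Ann δ, ∃ (x α : X) (γ : X → ℂ), x ∈ K ∧ S.π α = s ∧
      ∀ y ∈ ball (p w) l', y ∈ ball α ls ∧ y ∈ ball x (l / 2) ∧
        S.Rel γ (A α) (B α) (fun z => -(S.mu s z ^ n * U x z)) (S.mu s) y := by
    intro w hw
    obtain ⟨x, hx, V, ⟨α, e, r, a1, a2, rfl, a3⟩, a4⟩ := hleb (p w) ⟨(hpq w hw).1, w,
      ⟨mem_closedBall_zero_iff.2 hw.2.le, fun h0 => (mem_ball_zero_iff.1 h0).not_gt hw.1⟩,
      (sp w hw).2⟩
    obtain ⟨γ, hγ⟩ := h3 X S e r x a2 (A α) (B α) (fun z => -(S.mu s z ^ n * U x z)) (S.mu s)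
      fun y hy => by
        obtain ⟨⟨b1, b2⟩, b3⟩ := a3 hy
        have b4 := hmu α a1 y b1
        obtain ⟨c1, c2, c3⟩ := hc.1 α a1 y b1
        have b5 := (hth.1 x hx.1 y (ball_subset_ball (by linarith) b3)).1
        exact ⟨c1, c2, ((b4.holX.zpow b2 n).mul b5.2.1).neg, b4.holX,
          (c3 fun h0 => b2 (b4.eq_zero_iff.2 h0)).wdEq (wd_mu b4 b2 b5 n)⟩
    exact ⟨x, α, γ, hx.1, a1, fun y hy => ⟨(a3 (a4 hy)).1.1, (a3 (a4 hy)).2, hγ y (a4 hy)⟩⟩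
  have : Nonempty X := ⟨p 0⟩
  choose! x α γ hx hα hV using hloc
  let Ψ : ℂ → ℂ → ℂ := fun v w =>
    (Gp (α v) w - γ v (p w)) - (Gq (α v) w - γ v (q w))
  have hq1 : ∀ w ∈ Ann δ, q w ∈ ball (p w) (l' / 2) := fun w hw => by
    rw [mem_ball']
    linarith [(hpq' w hw).2.2]
  have hΨ : ∀ v ∈ Ann δ, ∀ w ∈ Ann δ, dist (p w) (p v) < l' / 2 → Ψ w w = Ψ v w := by
    intro v hv w hw hd
    have s1 : ball (p w) (l' / 2) ⊆ ball (p w) l' := ball_subset_ball (by linarith)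
    have s2 : ball (p w) (l' / 2) ⊆ ball (p v) l' := ball_subset_ball' (by linarith)
    obtain ⟨m, hm⟩ := hvc (p w) (hpq w hw).1 (q w) (hππ w hw) (hpq' w hw).2.1
    have e1 := arc_const (hw.2.trans_le d4) (sp w hw).2 hm (g := g (α w) (α v))
      (fun z hz => (hc.2.1 _ _ (hα w hw) (hα v hv) z
        ⟨(hV w hw z (s1 hz)).1, (hV v hv z (s2 hz)).1⟩).1)
      (fun z hz => (hV w hw z (s1 hz)).2.2) fun z hz => (hV v hv z (s2 hz)).2.2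
    have m0 : p w ∈ ball (p w) (l' / 2) := mem_ball_self (half_pos hl')
    have e2 := p2 _ _ (hα w hw) (hα v hv) w hw ⟨(hV w hw _ (s1 m0)).1, (hV v hv _ (s2 m0)).1⟩
    have e3 := q2 _ _ (hα w hw) (hα v hv) w hw
      ⟨(hV w hw _ (s1 (hq1 w hw))).1, (hV v hv _ (s2 (hq1 w hw))).1⟩
    simp only [Ψ]
    linear_combination e1 + e2 - e3
  refine circleIntegral.integral_eq_zero_of_hasDerivWithinAt (f := fun w => Ψ w w) hδ0.le
    fun v hv => HasDerivAt.hasDerivWithinAt ?_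
  have hv' : v ∈ Ann δ := by
    rw [mem_sphere_zero_iff_norm] at hv
    constructor <;> linarith
  have m0 : p v ∈ ball (p v) l' := mem_ball_self hl'
  have m1 : q v ∈ ball (p v) l' := ball_subset_ball (by linarith) (hq1 v hv')
  have e1 := (hasDerivAt_sec d4 sp hv' (p1 _ (hα v hv') v hv' (hV v hv' _ m0).1)
    (hV v hv' _ m0).2.2).sub (hasDerivAt_sec d4 sq hv' (q1 _ (hα v hv') v hv' (hV v hv' _ m1).1)
      (hV v hv' _ m1).2.2)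
  have e2 : (fun w => Ψ w w) =ᶠ[𝓝 v] Ψ v := by
    filter_upwards [(isOpen_Ann δ).mem_nhds hv',
      (sp v hv').1.1.eventually (ball_mem_nhds (p v) (half_pos hl'))] with w hw hd
    exact hΨ v hv' w hw hd
  rw [hth.2.2.2 _ (hx v hv') _ (hpq v hv').1 (hV v hv' _ m0).2.1 _ (hππ v hv') (hpq' v hv').1]
  exact HasDerivAt.congr_of_eventuallyEq (e1.congr_deriv (by ring)) e2

end Pool.Agent.P.MP_7ede32_ag.Geo
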