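import Pool.Agent.P.MP_7ede32_ag.Geo.Stm

/-!
Extension of the integral between two close sections across a bad value.
-/

open Filter Topology Metric Set

noncomputable section

namespace Pool.Agent.P.MP_7ede32_ag.Geo

open Ell (E2 UU ev_UU UU_le montel_filter exists_pos_fin)

namespace PairP

/-- ultralimit of a bounded family of holomorphic functions on a disc -/
lemma lim_hol {Θ : ℕ → ℂ → ℂ} {R M : ℝ} (hd : ∀ k, DifferentiableOn ℂ (Θ k) (ball 0 R))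
    (hb : ∀ k, ∀ w ∈ ball (0 : ℂ) R, ‖Θ k w‖ ≤ M) :
    ∃ T : ℂ → ℂ, DifferentiableOn ℂ T (ball 0 R) ∧ (∀ w ∈ ball (0 : ℂ) R, ‖T w‖ ≤ M) ∧
      ∀ w ∈ ball (0 : ℂ) R, Tendsto (fun k => Θ k w) (UU : Filter ℕ) (𝓝 (T w)) := by
  have h1 : ∀ w ∈ ball (0 : ℂ) R, ∃ t ∈ closedBall (0 : ℂ) M,
      Tendsto (fun k => Θ k w) (UU : Filter ℕ) (𝓝 t) := by
    intro w hw
    obtain ⟨t, ht, h⟩ := (isCompact_closedBall (0 : ℂ) M).ultrafilter_le_nhds
      (UU.map fun k => Θ k w) (by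
        rw [le_principal_iff]
        exact mem_map.2 (Eventually.of_forall fun k => mem_closedBall_zero_iff.2 (hb k w hw)))
    exact ⟨t, ht, h⟩
  choose! T hT hT' using h1
  refine ⟨T, fun z hz => ?_, fun w hw => mem_closedBall_zero_iff.1 (hT w hw), hT'⟩
  obtain ⟨r, hr, hsub⟩ := Metric.isOpen_iff.1 isOpen_ball z hz
  have := (montel_filter (U := (UU : Filter ℕ)) (f := Θ) (g := T) (M := M) hr
    (Eventually.of_forall fun k => ⟨(hd k).mono hsub, fun w hw => hb k w (hsub hw)⟩)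
    fun w hw => hT' w (hsub hw)).1
  exact (this.differentiableAt (ball_mem_nhds z (half_pos hr))).differentiableWithinAt

lemma Ann_subset {δ : ℝ} : Ann δ ⊆ ball 0 (2 * δ) := fun _ hw => mem_ball_zero_iff.2 hw.2

end PairP

theorem spair (h1 : SMom) (h2 : SExt) : SPair := by
  intro X _ _ S s₀ hS C
  have : Finite C.B := C.fin
  obtain ⟨δ₀, hδ₀, H0⟩ := exists_pos_fin (fun (s : C.B) δ₀ => ∀ δ ∈ Ioc 0 δ₀,
    ∀ (K : Set X) (l η : ℝ) (U : X → X → ℂ),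
      IsCompact K → (∀ x ∈ K, S.RegAt x) → S.ThOk K l U η → ∃ η' > 0, ∀ p q : ℂ → X,
        S.Adm s δ p → S.Adm s δ q → (∀ w ∈ Ann δ, p w ∈ K ∧ dist (p w) (q w) ≤ η') →
        ∀ n : ℤ, (0 ≤ n ∨ ((s : ℂ ⧸ S.Λ) = s₀ ∧ n = -1)) →
          (∮ w in C(0, δ), w ^ n * th U (p w) (q w)) = 0)
    (fun s => h1 X S s₀ hS s)
    (fun s r r' _ h H δ hδ => H δ ⟨hδ.1, hδ.2.trans h⟩)
  refine ⟨δ₀, hδ₀, fun δ hδ hsep l η U hU => ?_⟩
  obtain ⟨η₁, hη₁, H1⟩ := exists_pos_fin (fun (s : C.B) η' => ∀ p q : ℂ → X,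
        S.Adm s δ p → S.Adm s δ q →
        (∀ w ∈ Ann δ, p w ∈ C.Kc (δ / 2) ∧ dist (p w) (q w) ≤ η') →
        ∀ n : ℤ, (0 ≤ n ∨ ((s : ℂ ⧸ S.Λ) = s₀ ∧ n = -1)) →
          (∮ w in C(0, δ), w ^ n * th U (p w) (q w)) = 0)
    (fun s => H0 s δ hδ _ l η U (Sf0.Cfg.isCompact_Kc _) (Sf0.Cfg.regAt_Kc (half_pos hδ.1)) hU)
    (fun s r r' _ h H p q hp hq hpq => H p q hp hq fun w hw =>
      ⟨(hpq w hw).1, (hpq w hw).2.trans h⟩)
  have hη := hU.2.1
  set m := min η₁ η with hm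
  have hm0 : 0 < m := lt_min hη₁ hη
  refine ⟨m / 2, half_pos hm0, fun c hc p q hp hq lp lq hpq => ?_⟩
  have hK : ∀ f : ℂ → X, S.SecOn (S.Λ.mkQ c) f (Ann δ) → ∀ w ∈ Ann δ, f w ∈ C.Kc (δ / 2) :=
    fun f hf w hw => Sf0.Cfg.mem_Kc (hsep.add_mem_Cr hc hw.1.le hw.2.le)
      (by rw [(hf w hw).2, map_add])
  have hε : ∀ k : ℕ, 0 < m / 4 * (1 / ((k : ℝ) + 1)) := fun k => by positivity
  have hε' : ∀ k : ℕ, m / 4 * (1 / ((k : ℝ) + 1)) ≤ m / 4 := fun k => by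
    refine mul_le_of_le_one_right (by positivity) ?_
    rw [div_le_one (by positivity)]
    linarith [Nat.cast_nonneg (α := ℝ) k]
  have hε0 : Tendsto (fun k : ℕ => m / 4 * (1 / ((k : ℝ) + 1))) (UU : Filter ℕ) (𝓝 0) := by
    simpa using (tendsto_one_div_add_atTop_nhds_zero_nat.mono_left UU_le).const_mul (m / 4)
  choose P hP hPp using fun k => lp _ (hε k)
  choose Q hQ hQq using fun k => lq _ (hε k)
  have hd : ∀ k, ∀ w ∈ Ann δ, dist (P k w) (Q k w) ≤ m := fun k w hw => by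
    linarith [dist_triangle4 (P k w) (p w) (q w) (Q k w), hPp k w hw, hQq k w hw, hpq w hw, hε' k,
      dist_comm (q w) (Q k w)]
  have hA : ∀ k, ∀ w ∈ Ann δ, P k w ∈ C.Kc (δ / 2) ∧ S.π (Q k w) = S.π (P k w) ∧
      dist (P k w) (Q k w) ≤ η := fun k w hw =>
    ⟨hK _ (hP k).secOn w hw, by rw [((hP k).secOn w hw).2, ((hQ k).secOn w hw).2],
      (hd k w hw).trans (min_le_right _ _)⟩
  have hmom := fun k => H1 ⟨_, hc⟩ (P k) (Q k) (hP k) (hQ k) fun w hw =>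
    ⟨(hA k w hw).1, (hd k w hw).trans (min_le_left _ _)⟩
  have hE := fun k => h2 (fun w => th U (P k w) (Q k w)) δ 2 hδ.1
    (fun w hw => (hU.differentiableAt ((hP k).secOn w hw).1 ((hQ k).secOn w hw).1
      (eventually_of_mem ((isOpen_Ann δ).mem_nhds hw) (hA k))).differentiableWithinAt)
    (fun w hw => hU.bound (hA k w hw).1 (hA k w hw).2.2) fun n hn => hmom k n (Or.inl hn)
  choose Θ a1 a2 a3 a4 using hE
  obtain ⟨T, b1, b2, b3⟩ := PairP.lim_hol a1 a2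
  refine ⟨T, b1, b2, fun w hw => ?_, fun h0 => ?_⟩
  · refine tendsto_nhds_unique (b3 w (PairP.Ann_subset hw)) ?_
    simp only [a3 _ w hw]
    refine hU.tendsto ?_ ?_ (hK p hp w hw) ?_ (Eventually.of_forall fun k => hA k w hw)
    · exact tendsto_iff_dist_tendsto_zero.2
        (squeeze_zero (fun _ => dist_nonneg) (fun k => hPp k w hw) hε0)
    · exact tendsto_iff_dist_tendsto_zero.2
        (squeeze_zero (fun _ => dist_nonneg) (fun k => hQq k w hw) hε0)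
    · linarith [hpq w hw, min_le_right η₁ η]
  · refine tendsto_nhds_unique (b3 0 (mem_ball_self (by linarith [hδ.1]))) ?_
    simp only [fun k => a4 k (hmom k (-1) (Or.inr ⟨h0, rfl⟩))]
    exact tendsto_const_nhds

end Pool.Agent.P.MP_7ede32_ag.Geo
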