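import Pool.Agent.P.MP_7ede32_ag.Geo.Stm

/-!
Puiseux parametrisation of a plane curve germ.
-/

open Filter Topology Metric Set Polynomial

noncomputable section

namespace Pool.Agent.P.MP_7ede32_ag.Geo

open Ell (E2)
open MP_e711b0_an (pl pl_of_monic pl_zero_coeff weierstrass_prep eq_zero_of_lines)

namespace PuisP

lemma exists_dir {F : E2 → ℂ} (hF : AnalyticAt ℂ F 0) (hne : ¬ ∀ᶠ p in 𝓝 0, F p = 0) :
    ∃ M : E2 ≃L[ℂ] E2, ¬ ∀ᶠ t in 𝓝 (0 : ℂ), F (M (0, t)) = 0 := by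
  by_contra hcon
  push Not at hcon
  obtain ⟨r, hr, hd⟩ := Metric.mem_nhds_iff.1 hF.eventually_analyticAt
  refine hne (mem_of_superset (ball_mem_nhds 0 hr) (eq_zero_of_lines
    (fun x hx => (hd hx).differentiableAt.differentiableWithinAt) fun v => ?_))
  by_cases hv : v = 0
  · have : F 0 = 0 := (hcon (ContinuousLinearEquiv.refl ℂ E2)).self_of_nhds
    exact Eventually.of_forall fun t => by simpa [hv] using this
  · obtain ⟨M, hM⟩ := SeparatingDual.exists_continuousLinearEquiv_apply_eq (R := ℂ)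
      (x := ((0, 1) : E2)) (by simp) hv
    filter_upwards [hcon M] with t ht
    rwa [zero_add, ← hM, ← map_smul, Prod.smul_mk, smul_zero, smul_eq_mul, mul_one]

lemma small_roots {k : ℕ} {φ : ℕ → ℂ → ℂ} (hφ : ∀ l, ContinuousAt (φ l) 0)
    (h0 : ∀ l < k, φ l 0 = 0) {η : ℝ} (hη : 0 < η) :
    ∀ᶠ x in 𝓝 (0 : ℂ), ∀ v : ℂ, ∑ l ∈ Finset.range k, φ l x * v ^ l + v ^ k = 0 → ‖v‖ < η := by
  have hc : ContinuousAt (fun x => ∑ l ∈ Finset.range k, ‖φ l x‖ * η ^ l) 0 :=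
    tendsto_finsetSum _ fun l _ => (hφ l).norm.mul continuousAt_const
  have hz : ∑ l ∈ Finset.range k, ‖φ l 0‖ * η ^ l < η ^ k := by
    rw [Finset.sum_eq_zero fun l hl => by rw [h0 l (Finset.mem_range.1 hl), norm_zero, zero_mul]]
    positivity
  filter_upwards [hc.eventually_lt continuousAt_const hz] with x hx v hv
  by_contra hcon
  have hle : η ≤ ‖v‖ := not_lt.1 hcon
  have hpos : 0 < ‖v‖ ^ k := pow_pos (hη.trans_le hle) k
  have e1 : ‖v‖ ^ k ≤ ∑ l ∈ Finset.range k, ‖φ l x‖ * ‖v‖ ^ l := by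
    rw [← norm_pow, eq_neg_of_add_eq_zero_right hv, norm_neg]
    refine (norm_sum_le _ _).trans (Finset.sum_le_sum fun l _ => ?_)
    rw [norm_mul, norm_pow]
  have e2 : (∑ l ∈ Finset.range k, ‖φ l x‖ * ‖v‖ ^ l) * η ^ k ≤
      (∑ l ∈ Finset.range k, ‖φ l x‖ * η ^ l) * ‖v‖ ^ k := by
    rw [Finset.sum_mul, Finset.sum_mul]
    refine Finset.sum_le_sum fun l hl => ?_
    obtain ⟨j, rfl⟩ := Nat.exists_eq_add_of_le (Finset.mem_range.1 hl).le
    have : η ^ j ≤ ‖v‖ ^ j := pow_le_pow_left₀ hη.le hle j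
    calc ‖φ l x‖ * ‖v‖ ^ l * η ^ (l + j) = ‖φ l x‖ * ‖v‖ ^ l * η ^ l * η ^ j := by ring
      _ ≤ ‖φ l x‖ * ‖v‖ ^ l * η ^ l * ‖v‖ ^ j := by gcongr
      _ = _ := by ring
  have e3 := mul_lt_mul_of_pos_right hx hpos
  have e4 := mul_le_mul_of_nonneg_right e1 (pow_pos hη k).le
  linarith

lemma exists_root {k : ℕ} (hk : k ≠ 0) (a : ℕ → ℂ) :
    ∃ v : ℂ, ∑ l ∈ Finset.range k, a l * v ^ l + v ^ k = 0 := by
  have h1 : (∑ l ∈ Finset.range k, C (a l) * X ^ l : ℂ[X]).degree < (X ^ k : ℂ[X]).degree := by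
    rw [degree_X_pow]
    refine (degree_sum_le _ _).trans_lt ((Finset.sup_lt_iff (WithBot.bot_lt_coe k)).2 fun l hl => ?_)
    exact (degree_C_mul_X_pow_le l _).trans_lt (Nat.cast_lt.2 (Finset.mem_range.1 hl))
  obtain ⟨v, hv⟩ := IsAlgClosed.exists_root
    (∑ l ∈ Finset.range k, C (a l) * X ^ l + X ^ k : ℂ[X]) (by
      rw [degree_add_eq_right_of_degree_lt h1, degree_X_pow]
      exact_mod_cast hk)
  exact ⟨v, by simpa [eval_finsetSum] using hv⟩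

end PuisP

open PuisP in
theorem spuis (h1 : SSqf) (h2 : SRoots) : SPuis := by
  intro F hF hne
  obtain ⟨M, hM⟩ := exists_dir hF hne
  have hFM : AnalyticAt ℂ (fun p => F (M p)) 0 :=
    AnalyticAt.comp_of_eq hF ((M : E2 →L[ℂ] E2).analyticAt 0) (map_zero M)
  obtain ⟨k, φ, e, a1, a2, a3, a4, a5, a6⟩ := weierstrass_prep (f := fun p => F (M p))
    (hFM.eventually_analyticAt.mono fun _ h => h.differentiableAt) hM
  have hφ : ∀ l, AnalyticAt ℂ (fun z => φ z l) 0 := fun l =>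
    Complex.analyticAt_iff_eventually_differentiableAt.2 (a1 l)
  obtain ⟨p, d, ε, hε, hp, hroot⟩ := h1 k (fun l z => φ z l) hφ
  obtain ⟨N, m, ρ₀, y, hN, hρ₀, hρε, hy, hyr⟩ := h2 p d ε hε hp fun η hη => by
    filter_upwards [nhdsWithin_le_nhds (small_roots (fun l => (hφ l).continuousAt) a3 hη),
      nhdsWithin_le_nhds (ball_mem_nhds (0 : ℂ) hε), self_mem_nhdsWithin] with x b1 b2 b3 v hv
    exact b1 v ((hroot x ⟨b2, b3⟩ v).1 hv)
  obtain ⟨r, hr, hb⟩ := Metric.mem_nhds_iff.1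
    (a6.and (a4.self_of_nhds.continuousAt.eventually_ne a5))
  have c1 : ∀ᶠ t in 𝓝 (0 : ℂ), ‖t ^ N‖ < r :=
    (continuous_pow N).norm.continuousAt.eventually_lt continuousAt_const
      (by simpa [hN.ne'] using hr)
  have c2 : ∀ᶠ t in 𝓝 (0 : ℂ), ∀ j, ‖y j t‖ < r := eventually_all.2 fun j =>
    ((hy j).1 0 (mem_ball_self hρ₀)).continuousAt.norm.eventually_lt continuousAt_const
      (by simpa [(hy j).2] using hr)
  obtain ⟨ρ, hρ, hs⟩ := Metric.mem_nhds_iff.1 (c1.and (c2.and (ball_mem_nhds (0 : ℂ) hρ₀)))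
  have key : ∀ t ∈ ball (0 : ℂ) ρ, ∀ v : ℂ, ‖v‖ < r → (F (M (t ^ N, v)) = 0 ↔
      ∑ l ∈ Finset.range k, φ (t ^ N) l * v ^ l + v ^ k = 0) := by
    intro t ht v hv
    have hm : ((t ^ N, v) : E2) ∈ ball (0 : E2) r := by
      rw [mem_ball_zero_iff, Prod.norm_mk]
      exact max_lt (hs ht).1 hv
    rw [(hb hm).1, mul_eq_zero, or_iff_right (hb hm).2, pl_of_monic (a2 _)]
  have key2 : ∀ t ∈ ball (0 : ℂ) ρ, t ≠ 0 → ∀ v : ℂ,
      (∑ l ∈ Finset.range k, φ (t ^ N) l * v ^ l + v ^ k = 0 ↔ ∃ j, v = y j t) := by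
    intro t ht h0 v
    have ht0 := (hs ht).2.2
    rw [← (hyr t ht0 h0).2 v]
    refine (hroot _ ⟨?_, pow_ne_zero N h0⟩ v).symm
    rw [mem_ball_zero_iff, norm_pow]
    exact (pow_lt_pow_left₀ (mem_ball_zero_iff.1 ht0) (norm_nonneg _) hN.ne').trans_le hρε
  have key0 : ∀ v : ℂ, ∑ l ∈ Finset.range k, φ ((0 : ℂ) ^ N) l * v ^ l + v ^ k = v ^ k := by
    intro v
    rw [zero_pow hN.ne', ← pl_of_monic (a2 _), pl_zero_coeff (a2 _) a3]
  have ht1 : ((ρ / 2 : ℝ) : ℂ) ∈ ball (0 : ℂ) ρ := by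
    rw [mem_ball_zero_iff, Complex.norm_real, Real.norm_of_nonneg (half_pos hρ).le]
    exact half_lt_self hρ
  have ht2 : ((ρ / 2 : ℝ) : ℂ) ≠ 0 := Complex.ofReal_ne_zero.2 (half_pos hρ).ne'
  refine ⟨M, N, m, ρ, r, y, hN, hρ, hr, fun j => ⟨(hy j).1.mono fun t ht => (hs ht).2.2,
    (hy j).2, fun t ht => ⟨(hs ht).2.1 j, (key t ht _ ((hs ht).2.1 j)).2 ?_⟩⟩,
    fun t ht h0 => (hyr t (hs ht).2.2 h0).1, fun t ht v hv hz => ?_⟩
  · by_cases h0 : t = 0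
    · subst h0
      rw [key0, (hy j).2]
      refine zero_pow fun hk => ?_
      have := (key2 _ ht1 ht2 _).2 ⟨j, rfl⟩
      simp [hk] at this
    · exact (key2 t ht h0 _).2 ⟨j, rfl⟩
  · have hz' := (key t ht v hv).1 hz
    by_cases h0 : t = 0
    · subst h0
      rw [key0] at hz'
      obtain ⟨hv0, hk⟩ := pow_eq_zero_iff'.1 hz'
      obtain ⟨w, hw⟩ := exists_root hk (φ (((ρ / 2 : ℝ) : ℂ) ^ N))
      obtain ⟨j, -⟩ := (key2 _ ht1 ht2 w).1 hw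
      exact ⟨j, hv0.trans (hy j).2.symm⟩
    · exact (key2 t ht h0 v).1 hz'

end Pool.Agent.P.MP_7ede32_ag.Geo
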