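import Pool.Agent.P.MP_7ede32_ag.Geo.Stm

/-!
Off the central fibre there are no critical points and the zero set is a smooth section.
-/

open Filter Topology Metric Set

noncomputable section

namespace Pool.Agent.P.MP_7ede32_ag.Geo

open Ell (E2)

namespace RegLocP

/-- A function with vanishing derivative near a point is constant near the point. -/
lemma const_of_fderiv {E : Type*} [NormedAddCommGroup E] [NormedSpace ℂ E] {f : E → ℂ} {x : E}
    (hf : AnalyticAt ℂ f x) (h : ∀ᶠ y in 𝓝 x, fderiv ℂ f y = 0) : ∀ᶠ y in 𝓝 x, f y = f x := by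
  obtain ⟨r, hr, h1⟩ := Metric.eventually_nhds_iff_ball.1 (hf.eventually_analyticAt.and h)
  filter_upwards [ball_mem_nhds x hr] with y hy
  exact isOpen_ball.is_const_of_fderiv_eq_zero (𝕜 := ℂ) (convex_ball x r).isPreconnected
    (fun z hz => (h1 z hz).1.differentiableAt.differentiableWithinAt) (fun z hz => (h1 z hz).2)
    hy (mem_ball_self hr)

/-- An analytic function of one variable that vanishes at the origin has no critical point with
nonzero value near the origin. -/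
lemma zero_or_deriv {f : ℂ → ℂ} (hf : AnalyticAt ℂ f 0) (h0 : f 0 = 0) :
    ∀ᶠ t in 𝓝 (0 : ℂ), f t ≠ 0 → t ≠ 0 ∧ deriv f t ≠ 0 := by
  rcases hf.deriv.eventually_eq_zero_or_eventually_ne_zero with h | h
  · have h1 : ∀ᶠ y in 𝓝 (0 : ℂ), fderiv ℂ f y = 0 := h.mono fun y hy => by
      ext
      simpa using hy
    filter_upwards [const_of_fderiv hf h1] with t ht h2
    exact absurd (ht.trans h0) h2
  · rw [eventually_nhdsWithin_iff] at h
    filter_upwards [h] with t ht h2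
    have h3 : t ≠ 0 := fun h3 => h2 (h3 ▸ h0)
    exact ⟨h3, ht h3⟩

/-- Along the branches of a curve germ, `p` vanishes or is a local parameter. -/
lemma branch {F p : E2 → ℂ} (hp : AnalyticAt ℂ p 0) (h0 : p 0 = 0) {m : ℕ} {ρ : ℝ}
    {b : Fin m → ℂ → E2} (hρ : 0 < ρ) (hb : ∀ k, AnalyticOnNhd ℂ (b k) (ball 0 ρ) ∧ b k 0 = 0)
    (h2 : ∀ ρ' > 0, ∀ᶠ y in 𝓝 0, F y = 0 → ∃ k, ∃ t ∈ ball (0 : ℂ) ρ, ‖t‖ < ρ' ∧ y = b k t) :
    ∀ᶠ y in 𝓝 (0 : E2), F y = 0 → p y ≠ 0 → ∃ k, ∃ t ∈ ball (0 : ℂ) ρ, t ≠ 0 ∧ y = b k t ∧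
      deriv (p ∘ b k) t ≠ 0 := by
  have h3 : ∀ᶠ t in 𝓝 (0 : ℂ), ∀ k, (p ∘ b k) t ≠ 0 → t ≠ 0 ∧ deriv (p ∘ b k) t ≠ 0 :=
    eventually_all.2 fun k => zero_or_deriv
      (AnalyticAt.comp_of_eq hp ((hb k).1 0 (mem_ball_self hρ)) (hb k).2)
      (by rw [Function.comp_apply, (hb k).2, h0])
  obtain ⟨r, hr, h4⟩ := Metric.eventually_nhds_iff_ball.1 h3
  filter_upwards [h2 r hr] with y hy hF hy0
  obtain ⟨k, t, ht, ht', rfl⟩ := hy hF
  obtain ⟨h5, h6⟩ := h4 t (mem_ball_zero_iff.2 ht') k hy0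
  exact ⟨k, t, ht, h5, rfl, h6⟩

/-- There are no critical points off the central fibre. -/
lemma no_crit (h : SBr) {p : E2 → ℂ} (hp : AnalyticAt ℂ p 0) (h0 : p 0 = 0)
    (hne : ¬ ∀ᶠ y in 𝓝 0, p y = 0) : ∀ᶠ y in 𝓝 (0 : E2), p y ≠ 0 → fderiv ℂ p y ≠ 0 := by
  have h1 : ∃ ξ : E2, ¬ ∀ᶠ y in 𝓝 (0 : E2), fderiv ℂ p y ξ = 0 := by
    by_contra h1
    push Not at h1
    refine hne ((const_of_fderiv hp ?_).mono fun y hy => hy.trans h0)
    filter_upwards [h1 (1, 0), h1 (0, 1)] with y a1 a2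
    ext
    · simpa using a1
    · simpa using a2
  obtain ⟨ξ, hξ⟩ := h1
  have h2 : AnalyticAt ℂ (fun y => fderiv ℂ p y ξ) 0 :=
    ((ContinuousLinearMap.apply ℂ ℂ ξ).analyticAt _).comp hp.fderiv
  obtain ⟨m, ρ, b, hρ, b1, b2, -, -⟩ := h _ h2 hξ
  filter_upwards [branch hp h0 hρ (fun k => ⟨(b1 k).1, (b1 k).2.1⟩) b2, hp.eventually_analyticAt]
    with y hy hpy hy0 hc
  obtain ⟨k, t, ht, -, rfl, h3⟩ := hy (by rw [hc]; rfl) hy0
  refine h3 ?_
  have h4 := hpy.differentiableAt.hasFDerivAt.comp_hasDerivAt t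
    ((b1 k).1 t ht).differentiableAt.hasDerivAt
  rw [h4.deriv, hc]
  rfl

end RegLocP

open RegLocP in
theorem sregLoc (h : SBr) : SRegLoc := by
  intro p a hp ha h0 hpne hane
  obtain ⟨m, ρ, b, hρ, b1, b2, b3, -⟩ := h a ha hane
  filter_upwards [no_crit h hp h0 hpne, branch hp h0 hρ (fun k => ⟨(b1 k).1, (b1 k).2.1⟩) b2,
    hp.eventually_analyticAt] with y hc hy hpy hy0
  refine ⟨hc hy0, fun hay => ?_⟩
  obtain ⟨k, t, ht, ht0, rfl, hd⟩ := hy hay hy0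
  obtain ⟨σ, s1, s2, s3⟩ := b3 k t ht ht0
  have hf : AnalyticAt ℂ (p ∘ b k) t := hpy.comp ((b1 k).1 t ht)
  set τ : ℂ → ℂ := hf.hasStrictDerivAt.localInverse _ _ _ hd with hτ
  have t1 : AnalyticAt ℂ τ (p (b k t)) := hf.analyticAt_localInverse hd
  have t2 : ∀ᶠ s in 𝓝 t, τ ((p ∘ b k) s) = s := hf.hasStrictDerivAt.eventually_left_inverse hd
  have t3 : ∀ᶠ w in 𝓝 (p (b k t)), (p ∘ b k) (τ w) = w :=
    hf.hasStrictDerivAt.eventually_right_inverse hd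
  have t4 : τ (p (b k t)) = t := t2.self_of_nhds
  refine ⟨b k ∘ τ, AnalyticAt.comp_of_eq ((b1 k).1 t ht) t1 t4, by rw [Function.comp_apply, t4],
    t3, ?_⟩
  have t5 : Tendsto σ (𝓝 (b k t)) (𝓝 t) := by
    have := s1.continuousAt.tendsto
    rwa [s2] at this
  filter_upwards [s3, t5.eventually t2] with y' c1 c2 c3
  have c4 := c1 c3
  rw [Function.comp_apply, ← c4] at c2
  rw [Function.comp_apply, c2]
  exact c4

end Pool.Agent.P.MP_7ede32_ag.Geo
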