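import Pool.Agent.P.MP_7ede32_ag.Geo.Stm

/-!
Roots of a separable family over a punctured disc, after a ramified base change.
-/

open Filter Topology Metric Set Polynomial

noncomputable section

namespace Pool.Agent.P.MP_7ede32_ag.Geo

open MP_26ad15_nt (Fam HP isOpen_HP isPreconnected_HP add_mem_HP)

namespace RootsP

open Complex (I log exp)

lemma per_int {Y : ℂ → ℂ} {r : ℝ} {N : ℕ}
    (h : ∀ τ ∈ HP r, Y (τ + N * (2 * Real.pi * I)) = Y τ) (k : ℤ) :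
    ∀ τ ∈ HP r, Y (τ + k * (N * (2 * Real.pi * I))) = Y τ := by
  have hm : ∀ (k : ℤ), ∀ τ ∈ HP r, τ + k * (N * (2 * Real.pi * I)) ∈ HP r := fun k τ hτ => by
    have := add_mem_HP hτ ((k : ℝ) * N)
    push_cast at this
    rwa [mul_assoc] at this
  induction k using Int.induction_on with
  | zero => simp
  | succ k ih =>
    intro τ hτ
    rw [← ih τ hτ, ← h _ (hm k τ hτ)]
    congr 1
    push_cast; ring
  | pred k ih =>
    intro τ hτ
    rw [← ih τ hτ, ← h _ (hm (-(k : ℤ) - 1) τ hτ)]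
    congr 1
    push_cast; ring

/-- The descent of a periodic function along `σ ↦ exp (-σ)`, after scaling by `N`. -/
def dn (Y : ℂ → ℂ) (N : ℕ) (t : ℂ) : ℂ := by
  classical exact if t = 0 then 0 else Y (-(N * log t))

lemma dn_zero (Y : ℂ → ℂ) (N : ℕ) : dn Y N 0 = 0 := by simp [dn]

lemma dn_ne (Y : ℂ → ℂ) (N : ℕ) {t : ℂ} (ht : t ≠ 0) : dn Y N t = Y (-(N * log t)) := by
  simp [dn, ht]

lemma dn_exp {Y : ℂ → ℂ} {r : ℝ} {N : ℕ}
    (h : ∀ τ ∈ HP r, Y (τ + N * (2 * Real.pi * I)) = Y τ) {σ : ℂ} (hσ : (N : ℂ) * σ ∈ HP r) :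
    dn Y N (exp (-σ)) = Y (N * σ) := by
  rw [dn_ne Y N (Complex.exp_ne_zero _)]
  obtain ⟨n, hn⟩ := Complex.exp_eq_exp_iff_exists_int.1
    (Complex.exp_log (Complex.exp_ne_zero (-σ)))
  rw [hn, ← per_int h (-n) _ hσ]
  congr 1
  push_cast; ring

lemma mem_HP {r : ℝ} {N : ℕ} (hN : 0 < N) {t : ℂ} (ht : t ∈ ball (0 : ℂ) (Real.exp (-r / N)))
    (h0 : t ≠ 0) : -((N : ℂ) * log t) ∈ HP r := by
  rw [mem_ball_zero_iff] at ht
  have h1 : Real.log ‖t‖ < -r / N := (Real.log_lt_iff_lt_exp (norm_pos_iff.2 h0)).2 ht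
  have h2 : (0 : ℝ) < N := by exact_mod_cast hN
  rw [lt_div_iff₀ h2] at h1
  show r < (-((N : ℂ) * log t)).re
  simp only [Complex.neg_re, Complex.mul_re, Complex.natCast_re, Complex.natCast_im, zero_mul,
    sub_zero, Complex.log_re]
  linarith

lemma exp_eq_pow (N : ℕ) {t : ℂ} (h0 : t ≠ 0) : exp (-(-((N : ℂ) * log t))) = t ^ N := by
  rw [neg_neg, Complex.exp_nat_mul, Complex.exp_log h0]

lemma dn_analytic {Y : ℂ → ℂ} {r : ℝ} {N : ℕ} (hN : 0 < N) (hY : AnalyticOnNhd ℂ Y (HP r))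
    (h : ∀ τ ∈ HP r, Y (τ + N * (2 * Real.pi * I)) = Y τ) {t₀ : ℂ}
    (ht : t₀ ∈ ball (0 : ℂ) (Real.exp (-r / N))) (h0 : t₀ ≠ 0) : AnalyticAt ℂ (dn Y N) t₀ := by
  have a1 : AnalyticAt ℂ (fun t : ℂ => log (t / t₀)) t₀ :=
    (analyticAt_id.div analyticAt_const h0).clog (by simp [h0])
  have a2 : AnalyticAt ℂ (fun t : ℂ => (N : ℂ) * -(log t₀ + log (t / t₀))) t₀ :=
    analyticAt_const.mul (analyticAt_const.add a1).neg
  have e0 : (N : ℂ) * -(log t₀ + log (t₀ / t₀)) = -((N : ℂ) * log t₀) := by simp [h0]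
  have m0 := mem_HP hN ht h0
  have a3 : AnalyticAt ℂ (fun t : ℂ => Y ((N : ℂ) * -(log t₀ + log (t / t₀)))) t₀ :=
    (hY _ m0).comp_of_eq a2 e0
  refine a3.congr ?_
  have m1 : ∀ᶠ t in 𝓝 t₀, (N : ℂ) * -(log t₀ + log (t / t₀)) ∈ HP r :=
    a2.continuousAt.eventually ((isOpen_HP r).mem_nhds (by beta_reduce; rw [e0]; exact m0))
  filter_upwards [m1, isOpen_ne.mem_nhds h0] with t h1 h2
  rw [← dn_exp h h1, neg_neg, Complex.exp_add, Complex.exp_log h0,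
    Complex.exp_log (div_ne_zero h2 h0), mul_div_cancel₀ _ h0]

lemma eq_of_eq {r : ℝ} {q : ℂ → ℂ[X]} {d : ℕ} (h : Fam (HP r) q d) {Y Y' : ℂ → ℂ}
    (hY : AnalyticOnNhd ℂ Y (HP r)) (hY' : AnalyticOnNhd ℂ Y' (HP r))
    (hr : ∀ τ ∈ HP r, (q τ).eval (Y τ) = 0) (hr' : ∀ τ ∈ HP r, (q τ).eval (Y' τ) = 0)
    {τ₀ : ℂ} (h0 : τ₀ ∈ HP r) (e : Y τ₀ = Y' τ₀) : EqOn Y Y' (HP r) := by
  have hn := (isOpen_HP r).mem_nhds h0
  exact hY.eqOn_of_preconnected_of_eventuallyEq hY' (isPreconnected_HP r) h0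
    (h.unique_local (isOpen_HP r) h0 (hY _ h0).continuousAt (hY' _ h0).continuousAt e
      (eventually_of_mem hn hr) (eventually_of_mem hn hr'))

/-- All the roots of a family over a half plane, as analytic functions. -/
lemma roots_HP {r : ℝ} {q : ℂ → ℂ[X]} {d : ℕ} (h : Fam (HP r) q d) :
    ∃ (m : ℕ) (Y : Fin m → ℂ → ℂ), (∀ k, AnalyticOnNhd ℂ (Y k) (HP r)) ∧
      ∀ τ ∈ HP r, (∀ k k', Y k τ = Y k' τ → k = k') ∧ ∀ v, (q τ).eval v = 0 ↔ ∃ k, v = Y k τ := by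
  classical
  have h1 : ((r + 1 : ℝ) : ℂ) ∈ HP r := by simp [HP]
  set τ₁ : ℂ := ((r + 1 : ℝ) : ℂ)
  have hs : StarConvex ℝ τ₁ (HP r) := (convex_halfSpace_re_gt r).starConvex h1
  have hne : q τ₁ ≠ 0 := fun e => (h.2 _ h1).2.1 (by simp [e])
  set S := (q τ₁).roots.toFinset
  have hS : ∀ v, v ∈ S ↔ (q τ₁).eval v = 0 := fun v => by simp [S, hne]
  let e := S.equivFin.symm
  choose Y y1 y2 y3 using fun k : Fin S.card =>
    h.lift (isOpen_HP r) hs h1 h1 ((hS _).1 (e k).2)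
  refine ⟨S.card, Y, y1, fun τ hτ => ⟨fun k k' hk => ?_, fun v => ⟨fun hv => ?_, ?_⟩⟩⟩
  · have := eq_of_eq h (y1 k) (y1 k') (y3 k) (y3 k') hτ hk h1
    rw [y2, y2] at this
    exact e.injective (Subtype.ext this)
  · obtain ⟨Z, z1, z2, z3⟩ := h.lift (isOpen_HP r) hs h1 hτ hv
    refine ⟨e.symm ⟨Z τ₁, (hS _).2 (z3 _ h1)⟩, ?_⟩
    rw [← z2]
    refine eq_of_eq h z1 (y1 _) z3 (y3 _) h1 ?_ hτ
    rw [y2, e.apply_symm_apply]
  · rintro ⟨k, rfl⟩
    exact y3 k τ hτ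

end RootsP

open RootsP in
theorem sroots : SRoots := by
  intro p d ε hε hF hsm
  set r : ℝ := -Real.log ε
  have hm : ∀ τ ∈ HP r, Complex.exp (-τ) ∈ ball (0 : ℂ) ε \ {0} := fun τ hτ => by
    refine ⟨?_, Complex.exp_ne_zero _⟩
    rw [mem_ball_zero_iff, Complex.norm_exp, ← Real.lt_log_iff_exp_lt hε]
    have : r < τ.re := hτ
    simp only [Complex.neg_re]
    simp only [r] at this
    linarith
  have hq : Fam (HP r) (fun τ => p (Complex.exp (-τ))) d :=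
    ⟨fun k τ hτ => (hF.1 k _ (hm τ hτ)).comp_of_eq (analyticAt_id.neg.cexp') rfl,
      fun τ hτ => hF.2 _ (hm τ hτ)⟩
  obtain ⟨m, Y, y1, y2⟩ := roots_HP hq
  have y3 : ∀ k, ∀ τ ∈ HP r, (p (Complex.exp (-τ))).eval (Y k τ) = 0 :=
    fun k τ hτ => ((y2 τ hτ).2 _).2 ⟨k, rfl⟩
  choose Nk n1 n2 using fun k => hq.periodic (fun τ j => by
    have := Complex.exp_periodic.nat_mul j (-(τ + j * (2 * Real.pi * Complex.I)))
    rw [← this]
    congr 2
    ring) (y1 k) (y3 k)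
  set N := ∏ k, Nk k with hNd
  have hN : 0 < N := Finset.prod_pos fun k _ => n1 k
  have hper : ∀ k, ∀ τ ∈ HP r, Y k (τ + N * (2 * Real.pi * Complex.I)) = Y k τ := by
    intro k τ hτ
    obtain ⟨j, hj⟩ := Finset.dvd_prod_of_mem Nk (Finset.mem_univ k)
    rw [← per_int (n2 k) j τ hτ, hNd, hj]
    congr 1
    push_cast; ring
  have hN' : (N : ℝ) ≠ 0 := by exact_mod_cast hN.ne'
  have hroot : ∀ k, ∀ t ∈ ball (0 : ℂ) (Real.exp (-r / N)), t ≠ 0 →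
      (p (t ^ N)).eval (dn (Y k) N t) = 0 := fun k t ht h0 => by
    rw [dn_ne _ _ h0, ← exp_eq_pow N h0]
    exact y3 k _ (mem_HP hN ht h0)
  refine ⟨N, m, Real.exp (-r / N), fun k => dn (Y k) N, hN, Real.exp_pos _, ?_,
    fun k => ⟨fun t ht => ?_, dn_zero _ _⟩, fun t ht h0 => ⟨fun k k' hk => ?_, fun v => ?_⟩⟩
  · rw [← Real.exp_nat_mul, mul_div_cancel₀ _ hN', neg_neg, Real.exp_log hε]
  · rcases eq_or_ne t 0 with rfl | h0
    swap
    · exact dn_analytic hN (y1 k) (hper k) ht h0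
    have hb : ∀ᶠ s in 𝓝[≠] (0 : ℂ), s ∈ ball (0 : ℂ) (Real.exp (-r / N)) ∧ s ≠ 0 :=
      Eventually.and (mem_nhdsWithin_of_mem_nhds (ball_mem_nhds _ (Real.exp_pos _)))
        self_mem_nhdsWithin
    refine Complex.analyticAt_of_differentiable_on_punctured_nhds_of_continuousAt
      (hb.mono fun s hs => (dn_analytic hN (y1 k) (hper k) hs.1 hs.2).differentiableAt) ?_
    beta_reduce
    rw [← continuousWithinAt_compl_self, ContinuousWithinAt, dn_zero, Metric.tendsto_nhds]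
    intro η hη
    have hp : Tendsto (fun s : ℂ => s ^ N) (𝓝[≠] 0) (𝓝[≠] 0) := by
      refine tendsto_nhdsWithin_iff.2 ⟨?_, ?_⟩
      · have := (continuous_pow N).tendsto (0 : ℂ)
        rw [zero_pow hN.ne'] at this
        exact this.mono_left nhdsWithin_le_nhds
      · filter_upwards [self_mem_nhdsWithin] with s hs using pow_ne_zero N hs
    filter_upwards [hb, hp.eventually (hsm η hη)] with s hs h2
    rw [dist_zero_right]
    exact h2 _ (hroot k s hs.1 hs.2)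
  · simp only [dn_ne _ _ h0] at hk
    exact (y2 _ (mem_HP hN ht h0)).1 k k' hk
  · simp only [dn_ne _ _ h0]
    rw [← exp_eq_pow N h0]
    exact (y2 _ (mem_HP hN ht h0)).2 v

end Pool.Agent.P.MP_7ede32_ag.Geo
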