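import Pool.Agent.P.MP_7ede32_ag.Geo.Stm

/-!
A monic family of polynomials has the same roots as a separable family, off the origin.
-/

open Filter Topology Metric Set Polynomial

noncomputable section

namespace Pool.Agent.P.MP_7ede32_ag.Geo

open MP_26ad15_nt (Fam)

namespace SqfP

/-- The squarefree part of a polynomial over a domain, with denominators cleared. -/
lemma alg {R : Type*} [CommRing R] [IsDomain R] [CharZero R] {W : R[X]} (hW : W ≠ 0) :
    ∃ (P A B Q₁ Q₂ : R[X]) (c₁ c₂ c₃ : R) (j : ℕ), P ≠ 0 ∧ c₁ ≠ 0 ∧ c₂ ≠ 0 ∧ c₃ ≠ 0 ∧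
      C c₁ * W = P * Q₁ ∧ C c₂ * P ^ j = W * Q₂ ∧ A * P + B * derivative P = C c₃ := by
  let K := FractionRing R
  have hK := IsFractionRing.injective R K
  have : CharZero K := charZero_of_injective_algebraMap hK
  have hn : ∀ q : K[X], ∃ (b : R) (T : R[X]), b ≠ 0 ∧
      T.map (algebraMap R K) = C (algebraMap R K b) * q := fun q => by
    obtain ⟨b, hb, e⟩ := IsLocalization.integerNormalization_spec (nonZeroDivisors R) q
    exact ⟨b, _, nonZeroDivisors.ne_zero hb, by rw [e, ← smul_eq_C_mul, algebraMap_smul]⟩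
  have hW' : W.map (algebraMap R K) ≠ 0 := (Polynomial.map_ne_zero_iff hK).2 hW
  obtain ⟨y, j, hy, ⟨q₁, h1⟩, ⟨q₂, h2⟩⟩ := exists_squarefree_dvd_pow_of_ne_zero hW'
  obtain ⟨u, v, huv⟩ : IsCoprime y (derivative y) := PerfectField.separable_iff_squarefree.2 hy
  obtain ⟨b, P, hb, hP⟩ := hn y
  obtain ⟨b1, Q₁, hb1, hQ₁⟩ := hn q₁
  obtain ⟨b2, Q₂, hb2, hQ₂⟩ := hn q₂
  obtain ⟨b3, A, hb3, hA⟩ := hn u
  obtain ⟨b4, B, hb4, hB⟩ := hn v
  have hD : (derivative P).map (algebraMap R K) = C (algebraMap R K b) * derivative y := by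
    rw [← derivative_map, hP, derivative_C_mul]
  refine ⟨P, C b4 * A, C b3 * B, Q₁, C (b ^ j) * Q₂, b * b1, b2, b * b3 * b4, j, ?_,
    mul_ne_zero hb hb1, hb2, mul_ne_zero (mul_ne_zero hb hb3) hb4, map_injective _ hK ?_,
    map_injective _ hK ?_, map_injective _ hK ?_⟩
  · rintro rfl
    rw [Polynomial.map_zero] at hP
    rcases mul_eq_zero.1 hP.symm with h | h
    · exact hb (hK (by simpa using h))
    · exact hy.ne_zero h
  · simp only [Polynomial.map_mul, map_C, hP, hQ₁, map_mul, h1]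
    ring
  · simp only [Polynomial.map_mul, Polynomial.map_pow, map_C, hP, hQ₂, map_pow, mul_pow, h2]
    ring
  · simp only [Polynomial.map_add, Polynomial.map_mul, map_C, hA, hB, hP, hD, map_mul]
    linear_combination (C (algebraMap R K b) * C (algebraMap R K b3) * C (algebraMap R K b4)) * huv

/-- Functions analytic on a disc, normalised outside the disc. -/
def An (ε : ℝ) : Subring (ℂ → ℂ) where
  carrier := {f | AnalyticOnNhd ℂ f (ball 0 ε) ∧ ∀ x, x ∉ ball (0 : ℂ) ε → f x = f 0}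
  mul_mem' := fun {f g} hf hg => ⟨hf.1.mul hg.1, fun x hx => by
    simp only [Pi.mul_apply, hf.2 x hx, hg.2 x hx]⟩
  one_mem' := ⟨analyticOnNhd_const, fun _ _ => rfl⟩
  add_mem' := fun {f g} hf hg => ⟨hf.1.add hg.1, fun x hx => by
    simp only [Pi.add_apply, hf.2 x hx, hg.2 x hx]⟩
  zero_mem' := ⟨analyticOnNhd_const, fun _ _ => rfl⟩
  neg_mem' := fun {f} hf => ⟨hf.1.neg, fun x hx => by simp only [Pi.neg_apply, hf.2 x hx]⟩

lemma eq_zero {ε : ℝ} (hε : 0 < ε) (f : An ε) (h : ∀ x ∈ ball (0 : ℂ) ε, f.1 x = 0) : f = 0 := by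
  refine Subtype.ext (funext fun x => ?_)
  by_cases hx : x ∈ ball (0 : ℂ) ε
  · exact h x hx
  · rw [f.2.2 x hx]; exact h 0 (mem_ball_self hε)

lemma isDomain {ε : ℝ} (hε : 0 < ε) : IsDomain (An ε) := by
  have : NoZeroDivisors (An ε) := ⟨fun {f g} h => by
    rcases f.2.1.eq_zero_or_eq_zero_of_mul_eq_zero g.2.1
      (fun z _ => congrFun (congrArg Subtype.val h) z) (convex_ball _ _).isPreconnected with h | h
    · exact Or.inl (eq_zero hε f h)
    · exact Or.inr (eq_zero hε g h)⟩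
  exact NoZeroDivisors.to_isDomain _

/-- Evaluation at a point. -/
def ev (ε : ℝ) (x : ℂ) : An ε →+* ℂ := (Pi.evalRingHom (fun _ : ℂ => ℂ) x).comp (An ε).subtype

lemma ev_apply (ε : ℝ) (x : ℂ) (f : An ε) : ev ε x f = f.1 x := rfl

lemma punct {ε : ℝ} (hε : 0 < ε) {f : An ε} (hf : f ≠ 0) :
    ∃ δ, 0 < δ ∧ δ ≤ ε ∧ ∀ x ∈ ball (0 : ℂ) δ \ {0}, ev ε x f ≠ 0 := by
  rcases (f.2.1 0 (mem_ball_self hε)).eventually_eq_zero_or_eventually_ne_zero with h | h
  · exact absurd (eq_zero hε f (f.2.1.eqOn_zero_of_preconnected_of_eventuallyEq_zero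
      (convex_ball _ _).isPreconnected (mem_ball_self hε) h)) hf
  · obtain ⟨δ, hδ, h⟩ := Metric.eventually_nhds_iff_ball.1 (eventually_nhdsWithin_iff.1 h)
    exact ⟨min δ ε, lt_min hδ hε, min_le_right _ _, fun x hx =>
      h x (ball_subset_ball (min_le_left _ _) hx.1) hx.2⟩

end SqfP

open SqfP in
theorem ssqf : SSqf := by
  classical
  intro k φ hφ
  obtain ⟨ε, hε, hb⟩ := Metric.eventually_nhds_iff_ball.1
    ((Finset.eventually_all (Finset.range k)).2 fun l _ => (hφ l).eventually_analyticAt)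
  have := isDomain hε
  have : CharZero (An ε) := (ev ε 0).charZero
  have hm : ∀ l, (fun x => if x ∈ ball (0 : ℂ) ε ∧ l < k then φ l x else φ l 0) ∈ An ε := by
    intro l
    refine ⟨fun x hx => ?_, fun x hx => ?_⟩
    · by_cases hl : l < k
      · refine (hb x hx l (Finset.mem_range.2 hl)).congr ?_
        filter_upwards [isOpen_ball.mem_nhds hx] with z hz
        rw [if_pos ⟨hz, hl⟩]
      · simp only [hl, and_false, if_false]
        exact analyticAt_const
    · simp only [hx, false_and, if_false, ite_self]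
  let ψ : ℕ → An ε := fun l => ⟨_, hm l⟩
  let W : (An ε)[X] := ∑ l ∈ Finset.range k, C (ψ l) * X ^ l + X ^ k
  have hWe : ∀ x ∈ ball (0 : ℂ) ε, ∀ v : ℂ, (W.map (ev ε x)).eval v =
      ∑ l ∈ Finset.range k, φ l x * v ^ l + v ^ k := by
    intro x hx v
    simp only [W, Polynomial.map_add, Polynomial.map_sum, Polynomial.map_mul, Polynomial.map_pow,
      map_C, map_X, eval_add, eval_finsetSum, eval_mul, eval_pow, eval_C, eval_X]
    congr 1
    refine Finset.sum_congr rfl fun l hl => ?_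
    rw [ev_apply]
    simp only [ψ]
    rw [if_pos ⟨hx, Finset.mem_range.1 hl⟩]
  have hW : W ≠ 0 := by
    intro h
    have := congrArg (fun q => coeff q k) h
    simp only [W, coeff_add, finsetSum_coeff, coeff_C_mul, coeff_X_pow, coeff_zero, if_true] at this
    rw [Finset.sum_eq_zero fun l hl => by
      rw [if_neg (Finset.mem_range.1 hl).ne', mul_zero], zero_add] at this
    exact one_ne_zero this
  obtain ⟨P, A, B, Q₁, Q₂, c₁, c₂, c₃, j, hP, h1, h2, h3, e1, e2, e3⟩ := alg hW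
  obtain ⟨δ, hδ, hδε, hne⟩ := punct hε (f := c₁ * c₂ * (c₃ * P.leadingCoeff))
    (mul_ne_zero (mul_ne_zero h1 h2) (mul_ne_zero h3 (leadingCoeff_ne_zero.2 hP)))
  have hs : ball (0 : ℂ) δ \ {0} ⊆ ball 0 ε := fun x hx => ball_subset_ball hδε hx.1
  refine ⟨fun x => P.map (ev ε x), P.natDegree, δ, hδ,
    MP_26ad15_nt.fam_of_bezout (fun a => a.2.1.mono hs) e3 fun x hx h => hne x hx ?_,
    fun x hx v => ?_⟩
  · rw [map_mul, h, mul_zero]
  · have hx0 := hne x hx
    rw [map_mul, map_mul, mul_ne_zero_iff, mul_ne_zero_iff] at hx0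
    rw [← hWe x (hs hx) v]
    have f1 := congrArg (fun q => (q.map (ev ε x)).eval v) e1
    have f2 := congrArg (fun q => (q.map (ev ε x)).eval v) e2
    simp only [Polynomial.map_mul, Polynomial.map_pow, map_C, eval_mul, eval_pow, eval_C] at f1 f2
    constructor
    · intro h
      rw [h, zero_mul] at f1
      exact (mul_eq_zero.1 f1).resolve_left hx0.1.1
    · intro h
      rw [h, zero_mul] at f2
      exact eq_zero_of_pow_eq_zero ((mul_eq_zero.1 f2).resolve_left hx0.1.2)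

end Pool.Agent.P.MP_7ede32_ag.Geo
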