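import Pool.Agent.P.MP_7ede32_ag.Geo.Stm

/-!
The integral between two sections that are close on a half-plane vanishes.
-/

open Filter Topology Metric Set

noncomputable section

namespace Pool.Agent.P.MP_7ede32_ag.Geo

namespace ZeroP

variable {X : Type} [MetricSpace X] {S : Sf0 X} {s₀ : ℂ ⧸ S.Λ} {C : S.Cfg s₀} {δ a : ℝ} {u c : ℂ}

lemma mem_good (hs : C.Sep δ) (hu : ‖u‖ = 1) (hc : c ∈ C.Bt ∩ Hp u (a + 3 * δ)) {w : ℂ}
    (hw : w ∈ Ann δ) : c + w ∈ Hp u a ∩ interior (C.Cr (δ / 2)) :=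
  ⟨add_mem_Hp hu hc.2 (by linarith [hw.2, hs.1]), hs.add_mem_interior hc.1 hw⟩

lemma secOn_shift (hs : C.Sep δ) (hu : ‖u‖ = 1) (hc : c ∈ C.Bt ∩ Hp u (a + 3 * δ)) {p : ℂ → X}
    (hp : HSec C δ u a p) : S.SecOn (S.Λ.mkQ c) (fun w => p (c + w)) (Ann δ) := by
  intro w hw
  have h := hp.1 (c + w) (mem_good hs hu hc hw)
  exact ⟨Sf0.HolAt.comp (f := p) (φ := fun w => c + w) h.1 (by fun_prop),
    by rw [h.2, zero_add, map_add]⟩

lemma near_mem (hu : ‖u‖ = 1) {w : ℂ} (hw : w ∈ Hp u (a + 4 * δ)) (hd : dist w c < δ) :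
    c ∈ Hp u (a + 3 * δ) := by
  have h := add_mem_Hp (c := w) (w := c - w) (a := a + 3 * δ) (r := δ) hu
    (by rwa [show a + 3 * δ + δ = a + 4 * δ by ring])
    (by rw [← dist_eq_norm, dist_comm]; exact hd.le)
  simpa using h

end ZeroP

open ZeroP in
theorem szero (h1 : SPair) (h2 : SLat) : SZero := by
  intro X _ _ S s₀ hS C
  obtain ⟨δ₀, hδ₀, H⟩ := h1 X S s₀ hS C
  refine ⟨δ₀, hδ₀, fun δ hδ hs l η U hU => ?_⟩
  obtain ⟨η', hη', H'⟩ := H δ hδ hs l η U hU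
  refine ⟨min η' η, lt_min hη' hU.2.1, fun p q u a hu hp hq hd => ?_⟩
  have hδp : 0 < δ := hs.1
  have hE : ∀ c ∈ C.Bt ∩ Hp u (a + 3 * δ), ∃ Θ : ℂ → ℂ, DifferentiableOn ℂ Θ (ball 0 (2 * δ)) ∧
      (∀ w ∈ ball (0 : ℂ) (2 * δ), ‖Θ w‖ ≤ 2) ∧
      (∀ w ∈ Ann δ, Θ w = th U (p (c + w)) (q (c + w))) ∧ (S.Λ.mkQ c = s₀ → Θ 0 = 0) :=
    fun c hc => H' c hc.1 _ _ (secOn_shift hs hu hc hp) (secOn_shift hs hu hc hq) (hp.2 c hc)
      (hq.2 c hc) fun w hw => (hd _ (mem_good hs hu hc hw)).trans (min_le_left _ _)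
  choose! T T1 T2 T3 T4 using hE
  classical
  let Θ : ℂ → ℂ := fun w =>
    if h : ∃ c ∈ C.Bt, dist w c < δ then T h.choose (w - h.choose) else th U (p w) (q w)
  have K1 : ∀ w, ∀ c ∈ C.Bt, dist w c < δ → Θ w = T c (w - c) := by
    intro w c hc hw
    have h : ∃ c ∈ C.Bt, dist w c < δ := ⟨c, hc, hw⟩
    have e : h.choose = c := by
      by_contra hne
      have a1 := hs.2.2 _ h.choose_spec.1 c hc hne
      linarith [dist_triangle_left h.choose c w, h.choose_spec.2]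
    simp only [Θ, dif_pos h, e]
  have K2 : ∀ w ∈ Hp u (a + 4 * δ) ∩ interior (C.Cr (δ / 2)), Θ w = th U (p w) (q w) := by
    intro w hw
    by_cases h : ∃ c ∈ C.Bt, dist w c < δ
    · obtain ⟨c, hc, h⟩ := h
      have a1 := Sf0.Cfg.lt_dist_of_interior (half_pos hδp) hw.2 hc
      rw [K1 w c hc h, T3 c ⟨hc, near_mem hu hw.1 h⟩ (w - c)
        ⟨by rwa [← dist_eq_norm], by rw [← dist_eq_norm]; linarith⟩]
      simp
    · simp only [Θ, dif_neg h]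
  have K3 : ∀ w ∈ Hp u (a + 4 * δ) ∩ interior (C.Cr (δ / 2)),
      p w ∈ C.Kc (δ / 2) ∧ S.π (q w) = S.π (p w) ∧ dist (p w) (q w) ≤ η := by
    intro w hw
    have hw' : w ∈ Hp u a ∩ interior (C.Cr (δ / 2)) := ⟨Hp_mono (by linarith) hw.1, hw.2⟩
    exact ⟨Sf0.Cfg.mem_Kc (interior_subset hw.2) (by rw [(hp.1 w hw').2, zero_add]),
      by rw [(hp.1 w hw').2, (hq.1 w hw').2], (hd w hw').trans (min_le_right _ _)⟩
  have K4 : ∀ w, (¬ ∃ c ∈ C.Bt, dist w c < δ) → w ∈ interior (C.Cr (δ / 2)) := fun w h =>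
    Sf0.Cfg.Cr_subset_interior (half_lt_self hδp) fun c hc => not_lt.1 fun h' => h ⟨c, hc, h'⟩
  have K5 : ∀ w c : ℂ, dist w c < δ → w - c ∈ ball (0 : ℂ) (2 * δ) := fun w c h => by
    rw [mem_ball_zero_iff, ← dist_eq_norm]; linarith
  obtain ⟨D, hD⟩ := S.cocpt
  obtain ⟨c₀, hc₀⟩ := S.Λ.mkQ_surjective s₀
  have key := h2 Θ u (a + 4 * δ) 2 D {c | S.Λ.mkQ c = s₀} hu ?_ ?_ ?_ ?_
  · exact fun w hw => (K2 w hw).symm.trans (key w hw.1)
  · intro w hw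
    refine DifferentiableAt.differentiableWithinAt ?_
    by_cases h : ∃ c ∈ C.Bt, dist w c < δ
    · obtain ⟨c, hc, h⟩ := h
      have a1 : DifferentiableAt ℂ (T c) (w - c) :=
        (T1 c ⟨hc, near_mem hu hw h⟩).differentiableAt (isOpen_ball.mem_nhds (K5 w c h))
      refine (a1.comp w (f := fun z => z - c) (by fun_prop)).congr_of_eventuallyEq ?_
      filter_upwards [isOpen_ball.mem_nhds (mem_ball.2 h)] with z hz
      exact K1 z c hc hz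
    · have hw' : w ∈ Hp u a ∩ interior (C.Cr (δ / 2)) := ⟨Hp_mono (by linarith) hw, K4 w h⟩
      have a1 : Hp u (a + 4 * δ) ∩ interior (C.Cr (δ / 2)) ∈ 𝓝 w :=
        ((isOpen_Hp _ _).inter isOpen_interior).mem_nhds ⟨hw, K4 w h⟩
      exact (hU.differentiableAt (hp.1 w hw').1 (hq.1 w hw').1
        (eventually_of_mem a1 K3)).congr_of_eventuallyEq (eventually_of_mem a1 K2)
  · intro w hw
    by_cases h : ∃ c ∈ C.Bt, dist w c < δ
    · obtain ⟨c, hc, h⟩ := h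
      rw [K1 w c hc h]
      exact T2 c ⟨hc, near_mem hu hw h⟩ _ (K5 w c h)
    · rw [K2 w ⟨hw, K4 w h⟩]
      exact hU.bound (K3 w ⟨hw, K4 w h⟩).1 (K3 w ⟨hw, K4 w h⟩).2.2
  · intro w
    obtain ⟨m, hm, h⟩ := hD (w - c₀)
    refine ⟨c₀ + m, ?_, ?_⟩
    · show S.Λ.mkQ (c₀ + m) = s₀
      rw [← hc₀]
      exact Sf0.mk_eq_iff.2 (by simpa using hm)
    · rwa [dist_eq_norm, ← sub_sub, ← dist_eq_norm]
  · intro c hc
    have hb : c ∈ C.Bt := by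
      show S.Λ.mkQ c ∈ C.B
      rw [show S.Λ.mkQ c = s₀ from hc.1]
      exact C.mem
    rw [K1 c c hb (by simpa using hδp), sub_self]
    exact T4 c ⟨hb, Hp_mono (by linarith) hc.2⟩ hc.1

end Pool.Agent.P.MP_7ede32_ag.Geo
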