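import Pool.Agent.P.MP_7ede32_ag.Geo.Bridge
import Pool.Agent.P.MP_7ede32_ag.Geo.Sqf
import Pool.Agent.P.MP_7ede32_ag.Geo.Roots
import Pool.Agent.P.MP_7ede32_ag.Geo.Puis
import Pool.Agent.P.MP_7ede32_ag.Geo.Br
import Pool.Agent.P.MP_7ede32_ag.Geo.Curve
import Pool.Agent.P.MP_7ede32_ag.Geo.CurveX
import Pool.Agent.P.MP_7ede32_ag.Geo.RegLoc
import Pool.Agent.P.MP_7ede32_ag.Geo.Inv
import Pool.Agent.P.MP_7ede32_ag.Geo.CfgP
import Pool.Agent.P.MP_7ede32_ag.Geo.Poinc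
import Pool.Agent.P.MP_7ede32_ag.Geo.CechP
import Pool.Agent.P.MP_7ede32_ag.Geo.Glue
import Pool.Agent.P.MP_7ede32_ag.Geo.Mom
import Pool.Agent.P.MP_7ede32_ag.Geo.ExtP
import Pool.Agent.P.MP_7ede32_ag.Geo.Lat
import Pool.Agent.P.MP_7ede32_ag.Geo.Pair
import Pool.Agent.P.MP_7ede32_ag.Geo.Zero
import Pool.Agent.P.MP_7ede32_ag.Geo.Inj
import Pool.Agent.P.MP_7ede32_ag.Geo.Half
import Pool.Agent.P.MP_7ede32_ag.Geo.Equi
import Pool.Agent.P.MP_7ede32_ag.Geo.Fin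
import Pool.Agent.P.MP_7ede32_ag.Geo.Shad
import Pool.Agent.P.MP_7ede32_ag.Geo.Fac

/-!
Assembly.
-/

namespace Pool.Agent.P.MP_7ede32_ag.Geo

theorem sbr_all : SBr := sbr (spuis ssqf sroots)

theorem scfg_all : SCfg := scfg (sregLoc sbr_all) sinv

theorem smom_all : SMom :=
  smom (scech (scurveX (scurve sbr_all)) spoinc (sdiv sinv)) (sbal sglue) spoinc

theorem shalf_all : SHalf := shalf (szero (spair smom_all sext) slat) sinj szsec

theorem smain_all : SMain :=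
  smain scfg_all shalf_all (sfin (slim sequi)) (sfac (sshad (slim sequi)))

end Pool.Agent.P.MP_7ede32_ag.Geo
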