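import Pool.Agent.P.MP_7ede32_ag.Ell.An

/-!
Surfaces fibred over an elliptic curve with a holomorphic 2-form: the working structure,
holomorphic maps from the plane, limits, lifts of the fibration.
-/

open Filter Topology Metric Set

noncomputable section

namespace Pool.Agent.P.MP_7ede32_ag.Geo

open Ell (E2 det2 jac Conv UU ev_UU UU_le rescale unif_of_equicont exists_bound_fin exists_pos_fin
  const_of_deriv_ball)

/-- charts, the fibration and the 2-form -/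
structure Sf0 (X : Type*) [MetricSpace X] where
  A : Set (OpenPartialHomeomorph X E2)
  cover : ∀ x, ∃ e ∈ A, x ∈ e.source
  trans : ∀ e ∈ A, ∀ e' ∈ A, ∀ x ∈ e.source, x ∈ e'.source → AnalyticAt ℂ (e' ∘ e.symm) (e x)
  comp : ∀ e ∈ A, ∀ φ : OpenPartialHomeomorph E2 E2, (∀ y ∈ φ.source, AnalyticAt ℂ φ y) →
    (∀ y ∈ φ.target, AnalyticAt ℂ φ.symm y) → e.trans φ ∈ A
  Λ : Submodule ℤ ℂ
  disc : ∃ r > 0, ∀ w ∈ Λ, ‖w‖ < r → w = 0
  cocpt : ∃ D : ℝ, ∀ w : ℂ, ∃ l ∈ Λ, dist w l ≤ D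
  π : X → ℂ ⧸ Λ
  lift : ∀ x, ∃ g : X → ℂ, (∀ᶠ y in 𝓝 x, π y = Λ.mkQ (g y)) ∧
    ∀ e ∈ A, x ∈ e.source → AnalyticAt ℂ (g ∘ e.symm) (e x)
  ω : OpenPartialHomeomorph X E2 → E2 → ℂ
  ω_an : ∀ e ∈ A, ∀ x ∈ e.source, AnalyticAt ℂ (ω e) (e x)
  ω_compat : ∀ e ∈ A, ∀ e' ∈ A, ∀ x ∈ e.source, x ∈ e'.source →
    ω e (e x) = ω e' (e' x) * jac (fderiv ℂ (e' ∘ e.symm) (e x))

variable {X : Type*} [MetricSpace X]

namespace Sf0

variable (S : Sf0 X)

/-- holomorphic at a point, for maps from the plane -/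
def HolAt (f : ℂ → X) (z : ℂ) : Prop :=
  ContinuousAt f z ∧ ∀ e ∈ S.A, f z ∈ e.source → DifferentiableAt ℂ (e ∘ f) z

/-- entire curve -/
def Hol (f : ℂ → X) : Prop := ∀ z, S.HolAt f z

variable {S}

lemma Hol.continuous {f : ℂ → X} (hf : S.Hol f) : Continuous f :=
  continuous_iff_continuousAt.2 fun z => (hf z).1

lemma eventually_mem_source {f : ℂ → X} {z : ℂ} (hf : ContinuousAt f z)
    {e : OpenPartialHomeomorph X E2} (he : f z ∈ e.source) : ∀ᶠ w in 𝓝 z, f w ∈ e.source :=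
  hf.eventually (e.open_source.mem_nhds he)

lemma comp_chart_eventuallyEq {F : Type*} {f : ℂ → X} {z : ℂ} (hf : ContinuousAt f z)
    {e : OpenPartialHomeomorph X E2} (he : f z ∈ e.source) (g : X → F) :
    g ∘ f =ᶠ[𝓝 z] (g ∘ e.symm) ∘ (e ∘ f) := by
  filter_upwards [eventually_mem_source hf he] with w hw
  simp [e.left_inv hw]

lemma holAt_of_chart {f : ℂ → X} {z : ℂ} (hf : ContinuousAt f z)
    {e : OpenPartialHomeomorph X E2} (he : e ∈ S.A) (hz : f z ∈ e.source)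
    (hd : DifferentiableAt ℂ (e ∘ f) z) : S.HolAt f z := by
  refine ⟨hf, fun e' he' hz' => ?_⟩
  refine DifferentiableAt.congr_of_eventuallyEq ?_ (comp_chart_eventuallyEq hf hz e')
  exact DifferentiableAt.comp z (S.trans e he e' he' _ hz hz').differentiableAt hd

lemma HolAt.comp {f : ℂ → X} {φ : ℂ → ℂ} {z : ℂ} (hf : S.HolAt f (φ z))
    (hφ : DifferentiableAt ℂ φ z) : S.HolAt (f ∘ φ) z :=
  ⟨hf.1.comp hφ.continuousAt, fun e he hz => (hf.2 e he hz).comp z hφ⟩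

lemma Hol.affine {f : ℂ → X} (hf : S.Hol f) (a b : ℂ) : S.Hol (fun w => f (a + b * w)) :=
  fun z => HolAt.comp (f := f) (φ := fun w => a + b * w) (hf _) (by fun_prop)

lemma Hol.shift {f : ℂ → X} (hf : S.Hol f) (a : ℂ) : S.Hol (fun w => f (a + w)) :=
  fun z => HolAt.comp (f := f) (φ := fun w => a + w) (hf _) (by fun_prop)

lemma HolAt.analyticAt {f : ℂ → X} {z : ℂ} (hf : ∀ᶠ w in 𝓝 z, S.HolAt f w)
    {e : OpenPartialHomeomorph X E2} (he : e ∈ S.A) (hz : f z ∈ e.source) :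
    AnalyticAt ℂ (e ∘ f) z := by
  rw [Complex.analyticAt_iff_eventually_differentiableAt]
  filter_upwards [hf, eventually_mem_source hf.self_of_nhds.1 hz] with w hw hw'
  exact hw.2 e he hw'

lemma Hol.analyticAt {f : ℂ → X} (hf : S.Hol f) {z : ℂ}
    {e : OpenPartialHomeomorph X E2} (he : e ∈ S.A) (hz : f z ∈ e.source) :
    AnalyticAt ℂ (e ∘ f) z :=
  HolAt.analyticAt (Eventually.of_forall hf) he hz

/-- identity theorem -/
lemma Hol.eq_of_frequently {f g : ℂ → X} (hf : S.Hol f) (hg : S.Hol g) {z₀ : ℂ}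
    (h : ∃ᶠ w in 𝓝[≠] z₀, f w = g w) : f = g := by
  have key : ∀ z, (∃ᶠ w in 𝓝[≠] z, f w = g w) → ∀ᶠ w in 𝓝 z, f w = g w := by
    intro z hz
    have hfz : f z = g z := by
      have hc : IsClosed {w | f w = g w} := isClosed_eq hf.continuous hg.continuous
      exact hc.closure_subset (mem_closure_iff_frequently.2 (hz.filter_mono nhdsWithin_le_nhds))
    obtain ⟨e, he, hx⟩ := S.cover (f z)
    have hx' : g z ∈ e.source := hfz ▸ hx
    have h1 := hf.analyticAt he hx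
    have h2 := hg.analyticAt he hx'
    have h3 : ∀ᶠ w in 𝓝 z, (e ∘ f) w = (e ∘ g) w := by
      refine (h1.frequently_eq_iff_eventually_eq h2).1 ?_
      exact hz.mono fun w hw => by simp [hw]
    filter_upwards [h3, eventually_mem_source (hf z).1 hx, eventually_mem_source (hg z).1 hx']
      with w hw h4 h5
    exact e.injOn h4 h5 hw
  have hclopen : IsClopen {z | ∀ᶠ w in 𝓝 z, f w = g w} := by
    refine ⟨?_, isOpen_setOfPred_eventually_nhds⟩
    rw [← closure_subset_iff_isClosed]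
    intro z hz
    apply key
    rw [mem_closure_iff_frequently] at hz
    by_contra hcon
    rw [not_frequently] at hcon
    have h1 : ∀ᶠ w in 𝓝 z, w ≠ z → ¬ f w = g w := eventually_nhdsWithin_iff.1 hcon
    have h2 := h1.eventually_nhds
    obtain ⟨w, hw1, hw2⟩ := (hz.and_eventually h2).exists
    have h3 : ∀ᶠ u in 𝓝[≠] w, u ≠ z := by
      by_cases hwz : w = z
      · subst hwz; exact self_mem_nhdsWithin
      · exact mem_nhdsWithin_of_mem_nhds (isOpen_ne.mem_nhds hwz)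
    have h4 : ∀ᶠ u in 𝓝[≠] w, False := by
      filter_upwards [h3, mem_nhdsWithin_of_mem_nhds hw1, mem_nhdsWithin_of_mem_nhds hw2]
        with u hu1 hu2 hu3
      exact hu3 hu1 hu2
    exact (h4.exists).elim fun _ h => h
  have huniv := hclopen.eq_univ ⟨z₀, key z₀ h⟩
  funext z
  have : z ∈ {z | ∀ᶠ w in 𝓝 z, f w = g w} := huniv ▸ mem_univ z
  exact (show ∀ᶠ w in 𝓝 z, f w = g w from this).self_of_nhds

lemma Hol.eq_of_eventually {f g : ℂ → X} (hf : S.Hol f) (hg : S.Hol g) {z₀ : ℂ}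
    (h : ∀ᶠ w in 𝓝 z₀, f w = g w) : f = g :=
  hf.eq_of_frequently hg (z₀ := z₀) (h.filter_mono nhdsWithin_le_nhds).frequently

lemma hol_const (x : X) : S.Hol (fun _ => x) := fun _ =>
  ⟨continuousAt_const, fun _ _ _ => differentiableAt_const _⟩

end Sf0

/-- A finite cover by compact pieces of chart domains, with a Lebesgue number. -/
structure Cv (S : Sf0 X) where
  k : ℕ
  e : Fin k → OpenPartialHomeomorph X E2
  K : Fin k → Set X
  mem : ∀ i, e i ∈ S.A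
  cpt : ∀ i, IsCompact (K i)
  sub : ∀ i, K i ⊆ (e i).source
  ε : ℝ
  ε_pos : 0 < ε
  idx : X → Fin k
  leb : ∀ x, closedBall x ε ⊆ K (idx x)
  B : ℝ
  B_pos : 0 < B
  bd : ∀ i, ∀ x ∈ K i, ‖e i x‖ ≤ B

lemma Sf0.nonempty_cov [CompactSpace X] (S : Sf0 X) : Nonempty (Cv S) := by
  choose ch hch hx using S.cover
  have h1 : ∀ x, ∃ r > 0, closedBall x (2 * r) ⊆ (ch x).source := by
    intro x
    obtain ⟨r, hr, h⟩ := Metric.nhds_basis_closedBall.mem_iff.1
      ((ch x).open_source.mem_nhds (hx x))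
    exact ⟨r / 2, by positivity, by rwa [show 2 * (r / 2) = r by ring]⟩
  choose r hr hsub using h1
  obtain ⟨t, ht⟩ := isCompact_univ.elim_finite_subcover (fun x => ball x (r x))
    (fun _ => isOpen_ball) (fun x _ => mem_iUnion.2 ⟨x, mem_ball_self (hr x)⟩)
  let p : Fin t.card → X := fun i => (t.equivFin.symm i : X)
  have hp : ∀ x, ∃ i, x ∈ ball (p i) (r (p i)) := by
    intro x
    obtain ⟨y, hy, h⟩ := mem_iUnion₂.1 (ht (mem_univ x))
    exact ⟨t.equivFin ⟨y, hy⟩, by simpa [p] using h⟩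
  choose idx hidx using hp
  obtain ⟨ε, hε, hεr⟩ := exists_pos_fin (fun i ε => ε ≤ r (p i)) (fun i => ⟨_, hr _, le_rfl⟩)
    (fun i a b _ h1 h2 => h1.trans h2)
  have hK : ∀ i, IsCompact (closedBall (p i) (2 * r (p i))) := fun i => isClosed_closedBall.isCompact
  have hb : ∀ i, ∃ B, ∀ x ∈ closedBall (p i) (2 * r (p i)), ‖ch (p i) x‖ ≤ B := fun i =>
    (hK i).exists_bound_of_continuousOn ((ch (p i)).continuousOn.mono (hsub _))
  obtain ⟨B, hB, hB'⟩ := exists_bound_fin _ hb (fun i B B' h1 h2 x hx' => (h2 x hx').trans h1)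
  refine ⟨⟨t.card, fun i => ch (p i), fun i => closedBall (p i) (2 * r (p i)), fun i => hch _,
      hK, fun i => hsub _, ε, hε, idx, ?_, B, hB, hB'⟩⟩
  intro x y hy
  have h1 := hidx x
  have h2 := hεr (idx x)
  rw [mem_ball] at h1
  rw [mem_closedBall] at hy ⊢
  linarith [dist_triangle y x (p (idx x))]

variable {S : Sf0 X}

/-- `φ` is holomorphic on the disc and maps it into a small ball -/
def Cv.Tame (C : Cv S) (φ : ℂ → X) (ζ : ℂ) (r : ℝ) : Prop :=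
  ∀ ξ ∈ ball ζ r, S.HolAt φ ξ ∧ dist (φ ξ) (φ ζ) ≤ C.ε

lemma Cv.diffOn (C : Cv S) {φ : ℂ → X} {s : Set ℂ} {i : Fin C.k} (h : ∀ ξ ∈ s, S.HolAt φ ξ)
    (hK : ∀ ξ ∈ s, φ ξ ∈ C.K i) : DifferentiableOn ℂ (C.e i ∘ φ) s := fun ξ hξ =>
  ((h ξ hξ).2 _ (C.mem i) (C.sub i (hK ξ hξ))).differentiableWithinAt

lemma Cv.mapsTo (C : Cv S) {φ : ℂ → X} {ζ : ℂ} {r : ℝ} (hr : 0 < r) {i : Fin C.k}
    (hK : ∀ ξ ∈ ball ζ r, φ ξ ∈ C.K i) :
    MapsTo (C.e i ∘ φ) (ball ζ r) (closedBall ((C.e i ∘ φ) ζ) (2 * C.B)) := by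
  intro u hu
  rw [mem_closedBall, dist_eq_norm]
  linarith [norm_sub_le ((C.e i ∘ φ) u) ((C.e i ∘ φ) ζ), C.bd i _ (hK u hu),
    C.bd i _ (hK ζ (mem_ball_self hr)), Function.comp_apply (f := C.e i) (g := φ) (x := u),
    show ‖(C.e i ∘ φ) u‖ = ‖C.e i (φ u)‖ from rfl, show ‖(C.e i ∘ φ) ζ‖ = ‖C.e i (φ ζ)‖ from rfl]

lemma Cv.deriv_le (C : Cv S) {φ : ℂ → X} {ζ : ℂ} {r : ℝ} (hr : 0 < r) {i : Fin C.k}
    (h : ∀ ξ ∈ ball ζ r, S.HolAt φ ξ) (hK : ∀ ξ ∈ ball ζ r, φ ξ ∈ C.K i) :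
    ‖deriv (C.e i ∘ φ) ζ‖ ≤ 2 * C.B / r :=
  Complex.norm_deriv_le_div_of_mapsTo_ball (C.diffOn h hK) (C.mapsTo hr hK) hr

lemma Cv.Tame.mem {C : Cv S} {φ : ℂ → X} {ζ : ℂ} {r : ℝ} (h : C.Tame φ ζ r) :
    ∀ ξ ∈ ball ζ r, φ ξ ∈ C.K (C.idx (φ ζ)) := fun ξ hξ => C.leb _ (h ξ hξ).2

/-- the inverse charts are uniformly continuous on the compact pieces -/
lemma Cv.symm_uc (C : Cv S) {ε : ℝ} (hε : 0 < ε) : ∃ η > 0, ∀ i, ∀ x ∈ C.K i, ∀ y ∈ C.K i,
    ‖C.e i x - C.e i y‖ < η → dist x y < ε := by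
  refine exists_pos_fin _ (fun i => ?_) (fun i r r' _ h1 h2 x hx y hy h3 =>
    h2 x hx y hy (h3.trans_le h1))
  have hc : IsCompact (C.e i '' C.K i) :=
    (C.cpt i).image_of_continuousOn ((C.e i).continuousOn.mono (C.sub i))
  have hs : C.e i '' C.K i ⊆ (C.e i).target := by
    rintro _ ⟨x, hx, rfl⟩; exact (C.e i).map_source (C.sub i hx)
  have hu := hc.uniformContinuousOn_of_continuous ((C.e i).continuousOn_symm.mono hs)
  obtain ⟨η, hη, h⟩ := Metric.uniformContinuousOn_iff.1 hu ε hε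
  refine ⟨η, hη, fun x hx y hy hxy => ?_⟩
  have := h _ (mem_image_of_mem _ hx) _ (mem_image_of_mem _ hy) (by rwa [dist_eq_norm])
  rwa [(C.e i).left_inv (C.sub i hx), (C.e i).left_inv (C.sub i hy)] at this

/-- equicontinuity of tame maps -/
lemma Cv.equi (C : Cv S) {r : ℝ} (hr : 0 < r) {ε : ℝ} (hε : 0 < ε) :
    ∃ δ > 0, ∀ φ ζ, C.Tame φ ζ r → ∀ ξ, dist ξ ζ < δ → dist (φ ξ) (φ ζ) < ε := by
  obtain ⟨η, hη, h⟩ := C.symm_uc hε
  have hB := C.B_pos
  refine ⟨min r (η * r / (2 * C.B)), by positivity, fun φ ζ ht ξ hξ => ?_⟩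
  have h1 : ξ ∈ ball ζ r := lt_of_lt_of_le hξ (min_le_left _ _)
  have h2 : dist ξ ζ < η * r / (2 * C.B) := lt_of_lt_of_le hξ (min_le_right _ _)
  have h3 := Complex.dist_le_div_mul_dist_of_mapsTo_ball (C.diffOn (fun u hu => (ht u hu).1) ht.mem)
    (C.mapsTo hr ht.mem) h1
  refine h _ _ (ht.mem ξ h1) _ (ht.mem ζ (mem_ball_self hr)) ?_
  rw [dist_eq_norm] at h3
  calc _ ≤ 2 * C.B / r * dist ξ ζ := h3
    _ < 2 * C.B / r * (η * r / (2 * C.B)) := by gcongr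
    _ = η := by field_simp

lemma Cv.uc_of_tame (C : Cv S) {r : ℝ} (hr : 0 < r) {h : ℂ → X} (ht : ∀ ζ, C.Tame h ζ r) :
    UniformContinuous h := by
  rw [Metric.uniformContinuous_iff]
  intro ε hε
  obtain ⟨δ, hδ, H⟩ := C.equi hr hε
  exact ⟨δ, hδ, fun {a b} hab => H h b (ht b) a hab⟩

/-- limit of eventually tame maps along an ultrafilter -/
lemma Cv.exists_limit [CompactSpace X] (C : Cv S) {ι : Type*} (U : Ultrafilter ι)
    {φ : ι → ℂ → X} {r : ℝ} (hr : 0 < r)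
    (ht : ∀ R : ℝ, ∀ᶠ n in U, ∀ ζ, ‖ζ‖ ≤ R → C.Tame (φ n) ζ r) :
    ∃ h, S.Hol h ∧ Conv U φ h ∧ ∀ ζ, C.Tame h ζ r := by
  have hlim : ∀ ζ, ∃ x, Tendsto (fun n => φ n ζ) U (𝓝 x) := fun ζ => by
    obtain ⟨x, _, hx⟩ := isCompact_univ.ultrafilter_le_nhds (U.map fun n => φ n ζ) (by simp)
    exact ⟨x, hx⟩
  choose h hh using hlim
  have hconv : Conv U φ h := by
    intro R ε hε
    have := unif_of_equicont (U := U) (F := φ) (G := h) (isCompact_closedBall (0 : ℂ) R) ?_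
      (fun w _ => hh w) ε hε
    · exact this.mono fun n hn z hz => hn z (by simpa using hz)
    · intro ε hε
      obtain ⟨δ, hδ, H⟩ := C.equi hr hε
      refine ⟨δ, hδ, (ht R).mono fun n hn w hw w' _ hww => H _ _ (hn w (by simpa using hw)) _ hww⟩
  have hcont : ∀ ζ, ContinuousAt h ζ := by
    intro ζ
    rw [Metric.continuousAt_iff]
    intro ε hε
    obtain ⟨δ, hδ, H⟩ := C.equi hr (half_pos hε)
    refine ⟨δ, hδ, fun ξ hξ => ?_⟩
    have : dist (h ξ) (h ζ) ≤ ε / 2 := le_of_tendsto ((hh ξ).dist (hh ζ))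
      ((ht ‖ζ‖).mono fun n hn => (H _ _ (hn ζ le_rfl) _ hξ).le)
    linarith
  have hhol : S.Hol h := by
    intro ζ
    refine ⟨hcont ζ, fun e he hζ => ?_⟩
    obtain ⟨ρ, hρ, _, h2, h3⟩ := hconv.chart (hcont ζ) (e.open_source.mem_nhds hζ) e.continuousOn
    have h4 : ball ζ (min ρ r) ⊆ ball ζ ρ := ball_subset_ball (min_le_left _ _)
    have := (h3.mono h4).tendstoLocallyUniformlyOn.differentiableOn ?_ isOpen_ball
    · exact this.differentiableAt (ball_mem_nhds _ (by positivity))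
    · filter_upwards [h2, ht ‖ζ‖] with n hn1 hn2 w hw
      exact ((hn2 ζ le_rfl w (ball_subset_ball (min_le_right _ _) hw)).1.2 e he
        (hn1 w (h4 hw))).differentiableWithinAt
  refine ⟨h, hhol, hconv, fun ζ ξ hξ => ⟨hhol ξ, ?_⟩⟩
  exact le_of_tendsto ((hh ξ).dist (hh ζ)) ((ht ‖ζ‖).mono fun n hn => (hn ζ le_rfl ξ hξ).2)

/-- Liouville: an entire curve inside a small ball is constant -/
lemma Cv.const_of_small (C : Cv S) {h : ℂ → X} (hh : S.Hol h)
    (hb : ∀ z, dist (h z) (h 0) ≤ C.ε) (z : ℂ) : h z = h 0 := by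
  have hK : ∀ w, h w ∈ C.K (C.idx (h 0)) := fun w => C.leb _ (hb w)
  have hd : Differentiable ℂ (C.e (C.idx (h 0)) ∘ h) := fun w =>
    (hh w).2 _ (C.mem _) (C.sub _ (hK w))
  have := hd.apply_eq_apply_of_bounded (isBounded_iff_forall_norm_le.2 ⟨C.B, by
    rintro _ ⟨w, rfl⟩; exact C.bd _ _ (hK w)⟩) z 0
  exact (C.e _).injOn (C.sub _ (hK z)) (C.sub _ (hK 0)) this

section

variable [CompactSpace X]

/-- Local form of the bubbling lemma. -/
lemma Cv.exists_bubble_loc (C : Cv S) {f : ℕ → ℂ → X} {z₀ w₀ : ℕ → ℂ} {t : ℕ → ℝ}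
    (hf : ∀ n, ∀ ζ ∈ ball (z₀ n) (t n), S.HolAt (f n) ζ) {ε : ℝ} (hε : 0 < ε)
    (hεC : ε ≤ C.ε) (h0 : ∀ n, ε ≤ dist (f n (w₀ n)) (f n (z₀ n)))
    (ht : ∀ n : ℕ, 16 * (n + 1) * dist (w₀ n) (z₀ n) < t n) :
    ∃ (z : ℕ → ℂ) (ρ : ℕ → ℝ) (h : ℂ → X), (∀ n, 0 < ρ n) ∧
      (∀ (n : ℕ) (ζ : ℂ), ‖ζ‖ ≤ n + 2 → dist (z n + ρ n * ζ) (z₀ n) ≤ 8 * (n + 1) * dist (w₀ n) (z₀ n)) ∧
      S.Hol h ∧ UniformContinuous h ∧ Conv UU (fun n ζ => f n (z n + ρ n * ζ)) h ∧
      ∃ ζ, h ζ ≠ h 0 := by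
  have hn1 : ∀ n : ℕ, (1 : ℝ) ≤ n + 1 := fun n => by linarith [Nat.cast_nonneg (α := ℝ) n]
  have htpos : ∀ n, 0 < t n := fun n => lt_of_le_of_lt (by positivity) (ht n)
  let ret : ℕ → ℂ → ℂ := fun n u =>
    z₀ n + ((t n / 2 / max (t n / 2) ‖u - z₀ n‖ : ℝ) : ℂ) * (u - z₀ n)
  have hmax : ∀ n u, 0 < max (t n / 2) ‖u - z₀ n‖ := fun n u =>
    lt_max_of_lt_left (half_pos (htpos n))
  have hretc : ∀ n, Continuous (ret n) := fun n =>
    continuous_const.add ((Complex.continuous_ofReal.comp (continuous_const.div (by fun_prop)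
      fun u => (hmax n u).ne')).mul (by fun_prop))
  have hretm : ∀ n u, ret n u ∈ ball (z₀ n) (t n) := by
    intro n u
    have h1 := htpos n
    have h2 := hmax n u
    rw [mem_ball, dist_eq_norm, add_sub_cancel_left, norm_mul, Complex.norm_real,
      Real.norm_of_nonneg (by positivity), div_mul_eq_mul_div, div_lt_iff₀ h2]
    nlinarith [le_max_right (t n / 2) ‖u - z₀ n‖]
  have hret : ∀ n u, dist u (z₀ n) ≤ t n / 2 → ret n u = u := by
    intro n u hu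
    rw [dist_eq_norm] at hu
    simp only [ret]
    rw [max_eq_left hu, div_self (half_pos (htpos n)).ne']
    simp
  have hF : ∀ n, Continuous (f n ∘ ret n) := fun n => continuous_iff_continuousAt.2 fun u =>
    (hf n _ (hretm n u)).1.comp (hretc n).continuousAt
  have H := fun n => rescale (hF n) hε (z₀ := z₀ n) (w₀ := w₀ n) (by
    have h1 := ht n
    have h2 := hn1 n
    have h3 : 0 ≤ dist (w₀ n) (z₀ n) := dist_nonneg
    simp only [Function.comp]
    rw [hret n (w₀ n) (by nlinarith), hret n (z₀ n) (by simp [(htpos n).le, div_nonneg])]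
    exact h0 n) (R := n + 1) (hn1 n)
  choose z ρ hρ hρ2 hz hζ hs using H
  choose ζ hζ1 hζ2 using hζ
  have hloc : ∀ (n : ℕ) (ζ : ℂ), ‖ζ‖ ≤ n + 2 →
      dist (z n + ρ n * ζ) (z₀ n) ≤ 8 * (n + 1) * dist (w₀ n) (z₀ n) := by
    intro n u hu
    have h1 : dist (z n + ρ n * u) (z n) ≤ 2 * dist (w₀ n) (z₀ n) * (n + 2) := by
      rw [dist_eq_norm, add_sub_cancel_left, norm_mul, Complex.norm_real,
        Real.norm_of_nonneg (hρ n).le]
      gcongr
      exact hρ2 n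
    have h3 : 0 ≤ dist (w₀ n) (z₀ n) := dist_nonneg
    nlinarith [dist_triangle (z n + ρ n * u) (z n) (z₀ n), hz n, Nat.cast_nonneg (α := ℝ) n]
  have hid : ∀ (n : ℕ) (u : ℂ), ‖u‖ ≤ n + 2 →
      (f n ∘ ret n) (z n + ρ n * u) = f n (z n + ρ n * u) := fun n u hu => by
    simp only [Function.comp]
    rw [hret n _ (by linarith [hloc n u hu, ht n])]
  obtain ⟨h, hh, hconv, htame⟩ := C.exists_limit UU (φ := fun n ζ => f n (z n + ρ n * ζ))
    (r := 1 / 4) (by norm_num) (fun R => by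
      filter_upwards [ev_UU (tendsto_natCast_atTop_atTop.eventually_ge_atTop R)] with n hn u hu ξ hξ
      have h1 : ‖ξ‖ ≤ n + 2 := by
        rw [mem_ball, dist_eq_norm] at hξ
        linarith [norm_sub_norm_le ξ u]
      refine ⟨Sf0.HolAt.comp (f := f n) (φ := fun w => z n + ρ n * w) (hf n _ ?_) (by fun_prop), ?_⟩
      · rw [mem_ball]; linarith [hloc n ξ h1, ht n, htpos n]
      · have := hs n u (by linarith) ξ hξ
        rw [hid n ξ h1, hid n u (by linarith)] at this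
        exact this.le.trans hεC)
  refine ⟨z, ρ, h, hρ, hloc, hh, C.uc_of_tame (by norm_num) htame, hconv, ?_⟩
  obtain ⟨u, _, hu⟩ := (isCompact_closedBall (0 : ℂ) 2).ultrafilter_le_nhds (UU.map ζ)
    (by
      rw [le_principal_iff]
      exact Filter.mem_map.2 (Eventually.of_forall fun n => by simpa using hζ1 n))
  have h1 := hconv.tendsto_comp (hh u).1 (w := ζ) hu
  have h2 := hconv.tendsto 0
  have h3 : ε ≤ dist (h u) (h 0) :=
    ge_of_tendsto (h1.dist h2) (Eventually.of_forall fun n => by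
      have a1 := hζ2 n
      have a2 := hid n 0 (by simp; positivity)
      rw [hid n _ (by linarith [hζ1 n, Nat.cast_nonneg (α := ℝ) n])] at a1
      rw [mul_zero, add_zero] at a2 ⊢
      rwa [a2] at a1)
  refine ⟨u, fun h4 => ?_⟩
  rw [h4, dist_self] at h3
  linarith

end

namespace Sf0

variable (S)

/-- analytic at a point of the surface -/
def AnAt {F : Type*} [NormedAddCommGroup F] [NormedSpace ℂ F] (g : X → F) (x : X) : Prop :=
  ∀ e ∈ S.A, x ∈ e.source → AnalyticAt ℂ (g ∘ e.symm) (e x)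

/-- local lift of the fibration -/
def IsLift (g : X → ℂ) (x : X) : Prop := (∀ᶠ y in 𝓝 x, S.π y = S.Λ.mkQ (g y)) ∧ S.AnAt g x

variable {S}
variable {F : Type*} [NormedAddCommGroup F] [NormedSpace ℂ F]

lemma AnAt.continuousAt {g : X → F} {x : X} (h : S.AnAt g x) : ContinuousAt g x := by
  obtain ⟨e, he, hx⟩ := S.cover x
  have h1 : g =ᶠ[𝓝 x] (g ∘ e.symm) ∘ e := by
    filter_upwards [e.open_source.mem_nhds hx] with y hy
    simp [e.left_inv hy]
  exact ((h e he hx).continuousAt.comp (e.continuousAt hx)).congr h1.symm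

lemma symm_eventually {e : OpenPartialHomeomorph X E2} {x : X} (hx : x ∈ e.source) {p : X → Prop}
    (h : ∀ᶠ y in 𝓝 x, p y) : ∀ᶠ u in 𝓝 (e x), p (e.symm u) := by
  have h1 : ContinuousAt e.symm (e x) := e.continuousAt_symm (e.map_source hx)
  apply h1.eventually
  rwa [e.left_inv hx]

lemma chart_change_eventuallyEq {G : Type*} (g : X → G) {e e' : OpenPartialHomeomorph X E2} {x : X}
    (hx : x ∈ e.source) (hx' : x ∈ e'.source) :
    g ∘ e.symm =ᶠ[𝓝 (e x)] (g ∘ e'.symm) ∘ (e' ∘ e.symm) := by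
  filter_upwards [symm_eventually hx (e'.open_source.mem_nhds hx')] with u hu
  simp [e'.left_inv hu]

lemma anAt_of_chart {g : X → F} {x : X} {e : OpenPartialHomeomorph X E2} (he : e ∈ S.A)
    (hx : x ∈ e.source) (h : AnalyticAt ℂ (g ∘ e.symm) (e x)) : S.AnAt g x := by
  intro e' he' hx'
  refine AnalyticAt.congr ?_ (chart_change_eventuallyEq g hx' hx).symm
  exact AnalyticAt.comp_of_eq h (S.trans e' he' e he x hx' hx) (by simp [e'.left_inv hx'])

lemma AnAt.eventually [CompleteSpace F] {g : X → F} {x : X} (h : S.AnAt g x) :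
    ∀ᶠ y in 𝓝 x, S.AnAt g y := by
  obtain ⟨e, he, hx⟩ := S.cover x
  filter_upwards [e.open_source.mem_nhds hx,
    (e.continuousAt hx).eventually (h e he hx).eventually_analyticAt] with y hy hy'
  exact anAt_of_chart he hy hy'

lemma anAt_chart {x : X} {e : OpenPartialHomeomorph X E2} (he : e ∈ S.A) (hx : x ∈ e.source) :
    S.AnAt e x := fun e' he' hx' => S.trans e' he' e he x hx' hx

lemma AnAt.hasDerivAt {g : X → F} {f : ℂ → X} {z : ℂ} (hg : S.AnAt g (f z)) (hf : S.HolAt f z)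
    {e : OpenPartialHomeomorph X E2} (he : e ∈ S.A) (hx : f z ∈ e.source) :
    HasDerivAt (g ∘ f) (fderiv ℂ (g ∘ e.symm) (e (f z)) (deriv (e ∘ f) z)) z := by
  refine HasDerivAt.congr_of_eventuallyEq ?_ (comp_chart_eventuallyEq hf.1 hx g)
  exact HasFDerivAt.comp_hasDerivAt z (hg e he hx).differentiableAt.hasFDerivAt
    (hf.2 e he hx).hasDerivAt

lemma AnAt.differentiableAt {g : X → F} {f : ℂ → X} {z : ℂ} (hg : S.AnAt g (f z))
    (hf : S.HolAt f z) : DifferentiableAt ℂ (g ∘ f) z := by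
  obtain ⟨e, he, hx⟩ := S.cover (f z)
  exact (hg.hasDerivAt hf he hx).differentiableAt

lemma deriv_trans {f : ℂ → X} {z : ℂ} (hf : S.HolAt f z) {e e' : OpenPartialHomeomorph X E2}
    (he : e ∈ S.A) (he' : e' ∈ S.A) (hx : f z ∈ e.source) (hx' : f z ∈ e'.source) :
    deriv (e' ∘ f) z = fderiv ℂ (e' ∘ e.symm) (e (f z)) (deriv (e ∘ f) z) :=
  ((anAt_chart he' hx').hasDerivAt hf he hx).deriv

lemma lam_lim {ι : Type*} {U : Filter ι} [U.NeBot] {u : ι → ℂ} {c : ℂ} (hu : Tendsto u U (𝓝 c))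
    (hm : ∀ᶠ n in U, u n ∈ S.Λ) : c ∈ S.Λ ∧ ∀ᶠ n in U, u n = c := by
  obtain ⟨r, hr, hd⟩ := S.disc
  have h1 := Metric.tendsto_nhds.1 hu (r / 2) (by positivity)
  obtain ⟨n₀, h2, h3⟩ := (h1.and hm).exists
  have h4 : ∀ᶠ n in U, u n = u n₀ := by
    filter_upwards [h1, hm] with n h5 h6
    refine sub_eq_zero.1 (hd _ (S.Λ.sub_mem h6 h3) ?_)
    rw [← dist_eq_norm]
    linarith [dist_triangle_right (u n) (u n₀) c]
  have h5 : c = u n₀ := tendsto_nhds_unique hu (tendsto_const_nhds.congr' (h4.mono fun _ h => h.symm))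
  exact ⟨h5 ▸ h3, h5 ▸ h4⟩

lemma mk_eq_iff {a b : ℂ} : S.Λ.mkQ a = S.Λ.mkQ b ↔ a - b ∈ S.Λ := Submodule.Quotient.eq _

lemma IsLift.eventually {g : X → ℂ} {x : X} (h : S.IsLift g x) : ∀ᶠ y in 𝓝 x, S.IsLift g y :=
  (h.1.eventually_nhds.and h.2.eventually).mono fun _ hy => hy

lemma IsLift.sub_const {g g' : X → ℂ} {x : X} (h : S.IsLift g x) (h' : S.IsLift g' x) :
    ∀ᶠ y in 𝓝 x, g y = g' y + (g x - g' x) := by
  have := (lam_lim (S := S) (U := 𝓝 x) (u := fun y => g y - g' y) (c := g x - g' x)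
    (h.2.continuousAt.sub h'.2.continuousAt) (by
      filter_upwards [h.1, h'.1] with y h1 h2
      exact mk_eq_iff.1 (h1.symm.trans h2))).2
  filter_upwards [this] with y hy
  linear_combination hy

variable (S) in
/-- a chosen lift -/
def lf (x : X) : X → ℂ := (S.lift x).choose

lemma isLift_lf (x : X) : S.IsLift (S.lf x) x := (S.lift x).choose_spec

variable (S) in
/-- differential of the fibration in a chart -/
def dπ (e : OpenPartialHomeomorph X E2) (x : X) : E2 →L[ℂ] ℂ := fderiv ℂ (S.lf x ∘ e.symm) (e x)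

lemma IsLift.fderiv_eq {g : X → ℂ} {x : X} (h : S.IsLift g x) {e : OpenPartialHomeomorph X E2}
    (hx : x ∈ e.source) : fderiv ℂ (g ∘ e.symm) (e x) = S.dπ e x := by
  have h1 : g ∘ e.symm =ᶠ[𝓝 (e x)] fun u => (S.lf x ∘ e.symm) u + (g x - S.lf x x) :=
    symm_eventually hx (h.sub_const (isLift_lf x))
  rw [h1.fderiv_eq, fderiv_add_const, dπ]

lemma dπ_trans {x : X} {e e' : OpenPartialHomeomorph X E2} (he : e ∈ S.A) (he' : e' ∈ S.A)
    (hx : x ∈ e.source) (hx' : x ∈ e'.source) :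
    S.dπ e x = (S.dπ e' x).comp (fderiv ℂ (e' ∘ e.symm) (e x)) := by
  rw [dπ, (chart_change_eventuallyEq (S.lf x) hx hx').fderiv_eq, fderiv_comp]
  · simp [dπ, e.left_inv hx]
  · have := ((isLift_lf x).2 e' he' hx').differentiableAt
    simpa [e.left_inv hx] using this
  · exact (S.trans e he e' he' x hx hx').differentiableAt

lemma IsLift.dπ_eventually {g : X → ℂ} {x : X} (h : S.IsLift g x)
    {e : OpenPartialHomeomorph X E2} (hx : x ∈ e.source) :
    ∀ᶠ y in 𝓝 x, S.dπ e y = fderiv ℂ (g ∘ e.symm) (e y) := by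
  filter_upwards [h.eventually, e.open_source.mem_nhds hx] with y h1 h2
  exact (h1.fderiv_eq h2).symm

lemma anAt_dπ {x : X} {e : OpenPartialHomeomorph X E2} (he : e ∈ S.A) (hx : x ∈ e.source) :
    S.AnAt (S.dπ e) x := by
  refine anAt_of_chart he hx ?_
  have h1 := ((isLift_lf x).2 e he hx).fderiv
  refine h1.congr ?_
  filter_upwards [symm_eventually hx ((isLift_lf (S := S) x).dπ_eventually hx),
    e.open_target.mem_nhds (e.map_source hx)] with u hu hu'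
  simp [hu, e.right_inv hu']

variable (S) in
/-- critical point of the fibration -/
def Crit (x : X) : Prop := ∀ e ∈ S.A, x ∈ e.source → S.dπ e x = 0

lemma crit_of_chart {x : X} {e : OpenPartialHomeomorph X E2} (he : e ∈ S.A) (hx : x ∈ e.source)
    (h : S.dπ e x = 0) : S.Crit x := fun e' he' hx' => by
  rw [dπ_trans he' he hx' hx, h]; simp

lemma isOpen_not_crit : IsOpen {x | ¬ S.Crit x} := by
  rw [isOpen_iff_mem_nhds]
  intro x hx
  obtain ⟨e, he, hxe⟩ := S.cover x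
  have h1 : S.dπ e x ≠ 0 := fun h => hx (crit_of_chart he hxe h)
  filter_upwards [(anAt_dπ he hxe).continuousAt.eventually_ne h1, e.open_source.mem_nhds hxe]
    with y h2 h3 h4
  exact h2 (h4 e he h3)

lemma IsLift.comp_eventually {g : X → ℂ} {f : ℂ → X} {z : ℂ} (hg : S.IsLift g (f z))
    (hf : ContinuousAt f z) {φ : ℂ → ℂ} (hφ : ContinuousAt φ z)
    (h : ∀ᶠ w in 𝓝 z, S.π (f w) = S.Λ.mkQ (φ w)) :
    ∀ᶠ w in 𝓝 z, g (f w) = φ w + (g (f z) - φ z) := by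
  have := (lam_lim (S := S) (U := 𝓝 z) (u := fun w => g (f w) - φ w) (c := g (f z) - φ z)
    ((hg.2.continuousAt.comp hf).sub hφ) (by
      filter_upwards [h, hf.eventually hg.1] with y h1 h2
      exact mk_eq_iff.1 (h2.symm.trans h1))).2
  filter_upwards [this] with y hy
  linear_combination hy

lemma dπ_deriv {f : ℂ → X} {z : ℂ} (hf : S.HolAt f z) {φ : ℂ → ℂ} {b : ℂ} (hφ : HasDerivAt φ b z)
    (h : ∀ᶠ w in 𝓝 z, S.π (f w) = S.Λ.mkQ (φ w))
    {e : OpenPartialHomeomorph X E2} (he : e ∈ S.A) (hx : f z ∈ e.source) :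
    S.dπ e (f z) (deriv (e ∘ f) z) = b := by
  have hg := isLift_lf (S := S) (f z)
  have h1 := hg.2.hasDerivAt hf he hx
  have h2 : HasDerivAt (S.lf (f z) ∘ f) b z :=
    (hφ.add_const _).congr_of_eventuallyEq (hg.comp_eventually hf.1 hφ.continuousAt h)
  exact h1.unique h2

lemma π_lim {ι : Type*} {U : Filter ι} [U.NeBot] {p q : ι → X} {c : ι → ℂ} {x y : X} {d : ℂ}
    (hp : Tendsto p U (𝓝 x)) (hq : Tendsto q U (𝓝 y)) (hc : Tendsto c U (𝓝 d))
    (h : ∀ᶠ n in U, S.π (p n) = S.π (q n) + S.Λ.mkQ (c n)) : S.π x = S.π y + S.Λ.mkQ d := by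
  have hx := isLift_lf (S := S) x
  have hy := isLift_lf (S := S) y
  have := (lam_lim (S := S) (U := U) (u := fun n => S.lf x (p n) - (S.lf y (q n) + c n))
    (c := S.lf x x - (S.lf y y + d))
    ((hx.2.continuousAt.tendsto.comp hp).sub ((hy.2.continuousAt.tendsto.comp hq).add hc)) (by
      filter_upwards [h, hp.eventually hx.1, hq.eventually hy.1] with n h1 h2 h3
      rw [← mk_eq_iff, map_add, ← h2, ← h3, h1])).1
  rw [hx.1.self_of_nhds, hy.1.self_of_nhds, ← map_add, mk_eq_iff]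
  exact this

lemma exists_lift_tendsto {p : ℕ → X} {x : X} (hp : Tendsto p UU (𝓝 x)) {u : ℕ → ℂ}
    (hu : ∀ᶠ n in (UU : Filter ℕ), S.π (p n) = S.Λ.mkQ (u n)) :
    ∃ (v : ℕ → ℂ) (d : ℂ), Tendsto v UU (𝓝 d) ∧ S.π x = S.Λ.mkQ d ∧
      ∀ᶠ n in (UU : Filter ℕ), u n - v n ∈ S.Λ := by
  have hg := isLift_lf (S := S) x
  refine ⟨fun n => S.lf x (p n), _, hg.2.continuousAt.tendsto.comp hp, hg.1.self_of_nhds, ?_⟩
  filter_upwards [hu, hp.eventually hg.1] with n h1 h2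
  exact mk_eq_iff.1 (h1.symm.trans h2)

lemma deriv_lf_eq {h : ℂ → X} {z : ℂ} (hh : ContinuousAt h z) {g : X → ℂ} (hg : S.IsLift g (h z)) :
    deriv (S.lf (h z) ∘ h) z = deriv (g ∘ h) z := by
  have h1 : S.lf (h z) ∘ h =ᶠ[𝓝 z] fun w => (g ∘ h) w + (S.lf (h z) (h z) - g (h z)) :=
    hh.eventually ((isLift_lf (h z)).sub_const hg)
  rw [h1.deriv_eq, deriv_add_const]

theorem affine_of_uc [CompactSpace X] {h : ℂ → X} (hh : S.Hol h) (huc : UniformContinuous h) :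
    ∃ a b : ℂ, ∀ z, S.π (h z) = S.Λ.mkQ (a * z + b) := by
  let ψ : ℂ → ℂ := fun z => deriv (S.lf (h z) ∘ h) z
  have hloc : ∀ z, ∀ᶠ w in 𝓝 z, S.IsLift (S.lf (h z)) (h w) := fun z =>
    (hh z).1.eventually (isLift_lf (h z)).eventually
  have hψ : ∀ z, ψ =ᶠ[𝓝 z] deriv (S.lf (h z) ∘ h) := fun z =>
    (hloc z).mono fun w hw => deriv_lf_eq (hh w).1 hw
  have han : ∀ z, AnalyticAt ℂ (S.lf (h z) ∘ h) z := fun z =>
    Complex.analyticAt_iff_eventually_differentiableAt.2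
      ((hloc z).mono fun w hw => hw.2.differentiableAt (hh w))
  have hψd : Differentiable ℂ ψ := fun z =>
    ((han z).deriv.differentiableAt).congr_of_eventuallyEq (hψ z)
  have hV : ∀ x : X, {y | S.IsLift (S.lf x) y ∧ dist (S.lf x y) (S.lf x x) < 1} ∈ 𝓝 x := fun x =>
    (isLift_lf x).eventually.and (Metric.tendsto_nhds.1 (isLift_lf x).2.continuousAt 1 one_pos)
  obtain ⟨δ, hδ, h1⟩ := lebesgue_number_lemma_of_metric (isCompact_univ (X := X))
    (c := fun x => interior {y | S.IsLift (S.lf x) y ∧ dist (S.lf x y) (S.lf x x) < 1})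
    (fun _ => isOpen_interior) (fun x _ => mem_iUnion.2 ⟨x, mem_interior_iff_mem_nhds.2 (hV x)⟩)
  obtain ⟨r, hr, h2⟩ := Metric.uniformContinuous_iff.1 huc δ hδ
  have hψb : ∀ z, ‖ψ z‖ ≤ 2 / r := by
    intro z
    obtain ⟨x, hx⟩ := h1 (h z) (mem_univ _)
    have h3 : ∀ w ∈ ball z r, S.IsLift (S.lf x) (h w) ∧ dist (S.lf x (h w)) (S.lf x x) < 1 :=
      fun w hw => interior_subset
        (s := {y | S.IsLift (S.lf x) y ∧ dist (S.lf x y) (S.lf x x) < 1}) (hx (h2 hw))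
    have h4 := h3 z (mem_ball_self hr)
    simp only [ψ]
    rw [deriv_lf_eq (hh z).1 h4.1]
    refine Complex.norm_deriv_le_div_of_mapsTo_ball
      (fun w hw => ((h3 w hw).1.2.differentiableAt (hh w)).differentiableWithinAt)
      (fun w hw => ?_) hr
    rw [mem_closedBall]
    linarith [dist_triangle_right (S.lf x (h w)) (S.lf x (h z)) (S.lf x x), (h3 w hw).2, h4.2,
      show dist ((S.lf x ∘ h) w) ((S.lf x ∘ h) z) = dist (S.lf x (h w)) (S.lf x (h z)) from rfl]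
  have hψc : ∀ z, ψ z = ψ 0 := fun z => hψd.apply_eq_apply_of_bounded
    (isBounded_iff_forall_norm_le.2 ⟨2 / r, by rintro _ ⟨w, rfl⟩; exact hψb w⟩) z 0
  have hlc : IsLocallyConstant fun z => S.π (h z) - S.Λ.mkQ (ψ 0 * z) := by
    rw [IsLocallyConstant.iff_eventually_eq]
    intro z
    obtain ⟨ρ, hρ, h3⟩ := Metric.eventually_nhds_iff_ball.1 ((hloc z).and (hψ z))
    filter_upwards [ball_mem_nhds z hρ] with w hw
    have h4 := const_of_deriv_ball (f := fun u => (S.lf (h z) ∘ h) u - ψ 0 * u) (ζ := z) (r := ρ)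
      (fun u hu => (((h3 u hu).1.2.differentiableAt (hh u)).sub (by fun_prop)).differentiableWithinAt)
      (fun u hu => by
        have := (((h3 u hu).1.2.differentiableAt (hh u)).hasDerivAt.sub
          ((hasDerivAt_id u).const_mul (ψ 0))).deriv
        refine this.trans ?_
        rw [← (h3 u hu).2, hψc u]; simp) hw (mem_ball_self hρ)
    rw [(h3 w hw).1.1.self_of_nhds, (h3 z (mem_ball_self hρ)).1.1.self_of_nhds, ← map_sub,
      ← map_sub]
    exact congrArg _ h4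
  obtain ⟨b, hb⟩ := S.Λ.mkQ_surjective (S.π (h 0))
  refine ⟨ψ 0, b, fun z => ?_⟩
  have := hlc.apply_eq_of_preconnectedSpace z 0
  rw [mul_zero, map_zero, sub_zero, sub_eq_iff_eq_add] at this
  rw [this, map_add, hb, add_comm]

theorem periodic_of_finite (hT : {f | S.Hol f ∧ ∀ z, S.π (f z) = S.Λ.mkQ z}.Finite) :
    ∃ n : ℕ, 0 < n ∧ ∀ f, S.Hol f → (∀ z, S.π (f z) = S.Λ.mkQ z) →
      ∀ w ∈ S.Λ, ∀ z, f (z + n * w) = f z := by
  let T := {f | S.Hol f ∧ ∀ z, S.π (f z) = S.Λ.mkQ z}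
  have : Finite T := hT
  have hsh : ∀ w ∈ S.Λ, ∀ f ∈ T, (fun z => f (w + z)) ∈ T := fun w hw f hf =>
    ⟨hf.1.shift w, fun z => by rw [hf.2, mk_eq_iff]; simpa using hw⟩
  refine ⟨Nat.card (Equiv.Perm T), Nat.card_pos, fun f h1 h2 w hw z => ?_⟩
  let σ : Equiv.Perm T := ⟨fun f => ⟨_, hsh w hw f.1 f.2⟩, fun f => ⟨_, hsh (-w) (S.Λ.neg_mem hw) f.1 f.2⟩,
    fun f => by ext z; simp, fun f => by ext z; simp⟩
  have hσ : ∀ (k : ℕ) (g : T) (z : ℂ), ((σ ^ k) g).1 z = g.1 (z + k * w) := by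
    intro k
    induction k with
    | zero => simp
    | succ k ih =>
      intro g z
      rw [pow_succ', Equiv.Perm.mul_apply]
      refine (ih g (w + z)).trans ?_
      rw [show w + z + k * w = z + ((k + 1 : ℕ) : ℂ) * w by push_cast; ring]
  have := hσ (Nat.card (Equiv.Perm T)) ⟨f, h1, h2⟩ z
  rw [pow_card_eq_one'] at this
  exact this.symm

end Sf0

end Pool.Agent.P.MP_7ede32_ag.Geo
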