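import Pool.Agent.P.MP_7ede32_ag.Geo.B1
import Pool.Agent.P.MP_e711b0_an.Basic

/-!
Holomorphic functions on the surface, wedge products, arcs and boxes.
-/

open Filter Topology Metric Set

noncomputable section

namespace Pool.Agent.P.MP_7ede32_ag.Geo

open Ell (E2 det2 jac lin_apply)

/-- wedge product of two linear forms on the plane -/
def wedge (l₁ l₂ : E2 →L[ℂ] ℂ) : ℂ := l₁ (1, 0) * l₂ (0, 1) - l₁ (0, 1) * l₂ (1, 0)

lemma wedge_apply (l₁ l₂ : E2 →L[ℂ] ℂ) (u v : E2) :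
    l₁ u * l₂ v - l₁ v * l₂ u = wedge l₁ l₂ * det2 u v := by
  rw [lin_apply l₁ u, lin_apply l₁ v, lin_apply l₂ u, lin_apply l₂ v]
  simp only [wedge, det2, smul_eq_mul]
  ring

lemma wedge_comp (l₁ l₂ : E2 →L[ℂ] ℂ) (T : E2 →L[ℂ] E2) :
    wedge (l₁.comp T) (l₂.comp T) = wedge l₁ l₂ * jac T :=
  wedge_apply l₁ l₂ _ _

/-- a primitive in the second variable -/
theorem prim2 {κ : E2 → ℂ} {r : ℝ} (hκ : DifferentiableOn ℂ κ (ball 0 r)) :
    ∃ P : E2 → ℂ, DifferentiableOn ℂ P (ball 0 r) ∧ ∀ p ∈ ball (0 : E2) r,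
      fderiv ℂ P p (0, 1) = κ p ∧ P p = ∫ t in (0 : ℝ)..1, p.2 * κ (p.1, t * p.2) := by
  have hmem : ∀ p ∈ ball (0 : E2) r, ∀ t ∈ uIcc (0 : ℝ) 1, ((p.1, t * p.2) : E2) ∈ ball 0 r := by
    intro p hp t ht
    rw [uIcc_of_le zero_le_one] at ht
    rw [mem_ball_zero_iff] at hp ⊢
    refine lt_of_le_of_lt ?_ hp
    rw [Prod.norm_def, Prod.norm_def]
    refine max_le_max le_rfl ?_
    rw [norm_mul, Complex.norm_real, Real.norm_of_nonneg ht.1]
    exact mul_le_of_le_one_left (norm_nonneg _) ht.2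
  have hd : DifferentiableOn ℂ (fun p : E2 => ∫ t in (0 : ℝ)..1, p.2 * κ (p.1, t * p.2))
      (ball 0 r) := by
    refine MP_e711b0_an.differentiableOn_integral (Φ := fun (p : E2) (t : ℝ) => p.2 * κ (p.1, t * p.2))
      isOpen_ball ?_ fun t ht => ?_
    · refine ContinuousOn.mul (by fun_prop) (hκ.continuousOn.comp (by fun_prop) ?_)
      exact fun q hq => hmem q.1 hq.1 q.2 hq.2
    · exact DifferentiableOn.mul (by fun_prop) (hκ.comp (by fun_prop) fun p hp => hmem p hp t ht)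
  refine ⟨_, hd, fun p hp => ⟨?_, rfl⟩⟩
  have hball : ∀ v ∈ ball (0 : ℂ) r, ((p.1, v) : E2) ∈ ball 0 r := by
    intro v hv
    rw [mem_ball_zero_iff] at hp hv ⊢
    rw [Prod.norm_def]
    exact max_lt ((norm_fst_le p).trans_lt hp) hv
  have hp2 : p.2 ∈ ball (0 : ℂ) r := by
    rw [mem_ball_zero_iff] at hp ⊢
    exact (norm_snd_le p).trans_lt hp
  have hk : DifferentiableOn ℂ (fun v => κ (p.1, v)) (ball 0 r) := hκ.comp (by fun_prop) hball
  obtain ⟨K, hK⟩ := hk.isExactOn_ball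
  have h1 : ∀ v ∈ ball (0 : ℂ) r, ∫ t in (0 : ℝ)..1, v * κ (p.1, t * v) = K v - K 0 := by
    intro v hv
    have h2 : ∀ t ∈ uIcc (0 : ℝ) 1, (t : ℂ) * v ∈ ball (0 : ℂ) r := fun t ht => by
      have := hmem (p.1, v) (hball v hv) t ht
      rw [mem_ball_zero_iff] at this ⊢
      exact (norm_snd_le ((p.1, t * v) : E2)).trans_lt this
    have h3 := intervalIntegral.integral_eq_sub_of_hasDerivAt (a := 0) (b := 1)
      (f := fun t : ℝ => K (t * v)) (f' := fun t : ℝ => v * κ (p.1, t * v)) (fun t ht => by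
        have := ((hK _ (h2 t ht)).comp (t : ℂ) ((hasDerivAt_id (t : ℂ)).mul_const v)).comp_ofReal
        simpa [mul_comm] using this)
      (ContinuousOn.intervalIntegrable (ContinuousOn.mul (by fun_prop)
        (hk.continuousOn.comp (f := fun t : ℝ => (t : ℂ) * v) (by fun_prop) h2)))
    simpa using h3
  have h4 : HasDerivAt (fun v => (fun q : E2 => ∫ t in (0 : ℝ)..1, q.2 * κ (q.1, t * q.2)) (p.1, v))
      (κ p) p.2 :=
    ((hK _ hp2).sub_const (K 0)).congr_of_eventuallyEq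
      (eventually_of_mem (isOpen_ball.mem_nhds hp2) h1)
  have h5 := (hd.differentiableAt (isOpen_ball.mem_nhds hp)).hasFDerivAt.comp_hasDerivAt_of_eq p.2
    ((hasDerivAt_const p.2 p.1).prodMk (hasDerivAt_id p.2)) rfl
  exact h5.unique h4

variable {X : Type*} [MetricSpace X]

/-- differential of a function in a chart -/
def D (g : X → ℂ) (e : OpenPartialHomeomorph X E2) (x : X) : E2 →L[ℂ] ℂ :=
  fderiv ℂ (g ∘ e.symm) (e x)

/-- the part of a chart domain that is mapped into the polydisc of radius `r` -/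
def box (e : OpenPartialHomeomorph X E2) (r : ℝ) : Set X := e.source ∩ e ⁻¹' ball 0 r

lemma isOpen_box (e : OpenPartialHomeomorph X E2) (r : ℝ) : IsOpen (box e r) :=
  e.isOpen_inter_preimage isOpen_ball

/-- Lebesgue number for neighbourhoods attached to the points of a compact set -/
lemma leb {K : Set X} (hK : IsCompact K) (V : X → Set X) (hV : ∀ x ∈ K, V x ∈ 𝓝 x) :
    ∃ l > 0, ∀ x ∈ K, ∃ x' ∈ K, ball x l ⊆ V x' := by
  obtain ⟨l, hl, h⟩ := lebesgue_number_lemma_of_metric hK (c := fun x : K => interior (V x))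
    (fun _ => isOpen_interior)
    (fun x hx => mem_iUnion.2 ⟨⟨x, hx⟩, mem_interior_iff_mem_nhds.2 (hV x hx)⟩)
  refine ⟨l, hl, fun x hx => ?_⟩
  obtain ⟨x', hx'⟩ := h x hx
  exact ⟨x', x'.2, hx'.trans interior_subset⟩

namespace Sf0

variable (S : Sf0 X)

/-- holomorphic near a point of the surface -/
def HolX (g : X → ℂ) (x : X) : Prop :=
  ∀ e ∈ S.A, x ∈ e.source → ∀ᶠ p in 𝓝 (e x), DifferentiableAt ℂ (g ∘ e.symm) p

/-- the zero set of the 2-form -/
def Z : Set X := {x | ∀ e ∈ S.A, x ∈ e.source → S.ω e (e x) = 0}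

/-- `df ∧ dg = κ ω` at `x` -/
def Wd (f g : X → ℂ) (κ : ℂ) (x : X) : Prop :=
  ∀ e ∈ S.A, x ∈ e.source → wedge (D f e x) (D g e x) = κ * S.ω e (e x)

/-- `dA ∧ dB = dA' ∧ dB'` at `x` -/
def WdEq (A B A' B' : X → ℂ) (x : X) : Prop :=
  ∀ e ∈ S.A, x ∈ e.source → wedge (D A e x) (D B e x) = wedge (D A' e x) (D B' e x)

/-- `dg = A dB - A' dB'` at `y`, tested on holomorphic curves -/
def Rel (g A B A' B' : X → ℂ) (y : X) : Prop :=
  ∀ (l : ℂ → X) (t : ℂ), S.HolAt l t → l t = y →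
    HasDerivAt (g ∘ l) (A y * deriv (B ∘ l) t - A' y * deriv (B' ∘ l) t) t

/-- `U` is a primitive of the 2-form along the fibres: `dπ ∧ dU = ω` -/
def RP (U : X → ℂ) (x : X) : Prop :=
  ¬ S.Crit x ∧ S.HolX U x ∧ ∀ e ∈ S.A, x ∈ e.source → wedge (S.dπ e x) (D U e x) = S.ω e (e x)

/-- a holomorphic arc from `x` to `y` inside `V` -/
def Arc (l : ℂ → X) (x y : X) (V : Set X) : Prop :=
  l 0 = x ∧ l 1 = y ∧ ∀ τ : ℝ, τ ∈ Icc (0 : ℝ) 1 → ∀ᶠ σ in 𝓝 (τ : ℂ), S.HolAt l σ ∧ l σ ∈ V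

/-- a chart centred at `x` whose image contains the polydisc of radius `r` -/
def IsBox (e : OpenPartialHomeomorph X E2) (r : ℝ) (x : X) : Prop :=
  e ∈ S.A ∧ x ∈ e.source ∧ e x = 0 ∧ 0 < r ∧ ball 0 r ⊆ e.target

variable {S}
variable {e e' : OpenPartialHomeomorph X E2} {x y : X} {f g A B A' B' U U' : X → ℂ} {r : ℝ}

lemma holX_of_chart (he : e ∈ S.A) (hx : x ∈ e.source)
    (h : ∀ᶠ p in 𝓝 (e x), DifferentiableAt ℂ (g ∘ e.symm) p) : S.HolX g x := by
  intro e' he' hx'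
  have h1 := S.trans e' he' e he x hx' hx
  have h2 : (e ∘ e'.symm) (e' x) = e x := by simp [e'.left_inv hx']
  filter_upwards [(chart_change_eventuallyEq g hx' hx).eventuallyEq_nhds,
    h1.eventually_analyticAt, h1.continuousAt.eventually (h2 ▸ h)] with p a1 a2 a3
  exact (a3.comp p a2.differentiableAt).congr_of_eventuallyEq a1

lemma AnAt.holX (h : S.AnAt g x) : S.HolX g x := fun e he hx =>
  (h e he hx).eventually_analyticAt.mono fun _ h => h.differentiableAt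

lemma HolX.eventually (h : S.HolX g x) : ∀ᶠ y in 𝓝 x, S.HolX g y := by
  obtain ⟨e, he, hx⟩ := S.cover x
  filter_upwards [e.open_source.mem_nhds hx,
    (e.continuousAt hx).eventually (h e he hx).eventually_nhds] with y hy hy'
  exact holX_of_chart he hy hy'

lemma HolX.congr (h : S.HolX g x) (h' : f =ᶠ[𝓝 x] g) : S.HolX f x := by
  intro e he hx
  have h1 : f ∘ e.symm =ᶠ[𝓝 (e x)] g ∘ e.symm := symm_eventually hx h'
  filter_upwards [h e he hx, h1.eventuallyEq_nhds] with p a1 a2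
  exact a1.congr_of_eventuallyEq a2

lemma HolX.continuousAt (h : S.HolX g x) : ContinuousAt g x := by
  obtain ⟨e, he, hx⟩ := S.cover x
  have h1 : g =ᶠ[𝓝 x] (g ∘ e.symm) ∘ e := by
    filter_upwards [e.open_source.mem_nhds hx] with y hy
    simp [e.left_inv hy]
  exact ((h e he hx).self_of_nhds.continuousAt.comp (e.continuousAt hx)).congr h1.symm

lemma holX_const (c : ℂ) : S.HolX (fun _ => c) x := fun _ _ _ =>
  Eventually.of_forall fun _ => differentiableAt_const c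

lemma HolX.add (hf : S.HolX f x) (hg : S.HolX g x) : S.HolX (fun y => f y + g y) x :=
  fun e he hx => ((hf e he hx).and (hg e he hx)).mono fun _ h => h.1.add h.2

lemma HolX.sub (hf : S.HolX f x) (hg : S.HolX g x) : S.HolX (fun y => f y - g y) x :=
  fun e he hx => ((hf e he hx).and (hg e he hx)).mono fun _ h => h.1.sub h.2

lemma HolX.mul (hf : S.HolX f x) (hg : S.HolX g x) : S.HolX (fun y => f y * g y) x :=
  fun e he hx => ((hf e he hx).and (hg e he hx)).mono fun _ h => h.1.mul h.2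

lemma HolX.neg (hf : S.HolX f x) : S.HolX (fun y => -f y) x :=
  fun e he hx => (hf e he hx).mono fun _ h => h.neg

lemma HolX.zpow (hf : S.HolX f x) (h0 : f x ≠ 0) (n : ℤ) : S.HolX (fun y => f y ^ n) x := by
  intro e he hx
  filter_upwards [hf e he hx, symm_eventually hx (hf.continuousAt.eventually_ne h0)] with p a1 a2
  exact a1.zpow (Or.inl a2)

lemma HolX.hasDerivAt {l : ℂ → X} {z : ℂ} (hg : S.HolX g (l z)) (hl : S.HolAt l z)
    (he : e ∈ S.A) (hx : l z ∈ e.source) :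
    HasDerivAt (g ∘ l) (D g e (l z) (deriv (e ∘ l) z)) z := by
  refine HasDerivAt.congr_of_eventuallyEq ?_ (comp_chart_eventuallyEq hl.1 hx g)
  exact HasFDerivAt.comp_hasDerivAt z (hg e he hx).self_of_nhds.hasFDerivAt
    (hl.2 e he hx).hasDerivAt

lemma HolX.differentiableAt {l : ℂ → X} {z : ℂ} (hg : S.HolX g (l z)) (hl : S.HolAt l z) :
    DifferentiableAt ℂ (g ∘ l) z := by
  obtain ⟨e, he, hx⟩ := S.cover (l z)
  exact (hg.hasDerivAt hl he hx).differentiableAt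

lemma HolX.D_trans (hg : S.HolX g x) (he : e ∈ S.A) (he' : e' ∈ S.A) (hx : x ∈ e.source)
    (hx' : x ∈ e'.source) : D g e x = (D g e' x).comp (fderiv ℂ (e' ∘ e.symm) (e x)) := by
  rw [D, (chart_change_eventuallyEq g hx hx').fderiv_eq, fderiv_comp]
  · simp [D, e.left_inv hx]
  · have := (hg e' he' hx').self_of_nhds
    simpa [e.left_inv hx] using this
  · exact (S.trans e he e' he' x hx hx').differentiableAt

lemma D_congr (h : f =ᶠ[𝓝 x] g) (hx : x ∈ e.source) : D f e x = D g e x :=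
  (show f ∘ e.symm =ᶠ[𝓝 (e x)] g ∘ e.symm from symm_eventually hx h).fderiv_eq

lemma HolX.D_mul (hf : S.HolX f x) (hg : S.HolX g x) (he : e ∈ S.A) (hx : x ∈ e.source) :
    D (fun y => f y * g y) e x = f x • D g e x + g x • D f e x := by
  have := fderiv_mul (hf e he hx).self_of_nhds (hg e he hx).self_of_nhds
  simp only [Function.comp_apply, e.left_inv hx] at this
  exact this

lemma D_neg : D (fun y => -f y) e x = -D f e x := fderiv_neg

lemma HolX.D_zpow (hf : S.HolX f x) (h0 : f x ≠ 0) (n : ℤ) (he : e ∈ S.A) (hx : x ∈ e.source) :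
    D (fun y => f y ^ n) e x = ((n : ℂ) * f x ^ (n - 1)) • D f e x := by
  have h1 := (hasDerivAt_zpow n (f x) (Or.inl h0)).comp_hasFDerivAt_of_eq (e x)
    (hf e he hx).self_of_nhds.hasFDerivAt (by simp [e.left_inv hx])
  exact h1.fderiv

lemma mem_Z_of_chart (he : e ∈ S.A) (hx : x ∈ e.source) (h : S.ω e (e x) = 0) : x ∈ S.Z :=
  fun e' he' hx' => by rw [S.ω_compat e' he' e he x hx' hx, h, zero_mul]

lemma isClosed_Z : IsClosed S.Z := by
  rw [← isOpen_compl_iff, isOpen_iff_mem_nhds]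
  intro x hx
  obtain ⟨e, he, hxe⟩ := S.cover x
  have h1 : S.ω e (e x) ≠ 0 := fun h => hx (mem_Z_of_chart he hxe h)
  filter_upwards [((S.ω_an e he x hxe).continuousAt.comp (e.continuousAt hxe)).eventually_ne h1,
    e.open_source.mem_nhds hxe] with y h2 h3 h4
  exact h2 (h4 e he h3)

lemma isClosed_fib (s : ℂ ⧸ S.Λ) : IsClosed {x | S.π x = s} := by
  refine isClosed_of_closure_subset fun x hx => ?_
  obtain ⟨u, hu, hlim⟩ := mem_closure_iff_seq_limit.1 hx
  have := π_lim (S := S) hlim (tendsto_const_nhds (x := u 0)) (tendsto_const_nhds (x := (0 : ℂ)))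
    (Eventually.of_forall fun n => by rw [hu n, hu 0]; simp)
  rw [hu 0] at this
  simpa using this

lemma wd_of_chart {κ : ℂ} (hf : S.HolX f x) (hg : S.HolX g x) (he : e ∈ S.A) (hx : x ∈ e.source)
    (h : wedge (D f e x) (D g e x) = κ * S.ω e (e x)) : S.Wd f g κ x := fun e' he' hx' => by
  rw [hf.D_trans he' he hx' hx, hg.D_trans he' he hx' hx, wedge_comp, h,
    S.ω_compat e' he' e he x hx' hx, mul_assoc]

lemma Wd.wdEq {κ : ℂ} (h : S.Wd A B κ x) (h' : S.Wd A' B' κ x) : S.WdEq A B A' B' x :=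
  fun e he hx => (h e he hx).trans (h' e he hx).symm

lemma rp_of_chart (hc : ¬ S.Crit x) (hU : S.HolX U x) (he : e ∈ S.A) (hx : x ∈ e.source)
    (h : wedge (S.dπ e x) (D U e x) = S.ω e (e x)) : S.RP U x :=
  ⟨hc, hU, fun e' he' hx' => by
    rw [dπ_trans he' he hx' hx, hU.D_trans he' he hx' hx, wedge_comp, h,
      S.ω_compat e' he' e he x hx' hx]⟩

lemma HolX.continuousAt_D (hg : S.HolX g x) (he : e ∈ S.A) (hx : x ∈ e.source) :
    ContinuousAt (D g e) x :=
  (MP_e711b0_an.Hol.fderiv (hg e he hx)).self_of_nhds.continuousAt.comp (e.continuousAt hx)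

lemma wdEq_of_frequently (hA : S.HolX A x) (hB : S.HolX B x) (hA' : S.HolX A' x)
    (hB' : S.HolX B' x) (h : ∃ᶠ y in 𝓝 x, S.WdEq A B A' B' y) : S.WdEq A B A' B' x := by
  intro e he hx
  have hc : ∀ {f g : X → ℂ}, S.HolX f x → S.HolX g x →
      ContinuousAt (fun y => wedge (D f e y) (D g e y)) x := fun hf hg => by
    have h1 := hf.continuousAt_D he hx
    have h2 := hg.continuousAt_D he hx
    unfold wedge
    fun_prop
  refine tendsto_nhds_unique_of_frequently_eq (hc hA hB) (hc hA' hB') ?_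
  exact (h.and_eventually (e.open_source.mem_nhds hx)).mono fun y hy => hy.1 e he hy.2

/-- two primitives along the fibres have the same derivative on a vertical curve -/
lemma RP.vert (hU : S.RP U y) (hU' : S.RP U' y) {l : ℂ → X} {t : ℂ} (hl : S.HolAt l t)
    (ht : l t = y) (hv : ∀ᶠ σ in 𝓝 t, S.π (l σ) = S.π y) :
    HasDerivAt ((fun x => U x - U' x) ∘ l) 0 t := by
  subst ht
  obtain ⟨e, he, hx⟩ := S.cover (l t)
  obtain ⟨c, hc⟩ := S.Λ.mkQ_surjective (S.π (l t))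
  have h1 := dπ_deriv hl (hasDerivAt_const t c) (hv.mono fun σ h => h.trans hc.symm) he hx
  have h2 := (hU.2.1.hasDerivAt hl he hx).sub (hU'.2.1.hasDerivAt hl he hx)
  refine HasDerivAt.congr_deriv h2 ?_
  obtain ⟨w, hw⟩ := Ell.exists_apply_ne_zero fun h => hU.1 (crit_of_chart he hx h)
  have h3 := wedge_apply (S.dπ e (l t)) (D U e (l t)) w (deriv (e ∘ l) t)
  have h4 := wedge_apply (S.dπ e (l t)) (D U' e (l t)) w (deriv (e ∘ l) t)
  rw [hU.2.2 e he hx, h1] at h3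
  rw [hU'.2.2 e he hx, h1] at h4
  apply mul_left_cancel₀ hw
  linear_combination h3 - h4

lemma Arc.mono {l : ℂ → X} {V W : Set X} (h : S.Arc l x y V) (hV : V ⊆ W) : S.Arc l x y W :=
  ⟨h.1, h.2.1, fun τ hτ => (h.2.2 τ hτ).mono fun _ h => ⟨h.1, hV h.2⟩⟩

/-- a function with zero derivative along an arc takes the same value at the two ends -/
lemma Arc.const {l : ℂ → X} {V : Set X} (h : S.Arc l x y V) {k : X → ℂ}
    (hk : ∀ t, (∀ᶠ σ in 𝓝 t, S.HolAt l σ ∧ l σ ∈ V) → HasDerivAt (k ∘ l) 0 t) : k x = k y := by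
  have h1 : ∀ τ ∈ Icc (0 : ℝ) 1, HasDerivAt (fun σ : ℝ => (k ∘ l) σ) 0 τ := fun τ hτ =>
    (hk τ (h.2.2 τ hτ)).comp_ofReal
  have h2 := constant_of_has_deriv_right_zero (a := 0) (b := 1)
    (fun τ hτ => (h1 τ hτ).continuousAt.continuousWithinAt)
    (fun τ hτ => (h1 τ (Ico_subset_Icc_self hτ)).hasDerivWithinAt) 1 (right_mem_Icc.2 zero_le_one)
  simpa [h.1, h.2.1] using h2.symm

lemma exists_chart0 (x : X) : ∃ e ∈ S.A, x ∈ e.source ∧ e x = 0 := by
  obtain ⟨e, he, hx⟩ := S.cover x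
  refine ⟨e.trans (Homeomorph.subRight (e x)).toOpenPartialHomeomorph, S.comp e he _
    (fun y _ => ?_) (fun y _ => ?_), by simpa using hx, by simp⟩
  · exact analyticAt_id.sub analyticAt_const
  · exact analyticAt_id.add analyticAt_const

lemma eventually_box (he : e ∈ S.A) (hx : x ∈ e.source) (h0 : e x = 0) {N : Set X}
    (hN : N ∈ 𝓝 x) : ∀ᶠ r in 𝓝[>] (0 : ℝ), S.IsBox e r x ∧ box e r ⊆ N := by
  have h1 := (symm_eventually hx hN).and (e.open_target.mem_nhds (e.map_source hx))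
  rw [h0] at h1
  obtain ⟨ε, hε, h2⟩ := Metric.eventually_nhds_iff_ball.1 h1
  filter_upwards [Ioc_mem_nhdsGT hε] with r hr
  refine ⟨⟨he, hx, h0, hr.1, fun p hp => (h2 p (ball_subset_ball hr.2 hp)).2⟩, fun y hy => ?_⟩
  have := (h2 _ (ball_subset_ball hr.2 hy.2)).1
  rwa [e.left_inv hy.1] at this

lemma exists_box {N : Set X} (hN : N ∈ 𝓝 x) : ∃ e r, S.IsBox e r x ∧ box e r ⊆ N := by
  obtain ⟨e, he, hx, h0⟩ := exists_chart0 (S := S) x
  obtain ⟨r, hr⟩ := (eventually_box he hx h0 hN).exists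
  exact ⟨e, r, hr⟩

lemma IsBox.mem (h : S.IsBox e r x) : x ∈ box e r :=
  ⟨h.2.1, by simp [h.2.2.1, h.2.2.2.1]⟩

lemma IsBox.mem_nhds (h : S.IsBox e r x) : box e r ∈ 𝓝 x := (isOpen_box e r).mem_nhds h.mem

lemma IsBox.symm_mem (h : S.IsBox e r x) {p : E2} (hp : p ∈ ball (0 : E2) r) :
    e.symm p ∈ box e r ∧ e (e.symm p) = p :=
  ⟨⟨e.map_target (h.2.2.2.2 hp), by
    rw [mem_preimage, e.right_inv (h.2.2.2.2 hp)]; exact hp⟩, e.right_inv (h.2.2.2.2 hp)⟩

lemma IsBox.holAt (h : S.IsBox e r x) {m : ℂ → E2} {t : ℂ} (hm : DifferentiableAt ℂ m t)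
    (ht : m t ∈ ball (0 : E2) r) : S.HolAt (fun σ => e.symm (m σ)) t := by
  refine holAt_of_chart ((e.continuousAt_symm (h.2.2.2.2 ht)).comp hm.continuousAt) h.1
    (h.symm_mem ht).1.1 (hm.congr_of_eventuallyEq ?_)
  filter_upwards [hm.continuousAt.eventually (isOpen_ball.mem_nhds ht)] with σ hσ
  exact (h.symm_mem hσ).2

/-- the straight arc between two points of a box -/
lemma IsBox.arc (h : S.IsBox e r x) {y y' : X} (hy : y ∈ box e r) (hy' : y' ∈ box e r) :
    S.Arc (fun σ => e.symm (e y + σ • (e y' - e y))) y y'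
      {z | z ∈ box e r ∧ ∃ σ : ℂ, e z = e y + σ • (e y' - e y)} := by
  refine ⟨by simp [e.left_inv hy.1], by simp [e.left_inv hy'.1], fun τ hτ => ?_⟩
  have h1 : e y + (τ : ℂ) • (e y' - e y) ∈ ball (0 : E2) r := by
    have := (convex_ball (0 : E2) r).add_smul_sub_mem hy.2 hy'.2 hτ
    rwa [← Complex.coe_smul] at this
  have hc : Continuous fun σ : ℂ => e y + σ • (e y' - e y) := by fun_prop
  filter_upwards [hc.continuousAt.eventually (isOpen_ball.mem_nhds h1)] with σ hσ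
  exact ⟨h.holAt (m := fun σ : ℂ => e y + σ • (e y' - e y)) (by fun_prop) hσ,
    (h.symm_mem hσ).1, σ, (h.symm_mem hσ).2⟩

/-- a function on the polydisc, read on the box -/
lemma IsBox.holX (h : S.IsBox e r x) {P : E2 → ℂ} (hP : DifferentiableOn ℂ P (ball 0 r))
    (hy : y ∈ box e r) : S.HolX (P ∘ e) y ∧ D (P ∘ e) e y = fderiv ℂ P (e y) := by
  have h1 : (P ∘ e) ∘ e.symm =ᶠ[𝓝 (e y)] P := by
    filter_upwards [isOpen_ball.mem_nhds hy.2] with p hp
    simp [(h.symm_mem hp).2]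
  refine ⟨holX_of_chart h.1 hy.1 ?_, h1.fderiv_eq⟩
  filter_upwards [isOpen_ball.mem_nhds hy.2, h1.eventuallyEq_nhds] with p a1 a2
  exact (hP.differentiableAt (isOpen_ball.mem_nhds a1)).congr_of_eventuallyEq a2

lemma IsBox.diffOn (h : S.IsBox e r x) (hg : ∀ y ∈ box e r, S.HolX g y) :
    DifferentiableOn ℂ (g ∘ e.symm) (ball 0 r) := fun p hp => by
  have := (hg _ (h.symm_mem hp).1 e h.1 (h.symm_mem hp).1.1).self_of_nhds
  rw [(h.symm_mem hp).2] at this
  exact this.differentiableWithinAt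

end Sf0

end Pool.Agent.P.MP_7ede32_ag.Geo
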