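import Pool.Agent.P.MP_7ede32_ag.Geo.B2

/-!
The small lift near a fibre, regular boxes, the finite set of bad values and the classes of
sections.
-/

open Filter Topology Metric Set

noncomputable section

namespace Pool.Agent.P.MP_7ede32_ag.Geo

open Ell (E2 UU ev_UU UU_le)

variable {X : Type*} [MetricSpace X]

/-- the annulus around a bad value -/
def Ann (δ : ℝ) : Set ℂ := {w | δ / 2 < ‖w‖ ∧ ‖w‖ < 2 * δ}

lemma isOpen_Ann (δ : ℝ) : IsOpen (Ann δ) :=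
  (isOpen_lt continuous_const continuous_norm).inter (isOpen_lt continuous_norm continuous_const)

/-- the open half-plane in direction `u` -/
def Hp (u : ℂ) (a : ℝ) : Set ℂ := {w | a < (starRingEnd ℂ u * w).re}

/-- the integral of the form along the fibre from `x` to a nearby point `y` -/
def th (U : X → X → ℂ) (x y : X) : ℂ := U x y - U x x

namespace Sf0

variable (S : Sf0 X)

/-- half of a lower bound for the length of nonzero periods -/
def ρ : ℝ := S.disc.choose / 2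

lemma ρ_pos : 0 < S.ρ := half_pos S.disc.choose_spec.1

lemma lam_zero {w : ℂ} (hw : w ∈ S.Λ) (h : ‖w‖ < 2 * S.ρ) : w = 0 :=
  S.disc.choose_spec.2 w hw (by rwa [ρ, mul_div_cancel₀ _ two_ne_zero] at h)

open Classical in
/-- the small lift of `π - s` -/
def mu (s : ℂ ⧸ S.Λ) (y : X) : ℂ :=
  if h : ∃ m, ‖m‖ < S.ρ ∧ S.π y = s + S.Λ.mkQ m then h.choose else 0

/-- `mu s` is an analytic lift of `π - s` near `y` -/
def MuOk (s : ℂ ⧸ S.Λ) (y : X) : Prop :=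
  S.AnAt (S.mu s) y ∧ ∀ᶠ y' in 𝓝 y, S.π y' = s + S.Λ.mkQ (S.mu s y') ∧ ‖S.mu s y'‖ < S.ρ

/-- near `x` there are coordinates `(u, v)` with `π = π x + u` and `ω = v ^ j * unit` -/
def RegAt (x : X) : Prop :=
  ∃ e ∈ S.A, x ∈ e.source ∧ e x = 0 ∧ (∀ᶠ y in 𝓝 x, S.π y = S.π x + S.Λ.mkQ (e y).1) ∧
    ∃ (j : ℕ) (g : E2 → ℂ), (∀ᶠ p in 𝓝 0, DifferentiableAt ℂ g p) ∧ g 0 ≠ 0 ∧
      ∀ᶠ p in 𝓝 0, S.ω e p = p.2 ^ j * g p

/-- a box in regular coordinates -/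
def RBox (e : OpenPartialHomeomorph X E2) (r : ℝ) (x : X) (j : ℕ) (g : E2 → ℂ) : Prop :=
  S.IsBox e r x ∧ r ≤ S.ρ ∧ (∀ y ∈ box e r, S.π y = S.π x + S.Λ.mkQ (e y).1) ∧
    DifferentiableOn ℂ g (ball 0 r) ∧ g 0 ≠ 0 ∧
    ∀ p ∈ ball (0 : E2) r, S.ω e p = p.2 ^ j * g p ∧ ‖g p - g 0‖ ≤ ‖g 0‖ / 2

/-- the hypotheses of the theorem -/
structure Hyp (s₀ : ℂ ⧸ S.Λ) : Prop where
  ω_ne : ∀ e ∈ S.A, ∀ x ∈ e.source, ¬ ∀ᶠ p in 𝓝 (e x), S.ω e p = 0
  π_nc : ∀ x, ¬ ∀ᶠ y in 𝓝 x, S.π y = S.π x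
  reg0 : ∀ x, S.π x = s₀ → ¬ S.Crit x ∧ x ∈ S.Z
  fin : {s | ∃ h, S.Hol h ∧ (∀ z, S.π (h z) = s) ∧ ¬ ∀ z, h z = h 0}.Finite

/-- a finite set of values outside which everything is regular -/
structure Cfg (s₀ : ℂ ⧸ S.Λ) where
  B : Set (ℂ ⧸ S.Λ)
  fin : B.Finite
  mem : s₀ ∈ B
  hyp : ∀ s ∉ B, ∀ h, S.Hol h → (∀ z, S.π (h z) = s) → ∀ z, h z = h 0
  reg : ∀ x, S.π x ∉ B → S.RegAt x

/-- `U x` is a bounded primitive along the fibres on the ball of radius `l` around `x ∈ K` -/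
def UOk (K : Set X) (l : ℝ) (U : X → X → ℂ) : Prop :=
  ∀ x ∈ K, ∀ z ∈ ball x l, S.RP (U x) z ∧ ‖U x z‖ ≤ 1

/-- holomorphic section of `π - s` over the set `O` -/
def SecOn (s : ℂ ⧸ S.Λ) (f : ℂ → X) (O : Set ℂ) : Prop :=
  ∀ w ∈ O, S.HolAt f w ∧ S.π (f w) = s + S.Λ.mkQ w

/-- a section over the whole disc, or a section over the annulus inside the zero set -/
def Adm (s : ℂ ⧸ S.Λ) (δ : ℝ) (f : ℂ → X) : Prop :=
  S.SecOn s f (ball 0 (3 * δ)) ∨ (S.SecOn s f (Ann δ) ∧ ∀ w ∈ Ann δ, f w ∈ S.Z)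

/-- uniform limit on the annulus of admissible sections -/
def LB (s : ℂ ⧸ S.Λ) (δ : ℝ) (f : ℂ → X) : Prop :=
  ∀ ε > 0, ∃ f', S.Adm s δ f' ∧ ∀ w ∈ Ann δ, dist (f' w) (f w) ≤ ε

variable {S}
variable {s s₀ : ℂ ⧸ S.Λ} {x y y' : X} {e : OpenPartialHomeomorph X E2} {r : ℝ} {j : ℕ}
  {g : E2 → ℂ}

lemma small_unique {m m' : ℂ} (h : ‖m‖ < S.ρ) (h' : ‖m'‖ < S.ρ)
    (he : S.Λ.mkQ m = S.Λ.mkQ m') : m = m' :=
  sub_eq_zero.1 (S.lam_zero (mk_eq_iff.1 he) (by linarith [norm_sub_le m m']))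

lemma mu_eq {m : ℂ} (h : ‖m‖ < S.ρ) (hy : S.π y = s + S.Λ.mkQ m) : S.mu s y = m := by
  have h1 : ∃ m, ‖m‖ < S.ρ ∧ S.π y = s + S.Λ.mkQ m := ⟨m, h, hy⟩
  rw [mu, dif_pos h1]
  exact small_unique h1.choose_spec.1 h (add_left_cancel (h1.choose_spec.2.symm.trans hy))

lemma muOk_of {m : ℂ} (h : ‖m‖ < S.ρ) (hy : S.π y = s + S.Λ.mkQ m) : S.MuOk s y := by
  have hg := isLift_lf (S := S) y
  have h1 : ∀ᶠ y' in 𝓝 y, ‖S.lf y y' - S.lf y y + m‖ < S.ρ := by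
    have : ContinuousAt (fun y' => ‖S.lf y y' - S.lf y y + m‖) y :=
      ((hg.2.continuousAt.sub continuousAt_const).add continuousAt_const).norm
    exact this.eventually_lt continuousAt_const (by simpa using h)
  have h2 : ∀ᶠ y' in 𝓝 y, S.π y' = s + S.Λ.mkQ (S.lf y y' - S.lf y y + m) := by
    filter_upwards [hg.1] with y' h2
    rw [map_add, map_sub, ← h2, ← hg.1.self_of_nhds, hy]
    abel
  have h3 : ∀ᶠ y' in 𝓝 y, S.mu s y' = S.lf y y' - S.lf y y + m :=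
    (h1.and h2).mono fun y' h => mu_eq h.1 h.2
  refine ⟨fun e he hx => ?_, ?_⟩
  · refine AnalyticAt.congr (((hg.2 e he hx).sub (analyticAt_const (v := S.lf y y))).add
      (analyticAt_const (v := m))) ?_
    filter_upwards [symm_eventually hx h3] with p hp
    exact hp.symm
  · filter_upwards [h1, h2, h3] with y' a1 a2 a3
    rw [a3]
    exact ⟨a2, a1⟩

lemma muOk_fib (hy : S.π y = s) : S.MuOk s y :=
  muOk_of (m := 0) (by simpa using S.ρ_pos) (by simpa using hy)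

lemma MuOk.eventually (h : S.MuOk s y) : ∀ᶠ y' in 𝓝 y, S.MuOk s y' :=
  h.2.mono fun _ h' => muOk_of h'.2 h'.1

lemma MuOk.holX (h : S.MuOk s y) : S.HolX (S.mu s) y := h.1.holX

lemma MuOk.D_eq (h : S.MuOk s y) (hy : y ∈ e.source) : D (S.mu s) e y = S.dπ e y := by
  obtain ⟨c, rfl⟩ := S.Λ.mkQ_surjective s
  have h1 : S.IsLift (fun z => S.mu (S.Λ.mkQ c) z + c) y :=
    ⟨h.2.mono fun z hz => by rw [hz.1, map_add, add_comm],
      fun e he hx => (h.1 e he hx).add analyticAt_const⟩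
  rw [← h1.fderiv_eq hy]
  exact (fderiv_add_const c).symm

lemma MuOk.eq_zero_iff (h : S.MuOk s y) : S.mu s y = 0 ↔ S.π y = s :=
  ⟨fun h0 => by simpa [h0] using h.2.self_of_nhds.1,
    fun h0 => mu_eq (by simpa using S.ρ_pos) (by simpa using h0)⟩

/-- points whose projection is close to `s` are close to the fibre over `s` -/
lemma near_fib [CompactSpace X] (s : ℂ ⧸ S.Λ) {l : ℝ} (hl : 0 < l) :
    ∃ δ > 0, ∀ y w, ‖w‖ < δ → S.π y = s + S.Λ.mkQ w → ∃ α, S.π α = s ∧ dist y α < l := by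
  by_contra hcon
  push Not at hcon
  choose y w h1 h2 h3 using fun n : ℕ => hcon (1 / ((n : ℝ) + 1)) (by positivity)
  obtain ⟨x, _, hx⟩ := isCompact_univ.ultrafilter_le_nhds (UU.map y) (by simp)
  have hx' : Tendsto y UU (𝓝 x) := hx
  have hw : Tendsto w UU (𝓝 0) := squeeze_zero_norm (fun n => (h1 n).le)
    (tendsto_one_div_add_atTop_nhds_zero_nat.mono_left UU_le)
  have h4 := π_lim (S := S) hx' (tendsto_const_nhds (x := y 0)) (hw.sub_const (w 0))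
    (Eventually.of_forall fun n => by rw [h2 n, h2 0, map_sub]; abel)
  rw [h2 0, zero_sub, map_neg, add_neg_cancel_right] at h4
  obtain ⟨n, hn⟩ := (Metric.tendsto_nhds.1 hx' l hl).exists
  exact absurd hn (not_lt.2 (h3 n x h4))

lemma RegAt.eventually_rbox (h : S.RegAt x) : ∃ e j g, ∀ N ∈ 𝓝 x,
    ∀ᶠ r in 𝓝[>] (0 : ℝ), S.RBox e r x j g ∧ box e r ⊆ N := by
  obtain ⟨e, he, hx, h0, hπ, j, g, hg, hg0, hω⟩ := h
  refine ⟨e, j, g, fun N hN => ?_⟩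
  have h1 : ∀ᶠ p in 𝓝 (0 : E2), ‖g p - g 0‖ ≤ ‖g 0‖ / 2 := by
    have := Metric.tendsto_nhds.1 hg.self_of_nhds.continuousAt (‖g 0‖ / 2) (by positivity)
    exact this.mono fun p hp => by rw [← dist_eq_norm]; exact hp.le
  obtain ⟨ε, hε, h2⟩ := Metric.eventually_nhds_iff_ball.1 (hg.and (hω.and h1))
  filter_upwards [eventually_box he hx h0 (inter_mem hN hπ), Ioc_mem_nhdsGT hε,
    Ioc_mem_nhdsGT S.ρ_pos] with r a1 a2 a3
  exact ⟨⟨a1.1, a3.2, fun y hy => (a1.2 hy).2, fun p hp =>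
    (h2 p (ball_subset_ball a2.2 hp)).1.differentiableWithinAt, hg0,
    fun p hp => (h2 p (ball_subset_ball a2.2 hp)).2⟩, fun y hy => (a1.2 hy).1⟩

lemma RegAt.exists_rbox (h : S.RegAt x) {N : Set X} (hN : N ∈ 𝓝 x) :
    ∃ e r j g, S.RBox e r x j g ∧ box e r ⊆ N := by
  obtain ⟨e, j, g, H⟩ := h.eventually_rbox
  obtain ⟨r, hr⟩ := (H N hN).exists
  exact ⟨e, r, j, g, hr⟩

lemma RBox.fst_eq (h : S.RBox e r x j g) (hy : y ∈ box e r) (hy' : y' ∈ box e r)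
    (hπ : S.π y = S.π y') : (e y).1 = (e y').1 := by
  have h1 : ∀ z ∈ box e r, ‖(e z).1‖ < S.ρ := fun z hz =>
    ((norm_fst_le _).trans_lt (mem_ball_zero_iff.1 hz.2)).trans_le h.2.1
  refine small_unique (h1 y hy) (h1 y' hy') (add_left_cancel (a := S.π x) ?_)
  rw [← h.2.2.1 y hy, ← h.2.2.1 y' hy', hπ]

lemma RBox.dπ_eq (h : S.RBox e r x j g) (hy : y ∈ box e r) :
    S.dπ e y = ContinuousLinearMap.fst ℂ ℂ ℂ := by
  obtain ⟨c, hc⟩ := S.Λ.mkQ_surjective (S.π x)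
  have h2 : (fun z => (e z).1 + c) ∘ e.symm =ᶠ[𝓝 (e y)] fun p => p.1 + c := by
    filter_upwards [e.open_target.mem_nhds (e.map_source hy.1)] with p hp
    simp [e.right_inv hp]
  have h1 : S.IsLift (fun z => (e z).1 + c) y :=
    ⟨eventually_of_mem ((isOpen_box e r).mem_nhds hy) fun z hz => by
      rw [h.2.2.1 z hz, map_add, hc, add_comm],
      anAt_of_chart h.1.1 hy.1 ((analyticAt_fst.add analyticAt_const).congr h2.symm)⟩
  rw [← h1.fderiv_eq hy.1, h2.fderiv_eq, fderiv_add_const]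
  exact fderiv_fst

lemma RBox.not_crit (h : S.RBox e r x j g) (hy : y ∈ box e r) : ¬ S.Crit y := fun hc => by
  have := congrArg (fun l : E2 →L[ℂ] ℂ => l (1, 0)) (hc e h.1.1 hy.1)
  simp [h.dπ_eq hy] at this

lemma SecOn.mono {f : ℂ → X} {O O' : Set ℂ} (h : S.SecOn s f O) (h' : O' ⊆ O) : S.SecOn s f O' :=
  fun w hw => h w (h' hw)

lemma Adm.secOn {f : ℂ → X} {δ : ℝ} (h : S.Adm s δ f) : S.SecOn s f (Ann δ) := by
  rcases h with h | h
  · refine h.mono fun w hw => mem_ball_zero_iff.2 ?_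
    linarith [hw.1, hw.2, norm_nonneg w]
  · exact h.1

lemma Adm.lb {f : ℂ → X} {δ : ℝ} (h : S.Adm s δ f) : S.LB s δ f :=
  fun _ hε => ⟨f, h, fun _ _ => by simpa using hε.le⟩

namespace Cfg

variable (C : S.Cfg s₀)

/-- the bad values in the plane -/
def Bt : Set ℂ := {c | S.Λ.mkQ c ∈ C.B}

/-- points at distance at least `δ` from the bad values -/
def Cr (δ : ℝ) : Set ℂ := {w | ∀ c ∈ C.Bt, δ ≤ dist w c}

/-- the part of the surface over `Cr δ` -/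
def Kc (δ : ℝ) : Set X := {x | ∃ w ∈ C.Cr δ, S.π x = S.Λ.mkQ w}

/-- sections over the complement of the bad values that are limits of admissible sections near
every bad value -/
def Cls (δ : ℝ) (p : ℂ → X) : Prop :=
  S.SecOn 0 p C.Btᶜ ∧ ∀ c ∈ C.Bt, S.LB (S.Λ.mkQ c) δ fun w => p (c + w)

/-- the bad values are `4 δ`-separated and `δ` is small -/
def Sep (δ : ℝ) : Prop :=
  0 < δ ∧ 3 * δ ≤ S.ρ ∧ ∀ c ∈ C.Bt, ∀ c' ∈ C.Bt, c ≠ c' → 4 * δ ≤ dist c c'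

variable {C}

lemma add_mem_Bt {c l : ℂ} (hl : l ∈ S.Λ) : c + l ∈ C.Bt ↔ c ∈ C.Bt := by
  have : S.Λ.mkQ (c + l) = S.Λ.mkQ c := mk_eq_iff.2 (by simpa using hl)
  simp only [Bt, mem_ofPred_eq, this]

lemma add_mem_Cr {w l : ℂ} {δ : ℝ} (hl : l ∈ S.Λ) (hw : w ∈ C.Cr δ) : w + l ∈ C.Cr δ := by
  intro c hc
  have := hw (c + -l) ((add_mem_Bt (S.Λ.neg_mem hl)).2 hc)
  rwa [dist_eq_norm, show w - (c + -l) = w + l - c by ring, ← dist_eq_norm] at this

lemma Cr_subset {δ : ℝ} (hδ : 0 < δ) : C.Cr δ ⊆ C.Btᶜ := fun w hw hc => by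
  have := hw w hc
  rw [dist_self] at this
  linarith

lemma Cr_mono {δ δ' : ℝ} (h : δ ≤ δ') : C.Cr δ' ⊆ C.Cr δ := fun _ hw c hc => h.trans (hw c hc)

lemma isClosed_Cr (δ : ℝ) : IsClosed (C.Cr δ) := by
  have : C.Cr δ = ⋂ c ∈ C.Bt, {w | δ ≤ dist w c} := by ext w; simp [Cr]
  rw [this]
  exact isClosed_biInter fun c _ => isClosed_le continuous_const (by fun_prop)

variable (C) in
lemma eventually_sep : ∀ᶠ δ in 𝓝[>] (0 : ℝ), C.Sep δ := by
  have h1 : ∀ s ∈ C.B, ∀ s' ∈ C.B, ∀ᶠ δ in 𝓝[>] (0 : ℝ), ∀ c c' : ℂ, S.Λ.mkQ c = s →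
      S.Λ.mkQ c' = s' → c ≠ c' → 4 * δ ≤ dist c c' := by
    intro s _ s' _
    by_cases h : ∃ m : ℂ, m ≠ 0 ∧ ‖m‖ < S.ρ ∧ S.Λ.mkQ m = s - s'
    · obtain ⟨m, h0, h1, h2⟩ := h
      filter_upwards [Ioc_mem_nhdsGT (show 0 < ‖m‖ / 4 by positivity)] with δ hδ c c' a1 a2 a3
      rw [dist_eq_norm]
      by_cases h3 : ‖c - c'‖ < S.ρ
      · rw [small_unique h3 h1 (by rw [h2, map_sub, a1, a2])]
        linarith [hδ.2]
      · linarith [hδ.2]
    · filter_upwards [Ioc_mem_nhdsGT (show 0 < S.ρ / 4 by linarith [S.ρ_pos])]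
        with δ hδ c c' a1 a2 a3
      rw [dist_eq_norm]
      by_contra h3
      exact h ⟨c - c', sub_ne_zero.2 a3, by linarith [hδ.2], by rw [map_sub, a1, a2]⟩
  filter_upwards [(eventually_all_finite C.fin).2 fun s hs =>
    (eventually_all_finite C.fin).2 (h1 s hs), Ioc_mem_nhdsGT (show 0 < S.ρ / 3 by
      linarith [S.ρ_pos])] with δ a1 a2
  exact ⟨a2.1, by linarith [a2.2], fun c hc c' hc' => a1 _ hc _ hc' c c' rfl rfl⟩

variable (C) in
/-- a punctured neighbourhood of any point contains no bad value -/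
lemma eventually_notMem_Bt (w : ℂ) : ∀ᶠ z in 𝓝[≠] w, z ∉ C.Bt := by
  obtain ⟨δ, hδ, -, h⟩ := C.eventually_sep.exists
  by_cases h1 : ∃ c ∈ C.Bt, dist c w < δ
  · obtain ⟨c, hc, h1⟩ := h1
    have h2 : ∀ᶠ z in 𝓝[≠] w, z ≠ c := by
      by_cases h3 : w = c
      · subst h3; exact self_mem_nhdsWithin
      · exact mem_nhdsWithin_of_mem_nhds (isOpen_ne.mem_nhds h3)
    filter_upwards [h2, mem_nhdsWithin_of_mem_nhds (ball_mem_nhds w hδ)] with z a1 a2 a3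
    have := h z a3 c hc a1
    linarith [dist_triangle_right z c w, mem_ball.1 a2]
  · filter_upwards [mem_nhdsWithin_of_mem_nhds (ball_mem_nhds w hδ)] with z a1 a2
    exact h1 ⟨z, a2, a1⟩

variable (C) in
lemma isOpen_compl_Bt : IsOpen C.Btᶜ := by
  rw [isOpen_iff_mem_nhds]
  intro w hw
  filter_upwards [eventually_nhdsWithin_iff.1 (C.eventually_notMem_Bt w)] with z hz
  by_cases h : z = w
  · exact h ▸ hw
  · exact hz h

variable (C) in
lemma countable_Bt : C.Bt.Countable := by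
  obtain ⟨δ, hδ, -, h⟩ := C.eventually_sep.exists
  refine Set.PairwiseDisjoint.countable_of_isOpen (s := fun c : ℂ => ball c δ)
    (fun c hc c' hc' hne => ball_disjoint_ball ?_) (fun _ _ => isOpen_ball)
    fun c _ => ⟨c, mem_ball_self hδ⟩
  linarith [h c hc c' hc' hne]

variable (C) in
lemma isPreconnected_compl_Bt : IsPreconnected C.Btᶜ :=
  (C.countable_Bt.isConnected_compl_of_one_lt_rank (by simp)).isPreconnected

/-- every point off the bad values lies in some `Cr r` together with a neighbourhood -/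
lemma exists_Cr {w : ℂ} (hw : w ∉ C.Bt) : ∃ r > 0, ball w r ⊆ C.Cr r := by
  obtain ⟨r, hr, h⟩ := Metric.isOpen_iff.1 C.isOpen_compl_Bt w hw
  refine ⟨r / 2, half_pos hr, fun z hz c hc => ?_⟩
  by_contra h1
  refine h (mem_ball.2 ?_) hc
  linarith [dist_triangle_left c w z, mem_ball.1 hz]

lemma Sep.add_mem_Cr {δ : ℝ} (h : C.Sep δ) {c w : ℂ} (hc : c ∈ C.Bt) (h1 : δ / 2 ≤ ‖w‖)
    (h2 : ‖w‖ ≤ 2 * δ) : c + w ∈ C.Cr (δ / 2) := by
  intro c' hc'
  by_cases h3 : c = c'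
  · subst h3; simpa using h1
  · have h4 := h.2.2 c hc c' hc' h3
    have h5 := dist_triangle_left c c' (c + w)
    rw [dist_self_add_left] at h5
    linarith [h.1]

lemma isCompact_Kc [CompactSpace X] (δ : ℝ) : IsCompact (C.Kc δ) := by
  refine IsClosed.isCompact (isClosed_of_closure_subset fun x hx => ?_)
  obtain ⟨u, hu, hlim⟩ := mem_closure_iff_seq_limit.1 hx
  choose w hw hπ using hu
  obtain ⟨v, d, h1, h2, h3⟩ := exists_lift_tendsto (S := S) (hlim.mono_left UU_le)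
    (Eventually.of_forall hπ)
  refine ⟨d, (isClosed_Cr δ).mem_of_tendsto h1 (h3.mono fun n hn => ?_), h2⟩
  simpa using add_mem_Cr (S.Λ.neg_mem hn) (hw n)

lemma regAt_Kc {δ : ℝ} (hδ : 0 < δ) : ∀ x ∈ C.Kc δ, S.RegAt x := by
  rintro x ⟨w, hw, h⟩
  exact C.reg x (h ▸ Cr_subset hδ hw)

lemma Cls.shift {δ : ℝ} {p : ℂ → X} (h : C.Cls δ p) {l : ℂ} (hl : l ∈ S.Λ) :
    C.Cls δ fun w => p (w + l) := by
  have h0 : ∀ c, S.Λ.mkQ (c + l) = S.Λ.mkQ c := fun c => mk_eq_iff.2 (by simpa using hl)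
  refine ⟨fun w hw => ?_, fun c hc => ?_⟩
  · have := h.1 (w + l) fun h => hw ((add_mem_Bt hl).1 h)
    exact ⟨HolAt.comp (f := p) (φ := fun w => w + l) this.1 (by fun_prop), by rw [this.2, h0]⟩
  · have := h.2 (c + l) ((add_mem_Bt hl).2 hc)
    rw [h0] at this
    simpa only [add_right_comm c l] using this

lemma cls_of_sec (δ : ℝ) {f : ℂ → X} (hf : S.Hol f) (h : ∀ z, S.π (f z) = S.Λ.mkQ z) :
    C.Cls δ f :=
  ⟨fun w _ => ⟨hf w, by simp [h]⟩, fun c _ => Adm.lb (Or.inl fun w _ =>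
    ⟨hf.shift c w, by rw [h, map_add]⟩)⟩

end Cfg

/-- two holomorphic maps agree near a point or differ on a punctured neighbourhood -/
lemma eventually_eq_or_ne {f g : ℂ → X} {w : ℂ} (hf : ∀ᶠ z in 𝓝 w, S.HolAt f z)
    (hg : ∀ᶠ z in 𝓝 w, S.HolAt g z) : f =ᶠ[𝓝 w] g ∨ ∀ᶠ z in 𝓝[≠] w, f z ≠ g z := by
  have hf0 := hf.self_of_nhds.1
  have hg0 := hg.self_of_nhds.1
  by_cases h : f w = g w
  · obtain ⟨e, he, hx⟩ := S.cover (f w)
    have hx' : g w ∈ e.source := h ▸ hx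
    rcases (HolAt.analyticAt hf he hx).eventually_eq_or_eventually_ne
      (HolAt.analyticAt hg he hx') with h1 | h1
    · left
      filter_upwards [h1, eventually_mem_source hf0 hx, eventually_mem_source hg0 hx']
        with z a1 a2 a3
      exact e.injOn a2 a3 a1
    · exact Or.inr (h1.mono fun z hz h2 => hz (by simp [h2]))
  · exact Or.inr (mem_nhdsWithin_of_mem_nhds
      ((hf0.prodMk hg0).eventually (isClosed_diagonal.isOpen_compl.mem_nhds h)))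

/-- identity theorem on a connected open set -/
lemma eqOn_of_eventuallyEq {f g : ℂ → X} {O : Set ℂ} (hO : IsOpen O) (hc : IsPreconnected O)
    (hf : ∀ w ∈ O, S.HolAt f w) (hg : ∀ w ∈ O, S.HolAt g w) {w₀ : ℂ} (h0 : w₀ ∈ O)
    (h : f =ᶠ[𝓝 w₀] g) : EqOn f g O := by
  have key : O ⊆ {w | f =ᶠ[𝓝 w] g} := by
    refine hc.subset_of_closure_inter_subset isOpen_setOfPred_eventually_nhds ⟨w₀, h0, h⟩ ?_
    rintro w ⟨hw, hwO⟩
    refine (eventually_eq_or_ne (eventually_of_mem (hO.mem_nhds hwO) hf)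
      (eventually_of_mem (hO.mem_nhds hwO) hg)).resolve_right fun h1 => ?_
    obtain ⟨z, a1, a2⟩ := ((mem_closure_iff_frequently.1 hw).and_eventually
      (eventually_nhdsWithin_iff.1 h1).eventually_nhds).exists
    have a3 : ∀ᶠ u in 𝓝[≠] z, u ≠ w := by
      by_cases h3 : z = w
      · subst h3; exact self_mem_nhdsWithin
      · exact mem_nhdsWithin_of_mem_nhds (isOpen_ne.mem_nhds h3)
    obtain ⟨u, b1, b2, b3⟩ := (a3.and ((a2.and a1).filter_mono nhdsWithin_le_nhds)).exists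
    exact b2 b1 b3
  exact fun w hw => (key hw).self_of_nhds

end Sf0

end Pool.Agent.P.MP_7ede32_ag.Geo
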