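import Pool.Agent.P.MP_7ede32_ag.Geo.B3

/-!
Short vertical arcs, primitives along the fibres and the integral between nearby points.
-/

open Filter Topology Metric Set

noncomputable section

namespace Pool.Agent.P.MP_7ede32_ag.Geo

open Ell (E2)

variable {X : Type*} [MetricSpace X]

/-- Lebesgue number for neighbourhoods with a property -/
lemma leb_of {K : Set X} (hK : IsCompact K) (P : X → Set X → Prop)
    (h : ∀ x ∈ K, ∃ V ∈ 𝓝 x, P x V) : ∃ l > 0, ∀ x ∈ K, ∃ x' ∈ K, ∃ V, P x' V ∧ ball x l ⊆ V := by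
  choose! V h1 h2 using h
  obtain ⟨l, hl, h⟩ := leb hK V h1
  refine ⟨l, hl, fun x hx => ?_⟩
  obtain ⟨x', a1, a2⟩ := h x hx
  exact ⟨x', a1, _, h2 x' a1, a2⟩

namespace Sf0

variable (S : Sf0 X)

/-- `th U x y` is computed by every `U x₀` with `x₀` near `x`, when `y` is `η`-close to `x` -/
def ThOk (K : Set X) (l : ℝ) (U : X → X → ℂ) (η : ℝ) : Prop :=
  S.UOk K l U ∧ 0 < η ∧ η < l / 2 ∧ ∀ x₀ ∈ K, ∀ x ∈ K, dist x x₀ < l / 2 → ∀ y, S.π y = S.π x →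
    dist x y ≤ η → th U x y = U x₀ y - U x₀ x

variable {S}
variable {K : Set X} {x y : X} {e : OpenPartialHomeomorph X E2} {r l η : ℝ} {j : ℕ}
  {g : E2 → ℂ} {U : X → X → ℂ}

lemma RBox.arc {y' : X} (h : S.RBox e r x j g) (hy : y ∈ box e r) (hy' : y' ∈ box e r)
    (hπ : S.π y' = S.π y) : ∃ m, S.Arc m y y' {z | z ∈ box e r ∧ S.π z = S.π y} := by
  refine ⟨_, (h.1.arc hy hy').mono ?_⟩
  rintro z ⟨h1, σ, h2⟩
  refine ⟨h1, ?_⟩
  rw [h.2.2.1 z h1, h.2.2.1 y hy, h2]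
  simp [h.fst_eq hy' hy hπ]

/-- Lebesgue number for small boxes -/
lemma leb_box (hK : IsCompact K) (N : X → Set X) (hN : ∀ x ∈ K, N x ∈ 𝓝 x) :
    ∃ l > 0, ∀ x ∈ K, ∃ x' ∈ K, ∃ e r, S.IsBox e r x' ∧ ball x l ⊆ box e r ∧ box e r ⊆ N x' := by
  obtain ⟨l, hl, h⟩ := leb_of hK (fun x V => ∃ e r, S.IsBox e r x ∧ V = box e r ∧ V ⊆ N x)
    fun x hx => by
      obtain ⟨e, r, h1, h2⟩ := exists_box (S := S) (hN x hx)
      exact ⟨_, h1.mem_nhds, e, r, h1, rfl, h2⟩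
  refine ⟨l, hl, fun x hx => ?_⟩
  obtain ⟨x', a1, _, ⟨e, r, a2, rfl, a3⟩, a4⟩ := h x hx
  exact ⟨x', a1, e, r, a2, a4, a3⟩

/-- Lebesgue number for small regular boxes -/
lemma leb_rbox (hK : IsCompact K) (hr : ∀ x ∈ K, S.RegAt x) (N : X → Set X)
    (hN : ∀ x ∈ K, N x ∈ 𝓝 x) : ∃ l > 0, ∀ x ∈ K, ∃ x' ∈ K, ∃ e r j g, S.RBox e r x' j g ∧
      ball x l ⊆ box e r ∧ box e r ⊆ N x' := by
  obtain ⟨l, hl, h⟩ := leb_of hK (fun x V => ∃ e r j g, S.RBox e r x j g ∧ V = box e r ∧ V ⊆ N x)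
    fun x hx => by
      obtain ⟨e, r, j, g, h1, h2⟩ := (hr x hx).exists_rbox (hN x hx)
      exact ⟨_, h1.1.mem_nhds, e, r, j, g, h1, rfl, h2⟩
  refine ⟨l, hl, fun x hx => ?_⟩
  obtain ⟨x', a1, _, ⟨e, r, j, g, a2, rfl, a3⟩, a4⟩ := h x hx
  exact ⟨x', a1, e, r, j, g, a2, a4, a3⟩

/-- nearby points of a fibre are joined by a short arc in the fibre -/
theorem vc (hK : IsCompact K) (hr : ∀ x ∈ K, S.RegAt x) {ε : ℝ} (hε : 0 < ε) :
    ∃ η > 0, ∀ x ∈ K, ∀ y, S.π y = S.π x → dist x y ≤ η →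
      ∃ m, S.Arc m x y {z | z ∈ ball x ε ∧ S.π z = S.π x} := by
  obtain ⟨l, hl, h⟩ := leb_rbox hK hr (fun x => ball x (ε / 2))
    fun x _ => ball_mem_nhds x (half_pos hε)
  refine ⟨l / 2, half_pos hl, fun x hx y hπ hd => ?_⟩
  obtain ⟨x', -, e, r, j, g, h1, h3, h2⟩ := h x hx
  have h4 := h3 (mem_ball_self hl)
  obtain ⟨m, hm⟩ := h1.arc h4 (h3 (mem_ball'.2 (by linarith))) hπ
  refine ⟨m, hm.mono fun z hz => ⟨?_, hz.2⟩⟩
  have a1 := mem_ball.1 (h2 hz.1)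
  have a2 := mem_ball.1 (h2 h4)
  rw [mem_ball]
  linarith [dist_triangle_right z x x']

/-- the increment of a primitive along the fibres does not depend on the primitive -/
theorem th_loc (hK : IsCompact K) (hr : ∀ x ∈ K, S.RegAt x) {ε : ℝ} (hε : 0 < ε) :
    ∃ η > 0, ∀ x ∈ K, ∀ y, S.π y = S.π x → dist x y ≤ η → ∀ V V' : X → ℂ,
      (∀ z ∈ ball x ε, S.RP V z ∧ S.RP V' z) → V y - V x = V' y - V' x := by
  obtain ⟨η, hη, h⟩ := vc hK hr hε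
  refine ⟨η, hη, fun x hx y hπ hd V V' hV => ?_⟩
  obtain ⟨m, hm⟩ := h x hx y hπ hd
  have := hm.const (k := fun z => V z - V' z) fun t ht =>
    (hV _ ht.self_of_nhds.2.1).1.vert (hV _ ht.self_of_nhds.2.1).2 ht.self_of_nhds.1 rfl
      (ht.mono fun σ hσ => hσ.2.2.trans ht.self_of_nhds.2.2.symm)
  linear_combination -this

lemma RBox.ω_diff (h : S.RBox e r x j g) : DifferentiableOn ℂ (S.ω e) (ball 0 r) := fun p hp => by
  have := S.ω_an e h.1.1 _ (h.1.symm_mem hp).1.1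
  rw [(h.1.symm_mem hp).2] at this
  exact this.differentiableAt.differentiableWithinAt

/-- the primitive along the fibres on a regular box -/
lemma RBox.exists_prim (h : S.RBox e r x j g) : ∃ P : E2 → ℂ, DifferentiableOn ℂ P (ball 0 r) ∧
    (∀ z ∈ box e r, S.RP (P ∘ e) z) ∧ ∀ p ∈ ball (0 : E2) r, fderiv ℂ P p (0, 1) = S.ω e p ∧
      P p = ∫ t in (0 : ℝ)..1, p.2 * S.ω e (p.1, t * p.2) := by
  obtain ⟨P, h1, h2⟩ := prim2 h.ω_diff
  refine ⟨P, h1, fun z hz => ?_, h2⟩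
  obtain ⟨h3, h4⟩ := h.1.holX h1 hz
  refine rp_of_chart (h.not_crit hz) h3 h.1.1 hz.1 ?_
  rw [h.dπ_eq hz, h4]
  simp [wedge, (h2 _ hz.2).1]

theorem exists_U (hK : IsCompact K) (hr : ∀ x ∈ K, S.RegAt x) : ∃ l > 0, ∃ U, S.UOk K l U := by
  have h0 : ∀ x ∈ K, ∃ V : X → ℂ, ∀ᶠ z in 𝓝 x, S.RP V z ∧ ‖V z‖ ≤ 1 := by
    intro x hx
    obtain ⟨e, r, j, g, h1, -⟩ := (hr x hx).exists_rbox univ_mem
    obtain ⟨P, -, h2, h3⟩ := h1.exists_prim
    refine ⟨P ∘ e, (eventually_of_mem h1.1.mem_nhds h2).and ?_⟩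
    refine ((h2 x h1.1.mem).2.1.continuousAt.norm.eventually_lt
      (continuousAt_const (y := (1 : ℝ))) ?_).mono fun z hz => hz.le
    have := (h3 0 (mem_ball_self h1.1.2.2.2.1)).2
    simp [h1.1.2.2.1, this]
  choose! V hV using h0
  obtain ⟨l, hl, h⟩ := leb hK (fun x => {z | S.RP (V x) z ∧ ‖V x z‖ ≤ 1}) hV
  choose! c _ hc using h
  exact ⟨l, hl, fun x => V (c x), fun x hx z hz => hc x hx hz⟩

theorem exists_thOk (hK : IsCompact K) (hr : ∀ x ∈ K, S.RegAt x) : ∃ l U η, S.ThOk K l U η := by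
  obtain ⟨l, hl, U, hU⟩ := exists_U hK hr
  obtain ⟨η, hη, h⟩ := th_loc hK hr (half_pos hl)
  refine ⟨l, U, min η (l / 4), hU, by positivity, (min_le_right _ _).trans_lt (by linarith),
    fun x₀ h0 x hx hd y hπ hxy => h x hx y hπ (hxy.trans (min_le_left _ _)) _ _ fun z hz => ?_⟩
  refine ⟨(hU x hx z (ball_subset_ball (by linarith) hz)).1, (hU x₀ h0 z ?_).1⟩
  rw [mem_ball] at hz ⊢
  linarith [dist_triangle z x x₀]

lemma ThOk.pos (h : S.ThOk K l U η) : 0 < l := by linarith [h.2.1, h.2.2.1]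

lemma ThOk.mono (h : S.ThOk K l U η) {η' : ℝ} (h0 : 0 < η') (h1 : η' ≤ η) : S.ThOk K l U η' :=
  ⟨h.1, h0, h1.trans_lt h.2.2.1, fun x₀ a x b c y d e => h.2.2.2 x₀ a x b c y d (e.trans h1)⟩

lemma ThOk.mem (h : S.ThOk K l U η) (hd : dist x y ≤ η) : y ∈ ball x l :=
  mem_ball'.2 (by linarith [h.2.1, h.2.2.1])

lemma ThOk.bound (h : S.ThOk K l U η) (hx : x ∈ K) (hd : dist x y ≤ η) : ‖th U x y‖ ≤ 2 := by
  have h1 := (h.1 x hx y (h.mem hd)).2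
  have h2 := (h.1 x hx x (mem_ball_self h.pos)).2
  linarith [norm_sub_le (U x y) (U x x), show ‖th U x y‖ = ‖U x y - U x x‖ from rfl]

lemma ThOk.differentiableAt (h : S.ThOk K l U η) {p q : ℂ → X} {w : ℂ} (hp : S.HolAt p w)
    (hq : S.HolAt q w)
    (H : ∀ᶠ z in 𝓝 w, p z ∈ K ∧ S.π (q z) = S.π (p z) ∧ dist (p z) (q z) ≤ η) :
    DifferentiableAt ℂ (fun z => th U (p z) (q z)) w := by
  have h0 := H.self_of_nhds
  refine DifferentiableAt.congr_of_eventuallyEq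
    (((h.1 _ h0.1 _ (h.mem h0.2.2)).1.2.1.differentiableAt hq).sub
      ((h.1 _ h0.1 _ (mem_ball_self h.pos)).1.2.1.differentiableAt hp)) ?_
  filter_upwards [H, Metric.tendsto_nhds.1 hp.1 _ (half_pos h.pos)] with z a1 a2
  exact h.2.2.2 _ h0.1 _ a1.1 a2 _ a1.2.1 a1.2.2

lemma ThOk.tendsto (h : S.ThOk K l U η) {ι : Type*} {F : Filter ι} {p q : ι → X}
    (hp : Tendsto p F (𝓝 x)) (hq : Tendsto q F (𝓝 y)) (hx : x ∈ K) (hd : dist x y ≤ η)
    (H : ∀ᶠ n in F, p n ∈ K ∧ S.π (q n) = S.π (p n) ∧ dist (p n) (q n) ≤ η) :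
    Tendsto (fun n => th U (p n) (q n)) F (𝓝 (th U x y)) := by
  refine Tendsto.congr' ?_ (((h.1 _ hx _ (h.mem hd)).1.2.1.continuousAt.tendsto.comp hq).sub
    ((h.1 _ hx _ (mem_ball_self h.pos)).1.2.1.continuousAt.tendsto.comp hp))
  filter_upwards [H, Metric.tendsto_nhds.1 hp _ (half_pos h.pos)] with n a1 a2
  exact (h.2.2.2 _ hx _ a1.1 a2 _ a1.2.1 a1.2.2).symm

/-- the part of the surface over a compact set is closed -/
lemma isClosed_over (s : ℂ ⧸ S.Λ) {T : Set ℂ} (hT : IsCompact T) :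
    IsClosed {x | ∃ w ∈ T, S.π x = s + S.Λ.mkQ w} := by
  refine isClosed_of_closure_subset fun x hx => ?_
  obtain ⟨u, hu, hlim⟩ := mem_closure_iff_seq_limit.1 hx
  choose w hw hπ using hu
  obtain ⟨d, hd, φ, hφ, h1⟩ := hT.tendsto_subseq hw
  refine ⟨d, hd, ?_⟩
  have := π_lim (S := S) (hlim.comp hφ.tendsto_atTop) (tendsto_const_nhds (x := u 0))
    (h1.sub_const (w 0)) (Eventually.of_forall fun n => by
      simp only [Function.comp]
      rw [hπ (φ n), hπ 0, map_sub]; abel)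
  rw [this, hπ 0, map_sub]; abel

namespace Cfg

variable {s₀ : ℂ ⧸ S.Λ} {C : S.Cfg s₀} {δ δ' : ℝ} {c w : ℂ}

lemma Cr_subset_interior (h : δ < δ') : C.Cr δ' ⊆ interior (C.Cr δ) := fun w hw => by
  rw [mem_interior_iff_mem_nhds]
  filter_upwards [ball_mem_nhds w (sub_pos.2 h)] with z hz c hc
  linarith [hw c hc, dist_triangle_left w c z, mem_ball.1 hz]

lemma lt_dist_of_interior (hδ : 0 < δ) (hw : w ∈ interior (C.Cr δ)) (hc : c ∈ C.Bt) :
    δ < dist w c := by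
  refine lt_of_le_of_ne (interior_subset hw c hc) fun h => ?_
  have h1 : ContinuousAt (fun t : ℝ => w + t * (c - w)) 0 := by fun_prop
  have h2 := h1.eventually (by simpa using mem_interior_iff_mem_nhds.1 hw :
    C.Cr δ ∈ 𝓝 (w + ((0 : ℝ) : ℂ) * (c - w)))
  obtain ⟨t, a1, a2⟩ := ((h2.filter_mono nhdsWithin_le_nhds).and
    (Ioo_mem_nhdsGT (zero_lt_one' ℝ))).exists
  have h3 := a1 c hc
  rw [dist_eq_norm, show w + t * (c - w) - c = ((1 - t : ℝ) : ℂ) * (w - c) by push_cast; ring,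
    norm_mul, Complex.norm_real, Real.norm_of_nonneg (by linarith [a2.2]), ← dist_eq_norm,
    ← h] at h3
  nlinarith [a2.1]

lemma Sep.add_mem_interior (h : C.Sep δ) (hc : c ∈ C.Bt) (hw : w ∈ Ann δ) :
    c + w ∈ interior (C.Cr (δ / 2)) := by
  rw [mem_interior_iff_mem_nhds]
  have h1 : ContinuousAt (fun z : ℂ => z - c) (c + w) := by fun_prop
  filter_upwards [h1.eventually (by simpa using (isOpen_Ann δ).mem_nhds hw :
    Ann δ ∈ 𝓝 (c + w - c))] with z hz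
  simpa using h.add_mem_Cr hc hz.1.le hz.2.le

lemma mem_Kc {x : X} (hw : w ∈ C.Cr δ) (h : S.π x = S.Λ.mkQ w) : x ∈ C.Kc δ := ⟨w, hw, h⟩

end Cfg

end Sf0

lemma isOpen_Hp (u : ℂ) (a : ℝ) : IsOpen (Hp u a) := isOpen_lt continuous_const (by fun_prop)

lemma Hp_mono {u : ℂ} {a a' : ℝ} (h : a ≤ a') : Hp u a' ⊆ Hp u a := fun _ hw => h.trans_lt hw

lemma convex_Hp (u : ℂ) (a : ℝ) : Convex ℝ (Hp u a) :=
  convex_halfSpace_gt (f := fun w : ℂ => (starRingEnd ℂ u * w).re)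
    ⟨fun x y => by simp [mul_add], fun c x => by simp; ring⟩ a

/-- moving by at most `r` costs at most `r` -/
lemma add_mem_Hp {u c w : ℂ} {a r : ℝ} (hu : ‖u‖ = 1) (hc : c ∈ Hp u (a + r)) (hw : ‖w‖ ≤ r) :
    c + w ∈ Hp u a := by
  have h1 := Complex.abs_re_le_norm (starRingEnd ℂ u * w)
  rw [norm_mul, Complex.norm_conj, hu, one_mul] at h1
  have h2 : a + r < (starRingEnd ℂ u * c).re := hc
  show a < (starRingEnd ℂ u * (c + w)).re
  rw [mul_add, Complex.add_re]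
  linarith [(abs_le.1 h1).1]

lemma smul_mem_Hp {u : ℂ} {a t : ℝ} (hu : ‖u‖ = 1) (h : a < t) : u * t ∈ Hp u a := by
  show a < (starRingEnd ℂ u * (u * t)).re
  rw [← mul_assoc, Complex.conj_mul', hu]
  simpa using h

end Pool.Agent.P.MP_7ede32_ag.Geo
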