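import Pool.Agent.P.MP_7ede32_ag.Geo.All

open scoped Manifold ContDiff
open Pool.Agent.P.MP_7ede32_ag.Ell Pool.Agent.P.MP_7ede32_ag.Geo

namespace Pool.Agent.P.MP_7ede32_ag.EllGeoOld

theorem result {X : Type} [TopologicalSpace X] [T2Space X] [CompactSpace X] [ConnectedSpace X]
    [ChartedSpace (ℂ × ℂ) X] [IsManifold 𝓘(ℂ, ℂ × ℂ) ω X] (L : PeriodPair)
    (π : X → ℂ ⧸ L.lattice) (hπ : IsHolomorphic L π)
    (a : PluriForm X 1) (ha : ∃ x, a.val X x ≠ 0)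
    (x₀ : X) (h₀ : ∀ x, π x = π x₀ → ¬ IsCritical L π x ∧ a.val X x = 0)
    (hF : {s | ∃ h : ℂ → X, IsEntire h ∧ (∀ z, π (h z) = s) ∧ ∃ z, h z ≠ h 0}.Finite) :
    ∃ (T : Set (ℂ → X)) (n : ℕ), T.Finite ∧ 0 < n ∧
      (∀ f ∈ T, IsEntire f ∧ (∀ z, π (f z) = L.lattice.mkQ z) ∧
        ∀ w ∈ L.lattice, ∀ z, f (z + n * w) = f z) ∧
      ∀ h : ℂ → X, IsEntire h →
        (IsUnifCont h ∨ ∃ φ : Polynomial ℂ, ∀ z, π (h z) = L.lattice.mkQ (φ.eval z)) →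
        (∀ z, π (h z) = π (h 0)) ∨ ∃ f ∈ T, ∃ φ : Polynomial ℂ, ∀ z, h z = f (φ.eval z) := by
  have := ChartedSpace.secondCountable_of_sigmaCompact (ℂ × ℂ) X
  let _ : MetricSpace X := TopologicalSpace.metrizableSpaceMetric X
  exact final smain_all L π hπ a ha x₀ h₀ hF

end Pool.Agent.P.MP_7ede32_ag.EllGeoOld
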