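import Pool.Agent.P.MP_7ede32_ag.Geo.Stm

/-!
Finiteness of the class of sections from uniqueness on half-planes.
-/

open Filter Topology Metric Set

noncomputable section

namespace Pool.Agent.P.MP_7ede32_ag.Geo

open Ell (E2 UU ev_UU UU_le)

namespace FinPP

variable {X : Type} [MetricSpace X] {S : Sf0 X} {s₀ : ℂ ⧸ S.Λ} {C : S.Cfg s₀} {δ η : ℝ}

/-- two members of the class that are close on a half-plane agree -/
lemma eqOn_of_close (hδ : C.Sep δ) (H : HalfP C δ η) {p q : ℂ → X} (hp : C.Cls δ p)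
    (hq : C.Cls δ q) {u : ℂ} (hu : ‖u‖ = 1) (a : ℝ)
    (h : ∀ w ∈ Hp u a ∩ C.Cr (δ / 2), dist (p w) (q w) ≤ η) : EqOn p q C.Btᶜ := by
  obtain ⟨w, hw, he⟩ := H p q u a hu (hSec_of_cls hδ.1 hp u a) (hSec_of_cls hδ.1 hq u a)
    fun w hw => h w ⟨hw.1, interior_subset hw.2⟩
  exact Sf0.eqOn_of_eventuallyEq C.isOpen_compl_Bt C.isPreconnected_compl_Bt
    (fun w hw => (hp.1 w hw).1) (fun w hw => (hq.1 w hw).1)
    (Sf0.Cfg.Cr_subset (half_pos hδ.1) (interior_subset hw.2)) he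

/-- limits of sequences in the class -/
lemma lim_cls [CompactSpace X] (h : SLim) (hδ : C.Sep δ) {f : ℕ → ℂ → X}
    (hf : ∀ n, C.Cls δ (f n)) :
    ∃ g, C.Cls δ g ∧ ∀ R : ℝ, ∀ ε > 0, ∀ᶠ n in (UU : Filter ℕ),
      ∀ w ∈ C.Cr (δ / 2) ∩ closedBall 0 R, dist (f n w) (g w) < ε := by
  obtain ⟨g, h1, h2⟩ := h X S s₀ C δ hδ f fun R => Eventually.of_forall fun n =>
    ⟨(hf n).1.mono inter_subset_left, fun c hc => (hf n).2 c hc.1⟩
  exact ⟨g, h1, h2 _ (half_pos hδ.1)⟩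

/-- the point of least norm where two different members of the class are far apart -/
lemma exists_first (hδ : C.Sep δ) (H : HalfP C δ η) {p q : ℂ → X} (hp : C.Cls δ p)
    (hq : C.Cls δ q) (hne : ¬ EqOn p q C.Btᶜ) :
    ∃ z ∈ C.Cr (δ / 2), η ≤ dist (p z) (q z) ∧
      ∀ w ∈ C.Cr (δ / 2), ‖w‖ < ‖z‖ → dist (p w) (q w) ≤ η := by
  have hc : ∀ {f : ℂ → X}, C.Cls δ f → ContinuousOn f (C.Cr (δ / 2)) := fun hf w hw =>
    (hf.1 w (Sf0.Cfg.Cr_subset (half_pos hδ.1) hw)).1.1.continuousWithinAt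
  have hcl : IsClosed {w ∈ C.Cr (δ / 2) | η ≤ dist (p w) (q w)} :=
    (Sf0.Cfg.isClosed_Cr _).isClosed_le continuousOn_const
      (continuous_dist.comp_continuousOn ((hc hp).prodMk (hc hq)))
  have hnon : {w ∈ C.Cr (δ / 2) | η ≤ dist (p w) (q w)}.Nonempty := by
    by_contra hcon
    rw [not_nonempty_iff_eq_empty, eq_empty_iff_forall_notMem] at hcon
    exact hne (eqOn_of_close hδ H hp hq norm_one 0 fun w hw =>
      (not_le.1 fun h => hcon w ⟨hw.2, h⟩).le)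
  obtain ⟨z, hz, hz'⟩ := hcl.exists_infDist_eq_dist hnon 0
  refine ⟨z, hz.1, hz.2, fun w hw hlt => (not_le.1 fun h => ?_).le⟩
  refine notMem_of_dist_lt_infDist (x := 0) (y := w)
    (s := {w ∈ C.Cr (δ / 2) | η ≤ dist (p w) (q w)}) ?_ ⟨hw, h⟩
  rwa [hz', dist_zero_left, dist_zero_left]

/-- moving against the direction of a far point decreases the norm -/
lemma norm_add_lt {z t : ℕ → ℂ} {u t₀ : ℂ} (hz : ∀ R : ℝ, ∀ᶠ n in (UU : Filter ℕ), R < ‖z n‖)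
    (hu : Tendsto (fun n => -(z n / ‖z n‖)) UU (𝓝 u)) (ht : Tendsto t UU (𝓝 t₀))
    (h : 0 < (starRingEnd ℂ u * t₀).re) : ∀ᶠ n in (UU : Filter ℕ), ‖z n + t n‖ < ‖z n‖ := by
  have hc : Continuous fun v : ℂ × ℂ => (starRingEnd ℂ v.1 * v.2).re := by fun_prop
  have h1 := (hc.continuousAt.tendsto.comp (hu.prodMk_nhds ht)).eventually
    (lt_mem_nhds (half_lt_self h))
  have h2 := (ht.norm.pow 2).eventually (gt_mem_nhds (lt_add_one (‖t₀‖ ^ 2)))
  filter_upwards [hz 0, hz ((‖t₀‖ ^ 2 + 1) / (starRingEnd ℂ u * t₀).re), h1, h2]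
    with n a2 a3 a4 a7
  rw [div_lt_iff₀ h] at a3
  have a5 : (starRingEnd ℂ (z n) * t n).re =
      -‖z n‖ * (starRingEnd ℂ (-(z n / ‖z n‖)) * t n).re := by
    have : (‖z n‖ : ℂ) ≠ 0 := by exact_mod_cast a2.ne'
    rw [← Complex.re_ofReal_mul]
    congr 1
    simp only [map_neg, map_div₀, Complex.conj_ofReal]
    push_cast
    field_simp
  have a6 : ‖z n + t n‖ ^ 2 = ‖z n‖ ^ 2 + 2 * (starRingEnd ℂ (z n) * t n).re + ‖t n‖ ^ 2 := by
    simp only [Complex.sq_norm, Complex.normSq_apply, Complex.add_re, Complex.add_im,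
      Complex.mul_re, Complex.conj_re, Complex.conj_im]
    ring
  refine lt_of_pow_lt_pow_left₀ 2 (norm_nonneg _) ?_
  rw [a6, a5]
  simp only [Function.comp] at a4
  nlinarith

/-- a sequence in the class agrees with its limit -/
lemma eventually_eqOn [CompactSpace X] (h : SLim) (hδ : C.Sep δ) (hη : 0 < η) (H : HalfP C δ η)
    {f : ℕ → ℂ → X} (hf : ∀ n, C.Cls δ (f n)) :
    ∃ g, ¬ ∀ᶠ n in (UU : Filter ℕ), ¬ EqOn (f n) g C.Btᶜ := by
  obtain ⟨g, hg, hconv⟩ := lim_cls h hδ hf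
  refine ⟨g, fun hne => ?_⟩
  have hz : ∀ n, ∃ z : ℂ, ¬ EqOn (f n) g C.Btᶜ → z ∈ C.Cr (δ / 2) ∧ η ≤ dist (f n z) (g z) ∧
      ∀ w ∈ C.Cr (δ / 2), ‖w‖ < ‖z‖ → dist (f n w) (g w) ≤ η := by
    intro n
    by_cases h1 : EqOn (f n) g C.Btᶜ
    · exact ⟨0, fun h' => absurd h1 h'⟩
    · obtain ⟨z, h2⟩ := exists_first hδ H (hf n) hg h1
      exact ⟨z, fun _ => h2⟩
  choose z hz using hz
  have hzinf : ∀ R : ℝ, ∀ᶠ n in (UU : Filter ℕ), R < ‖z n‖ := by
    intro R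
    filter_upwards [hconv R η hη, hne] with n a1 a2
    by_contra hcon
    exact absurd (a1 _ ⟨(hz n a2).1, mem_closedBall_zero_iff.2 (not_lt.1 hcon)⟩)
      (not_lt.2 (hz n a2).2.1)
  obtain ⟨u, hu, hulim⟩ := (isCompact_sphere (0 : ℂ) 1).ultrafilter_le_nhds
    (UU.map fun n => -(z n / ‖z n‖)) (by
      rw [le_principal_iff]
      refine Filter.mem_map.2 ((hzinf 0).mono fun n hn => ?_)
      simp [hn.ne'])
  have hulim' : Tendsto (fun n => -(z n / ‖z n‖)) UU (𝓝 u) := hulim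
  obtain ⟨D, hD⟩ := S.cocpt
  choose l hl hlD using fun n => hD (z n)
  have hv : ∀ n, z n - l n ∈ closedBall (0 : ℂ) D := fun n => by
    rw [mem_closedBall_zero_iff, ← dist_eq_norm]
    exact hlD n
  obtain ⟨w₀, -, hw₀⟩ := (isCompact_closedBall (0 : ℂ) D).ultrafilter_le_nhds
    (UU.map fun n => z n - l n) (by
      rw [le_principal_iff]
      exact Filter.mem_map.2 (Eventually.of_forall hv))
  have hw₀' : Tendsto (fun n => z n - l n) UU (𝓝 w₀) := hw₀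
  obtain ⟨p, hp, hpc⟩ := lim_cls h hδ fun n => (hf n).shift (hl n)
  obtain ⟨q, hq, hqc⟩ := lim_cls h hδ fun n => hg.shift (hl n)
  have h1 : EqOn p q C.Btᶜ := by
    refine eqOn_of_close hδ H hp hq (u := u) (by simpa using hu) (starRingEnd ℂ u * w₀).re
      fun w hw => ?_
    have h2 : 0 < (starRingEnd ℂ u * (w - w₀)).re := by
      have h3 : (starRingEnd ℂ u * w₀).re < (starRingEnd ℂ u * w).re := hw.1
      rw [mul_sub, Complex.sub_re]
      linarith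
    have h3 := norm_add_lt hzinf hulim' (hw₀'.const_sub w) h2
    refine le_of_forall_pos_le_add fun ε hε => ?_
    obtain ⟨n, a1, a2, a3, a4⟩ := (hne.and (h3.and ((hpc ‖w‖ _ (half_pos hε)).and
      (hqc ‖w‖ _ (half_pos hε))))).exists
    have hwm : w ∈ C.Cr (δ / 2) ∩ closedBall 0 ‖w‖ := ⟨hw.2, mem_closedBall_zero_iff.2 le_rfl⟩
    rw [show z n + (w - (z n - l n)) = w + l n by ring] at a2
    have b1 := (hz n a1).2.2 _ (Sf0.Cfg.add_mem_Cr (hl n) hw.2) a2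
    have b2 := a3 w hwm
    have b3 := a4 w hwm
    linarith [dist_triangle4 (p w) (f n (w + l n)) (g (w + l n)) (q w),
      dist_comm (p w) (f n (w + l n))]
  obtain ⟨n, a1, a3, a4⟩ := (hne.and ((hpc D _ (half_pos hη)).and (hqc D _ (half_pos hη)))).exists
  have hm : z n - l n ∈ C.Cr (δ / 2) := by
    rw [sub_eq_add_neg]
    exact Sf0.Cfg.add_mem_Cr (S.Λ.neg_mem (hl n)) (hz n a1).1
  have b1 := (hz n a1).2.1
  have b2 := a3 _ ⟨hm, hv n⟩
  have b3 := a4 _ ⟨hm, hv n⟩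
  rw [sub_add_cancel] at b2 b3
  rw [h1 (Sf0.Cfg.Cr_subset (half_pos hδ.1) hm)] at b2
  linarith [dist_triangle_right (f n (z n)) (g (z n)) (q (z n - l n))]

end FinPP

theorem sfin (h : SLim) : SFin := by
  intro X _ _ S s₀ C δ η hδ hη H
  have hrep : ∀ ρ : (C.Btᶜ.domRestrict '' {p | C.Cls δ p} : Set (↥C.Btᶜ → X)),
      ∃ p, C.Cls δ p ∧ C.Btᶜ.domRestrict p = ρ.1 := fun ρ => ρ.2
  choose rep hrep1 hrep2 using hrep
  by_cases hfin : (C.Btᶜ.domRestrict '' {p | C.Cls δ p} : Set (↥C.Btᶜ → X)).Finite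
  · have := hfin.to_subtype
    refine ⟨range rep, finite_range rep, ?_, fun p hp => ?_⟩
    · rintro _ ⟨ρ, rfl⟩
      exact hrep1 ρ
    · refine ⟨rep ⟨_, p, hp, rfl⟩, mem_range_self _, fun w hw => ?_⟩
      exact (congrFun (hrep2 ⟨_, p, hp, rfl⟩) ⟨w, hw⟩).symm
  · exfalso
    let F := Set.Infinite.natEmbedding _ hfin
    obtain ⟨g, hg⟩ := FinPP.eventually_eqOn h hδ hη H fun n => hrep1 (F n)
    refine hg (ev_UU ?_)
    rw [← Nat.cofinite_eq_atTop, eventually_cofinite]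
    refine Set.Subsingleton.finite fun a ha b hb => F.injective (Subtype.ext ?_)
    simp only [mem_ofPred_eq, not_not] at ha hb
    rw [← hrep2, ← hrep2]
    funext w
    exact (ha w.2).trans (hb w.2).symm

end Pool.Agent.P.MP_7ede32_ag.Geo
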