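import Pool.Agent.P.MP_7ede32_ag.Geo.Stm

/-!
The Poincaré lemma in a box.
-/

open Filter Topology Metric Set

noncomputable section

namespace Pool.Agent.P.MP_7ede32_ag.Geo

open Ell (E2 det2)

namespace PoincP

/-- derivative of the form `a db` and its antisymmetric part -/
lemma form_deriv {a b : E2 → ℂ} {U : Set E2} (hU : IsOpen U) (ha : DifferentiableOn ℂ a U)
    (hb : DifferentiableOn ℂ b U) {p : E2} (hp : p ∈ U) :
    ∃ L : E2 →L[ℂ] E2 →L[ℂ] ℂ, HasFDerivAt (fun q => a q • fderiv ℂ b q) L p ∧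
      ∀ u v, L u v - L v u = wedge (fderiv ℂ a p) (fderiv ℂ b p) * det2 u v := by
  have h1 : MP_e711b0_an.Hol b (𝓝 p) := MP_e711b0_an.Hol.of_on hU hp hb
  have h2 : HasFDerivAt (fderiv ℂ b) (fderiv ℂ (fderiv ℂ b) p) p :=
    (MP_e711b0_an.Hol.fderiv h1).self_of_nhds.hasFDerivAt
  have h3 : HasFDerivAt a (fderiv ℂ a p) p := (ha.differentiableAt (hU.mem_nhds hp)).hasFDerivAt
  refine ⟨_, h3.smul h2, fun u v => ?_⟩
  have h4 := second_derivative_symmetric_of_eventually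
    (h1.mono fun y hy => hy.hasFDerivAt) h2 u v
  rw [← wedge_apply]
  simp only [add_apply, smul_apply,
    ContinuousLinearMap.smulRight_apply, smul_eq_mul]
  rw [h4]
  ring

/-- a closed form `a db - a' db'` on a polydisc is exact -/
lemma exact_ball {a b a' b' : E2 → ℂ} {r : ℝ} (ha : DifferentiableOn ℂ a (ball 0 r))
    (hb : DifferentiableOn ℂ b (ball 0 r)) (ha' : DifferentiableOn ℂ a' (ball 0 r))
    (hb' : DifferentiableOn ℂ b' (ball 0 r))
    (h : ∀ p ∈ ball (0 : E2) r,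
      wedge (fderiv ℂ a p) (fderiv ℂ b p) = wedge (fderiv ℂ a' p) (fderiv ℂ b' p)) :
    ∃ f : E2 → ℂ, ∀ p ∈ ball (0 : E2) r,
      HasFDerivAt f (a p • fderiv ℂ b p - a' p • fderiv ℂ b' p) p := by
  have key : ∀ p ∈ ball (0 : E2) r, ∃ L : E2 →L[ℂ] E2 →L[ℂ] ℂ,
      HasFDerivAt (fun q => a q • fderiv ℂ b q - a' q • fderiv ℂ b' q) L p ∧
        ∀ u v, L u v = L v u := by
    intro p hp
    obtain ⟨L, hL, hs⟩ := form_deriv isOpen_ball ha hb hp
    obtain ⟨L', hL', hs'⟩ := form_deriv isOpen_ball ha' hb' hp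
    refine ⟨L - L', hL.sub hL', fun u v => ?_⟩
    have h1 := hs u v
    have h2 := hs' u v
    rw [h p hp] at h1
    simp only [sub_apply]
    linear_combination h1 - h2
  refine (convex_ball (0 : E2) r).exists_forall_hasFDerivAt_of_fderiv_symmetric isOpen_ball
    (fun p hp => ?_) (fun p hp u v => ?_)
  · obtain ⟨L, hL, _⟩ := key p hp
    exact (hL.restrictScalars ℝ).differentiableAt.differentiableWithinAt
  · obtain ⟨L, hL, hs⟩ := key p hp
    rw [(hL.restrictScalars ℝ).fderiv]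
    exact hs u v

end PoincP

theorem spoinc : SPoinc := by
  intro X _ S e r x hbox A B A' B' h
  obtain ⟨f, hf⟩ := PoincP.exact_ball (hbox.diffOn fun y hy => (h y hy).1)
    (hbox.diffOn fun y hy => (h y hy).2.1) (hbox.diffOn fun y hy => (h y hy).2.2.1)
    (hbox.diffOn fun y hy => (h y hy).2.2.2.1) (fun p hp => by
      have h1 := (h _ (hbox.symm_mem hp).1).2.2.2.2 e hbox.1 (hbox.symm_mem hp).1.1
      simpa only [D, (hbox.symm_mem hp).2] using h1)
  refine ⟨f ∘ e, fun y hy l t hl ht => ?_⟩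
  subst ht
  have h1 := (hf _ hy.2).comp_hasDerivAt t (hl.2 e hbox.1 hy.1).hasDerivAt
  have h2 := ((h _ hy).2.1.hasDerivAt hl hbox.1 hy.1).deriv
  have h3 := ((h _ hy).2.2.2.1.hasDerivAt hl hbox.1 hy.1).deriv
  rw [h2, h3]
  refine HasDerivAt.congr_deriv h1 ?_
  simp [D, e.left_inv hy.1]

end Pool.Agent.P.MP_7ede32_ag.Geo
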